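import Pool.Agent.Strip051.FourB.Box

/-! # The new point between e and s, the exit below the top -/

namespace Pool.Agent.Strip051.FourD

set_option linter.unusedVariables false

open Pool.Agent.StripNear Pool.Agent.StripSquare Pool.Agent.Strip051
open Pool.Agent.Strip051.Four.Low (ph)
open Pool.Agent.Strip051.FourB (lo up)

/-- The function of the boxes `bda`. -/
noncomputable def Da2 (s y u b k : ℝ) : ℝ :=
  2 * ph s - 4 * ph y - 2 * ph b + ph (y - k + b / 2) + ph (y - k + b / 2 - 1 / 25) + ph (y - k - b / 2 - 1 / 25) + ph (s - y + k + b / 2 - 1 / 25) - ph (s - 1 / 25)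

/-- The function of the boxes `bda`. -/
noncomputable def Da3 (s y u b k : ℝ) : ℝ :=
  2 * ph s - 4 * ph y - ph b + ph (y - k + b / 2 - 1 / 25) + ph (y - k - b / 2 - 1 / 25)

/-- The region of the boxes `bda`. -/
structure RegDa (s y u b k : ℝ) : Prop where
  k1 : 86602 / 100000 * ph b ≤ k
  k2 : k ≤ 86603 / 100000 * ph b
  k3 : 0 ≤ k
  k4 : k ≤ 1161 / 10000
  e1 : u + (y - k + b / 2) ≤ s
  e2 : s ≤ u + (y - k + b / 2)
  he : s - 13398 / 100000 ≤ y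
  s1 : 1667 / 2500 ≤ s
  s2 : s ≤ 3681 / 5000
  u1 : 0 ≤ u
  u2 : u ≤ 67 / 500
  b1 : 1 / 25 ≤ b
  b2 : b ≤ 1 / 2

theorem RegDa.lo1 {s y u b k : ℝ} (R : RegDa s y u b k) (w0 : ℝ) (hw0 : w0 ^ 2 < 1) :
    2 * w0 * (b) - 2 * w0 ^ 2 ≤ (1 - w0 ^ 2) * ph (b) :=
  lo hw0 (by linarith only [R.b1]) (by linarith only [R.b2])

theorem RegDa.lo2 {s y u b k : ℝ} (R : RegDa s y u b k) (w0 : ℝ) (hw0 : w0 ^ 2 < 1) :
    2 * w0 * (s - 1 / 25) - 2 * w0 ^ 2 ≤ (1 - w0 ^ 2) * ph (s - 1 / 25) :=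
  lo hw0 (by linarith only [R.s1]) (by linarith only [R.s2])

theorem RegDa.lo3 {s y u b k : ℝ} (R : RegDa s y u b k) (w0 : ℝ) (hw0 : w0 ^ 2 < 1) :
    2 * w0 * (s - y + k + b / 2 - 1 / 25) - 2 * w0 ^ 2 ≤ (1 - w0 ^ 2) * ph (s - y + k + b / 2 - 1 / 25) :=
  lo hw0 (by linarith only [R.e1, R.u1, R.b1]) (by linarith only [R.k4, R.he, R.b2])

theorem RegDa.lo4 {s y u b k : ℝ} (R : RegDa s y u b k) (w0 : ℝ) (hw0 : w0 ^ 2 < 1) :
    2 * w0 * (s) - 2 * w0 ^ 2 ≤ (1 - w0 ^ 2) * ph (s) :=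
  lo hw0 (by linarith only [R.s1]) (by linarith only [R.s2])

theorem RegDa.lo5 {s y u b k : ℝ} (R : RegDa s y u b k) (w0 : ℝ) (hw0 : w0 ^ 2 < 1) :
    2 * w0 * (y - k + b / 2 - 1 / 25) - 2 * w0 ^ 2 ≤ (1 - w0 ^ 2) * ph (y - k + b / 2 - 1 / 25) :=
  lo hw0 (by linarith only [R.e2, R.s1, R.u2]) (by linarith only [R.e1, R.s2, R.u1])

theorem RegDa.lo6 {s y u b k : ℝ} (R : RegDa s y u b k) (w0 : ℝ) (hw0 : w0 ^ 2 < 1) :
    2 * w0 * (y - k + b / 2) - 2 * w0 ^ 2 ≤ (1 - w0 ^ 2) * ph (y - k + b / 2) :=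
  lo hw0 (by linarith only [R.e2, R.s1, R.u2]) (by linarith only [R.e1, R.s2, R.u1])

theorem RegDa.lo7 {s y u b k : ℝ} (R : RegDa s y u b k) (w0 : ℝ) (hw0 : w0 ^ 2 < 1) :
    2 * w0 * (y - k - b / 2 - 1 / 25) - 2 * w0 ^ 2 ≤ (1 - w0 ^ 2) * ph (y - k - b / 2 - 1 / 25) :=
  lo hw0 (by linarith only [R.k4, R.he, R.s1, R.b2]) (by linarith only [R.e1, R.s2, R.u1, R.b1])

theorem RegDa.lo8 {s y u b k : ℝ} (R : RegDa s y u b k) (w0 : ℝ) (hw0 : w0 ^ 2 < 1) :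
    2 * w0 * (y) - 2 * w0 ^ 2 ≤ (1 - w0 ^ 2) * ph (y) :=
  lo hw0 (by linarith only [R.he, R.s1]) (by linarith only [R.k4, R.e1, R.s2, R.u1, R.b1])

theorem bda10 {s y u b k : ℝ} (R : RegDa s y u b k)
    (s1 : 1667 / 2500 ≤ s) (s2 : s ≤ 3377 / 5000) (u1 : 0 ≤ u) (u2 : u ≤ 17 / 1000)
    (b1 : 1 / 25 ≤ b) (b2 : b ≤ 69 / 1000) :
    (s - 1 / 25 ≤ y - k + b / 2 ∧ 0 ≤ Da2 s y u b k) ∨ 0 ≤ Da3 s y u b k := by
  have e1 := up (t1 := (20 / 1000)) (t2 := (35 / 1000)) (x := b) (by norm_num)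
    (by linarith only [b1]) (by linarith only [b2])
  have e2 := up (t1 := (352 / 1000)) (t2 := (359 / 1000)) (x := s - 1 / 25) (by norm_num)
    (by linarith only [s1]) (by linarith only [s2])
  have e3 := R.lo4 (382 / 1000) (by norm_num)
  have e4 := R.lo3 (0 / 1000) (by norm_num)
  have e5 := R.lo1 (35 / 1000) (by norm_num)
  have e6 := up (t1 := (345 / 1000)) (t2 := (374 / 1000)) (x := y) (by norm_num)
    (by linarith only [R.k1, R.e2, s1, u2, b2, e5]) (by linarith only [R.k2, R.e1, s2, u1, b1, e1])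
  have e7 := R.lo5 (352 / 1000) (by norm_num)
  have e8 := R.lo6 (382 / 1000) (by norm_num)
  have e9 := R.lo7 (324 / 1000) (by norm_num)
  left
  refine ⟨by linarith only [R.e2, u2], ?_⟩
  unfold Da2
  linarith only [R.k2, R.e1, s1, u1, b1, e1, e2, e3, e4, e6, e7, e8, e9]

theorem bda11 {s y u b k : ℝ} (R : RegDa s y u b k)
    (s1 : 3377 / 5000 ≤ s) (s2 : s ≤ 171 / 250) (u1 : 0 ≤ u) (u2 : u ≤ 17 / 1000)
    (b1 : 1 / 25 ≤ b) (b2 : b ≤ 69 / 1000) :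
    (s - 1 / 25 ≤ y - k + b / 2 ∧ 0 ≤ Da2 s y u b k) ∨ 0 ≤ Da3 s y u b k := by
  have e1 := up (t1 := (20 / 1000)) (t2 := (35 / 1000)) (x := b) (by norm_num)
    (by linarith only [b1]) (by linarith only [b2])
  have e2 := up (t1 := (358 / 1000)) (t2 := (365 / 1000)) (x := s - 1 / 25) (by norm_num)
    (by linarith only [s1]) (by linarith only [s2])
  have e3 := R.lo4 (389 / 1000) (by norm_num)
  have e4 := R.lo3 (0 / 1000) (by norm_num)
  have e5 := R.lo1 (35 / 1000) (by norm_num)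
  have e6 := up (t1 := (351 / 1000)) (t2 := (381 / 1000)) (x := y) (by norm_num)
    (by linarith only [R.k1, R.e2, s1, u2, b2, e5]) (by linarith only [R.k2, R.e1, s2, u1, b1, e1])
  have e7 := R.lo5 (359 / 1000) (by norm_num)
  have e8 := R.lo6 (389 / 1000) (by norm_num)
  have e9 := R.lo7 (330 / 1000) (by norm_num)
  left
  refine ⟨by linarith only [R.e2, u2], ?_⟩
  unfold Da2
  linarith only [R.k2, R.e1, s1, u1, b1, e1, e2, e3, e4, e6, e7, e8, e9]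

theorem bda14 {s y u b k : ℝ} (R : RegDa s y u b k)
    (s1 : 171 / 250 ≤ s) (s2 : s ≤ 1377 / 2000) (u1 : 0 ≤ u) (u2 : u ≤ 17 / 1000)
    (b1 : 1 / 25 ≤ b) (b2 : b ≤ 69 / 1000) :
    (s - 1 / 25 ≤ y - k + b / 2 ∧ 0 ≤ Da2 s y u b k) ∨ 0 ≤ Da3 s y u b k := by
  have e1 := up (t1 := (20 / 1000)) (t2 := (35 / 1000)) (x := b) (by norm_num)
    (by linarith only [b1]) (by linarith only [b2])
  have e2 := up (t1 := (364 / 1000)) (t2 := (369 / 1000)) (x := s - 1 / 25) (by norm_num)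
    (by linarith only [s1]) (by linarith only [s2])
  have e3 := R.lo4 (395 / 1000) (by norm_num)
  have e4 := R.lo3 (0 / 1000) (by norm_num)
  have e5 := R.lo5 (368 / 1000) (by norm_num)
  have e6 := R.lo6 (399 / 1000) (by norm_num)
  have e7 := R.lo7 (339 / 1000) (by norm_num)
  have e8 := R.lo1 (35 / 1000) (by norm_num)
  have e9 := up (t1 := (357 / 1000)) (t2 := (384 / 1000)) (x := y) (by norm_num)
    (by linarith only [R.k1, R.e2, s1, u2, b2, e8]) (by linarith only [R.k2, R.e1, s2, u1, b1, e1])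
  left
  refine ⟨by linarith only [R.e2, u2], ?_⟩
  unfold Da2
  linarith only [R.k2, R.e1, s1, u1, b1, e1, e2, e3, e4, e5, e6, e7, e9]

theorem bda15 {s y u b k : ℝ} (R : RegDa s y u b k)
    (s1 : 1377 / 2000 ≤ s) (s2 : s ≤ 693 / 1000) (u1 : 0 ≤ u) (u2 : u ≤ 17 / 1000)
    (b1 : 1 / 25 ≤ b) (b2 : b ≤ 69 / 1000) :
    (s - 1 / 25 ≤ y - k + b / 2 ∧ 0 ≤ Da2 s y u b k) ∨ 0 ≤ Da3 s y u b k := by
  have e1 := up (t1 := (20 / 1000)) (t2 := (35 / 1000)) (x := b) (by norm_num)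
    (by linarith only [b1]) (by linarith only [b2])
  have e2 := up (t1 := (368 / 1000)) (t2 := (372 / 1000)) (x := s - 1 / 25) (by norm_num)
    (by linarith only [s1]) (by linarith only [s2])
  have e3 := R.lo4 (399 / 1000) (by norm_num)
  have e4 := R.lo3 (0 / 1000) (by norm_num)
  have e5 := R.lo5 (372 / 1000) (by norm_num)
  have e6 := R.lo6 (403 / 1000) (by norm_num)
  have e7 := R.lo7 (342 / 1000) (by norm_num)
  have e8 := R.lo1 (35 / 1000) (by norm_num)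
  have e9 := up (t1 := (361 / 1000)) (t2 := (388 / 1000)) (x := y) (by norm_num)
    (by linarith only [R.k1, R.e2, s1, u2, b2, e8]) (by linarith only [R.k2, R.e1, s2, u1, b1, e1])
  left
  refine ⟨by linarith only [R.e2, u2], ?_⟩
  unfold Da2
  linarith only [R.k2, R.e1, s1, u1, b1, e1, e2, e3, e4, e5, e6, e7, e9]

theorem bda16 {s y u b k : ℝ} (R : RegDa s y u b k)
    (s1 : 693 / 1000 ≤ s) (s2 : s ≤ 351 / 500) (u1 : 0 ≤ u) (u2 : u ≤ 17 / 1000)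
    (b1 : 1 / 25 ≤ b) (b2 : b ≤ 69 / 1000) :
    (s - 1 / 25 ≤ y - k + b / 2 ∧ 0 ≤ Da2 s y u b k) ∨ 0 ≤ Da3 s y u b k := by
  have e1 := up (t1 := (20 / 1000)) (t2 := (35 / 1000)) (x := b) (by norm_num)
    (by linarith only [b1]) (by linarith only [b2])
  have e2 := up (t1 := (371 / 1000)) (t2 := (379 / 1000)) (x := s - 1 / 25) (by norm_num)
    (by linarith only [s1]) (by linarith only [s2])
  have e3 := R.lo4 (403 / 1000) (by norm_num)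
  have e4 := R.lo3 (0 / 1000) (by norm_num)
  have e5 := R.lo1 (35 / 1000) (by norm_num)
  have e6 := up (t1 := (364 / 1000)) (t2 := (395 / 1000)) (x := y) (by norm_num)
    (by linarith only [R.k1, R.e2, s1, u2, b2, e5]) (by linarith only [R.k2, R.e1, s2, u1, b1, e1])
  have e7 := R.lo5 (372 / 1000) (by norm_num)
  have e8 := R.lo6 (403 / 1000) (by norm_num)
  have e9 := R.lo7 (342 / 1000) (by norm_num)
  left
  refine ⟨by linarith only [R.e2, u2], ?_⟩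
  unfold Da2
  linarith only [R.k2, R.e1, s1, u1, b1, e1, e2, e3, e4, e6, e7, e8, e9]

theorem bda17 {s y u b k : ℝ} (R : RegDa s y u b k)
    (s1 : 1667 / 2500 ≤ s) (s2 : s ≤ 351 / 500) (u1 : 0 ≤ u) (u2 : u ≤ 17 / 1000)
    (b1 : 69 / 1000 ≤ b) (b2 : b ≤ 49 / 500) :
    (s - 1 / 25 ≤ y - k + b / 2 ∧ 0 ≤ Da2 s y u b k) ∨ 0 ≤ Da3 s y u b k := by
  have e1 := up (t1 := (34 / 1000)) (t2 := (50 / 1000)) (x := b) (by norm_num)
    (by linarith only [b1]) (by linarith only [b2])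
  have e2 := up (t1 := (352 / 1000)) (t2 := (379 / 1000)) (x := s - 1 / 25) (by norm_num)
    (by linarith only [s1]) (by linarith only [s2])
  have e3 := R.lo4 (382 / 1000) (by norm_num)
  have e4 := R.lo3 (15 / 1000) (by norm_num)
  have e5 := R.lo5 (359 / 1000) (by norm_num)
  have e6 := R.lo6 (389 / 1000) (by norm_num)
  have e7 := R.lo7 (301 / 1000) (by norm_num)
  have e8 := R.lo1 (49 / 1000) (by norm_num)
  have e9 := up (t1 := (336 / 1000)) (t2 := (385 / 1000)) (x := y) (by norm_num)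
    (by linarith only [R.k1, R.e2, s1, u2, b2, e8]) (by linarith only [R.k2, R.e1, s2, u1, b1, e1])
  left
  refine ⟨by linarith only [R.e2, u2], ?_⟩
  unfold Da2
  linarith only [R.k2, R.e1, s1, u1, b1, e1, e2, e3, e4, e5, e6, e7, e9]

theorem bda21 {s y u b k : ℝ} (R : RegDa s y u b k)
    (s1 : 351 / 500 ≤ s) (s2 : s ≤ 1421 / 2000) (u1 : 0 ≤ u) (u2 : u ≤ 17 / 1000)
    (b1 : 1 / 25 ≤ b) (b2 : b ≤ 69 / 1000) :
    (s - 1 / 25 ≤ y - k + b / 2 ∧ 0 ≤ Da2 s y u b k) ∨ 0 ≤ Da3 s y u b k := by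
  have e1 := up (t1 := (20 / 1000)) (t2 := (35 / 1000)) (x := b) (by norm_num)
    (by linarith only [b1]) (by linarith only [b2])
  have e2 := up (t1 := (378 / 1000)) (t2 := (385 / 1000)) (x := s - 1 / 25) (by norm_num)
    (by linarith only [s1]) (by linarith only [s2])
  have e3 := R.lo4 (410 / 1000) (by norm_num)
  have e4 := R.lo3 (0 / 1000) (by norm_num)
  have e5 := R.lo5 (375 / 1000) (by norm_num)
  have e6 := R.lo6 (407 / 1000) (by norm_num)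
  have e7 := R.lo7 (355 / 1000) (by norm_num)
  have e8 := R.lo1 (35 / 1000) (by norm_num)
  have e9 := up (t1 := (371 / 1000)) (t2 := (402 / 1000)) (x := y) (by norm_num)
    (by linarith only [R.k1, R.e2, s1, u2, b2, e8]) (by linarith only [R.k2, R.e1, s2, u1, b1, e1])
  left
  refine ⟨by linarith only [R.e2, u2], ?_⟩
  unfold Da2
  linarith only [R.k2, R.e1, s1, u1, b1, e1, e2, e3, e4, e5, e6, e7, e9]

theorem bda22 {s y u b k : ℝ} (R : RegDa s y u b k)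
    (s1 : 1421 / 2000 ≤ s) (s2 : s ≤ 719 / 1000) (u1 : 0 ≤ u) (u2 : u ≤ 17 / 1000)
    (b1 : 1 / 25 ≤ b) (b2 : b ≤ 69 / 1000) :
    (s - 1 / 25 ≤ y - k + b / 2 ∧ 0 ≤ Da2 s y u b k) ∨ 0 ≤ Da3 s y u b k := by
  have e1 := up (t1 := (20 / 1000)) (t2 := (35 / 1000)) (x := b) (by norm_num)
    (by linarith only [b1]) (by linarith only [b2])
  have e2 := up (t1 := (384 / 1000)) (t2 := (392 / 1000)) (x := s - 1 / 25) (by norm_num)
    (by linarith only [s1]) (by linarith only [s2])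
  have e3 := R.lo4 (417 / 1000) (by norm_num)
  have e4 := R.lo3 (0 / 1000) (by norm_num)
  have e5 := R.lo5 (382 / 1000) (by norm_num)
  have e6 := R.lo6 (414 / 1000) (by norm_num)
  have e7 := R.lo7 (361 / 1000) (by norm_num)
  have e8 := R.lo1 (35 / 1000) (by norm_num)
  have e9 := up (t1 := (377 / 1000)) (t2 := (409 / 1000)) (x := y) (by norm_num)
    (by linarith only [R.k1, R.e2, s1, u2, b2, e8]) (by linarith only [R.k2, R.e1, s2, u1, b1, e1])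
  left
  refine ⟨by linarith only [R.e2, u2], ?_⟩
  unfold Da2
  linarith only [R.k2, R.e1, s1, u1, b1, e1, e2, e3, e4, e5, e6, e7, e9]

theorem bda24 {s y u b k : ℝ} (R : RegDa s y u b k)
    (s1 : 719 / 1000 ≤ s) (s2 : s ≤ 1819 / 2500) (u1 : 0 ≤ u) (u2 : u ≤ 17 / 1000)
    (b1 : 1 / 25 ≤ b) (b2 : b ≤ 69 / 1000) :
    (s - 1 / 25 ≤ y - k + b / 2 ∧ 0 ≤ Da2 s y u b k) ∨ 0 ≤ Da3 s y u b k := by
  have e1 := up (t1 := (20 / 1000)) (t2 := (35 / 1000)) (x := b) (by norm_num)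
    (by linarith only [b1]) (by linarith only [b2])
  have e2 := up (t1 := (391 / 1000)) (t2 := (399 / 1000)) (x := s - 1 / 25) (by norm_num)
    (by linarith only [s1]) (by linarith only [s2])
  have e3 := R.lo4 (424 / 1000) (by norm_num)
  have e4 := R.lo3 (0 / 1000) (by norm_num)
  have e5 := R.lo5 (388 / 1000) (by norm_num)
  have e6 := R.lo6 (421 / 1000) (by norm_num)
  have e7 := R.lo7 (368 / 1000) (by norm_num)
  have e8 := R.lo1 (35 / 1000) (by norm_num)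
  have e9 := up (t1 := (384 / 1000)) (t2 := (416 / 1000)) (x := y) (by norm_num)
    (by linarith only [R.k1, R.e2, s1, u2, b2, e8]) (by linarith only [R.k2, R.e1, s2, u1, b1, e1])
  left
  refine ⟨by linarith only [R.e2, u2], ?_⟩
  unfold Da2
  linarith only [R.k2, R.e1, s1, u1, b1, e1, e2, e3, e4, e5, e6, e7, e9]

theorem bda25 {s y u b k : ℝ} (R : RegDa s y u b k)
    (s1 : 1819 / 2500 ≤ s) (s2 : s ≤ 3681 / 5000) (u1 : 0 ≤ u) (u2 : u ≤ 17 / 1000)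
    (b1 : 1 / 25 ≤ b) (b2 : b ≤ 69 / 1000) :
    (s - 1 / 25 ≤ y - k + b / 2 ∧ 0 ≤ Da2 s y u b k) ∨ 0 ≤ Da3 s y u b k := by
  have e1 := up (t1 := (20 / 1000)) (t2 := (35 / 1000)) (x := b) (by norm_num)
    (by linarith only [b1]) (by linarith only [b2])
  have e2 := up (t1 := (398 / 1000)) (t2 := (406 / 1000)) (x := s - 1 / 25) (by norm_num)
    (by linarith only [s1]) (by linarith only [s2])
  have e3 := R.lo4 (432 / 1000) (by norm_num)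
  have e4 := R.lo3 (0 / 1000) (by norm_num)
  have e5 := R.lo5 (395 / 1000) (by norm_num)
  have e6 := R.lo6 (428 / 1000) (by norm_num)
  have e7 := R.lo7 (374 / 1000) (by norm_num)
  have e8 := R.lo1 (35 / 1000) (by norm_num)
  have e9 := up (t1 := (390 / 1000)) (t2 := (423 / 1000)) (x := y) (by norm_num)
    (by linarith only [R.k1, R.e2, s1, u2, b2, e8]) (by linarith only [R.k2, R.e1, s2, u1, b1, e1])
  left
  refine ⟨by linarith only [R.e2, u2], ?_⟩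
  unfold Da2
  linarith only [R.k2, R.e1, s1, u1, b1, e1, e2, e3, e4, e5, e6, e7, e9]

theorem bda26 {s y u b k : ℝ} (R : RegDa s y u b k)
    (s1 : 351 / 500 ≤ s) (s2 : s ≤ 3681 / 5000) (u1 : 0 ≤ u) (u2 : u ≤ 17 / 1000)
    (b1 : 69 / 1000 ≤ b) (b2 : b ≤ 49 / 500) :
    (s - 1 / 25 ≤ y - k + b / 2 ∧ 0 ≤ Da2 s y u b k) ∨ 0 ≤ Da3 s y u b k := by
  have e1 := up (t1 := (34 / 1000)) (t2 := (50 / 1000)) (x := b) (by norm_num)
    (by linarith only [b1]) (by linarith only [b2])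
  have e2 := up (t1 := (378 / 1000)) (t2 := (406 / 1000)) (x := s - 1 / 25) (by norm_num)
    (by linarith only [s1]) (by linarith only [s2])
  have e3 := R.lo4 (410 / 1000) (by norm_num)
  have e4 := R.lo3 (15 / 1000) (by norm_num)
  have e5 := R.lo5 (385 / 1000) (by norm_num)
  have e6 := R.lo6 (417 / 1000) (by norm_num)
  have e7 := R.lo7 (324 / 1000) (by norm_num)
  have e8 := R.lo1 (49 / 1000) (by norm_num)
  have e9 := up (t1 := (362 / 1000)) (t2 := (412 / 1000)) (x := y) (by norm_num)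
    (by linarith only [R.k1, R.e2, s1, u2, b2, e8]) (by linarith only [R.k2, R.e1, s2, u1, b1, e1])
  left
  refine ⟨by linarith only [R.e2, u2], ?_⟩
  unfold Da2
  linarith only [R.k2, R.e1, s1, u1, b1, e1, e2, e3, e4, e5, e6, e7, e9]

theorem bda27 {s y u b k : ℝ} (R : RegDa s y u b k)
    (s1 : 1667 / 2500 ≤ s) (s2 : s ≤ 3681 / 5000) (u1 : 17 / 1000 ≤ u) (u2 : u ≤ 17 / 500)
    (b1 : 1 / 25 ≤ b) (b2 : b ≤ 49 / 500) :
    (s - 1 / 25 ≤ y - k + b / 2 ∧ 0 ≤ Da2 s y u b k) ∨ 0 ≤ Da3 s y u b k := by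
  have e1 := up (t1 := (20 / 1000)) (t2 := (50 / 1000)) (x := b) (by norm_num)
    (by linarith only [b1]) (by linarith only [b2])
  have e2 := up (t1 := (352 / 1000)) (t2 := (406 / 1000)) (x := s - 1 / 25) (by norm_num)
    (by linarith only [s1]) (by linarith only [s2])
  have e3 := R.lo4 (410 / 1000) (by norm_num)
  have e4 := R.lo4 (382 / 1000) (by norm_num)
  have e5 := R.lo3 (9 / 1000) (by norm_num)
  have e6 := R.lo5 (359 / 1000) (by norm_num)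
  have e7 := R.lo6 (389 / 1000) (by norm_num)
  have e8 := R.lo7 (311 / 1000) (by norm_num)
  have e9 := R.lo1 (49 / 1000) (by norm_num)
  have e10 := up (t1 := (325 / 1000)) (t2 := (409 / 1000)) (x := y) (by norm_num)
    (by linarith only [R.k1, R.e2, s1, u2, b2, e9]) (by linarith only [R.k2, R.e1, s2, u1, b1, e1])
  left
  refine ⟨by linarith only [R.e2, u2], ?_⟩
  unfold Da2
  linarith only [R.k2, R.e1, u1, b1, e1, e2, e3, e4, e5, e6, e7, e8, e10]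

theorem bda28 {s y u b k : ℝ} (R : RegDa s y u b k)
    (s1 : 1667 / 2500 ≤ s) (s2 : s ≤ 3681 / 5000) (u1 : 0 ≤ u) (u2 : u ≤ 17 / 500)
    (b1 : 49 / 500 ≤ b) (b2 : b ≤ 31 / 200) :
    (s - 1 / 25 ≤ y - k + b / 2 ∧ 0 ≤ Da2 s y u b k) ∨ 0 ≤ Da3 s y u b k := by
  have e1 := up (t1 := (49 / 1000)) (t2 := (78 / 1000)) (x := b) (by norm_num)
    (by linarith only [b1]) (by linarith only [b2])
  have e2 := up (t1 := (352 / 1000)) (t2 := (406 / 1000)) (x := s - 1 / 25) (by norm_num)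
    (by linarith only [s1]) (by linarith only [s2])
  have e3 := R.lo4 (382 / 1000) (by norm_num)
  have e4 := R.lo3 (29 / 1000) (by norm_num)
  have e5 := R.lo5 (365 / 1000) (by norm_num)
  have e6 := R.lo6 (396 / 1000) (by norm_num)
  have e7 := R.lo7 (279 / 1000) (by norm_num)
  have e8 := R.lo1 (78 / 1000) (by norm_num)
  have e9 := up (t1 := (310 / 1000)) (t2 := (402 / 1000)) (x := y) (by norm_num)
    (by linarith only [R.k1, R.e2, s1, u2, b2, e8]) (by linarith only [R.k2, R.e1, s2, u1, b1, e1])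
  left
  refine ⟨by linarith only [R.e2, u2], ?_⟩
  unfold Da2
  linarith only [R.k2, R.e1, s1, u1, b1, e1, e2, e3, e4, e5, e6, e7, e9]

theorem bda29 {s y u b k : ℝ} (R : RegDa s y u b k)
    (s1 : 1667 / 2500 ≤ s) (s2 : s ≤ 3681 / 5000) (u1 : 0 ≤ u) (u2 : u ≤ 17 / 500)
    (b1 : 31 / 200 ≤ b) (b2 : b ≤ 27 / 100) :
    (s - 1 / 25 ≤ y - k + b / 2 ∧ 0 ≤ Da2 s y u b k) ∨ 0 ≤ Da3 s y u b k := by
  have e1 := up (t1 := (77 / 1000)) (t2 := (138 / 1000)) (x := b) (by norm_num)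
    (by linarith only [b1]) (by linarith only [b2])
  have e2 := up (t1 := (352 / 1000)) (t2 := (406 / 1000)) (x := s - 1 / 25) (by norm_num)
    (by linarith only [s1]) (by linarith only [s2])
  have e3 := R.lo4 (382 / 1000) (by norm_num)
  have e4 := R.lo3 (58 / 1000) (by norm_num)
  have e5 := R.lo5 (365 / 1000) (by norm_num)
  have e6 := R.lo6 (396 / 1000) (by norm_num)
  have e7 := R.lo7 (228 / 1000) (by norm_num)
  have e8 := up (t1 := (288 / 1000)) (t2 := (384 / 1000)) (x := y) (by norm_num)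
    (by linarith only [R.he, s1]) (by linarith only [R.k2, R.e1, s2, u1, b1, e1])
  left
  refine ⟨by linarith only [R.e2, u2], ?_⟩
  unfold Da2
  linarith only [R.k2, R.e1, s1, u1, b1, e1, e2, e3, e4, e5, e6, e7, e8]

theorem bda30 {s y u b k : ℝ} (R : RegDa s y u b k)
    (s1 : 1667 / 2500 ≤ s) (s2 : s ≤ 3681 / 5000) (u1 : 17 / 500 ≤ u) (u2 : u ≤ 67 / 1000)
    (b1 : 1 / 25 ≤ b) (b2 : b ≤ 27 / 100) :
    (s - 1 / 25 ≤ y - k + b / 2 ∧ 0 ≤ Da2 s y u b k) ∨ 0 ≤ Da3 s y u b k := by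
  have e1 := up (t1 := (20 / 1000)) (t2 := (138 / 1000)) (x := b) (by norm_num)
    (by linarith only [b1]) (by linarith only [b2])
  have e2 := R.lo4 (382 / 1000) (by norm_num)
  have e3 := R.lo5 (341 / 1000) (by norm_num)
  have e4 := R.lo7 (253 / 1000) (by norm_num)
  have e5 := up (t1 := (288 / 1000)) (t2 := (395 / 1000)) (x := y) (by norm_num)
    (by linarith only [R.he, s1]) (by linarith only [R.k2, R.e1, s2, u1, b1, e1])
  right
  unfold Da3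
  linarith only [R.k2, R.e1, s1, u1, b1, e1, e2, e3, e4, e5]

theorem bda31 {s y u b k : ℝ} (R : RegDa s y u b k)
    (s1 : 1667 / 2500 ≤ s) (s2 : s ≤ 3681 / 5000) (u1 : 67 / 1000 ≤ u) (u2 : u ≤ 67 / 500)
    (b1 : 1 / 25 ≤ b) (b2 : b ≤ 27 / 100) :
    (s - 1 / 25 ≤ y - k + b / 2 ∧ 0 ≤ Da2 s y u b k) ∨ 0 ≤ Da3 s y u b k := by
  have e1 := up (t1 := (20 / 1000)) (t2 := (138 / 1000)) (x := b) (by norm_num)
    (by linarith only [b1]) (by linarith only [b2])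
  have e2 := R.lo4 (382 / 1000) (by norm_num)
  have e3 := R.lo5 (313 / 1000) (by norm_num)
  have e4 := R.lo7 (261 / 1000) (by norm_num)
  have e5 := up (t1 := (288 / 1000)) (t2 := (370 / 1000)) (x := y) (by norm_num)
    (by linarith only [R.he, s1]) (by linarith only [R.k2, R.e1, s2, u1, b1, e1])
  right
  unfold Da3
  linarith only [R.k2, R.e1, s1, u1, b1, e1, e2, e3, e4, e5]

theorem bda33 {s y u b k : ℝ} (R : RegDa s y u b k)
    (s1 : 1667 / 2500 ≤ s) (s2 : s ≤ 351 / 500) (u1 : 0 ≤ u) (u2 : u ≤ 67 / 500)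
    (b1 : 27 / 100 ≤ b) (b2 : b ≤ 1 / 2) :
    (s - 1 / 25 ≤ y - k + b / 2 ∧ 0 ≤ Da2 s y u b k) ∨ 0 ≤ Da3 s y u b k := by
  have e1 := up (t1 := (137 / 1000)) (t2 := (268 / 1000)) (x := b) (by norm_num)
    (by linarith only [b1]) (by linarith only [b2])
  have e2 := up (t1 := (352 / 1000)) (t2 := (379 / 1000)) (x := s - 1 / 25) (by norm_num)
    (by linarith only [s1]) (by linarith only [s2])
  have e3 := R.lo4 (382 / 1000) (by norm_num)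
  have e4 := R.lo3 (244 / 1000) (by norm_num)
  have e5 := R.lo5 (354 / 1000) (by norm_num)
  have e6 := R.lo6 (384 / 1000) (by norm_num)
  have e7 := R.lo7 (64 / 1000) (by norm_num)
  have e8 := up (t1 := (288 / 1000)) (t2 := (333 / 1000)) (x := y) (by norm_num)
    (by linarith only [R.he, s1]) (by linarith only [R.k2, R.e1, s2, u1, b1, e1])
  left
  refine ⟨by linarith only [R.k2, R.he, b1, e1], ?_⟩
  unfold Da2
  linarith only [R.k2, R.e1, s1, u1, b2, e1, e2, e3, e4, e5, e6, e7, e8]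

theorem bda34 {s y u b k : ℝ} (R : RegDa s y u b k)
    (s1 : 351 / 500 ≤ s) (s2 : s ≤ 3681 / 5000) (u1 : 0 ≤ u) (u2 : u ≤ 67 / 500)
    (b1 : 27 / 100 ≤ b) (b2 : b ≤ 1 / 2) :
    (s - 1 / 25 ≤ y - k + b / 2 ∧ 0 ≤ Da2 s y u b k) ∨ 0 ≤ Da3 s y u b k := by
  have e1 := up (t1 := (137 / 1000)) (t2 := (268 / 1000)) (x := b) (by norm_num)
    (by linarith only [b1]) (by linarith only [b2])
  have e2 := up (t1 := (378 / 1000)) (t2 := (406 / 1000)) (x := s - 1 / 25) (by norm_num)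
    (by linarith only [s1]) (by linarith only [s2])
  have e3 := R.lo4 (410 / 1000) (by norm_num)
  have e4 := R.lo3 (244 / 1000) (by norm_num)
  have e5 := R.lo5 (380 / 1000) (by norm_num)
  have e6 := R.lo6 (411 / 1000) (by norm_num)
  have e7 := R.lo7 (82 / 1000) (by norm_num)
  have e8 := up (t1 := (311 / 1000)) (t2 := (358 / 1000)) (x := y) (by norm_num)
    (by linarith only [R.he, s1]) (by linarith only [R.k2, R.e1, s2, u1, b1, e1])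
  left
  refine ⟨by linarith only [R.k2, R.he, b1, e1], ?_⟩
  unfold Da2
  linarith only [R.k2, R.e1, s1, u1, b2, e1, e2, e3, e4, e5, e6, e7, e8]

theorem bda32 {s y u b k : ℝ} (R : RegDa s y u b k)
    (s1 : 1667 / 2500 ≤ s) (s2 : s ≤ 3681 / 5000) (u1 : 0 ≤ u) (u2 : u ≤ 67 / 500)
    (b1 : 27 / 100 ≤ b) (b2 : b ≤ 1 / 2) :
    (s - 1 / 25 ≤ y - k + b / 2 ∧ 0 ≤ Da2 s y u b k) ∨ 0 ≤ Da3 s y u b k := by
  rcases le_total s (351 / 500) with h | h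
  · exact bda33 R s1 h u1 u2 b1 b2
  · exact bda34 R h s2 u1 u2 b1 b2

theorem bda23 {s y u b k : ℝ} (R : RegDa s y u b k)
    (s1 : 719 / 1000 ≤ s) (s2 : s ≤ 3681 / 5000) (u1 : 0 ≤ u) (u2 : u ≤ 17 / 1000)
    (b1 : 1 / 25 ≤ b) (b2 : b ≤ 69 / 1000) :
    (s - 1 / 25 ≤ y - k + b / 2 ∧ 0 ≤ Da2 s y u b k) ∨ 0 ≤ Da3 s y u b k := by
  rcases le_total s (1819 / 2500) with h | h
  · exact bda24 R s1 h u1 u2 b1 b2
  · exact bda25 R h s2 u1 u2 b1 b2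

theorem bda20 {s y u b k : ℝ} (R : RegDa s y u b k)
    (s1 : 351 / 500 ≤ s) (s2 : s ≤ 719 / 1000) (u1 : 0 ≤ u) (u2 : u ≤ 17 / 1000)
    (b1 : 1 / 25 ≤ b) (b2 : b ≤ 69 / 1000) :
    (s - 1 / 25 ≤ y - k + b / 2 ∧ 0 ≤ Da2 s y u b k) ∨ 0 ≤ Da3 s y u b k := by
  rcases le_total s (1421 / 2000) with h | h
  · exact bda21 R s1 h u1 u2 b1 b2
  · exact bda22 R h s2 u1 u2 b1 b2

theorem bda19 {s y u b k : ℝ} (R : RegDa s y u b k)
    (s1 : 351 / 500 ≤ s) (s2 : s ≤ 3681 / 5000) (u1 : 0 ≤ u) (u2 : u ≤ 17 / 1000)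
    (b1 : 1 / 25 ≤ b) (b2 : b ≤ 69 / 1000) :
    (s - 1 / 25 ≤ y - k + b / 2 ∧ 0 ≤ Da2 s y u b k) ∨ 0 ≤ Da3 s y u b k := by
  rcases le_total s (719 / 1000) with h | h
  · exact bda20 R s1 h u1 u2 b1 b2
  · exact bda23 R h s2 u1 u2 b1 b2

theorem bda18 {s y u b k : ℝ} (R : RegDa s y u b k)
    (s1 : 351 / 500 ≤ s) (s2 : s ≤ 3681 / 5000) (u1 : 0 ≤ u) (u2 : u ≤ 17 / 1000)
    (b1 : 1 / 25 ≤ b) (b2 : b ≤ 49 / 500) :
    (s - 1 / 25 ≤ y - k + b / 2 ∧ 0 ≤ Da2 s y u b k) ∨ 0 ≤ Da3 s y u b k := by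
  rcases le_total b (69 / 1000) with h | h
  · exact bda19 R s1 s2 u1 u2 b1 h
  · exact bda26 R s1 s2 u1 u2 h b2

theorem bda13 {s y u b k : ℝ} (R : RegDa s y u b k)
    (s1 : 171 / 250 ≤ s) (s2 : s ≤ 693 / 1000) (u1 : 0 ≤ u) (u2 : u ≤ 17 / 1000)
    (b1 : 1 / 25 ≤ b) (b2 : b ≤ 69 / 1000) :
    (s - 1 / 25 ≤ y - k + b / 2 ∧ 0 ≤ Da2 s y u b k) ∨ 0 ≤ Da3 s y u b k := by
  rcases le_total s (1377 / 2000) with h | h
  · exact bda14 R s1 h u1 u2 b1 b2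
  · exact bda15 R h s2 u1 u2 b1 b2

theorem bda12 {s y u b k : ℝ} (R : RegDa s y u b k)
    (s1 : 171 / 250 ≤ s) (s2 : s ≤ 351 / 500) (u1 : 0 ≤ u) (u2 : u ≤ 17 / 1000)
    (b1 : 1 / 25 ≤ b) (b2 : b ≤ 69 / 1000) :
    (s - 1 / 25 ≤ y - k + b / 2 ∧ 0 ≤ Da2 s y u b k) ∨ 0 ≤ Da3 s y u b k := by
  rcases le_total s (693 / 1000) with h | h
  · exact bda13 R s1 h u1 u2 b1 b2
  · exact bda16 R h s2 u1 u2 b1 b2

theorem bda9 {s y u b k : ℝ} (R : RegDa s y u b k)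
    (s1 : 1667 / 2500 ≤ s) (s2 : s ≤ 171 / 250) (u1 : 0 ≤ u) (u2 : u ≤ 17 / 1000)
    (b1 : 1 / 25 ≤ b) (b2 : b ≤ 69 / 1000) :
    (s - 1 / 25 ≤ y - k + b / 2 ∧ 0 ≤ Da2 s y u b k) ∨ 0 ≤ Da3 s y u b k := by
  rcases le_total s (3377 / 5000) with h | h
  · exact bda10 R s1 h u1 u2 b1 b2
  · exact bda11 R h s2 u1 u2 b1 b2

theorem bda8 {s y u b k : ℝ} (R : RegDa s y u b k)
    (s1 : 1667 / 2500 ≤ s) (s2 : s ≤ 351 / 500) (u1 : 0 ≤ u) (u2 : u ≤ 17 / 1000)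
    (b1 : 1 / 25 ≤ b) (b2 : b ≤ 69 / 1000) :
    (s - 1 / 25 ≤ y - k + b / 2 ∧ 0 ≤ Da2 s y u b k) ∨ 0 ≤ Da3 s y u b k := by
  rcases le_total s (171 / 250) with h | h
  · exact bda9 R s1 h u1 u2 b1 b2
  · exact bda12 R h s2 u1 u2 b1 b2

theorem bda7 {s y u b k : ℝ} (R : RegDa s y u b k)
    (s1 : 1667 / 2500 ≤ s) (s2 : s ≤ 351 / 500) (u1 : 0 ≤ u) (u2 : u ≤ 17 / 1000)
    (b1 : 1 / 25 ≤ b) (b2 : b ≤ 49 / 500) :
    (s - 1 / 25 ≤ y - k + b / 2 ∧ 0 ≤ Da2 s y u b k) ∨ 0 ≤ Da3 s y u b k := by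
  rcases le_total b (69 / 1000) with h | h
  · exact bda8 R s1 s2 u1 u2 b1 h
  · exact bda17 R s1 s2 u1 u2 h b2

theorem bda6 {s y u b k : ℝ} (R : RegDa s y u b k)
    (s1 : 1667 / 2500 ≤ s) (s2 : s ≤ 3681 / 5000) (u1 : 0 ≤ u) (u2 : u ≤ 17 / 1000)
    (b1 : 1 / 25 ≤ b) (b2 : b ≤ 49 / 500) :
    (s - 1 / 25 ≤ y - k + b / 2 ∧ 0 ≤ Da2 s y u b k) ∨ 0 ≤ Da3 s y u b k := by
  rcases le_total s (351 / 500) with h | h
  · exact bda7 R s1 h u1 u2 b1 b2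
  · exact bda18 R h s2 u1 u2 b1 b2

theorem bda5 {s y u b k : ℝ} (R : RegDa s y u b k)
    (s1 : 1667 / 2500 ≤ s) (s2 : s ≤ 3681 / 5000) (u1 : 0 ≤ u) (u2 : u ≤ 17 / 500)
    (b1 : 1 / 25 ≤ b) (b2 : b ≤ 49 / 500) :
    (s - 1 / 25 ≤ y - k + b / 2 ∧ 0 ≤ Da2 s y u b k) ∨ 0 ≤ Da3 s y u b k := by
  rcases le_total u (17 / 1000) with h | h
  · exact bda6 R s1 s2 u1 h b1 b2
  · exact bda27 R s1 s2 h u2 b1 b2

theorem bda4 {s y u b k : ℝ} (R : RegDa s y u b k)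
    (s1 : 1667 / 2500 ≤ s) (s2 : s ≤ 3681 / 5000) (u1 : 0 ≤ u) (u2 : u ≤ 17 / 500)
    (b1 : 1 / 25 ≤ b) (b2 : b ≤ 31 / 200) :
    (s - 1 / 25 ≤ y - k + b / 2 ∧ 0 ≤ Da2 s y u b k) ∨ 0 ≤ Da3 s y u b k := by
  rcases le_total b (49 / 500) with h | h
  · exact bda5 R s1 s2 u1 u2 b1 h
  · exact bda28 R s1 s2 u1 u2 h b2

theorem bda3 {s y u b k : ℝ} (R : RegDa s y u b k)
    (s1 : 1667 / 2500 ≤ s) (s2 : s ≤ 3681 / 5000) (u1 : 0 ≤ u) (u2 : u ≤ 17 / 500)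
    (b1 : 1 / 25 ≤ b) (b2 : b ≤ 27 / 100) :
    (s - 1 / 25 ≤ y - k + b / 2 ∧ 0 ≤ Da2 s y u b k) ∨ 0 ≤ Da3 s y u b k := by
  rcases le_total b (31 / 200) with h | h
  · exact bda4 R s1 s2 u1 u2 b1 h
  · exact bda29 R s1 s2 u1 u2 h b2

theorem bda2 {s y u b k : ℝ} (R : RegDa s y u b k)
    (s1 : 1667 / 2500 ≤ s) (s2 : s ≤ 3681 / 5000) (u1 : 0 ≤ u) (u2 : u ≤ 67 / 1000)
    (b1 : 1 / 25 ≤ b) (b2 : b ≤ 27 / 100) :
    (s - 1 / 25 ≤ y - k + b / 2 ∧ 0 ≤ Da2 s y u b k) ∨ 0 ≤ Da3 s y u b k := by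
  rcases le_total u (17 / 500) with h | h
  · exact bda3 R s1 s2 u1 h b1 b2
  · exact bda30 R s1 s2 h u2 b1 b2

theorem bda1 {s y u b k : ℝ} (R : RegDa s y u b k)
    (s1 : 1667 / 2500 ≤ s) (s2 : s ≤ 3681 / 5000) (u1 : 0 ≤ u) (u2 : u ≤ 67 / 500)
    (b1 : 1 / 25 ≤ b) (b2 : b ≤ 27 / 100) :
    (s - 1 / 25 ≤ y - k + b / 2 ∧ 0 ≤ Da2 s y u b k) ∨ 0 ≤ Da3 s y u b k := by
  rcases le_total u (67 / 1000) with h | h
  · exact bda2 R s1 s2 u1 h b1 b2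
  · exact bda31 R s1 s2 h u2 b1 b2

theorem bda0 {s y u b k : ℝ} (R : RegDa s y u b k)
    (s1 : 1667 / 2500 ≤ s) (s2 : s ≤ 3681 / 5000) (u1 : 0 ≤ u) (u2 : u ≤ 67 / 500)
    (b1 : 1 / 25 ≤ b) (b2 : b ≤ 1 / 2) :
    (s - 1 / 25 ≤ y - k + b / 2 ∧ 0 ≤ Da2 s y u b k) ∨ 0 ≤ Da3 s y u b k := by
  rcases le_total b (27 / 100) with h | h
  · exact bda1 R s1 s2 u1 u2 b1 h
  · exact bda32 R s1 s2 u1 u2 h b2

end Pool.Agent.Strip051.FourD
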