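import Pool.Agent.Strip051.FourB.Box

/-! # The new point between e and s, the exit below the top -/

namespace Pool.Agent.Strip051.FourD

set_option linter.unusedVariables false

open Pool.Agent.StripNear Pool.Agent.StripSquare Pool.Agent.Strip051
open Pool.Agent.Strip051.Four.Low (ph)
open Pool.Agent.Strip051.FourB (lo up)

/-- The function of the boxes `bdb`. -/
noncomputable def Db1 (s y u b k : ℝ) : ℝ :=
  2 * ph s - 4 * ph y - 2 * ph b + ph (y - k + b / 2) + ph (y - k - b / 2) + ph (y - k + b / 2 - 1 / 25) + ph (y - k - b / 2 - 1 / 25) - 2 * ph (s - 1 / 25)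

/-- The function of the boxes `bdb`. -/
noncomputable def Db3 (s y u b k : ℝ) : ℝ :=
  2 * ph s - 4 * ph y - ph b + ph (y - k + b / 2 - 1 / 25) + ph (y - k - b / 2 - 1 / 25)

/-- The region of the boxes `bdb`. -/
structure RegDb (s y u b k : ℝ) : Prop where
  k1 : 86602 / 100000 * ph b ≤ k
  k2 : k ≤ 86603 / 100000 * ph b
  k3 : 0 ≤ k
  k4 : k ≤ 1161 / 10000
  e1 : u + (y - k + b / 2) ≤ s
  e2 : s ≤ u + (y - k + b / 2)
  he : s - 13398 / 100000 ≤ y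
  s1 : 1667 / 2500 ≤ s
  s2 : s ≤ 3681 / 5000
  u1 : 1 / 50 ≤ u
  u2 : u ≤ 67 / 500
  b1 : 0 ≤ b
  b2 : b ≤ 1 / 25

theorem RegDb.lo1 {s y u b k : ℝ} (R : RegDb s y u b k) (w0 : ℝ) (hw0 : w0 ^ 2 < 1) :
    2 * w0 * (b) - 2 * w0 ^ 2 ≤ (1 - w0 ^ 2) * ph (b) :=
  lo hw0 (by linarith only [R.b1]) (by linarith only [R.b2])

theorem RegDb.lo2 {s y u b k : ℝ} (R : RegDb s y u b k) (w0 : ℝ) (hw0 : w0 ^ 2 < 1) :
    2 * w0 * (s - 1 / 25) - 2 * w0 ^ 2 ≤ (1 - w0 ^ 2) * ph (s - 1 / 25) :=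
  lo hw0 (by linarith only [R.s1]) (by linarith only [R.s2])

theorem RegDb.lo3 {s y u b k : ℝ} (R : RegDb s y u b k) (w0 : ℝ) (hw0 : w0 ^ 2 < 1) :
    2 * w0 * (s) - 2 * w0 ^ 2 ≤ (1 - w0 ^ 2) * ph (s) :=
  lo hw0 (by linarith only [R.s1]) (by linarith only [R.s2])

theorem RegDb.lo4 {s y u b k : ℝ} (R : RegDb s y u b k) (w0 : ℝ) (hw0 : w0 ^ 2 < 1) :
    2 * w0 * (y - k + b / 2 - 1 / 25) - 2 * w0 ^ 2 ≤ (1 - w0 ^ 2) * ph (y - k + b / 2 - 1 / 25) :=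
  lo hw0 (by linarith only [R.e2, R.s1, R.u2]) (by linarith only [R.e1, R.s2, R.u1])

theorem RegDb.lo5 {s y u b k : ℝ} (R : RegDb s y u b k) (w0 : ℝ) (hw0 : w0 ^ 2 < 1) :
    2 * w0 * (y - k + b / 2) - 2 * w0 ^ 2 ≤ (1 - w0 ^ 2) * ph (y - k + b / 2) :=
  lo hw0 (by linarith only [R.e2, R.s1, R.u2]) (by linarith only [R.e1, R.s2, R.u1])

theorem RegDb.lo6 {s y u b k : ℝ} (R : RegDb s y u b k) (w0 : ℝ) (hw0 : w0 ^ 2 < 1) :
    2 * w0 * (y - k - b / 2 - 1 / 25) - 2 * w0 ^ 2 ≤ (1 - w0 ^ 2) * ph (y - k - b / 2 - 1 / 25) :=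
  lo hw0 (by linarith only [R.e2, R.s1, R.u2, R.b2]) (by linarith only [R.e1, R.s2, R.u1, R.b1])

theorem RegDb.lo7 {s y u b k : ℝ} (R : RegDb s y u b k) (w0 : ℝ) (hw0 : w0 ^ 2 < 1) :
    2 * w0 * (y - k - b / 2) - 2 * w0 ^ 2 ≤ (1 - w0 ^ 2) * ph (y - k - b / 2) :=
  lo hw0 (by linarith only [R.e2, R.s1, R.u2, R.b2]) (by linarith only [R.e1, R.s2, R.u1, R.b1])

theorem RegDb.lo8 {s y u b k : ℝ} (R : RegDb s y u b k) (w0 : ℝ) (hw0 : w0 ^ 2 < 1) :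
    2 * w0 * (y) - 2 * w0 ^ 2 ≤ (1 - w0 ^ 2) * ph (y) :=
  lo hw0 (by linarith only [R.he, R.s1]) (by linarith only [R.k4, R.e1, R.s2, R.u1, R.b1])

theorem bdb5 {s y u b k : ℝ} (R : RegDb s y u b k)
    (s1 : 1667 / 2500 ≤ s) (s2 : s ≤ 171 / 250) (u1 : 1 / 50 ≤ u) (u2 : u ≤ 7 / 200)
    (b1 : 0 ≤ b) (b2 : b ≤ 1 / 25) :
    0 ≤ Db1 s y u b k ∨ 0 ≤ Db3 s y u b k := by
  have e1 := up (t1 := (0 / 1000)) (t2 := (21 / 1000)) (x := b) (by norm_num)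
    (by linarith only [b1]) (by linarith only [b2])
  have e2 := up (t1 := (352 / 1000)) (t2 := (365 / 1000)) (x := s - 1 / 25) (by norm_num)
    (by linarith only [s1]) (by linarith only [s2])
  have e3 := R.lo3 (389 / 1000) (by norm_num)
  have e4 := R.lo3 (382 / 1000) (by norm_num)
  have e5 := R.lo4 (339 / 1000) (by norm_num)
  have e6 := R.lo5 (368 / 1000) (by norm_num)
  have e7 := R.lo6 (325 / 1000) (by norm_num)
  have e8 := R.lo6 (350 / 1000) (by norm_num)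
  have e9 := R.lo7 (353 / 1000) (by norm_num)
  have e10 := R.lo1 (20 / 1000) (by norm_num)
  have e11 := up (t1 := (342 / 1000)) (t2 := (380 / 1000)) (x := y) (by norm_num)
    (by linarith only [R.k1, R.e2, s1, u2, b2, e10]) (by linarith only [R.k2, R.e1, s2, u1, b1, e1])
  left
  unfold Db1
  linarith only [R.k2, R.e1, u1, e1, e2, e3, e4, e5, e6, e7, e8, e9, e11]

theorem bdb6 {s y u b k : ℝ} (R : RegDb s y u b k)
    (s1 : 171 / 250 ≤ s) (s2 : s ≤ 351 / 500) (u1 : 1 / 50 ≤ u) (u2 : u ≤ 7 / 200)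
    (b1 : 0 ≤ b) (b2 : b ≤ 1 / 25) :
    0 ≤ Db1 s y u b k ∨ 0 ≤ Db3 s y u b k := by
  have e1 := up (t1 := (0 / 1000)) (t2 := (21 / 1000)) (x := b) (by norm_num)
    (by linarith only [b1]) (by linarith only [b2])
  have e2 := up (t1 := (364 / 1000)) (t2 := (379 / 1000)) (x := s - 1 / 25) (by norm_num)
    (by linarith only [s1]) (by linarith only [s2])
  have e3 := R.lo3 (395 / 1000) (by norm_num)
  have e4 := R.lo4 (351 / 1000) (by norm_num)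
  have e5 := R.lo5 (381 / 1000) (by norm_num)
  have e6 := R.lo6 (337 / 1000) (by norm_num)
  have e7 := R.lo7 (366 / 1000) (by norm_num)
  have e8 := R.lo1 (20 / 1000) (by norm_num)
  have e9 := up (t1 := (354 / 1000)) (t2 := (394 / 1000)) (x := y) (by norm_num)
    (by linarith only [R.k1, R.e2, s1, u2, b2, e8]) (by linarith only [R.k2, R.e1, s2, u1, b1, e1])
  have e10 := R.lo3 (399 / 1000) (by norm_num)
  have e11 := R.lo6 (350 / 1000) (by norm_num)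
  left
  unfold Db1
  linarith only [R.k2, R.e1, u1, e1, e2, e3, e4, e5, e6, e7, e9, e10, e11]

theorem bdb7 {s y u b k : ℝ} (R : RegDb s y u b k)
    (s1 : 1667 / 2500 ≤ s) (s2 : s ≤ 351 / 500) (u1 : 7 / 200 ≤ u) (u2 : u ≤ 49 / 1000)
    (b1 : 0 ≤ b) (b2 : b ≤ 1 / 25) :
    0 ≤ Db1 s y u b k ∨ 0 ≤ Db3 s y u b k := by
  have e1 := up (t1 := (0 / 1000)) (t2 := (21 / 1000)) (x := b) (by norm_num)
    (by linarith only [b1]) (by linarith only [b2])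
  have e2 := up (t1 := (352 / 1000)) (t2 := (379 / 1000)) (x := s - 1 / 25) (by norm_num)
    (by linarith only [s1]) (by linarith only [s2])
  have e3 := R.lo4 (335 / 1000) (by norm_num)
  have e4 := R.lo5 (364 / 1000) (by norm_num)
  have e5 := R.lo6 (321 / 1000) (by norm_num)
  have e6 := R.lo7 (349 / 1000) (by norm_num)
  have e7 := R.lo1 (20 / 1000) (by norm_num)
  have e8 := up (t1 := (332 / 1000)) (t2 := (383 / 1000)) (x := y) (by norm_num)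
    (by linarith only [R.k1, R.e2, s1, u2, b2, e7]) (by linarith only [R.k2, R.e1, s2, u1, b1, e1])
  have e9 := R.lo3 (389 / 1000) (by norm_num)
  have e10 := R.lo4 (334 / 1000) (by norm_num)
  have e11 := R.lo7 (362 / 1000) (by norm_num)
  left
  unfold Db1
  linarith only [R.k2, R.e1, u1, e1, e2, e3, e4, e5, e6, e8, e9, e10, e11]

theorem bdb10 {s y u b k : ℝ} (R : RegDb s y u b k)
    (s1 : 351 / 500 ≤ s) (s2 : s ≤ 1421 / 2000) (u1 : 1 / 50 ≤ u) (u2 : u ≤ 49 / 1000)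
    (b1 : 0 ≤ b) (b2 : b ≤ 1 / 25) :
    0 ≤ Db1 s y u b k ∨ 0 ≤ Db3 s y u b k := by
  have e1 := up (t1 := (0 / 1000)) (t2 := (21 / 1000)) (x := b) (by norm_num)
    (by linarith only [b1]) (by linarith only [b2])
  have e2 := up (t1 := (378 / 1000)) (t2 := (385 / 1000)) (x := s - 1 / 25) (by norm_num)
    (by linarith only [s1]) (by linarith only [s2])
  have e3 := R.lo3 (410 / 1000) (by norm_num)
  have e4 := R.lo6 (342 / 1000) (by norm_num)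
  have e5 := R.lo7 (371 / 1000) (by norm_num)
  have e6 := R.lo1 (20 / 1000) (by norm_num)
  have e7 := up (t1 := (357 / 1000)) (t2 := (401 / 1000)) (x := y) (by norm_num)
    (by linarith only [R.k1, R.e2, s1, u2, b2, e6]) (by linarith only [R.k2, R.e1, s2, u1, b1, e1])
  have e8 := R.lo4 (363 / 1000) (by norm_num)
  have e9 := R.lo5 (394 / 1000) (by norm_num)
  have e10 := R.lo7 (386 / 1000) (by norm_num)
  left
  unfold Db1
  linarith only [R.k2, R.e1, s1, u1, e1, e2, e3, e4, e5, e7, e8, e9, e10]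

theorem bdb11 {s y u b k : ℝ} (R : RegDb s y u b k)
    (s1 : 1421 / 2000 ≤ s) (s2 : s ≤ 719 / 1000) (u1 : 1 / 50 ≤ u) (u2 : u ≤ 49 / 1000)
    (b1 : 0 ≤ b) (b2 : b ≤ 1 / 25) :
    0 ≤ Db1 s y u b k ∨ 0 ≤ Db3 s y u b k := by
  have e1 := up (t1 := (0 / 1000)) (t2 := (21 / 1000)) (x := b) (by norm_num)
    (by linarith only [b1]) (by linarith only [b2])
  have e2 := up (t1 := (384 / 1000)) (t2 := (392 / 1000)) (x := s - 1 / 25) (by norm_num)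
    (by linarith only [s1]) (by linarith only [s2])
  have e3 := R.lo3 (417 / 1000) (by norm_num)
  have e4 := R.lo6 (348 / 1000) (by norm_num)
  have e5 := R.lo7 (377 / 1000) (by norm_num)
  have e6 := R.lo1 (20 / 1000) (by norm_num)
  have e7 := up (t1 := (363 / 1000)) (t2 := (408 / 1000)) (x := y) (by norm_num)
    (by linarith only [R.k1, R.e2, s1, u2, b2, e6]) (by linarith only [R.k2, R.e1, s2, u1, b1, e1])
  have e8 := R.lo4 (370 / 1000) (by norm_num)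
  have e9 := R.lo5 (401 / 1000) (by norm_num)
  have e10 := R.lo6 (362 / 1000) (by norm_num)
  left
  unfold Db1
  linarith only [R.k2, R.e1, s1, u1, e1, e2, e3, e4, e5, e7, e8, e9, e10]

theorem bdb13 {s y u b k : ℝ} (R : RegDb s y u b k)
    (s1 : 719 / 1000 ≤ s) (s2 : s ≤ 1819 / 2500) (u1 : 1 / 50 ≤ u) (u2 : u ≤ 49 / 1000)
    (b1 : 0 ≤ b) (b2 : b ≤ 1 / 25) :
    0 ≤ Db1 s y u b k ∨ 0 ≤ Db3 s y u b k := by
  have e1 := up (t1 := (0 / 1000)) (t2 := (21 / 1000)) (x := b) (by norm_num)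
    (by linarith only [b1]) (by linarith only [b2])
  have e2 := up (t1 := (391 / 1000)) (t2 := (399 / 1000)) (x := s - 1 / 25) (by norm_num)
    (by linarith only [s1]) (by linarith only [s2])
  have e3 := R.lo3 (424 / 1000) (by norm_num)
  have e4 := R.lo6 (354 / 1000) (by norm_num)
  have e5 := R.lo7 (384 / 1000) (by norm_num)
  have e6 := R.lo1 (20 / 1000) (by norm_num)
  have e7 := up (t1 := (369 / 1000)) (t2 := (415 / 1000)) (x := y) (by norm_num)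
    (by linarith only [R.k1, R.e2, s1, u2, b2, e6]) (by linarith only [R.k2, R.e1, s2, u1, b1, e1])
  have e8 := R.lo4 (376 / 1000) (by norm_num)
  have e9 := R.lo5 (408 / 1000) (by norm_num)
  have e10 := R.lo7 (399 / 1000) (by norm_num)
  left
  unfold Db1
  linarith only [R.k2, R.e1, s1, u1, e1, e2, e3, e4, e5, e7, e8, e9, e10]

theorem bdb14 {s y u b k : ℝ} (R : RegDb s y u b k)
    (s1 : 1819 / 2500 ≤ s) (s2 : s ≤ 3681 / 5000) (u1 : 1 / 50 ≤ u) (u2 : u ≤ 49 / 1000)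
    (b1 : 0 ≤ b) (b2 : b ≤ 1 / 25) :
    0 ≤ Db1 s y u b k ∨ 0 ≤ Db3 s y u b k := by
  have e1 := up (t1 := (0 / 1000)) (t2 := (21 / 1000)) (x := b) (by norm_num)
    (by linarith only [b1]) (by linarith only [b2])
  have e2 := up (t1 := (398 / 1000)) (t2 := (406 / 1000)) (x := s - 1 / 25) (by norm_num)
    (by linarith only [s1]) (by linarith only [s2])
  have e3 := R.lo3 (432 / 1000) (by norm_num)
  have e4 := R.lo4 (389 / 1000) (by norm_num)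
  have e5 := R.lo5 (422 / 1000) (by norm_num)
  have e6 := R.lo6 (360 / 1000) (by norm_num)
  have e7 := R.lo6 (389 / 1000) (by norm_num)
  have e8 := R.lo7 (390 / 1000) (by norm_num)
  have e9 := R.lo1 (20 / 1000) (by norm_num)
  have e10 := up (t1 := (376 / 1000)) (t2 := (422 / 1000)) (x := y) (by norm_num)
    (by linarith only [R.k1, R.e2, s1, u2, b2, e9]) (by linarith only [R.k2, R.e1, s2, u1, b1, e1])
  left
  unfold Db1
  linarith only [R.k2, R.e1, s1, u1, e1, e2, e3, e4, e5, e6, e7, e8, e10]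

theorem bdb15 {s y u b k : ℝ} (R : RegDb s y u b k)
    (s1 : 1667 / 2500 ≤ s) (s2 : s ≤ 3681 / 5000) (u1 : 49 / 1000 ≤ u) (u2 : u ≤ 77 / 1000)
    (b1 : 0 ≤ b) (b2 : b ≤ 1 / 25) :
    0 ≤ Db1 s y u b k ∨ 0 ≤ Db3 s y u b k := by
  have e1 := up (t1 := (0 / 1000)) (t2 := (21 / 1000)) (x := b) (by norm_num)
    (by linarith only [b1]) (by linarith only [b2])
  have e2 := R.lo3 (410 / 1000) (by norm_num)
  have e3 := R.lo3 (382 / 1000) (by norm_num)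
  have e4 := R.lo4 (332 / 1000) (by norm_num)
  have e5 := R.lo6 (319 / 1000) (by norm_num)
  have e6 := R.lo1 (20 / 1000) (by norm_num)
  have e7 := up (t1 := (313 / 1000)) (t2 := (399 / 1000)) (x := y) (by norm_num)
    (by linarith only [R.k1, R.e2, s1, u2, b2, e6]) (by linarith only [R.k2, R.e1, s2, u1, b1, e1])
  right
  unfold Db3
  linarith only [R.k2, R.e1, u1, b1, e1, e2, e3, e4, e5, e7]

theorem bdb16 {s y u b k : ℝ} (R : RegDb s y u b k)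
    (s1 : 1667 / 2500 ≤ s) (s2 : s ≤ 3681 / 5000) (u1 : 77 / 1000 ≤ u) (u2 : u ≤ 67 / 500)
    (b1 : 0 ≤ b) (b2 : b ≤ 1 / 25) :
    0 ≤ Db1 s y u b k ∨ 0 ≤ Db3 s y u b k := by
  have e1 := up (t1 := (0 / 1000)) (t2 := (21 / 1000)) (x := b) (by norm_num)
    (by linarith only [b1]) (by linarith only [b2])
  have e2 := R.lo3 (382 / 1000) (by norm_num)
  have e3 := R.lo4 (304 / 1000) (by norm_num)
  have e4 := R.lo6 (297 / 1000) (by norm_num)
  have e5 := up (t1 := (288 / 1000)) (t2 := (377 / 1000)) (x := y) (by norm_num)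
    (by linarith only [R.he, s1]) (by linarith only [R.k2, R.e1, s2, u1, b1, e1])
  right
  unfold Db3
  linarith only [R.k2, R.e1, s1, u1, b1, e1, e2, e3, e4, e5]

theorem bdb12 {s y u b k : ℝ} (R : RegDb s y u b k)
    (s1 : 719 / 1000 ≤ s) (s2 : s ≤ 3681 / 5000) (u1 : 1 / 50 ≤ u) (u2 : u ≤ 49 / 1000)
    (b1 : 0 ≤ b) (b2 : b ≤ 1 / 25) :
    0 ≤ Db1 s y u b k ∨ 0 ≤ Db3 s y u b k := by
  rcases le_total s (1819 / 2500) with h | h
  · exact bdb13 R s1 h u1 u2 b1 b2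
  · exact bdb14 R h s2 u1 u2 b1 b2

theorem bdb9 {s y u b k : ℝ} (R : RegDb s y u b k)
    (s1 : 351 / 500 ≤ s) (s2 : s ≤ 719 / 1000) (u1 : 1 / 50 ≤ u) (u2 : u ≤ 49 / 1000)
    (b1 : 0 ≤ b) (b2 : b ≤ 1 / 25) :
    0 ≤ Db1 s y u b k ∨ 0 ≤ Db3 s y u b k := by
  rcases le_total s (1421 / 2000) with h | h
  · exact bdb10 R s1 h u1 u2 b1 b2
  · exact bdb11 R h s2 u1 u2 b1 b2

theorem bdb8 {s y u b k : ℝ} (R : RegDb s y u b k)
    (s1 : 351 / 500 ≤ s) (s2 : s ≤ 3681 / 5000) (u1 : 1 / 50 ≤ u) (u2 : u ≤ 49 / 1000)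
    (b1 : 0 ≤ b) (b2 : b ≤ 1 / 25) :
    0 ≤ Db1 s y u b k ∨ 0 ≤ Db3 s y u b k := by
  rcases le_total s (719 / 1000) with h | h
  · exact bdb9 R s1 h u1 u2 b1 b2
  · exact bdb12 R h s2 u1 u2 b1 b2

theorem bdb4 {s y u b k : ℝ} (R : RegDb s y u b k)
    (s1 : 1667 / 2500 ≤ s) (s2 : s ≤ 351 / 500) (u1 : 1 / 50 ≤ u) (u2 : u ≤ 7 / 200)
    (b1 : 0 ≤ b) (b2 : b ≤ 1 / 25) :
    0 ≤ Db1 s y u b k ∨ 0 ≤ Db3 s y u b k := by
  rcases le_total s (171 / 250) with h | h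
  · exact bdb5 R s1 h u1 u2 b1 b2
  · exact bdb6 R h s2 u1 u2 b1 b2

theorem bdb3 {s y u b k : ℝ} (R : RegDb s y u b k)
    (s1 : 1667 / 2500 ≤ s) (s2 : s ≤ 351 / 500) (u1 : 1 / 50 ≤ u) (u2 : u ≤ 49 / 1000)
    (b1 : 0 ≤ b) (b2 : b ≤ 1 / 25) :
    0 ≤ Db1 s y u b k ∨ 0 ≤ Db3 s y u b k := by
  rcases le_total u (7 / 200) with h | h
  · exact bdb4 R s1 s2 u1 h b1 b2
  · exact bdb7 R s1 s2 h u2 b1 b2

theorem bdb2 {s y u b k : ℝ} (R : RegDb s y u b k)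
    (s1 : 1667 / 2500 ≤ s) (s2 : s ≤ 3681 / 5000) (u1 : 1 / 50 ≤ u) (u2 : u ≤ 49 / 1000)
    (b1 : 0 ≤ b) (b2 : b ≤ 1 / 25) :
    0 ≤ Db1 s y u b k ∨ 0 ≤ Db3 s y u b k := by
  rcases le_total s (351 / 500) with h | h
  · exact bdb3 R s1 h u1 u2 b1 b2
  · exact bdb8 R h s2 u1 u2 b1 b2

theorem bdb1 {s y u b k : ℝ} (R : RegDb s y u b k)
    (s1 : 1667 / 2500 ≤ s) (s2 : s ≤ 3681 / 5000) (u1 : 1 / 50 ≤ u) (u2 : u ≤ 77 / 1000)
    (b1 : 0 ≤ b) (b2 : b ≤ 1 / 25) :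
    0 ≤ Db1 s y u b k ∨ 0 ≤ Db3 s y u b k := by
  rcases le_total u (49 / 1000) with h | h
  · exact bdb2 R s1 s2 u1 h b1 b2
  · exact bdb15 R s1 s2 h u2 b1 b2

theorem bdb0 {s y u b k : ℝ} (R : RegDb s y u b k)
    (s1 : 1667 / 2500 ≤ s) (s2 : s ≤ 3681 / 5000) (u1 : 1 / 50 ≤ u) (u2 : u ≤ 67 / 500)
    (b1 : 0 ≤ b) (b2 : b ≤ 1 / 25) :
    0 ≤ Db1 s y u b k ∨ 0 ≤ Db3 s y u b k := by
  rcases le_total u (77 / 1000) with h | h
  · exact bdb1 R s1 s2 u1 h b1 b2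
  · exact bdb16 R s1 s2 h u2 b1 b2

end Pool.Agent.Strip051.FourD
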