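import Pool.Agent.Strip051.FourB.Box

/-! # The new point between 11/25 and e -/

namespace Pool.Agent.Strip051.FourD

set_option linter.unusedVariables false

open Pool.Agent.StripNear Pool.Agent.StripSquare Pool.Agent.Strip051
open Pool.Agent.Strip051.Four.Low (ph)
open Pool.Agent.Strip051.FourB (lo up)

/-- The function of the boxes `be`. -/
noncomputable def E2 (s y b k : ℝ) : ℝ :=
  2 * ph s - 4 * ph y - 83 / 50 * (ph (h0 + s - 1 - y) + ph (h0 + s - 1) - ph y) - 2 * ph b + ph (y - k + b / 2) + ph (y - k + b / 2 - 1 / 25) + ph (y - k - b / 2 - 1 / 25) + ph (s - y + k + b / 2 - 1 / 25) - ph (s - 1 / 25)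

/-- The function of the boxes `be`. -/
noncomputable def E3 (s y b k : ℝ) : ℝ :=
  2 * ph s - 4 * ph y - 83 / 50 * (ph (h0 + s - 1 - y) + ph (h0 + s - 1) - ph y) - ph b + ph (y - k + b / 2 - 1 / 25) + ph (y - k - b / 2 - 1 / 25)

/-- The region of the boxes `be`. -/
structure RegE (s y b k : ℝ) : Prop where
  k1 : 86602 / 100000 * ph b ≤ k
  k2 : k ≤ 86603 / 100000 * ph b
  k3 : 0 ≤ k
  k4 : k ≤ 1161 / 10000
  h1 : 86602 / 100000 ≤ h0
  h2 : h0 ≤ 86603 / 100000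
  he : y ≤ h0 + s - 1
  s1 : 1667 / 2500 ≤ s
  s2 : s ≤ 3681 / 5000
  y1 : 11 / 25 ≤ y
  y2 : y ≤ 6023 / 10000
  b1 : 0 ≤ b
  b2 : b ≤ 1 / 2

theorem RegE.lo1 {s y b k : ℝ} (R : RegE s y b k) (w0 : ℝ) (hw0 : w0 ^ 2 < 1) :
    2 * w0 * (b) - 2 * w0 ^ 2 ≤ (1 - w0 ^ 2) * ph (b) :=
  lo hw0 (by linarith only [R.b1]) (by linarith only [R.b2])

theorem RegE.lo2 {s y b k : ℝ} (R : RegE s y b k) (w0 : ℝ) (hw0 : w0 ^ 2 < 1) :
    2 * w0 * (h0 + s - 1 - y) - 2 * w0 ^ 2 ≤ (1 - w0 ^ 2) * ph (h0 + s - 1 - y) :=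
  lo hw0 (by linarith only [R.he]) (by linarith only [R.h2, R.s2, R.y1])

theorem RegE.lo3 {s y b k : ℝ} (R : RegE s y b k) (w0 : ℝ) (hw0 : w0 ^ 2 < 1) :
    2 * w0 * (h0 + s - 1) - 2 * w0 ^ 2 ≤ (1 - w0 ^ 2) * ph (h0 + s - 1) :=
  lo hw0 (by linarith only [R.h1, R.s1]) (by linarith only [R.h2, R.s2])

theorem RegE.lo4 {s y b k : ℝ} (R : RegE s y b k) (w0 : ℝ) (hw0 : w0 ^ 2 < 1) :
    2 * w0 * (s - 1 / 25) - 2 * w0 ^ 2 ≤ (1 - w0 ^ 2) * ph (s - 1 / 25) :=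
  lo hw0 (by linarith only [R.s1]) (by linarith only [R.s2])

theorem RegE.lo5 {s y b k : ℝ} (R : RegE s y b k) (w0 : ℝ) (hw0 : w0 ^ 2 < 1) :
    2 * w0 * (s - y + k + b / 2 - 1 / 25) - 2 * w0 ^ 2 ≤ (1 - w0 ^ 2) * ph (s - y + k + b / 2 - 1 / 25) :=
  lo hw0 (by linarith only [R.k3, R.h2, R.he, R.b1]) (by linarith only [R.k4, R.s2, R.y1, R.b2])

theorem RegE.lo6 {s y b k : ℝ} (R : RegE s y b k) (w0 : ℝ) (hw0 : w0 ^ 2 < 1) :
    2 * w0 * (s) - 2 * w0 ^ 2 ≤ (1 - w0 ^ 2) * ph (s) :=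
  lo hw0 (by linarith only [R.s1]) (by linarith only [R.s2])

theorem RegE.lo7 {s y b k : ℝ} (R : RegE s y b k) (w0 : ℝ) (hw0 : w0 ^ 2 < 1) :
    2 * w0 * (y - k + b / 2 - 1 / 25) - 2 * w0 ^ 2 ≤ (1 - w0 ^ 2) * ph (y - k + b / 2 - 1 / 25) :=
  lo hw0 (by linarith only [R.k4, R.y1, R.b1]) (by linarith only [R.k3, R.h2, R.he, R.s2, R.b2])

theorem RegE.lo8 {s y b k : ℝ} (R : RegE s y b k) (w0 : ℝ) (hw0 : w0 ^ 2 < 1) :
    2 * w0 * (y - k + b / 2) - 2 * w0 ^ 2 ≤ (1 - w0 ^ 2) * ph (y - k + b / 2) :=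
  lo hw0 (by linarith only [R.k4, R.y1, R.b1]) (by linarith only [R.k3, R.h2, R.he, R.s2, R.b2])

theorem RegE.lo9 {s y b k : ℝ} (R : RegE s y b k) (w0 : ℝ) (hw0 : w0 ^ 2 < 1) :
    2 * w0 * (y - k - b / 2 - 1 / 25) - 2 * w0 ^ 2 ≤ (1 - w0 ^ 2) * ph (y - k - b / 2 - 1 / 25) :=
  lo hw0 (by linarith only [R.k4, R.y1, R.b2]) (by linarith only [R.k3, R.h2, R.he, R.s2, R.b1])

theorem RegE.lo10 {s y b k : ℝ} (R : RegE s y b k) (w0 : ℝ) (hw0 : w0 ^ 2 < 1) :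
    2 * w0 * (y) - 2 * w0 ^ 2 ≤ (1 - w0 ^ 2) * ph (y) :=
  lo hw0 (by linarith only [R.y1]) (by linarith only [R.h2, R.he, R.s2])

theorem be2 {s y b k : ℝ} (R : RegE s y b k)
    (s1 : 1667 / 2500 ≤ s) (s2 : s ≤ 3681 / 5000) (y1 : 11 / 25 ≤ y) (y2 : y ≤ 481 / 1000)
    (b1 : 0 ≤ b) (b2 : b ≤ 1 / 2) :
    (s - 1 / 25 ≤ y - k + b / 2 ∧ 0 ≤ E2 s y b k) ∨ 0 ≤ E3 s y b k := by
  have e1 := up (t1 := (0 / 1000)) (t2 := (268 / 1000)) (x := b) (by norm_num)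
    (by linarith only [b1]) (by linarith only [b2])
  have e2 := up (t1 := (25 / 1000)) (t2 := (82 / 1000)) (x := h0 + s - 1 - y) (by norm_num)
    (by linarith only [R.h1, s1, y2]) (by linarith only [R.h2, s2, y1])
  have e3 := up (t1 := (288 / 1000)) (t2 := (335 / 1000)) (x := h0 + s - 1) (by norm_num)
    (by linarith only [R.h1, s1]) (by linarith only [R.h2, s2])
  have e4 := R.lo6 (382 / 1000) (by norm_num)
  have e5 := up (t1 := (231 / 1000)) (t2 := (257 / 1000)) (x := y) (by norm_num)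
    (by linarith only [y1]) (by linarith only [y2])
  have e6 := R.lo7 (316 / 1000) (by norm_num)
  have e7 := R.lo9 (17 / 1000) (by norm_num)
  right
  unfold E3
  linarith only [R.k2, R.h2, s1, y2, b2, e1, e2, e3, e4, e5, e6, e7]

theorem be5 {s y b k : ℝ} (R : RegE s y b k)
    (s1 : 1667 / 2500 ≤ s) (s2 : s ≤ 351 / 500) (y1 : 481 / 1000 ≤ y) (y2 : y ≤ 501 / 1000)
    (b1 : 0 ≤ b) (b2 : b ≤ 1 / 2) :
    (s - 1 / 25 ≤ y - k + b / 2 ∧ 0 ≤ E2 s y b k) ∨ 0 ≤ E3 s y b k := by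
  have e1 := up (t1 := (0 / 1000)) (t2 := (268 / 1000)) (x := b) (by norm_num)
    (by linarith only [b1]) (by linarith only [b2])
  have e2 := up (t1 := (15 / 1000)) (t2 := (44 / 1000)) (x := h0 + s - 1 - y) (by norm_num)
    (by linarith only [R.h1, s1, y2]) (by linarith only [R.h2, s2, y1])
  have e3 := up (t1 := (288 / 1000)) (t2 := (312 / 1000)) (x := h0 + s - 1) (by norm_num)
    (by linarith only [R.h1, s1]) (by linarith only [R.h2, s2])
  have e4 := R.lo6 (382 / 1000) (by norm_num)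
  have e5 := up (t1 := (256 / 1000)) (t2 := (269 / 1000)) (x := y) (by norm_num)
    (by linarith only [y1]) (by linarith only [y2])
  have e6 := R.lo7 (330 / 1000) (by norm_num)
  have e7 := R.lo9 (38 / 1000) (by norm_num)
  right
  unfold E3
  linarith only [R.k2, R.h2, s1, y2, b2, e1, e2, e3, e4, e5, e6, e7]

theorem be8 {s y b k : ℝ} (R : RegE s y b k)
    (s1 : 1667 / 2500 ≤ s) (s2 : s ≤ 171 / 250) (y1 : 501 / 1000 ≤ y) (y2 : y ≤ 511 / 1000)
    (b1 : 0 ≤ b) (b2 : b ≤ 1 / 2) :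
    (s - 1 / 25 ≤ y - k + b / 2 ∧ 0 ≤ E2 s y b k) ∨ 0 ≤ E3 s y b k := by
  have e1 := up (t1 := (0 / 1000)) (t2 := (268 / 1000)) (x := b) (by norm_num)
    (by linarith only [b1]) (by linarith only [b2])
  have e2 := up (t1 := (10 / 1000)) (t2 := (25 / 1000)) (x := h0 + s - 1 - y) (by norm_num)
    (by linarith only [R.h1, s1, y2]) (by linarith only [R.h2, s2, y1])
  have e3 := up (t1 := (288 / 1000)) (t2 := (300 / 1000)) (x := h0 + s - 1) (by norm_num)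
    (by linarith only [R.h1, s1]) (by linarith only [R.h2, s2])
  have e4 := R.lo6 (382 / 1000) (by norm_num)
  have e5 := up (t1 := (268 / 1000)) (t2 := (275 / 1000)) (x := y) (by norm_num)
    (by linarith only [y1]) (by linarith only [y2])
  have e6 := R.lo7 (337 / 1000) (by norm_num)
  have e7 := R.lo9 (48 / 1000) (by norm_num)
  right
  unfold E3
  linarith only [R.k2, R.h2, s1, y2, b2, e1, e2, e3, e4, e5, e6, e7]

theorem be11 {s y b k : ℝ} (R : RegE s y b k)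
    (s1 : 1667 / 2500 ≤ s) (s2 : s ≤ 3377 / 5000) (y1 : 511 / 1000 ≤ y) (y2 : y ≤ 521 / 1000)
    (b1 : 0 ≤ b) (b2 : b ≤ 1 / 4) :
    (s - 1 / 25 ≤ y - k + b / 2 ∧ 0 ≤ E2 s y b k) ∨ 0 ≤ E3 s y b k := by
  have e1 := up (t1 := (0 / 1000)) (t2 := (128 / 1000)) (x := b) (by norm_num)
    (by linarith only [b1]) (by linarith only [b2])
  have e2 := up (t1 := (5 / 1000)) (t2 := (16 / 1000)) (x := h0 + s - 1 - y) (by norm_num)
    (by linarith only [R.h1, s1, y2]) (by linarith only [R.h2, s2, y1])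
  have e3 := up (t1 := (288 / 1000)) (t2 := (295 / 1000)) (x := h0 + s - 1) (by norm_num)
    (by linarith only [R.h1, s1]) (by linarith only [R.h2, s2])
  have e4 := R.lo6 (382 / 1000) (by norm_num)
  have e5 := up (t1 := (274 / 1000)) (t2 := (282 / 1000)) (x := y) (by norm_num)
    (by linarith only [y1]) (by linarith only [y2])
  have e6 := R.lo7 (319 / 1000) (by norm_num)
  have e7 := R.lo9 (163 / 1000) (by norm_num)
  right
  unfold E3
  linarith only [R.k2, R.h2, s1, y2, b2, e1, e2, e3, e4, e5, e6, e7]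

theorem be13 {s y b k : ℝ} (R : RegE s y b k)
    (s1 : 1667 / 2500 ≤ s) (s2 : s ≤ 3377 / 5000) (y1 : 511 / 1000 ≤ y) (y2 : y ≤ 521 / 1000)
    (b1 : 1 / 4 ≤ b) (b2 : b ≤ 3 / 8) :
    (s - 1 / 25 ≤ y - k + b / 2 ∧ 0 ≤ E2 s y b k) ∨ 0 ≤ E3 s y b k := by
  have e1 := up (t1 := (127 / 1000)) (t2 := (195 / 1000)) (x := b) (by norm_num)
    (by linarith only [b1]) (by linarith only [b2])
  have e2 := up (t1 := (5 / 1000)) (t2 := (16 / 1000)) (x := h0 + s - 1 - y) (by norm_num)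
    (by linarith only [R.h1, s1, y2]) (by linarith only [R.h2, s2, y1])
  have e3 := up (t1 := (288 / 1000)) (t2 := (295 / 1000)) (x := h0 + s - 1) (by norm_num)
    (by linarith only [R.h1, s1]) (by linarith only [R.h2, s2])
  have e4 := R.lo6 (382 / 1000) (by norm_num)
  have e5 := up (t1 := (274 / 1000)) (t2 := (282 / 1000)) (x := y) (by norm_num)
    (by linarith only [y1]) (by linarith only [y2])
  have e6 := R.lo7 (337 / 1000) (by norm_num)
  have e7 := R.lo9 (111 / 1000) (by norm_num)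
  right
  unfold E3
  linarith only [R.k2, R.h2, s1, y2, b2, e1, e2, e3, e4, e5, e6, e7]

theorem be15 {s y b k : ℝ} (R : RegE s y b k)
    (s1 : 1667 / 2500 ≤ s) (s2 : s ≤ 3377 / 5000) (y1 : 511 / 1000 ≤ y) (y2 : y ≤ 521 / 1000)
    (b1 : 3 / 8 ≤ b) (b2 : b ≤ 219 / 500) :
    (s - 1 / 25 ≤ y - k + b / 2 ∧ 0 ≤ E2 s y b k) ∨ 0 ≤ E3 s y b k := by
  have e1 := up (t1 := (194 / 1000)) (t2 := (231 / 1000)) (x := b) (by norm_num)
    (by linarith only [b1]) (by linarith only [b2])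
  have e2 := up (t1 := (5 / 1000)) (t2 := (16 / 1000)) (x := h0 + s - 1 - y) (by norm_num)
    (by linarith only [R.h1, s1, y2]) (by linarith only [R.h2, s2, y1])
  have e3 := up (t1 := (288 / 1000)) (t2 := (295 / 1000)) (x := h0 + s - 1) (by norm_num)
    (by linarith only [R.h1, s1]) (by linarith only [R.h2, s2])
  have e4 := R.lo6 (382 / 1000) (by norm_num)
  have e5 := up (t1 := (274 / 1000)) (t2 := (282 / 1000)) (x := y) (by norm_num)
    (by linarith only [y1]) (by linarith only [y2])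
  have e6 := R.lo7 (342 / 1000) (by norm_num)
  have e7 := R.lo9 (83 / 1000) (by norm_num)
  right
  unfold E3
  linarith only [R.k2, R.h2, s1, y2, b2, e1, e2, e3, e4, e5, e6, e7]

theorem be16 {s y b k : ℝ} (R : RegE s y b k)
    (s1 : 1667 / 2500 ≤ s) (s2 : s ≤ 3377 / 5000) (y1 : 511 / 1000 ≤ y) (y2 : y ≤ 521 / 1000)
    (b1 : 219 / 500 ≤ b) (b2 : b ≤ 1 / 2) :
    (s - 1 / 25 ≤ y - k + b / 2 ∧ 0 ≤ E2 s y b k) ∨ 0 ≤ E3 s y b k := by
  have e1 := up (t1 := (230 / 1000)) (t2 := (268 / 1000)) (x := b) (by norm_num)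
    (by linarith only [b1]) (by linarith only [b2])
  have e2 := up (t1 := (5 / 1000)) (t2 := (16 / 1000)) (x := h0 + s - 1 - y) (by norm_num)
    (by linarith only [R.h1, s1, y2]) (by linarith only [R.h2, s2, y1])
  have e3 := up (t1 := (288 / 1000)) (t2 := (295 / 1000)) (x := h0 + s - 1) (by norm_num)
    (by linarith only [R.h1, s1]) (by linarith only [R.h2, s2])
  have e4 := up (t1 := (352 / 1000)) (t2 := (359 / 1000)) (x := s - 1 / 25) (by norm_num)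
    (by linarith only [s1]) (by linarith only [s2])
  have e5 := R.lo6 (382 / 1000) (by norm_num)
  have e6 := up (t1 := (274 / 1000)) (t2 := (282 / 1000)) (x := y) (by norm_num)
    (by linarith only [y1]) (by linarith only [y2])
  have e7 := R.lo5 (262 / 1000) (by norm_num)
  have e8 := R.lo7 (344 / 1000) (by norm_num)
  have e9 := R.lo8 (373 / 1000) (by norm_num)
  have e10 := R.lo9 (53 / 1000) (by norm_num)
  left
  refine ⟨by linarith only [R.k2, s2, y1, b1, e1], ?_⟩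
  unfold E2
  linarith only [R.k2, R.h2, s1, y2, b2, e1, e2, e3, e4, e5, e6, e7, e8, e9, e10]

theorem be17 {s y b k : ℝ} (R : RegE s y b k)
    (s1 : 3377 / 5000 ≤ s) (s2 : s ≤ 171 / 250) (y1 : 511 / 1000 ≤ y) (y2 : y ≤ 521 / 1000)
    (b1 : 0 ≤ b) (b2 : b ≤ 1 / 2) :
    (s - 1 / 25 ≤ y - k + b / 2 ∧ 0 ≤ E2 s y b k) ∨ 0 ≤ E3 s y b k := by
  have e1 := up (t1 := (0 / 1000)) (t2 := (268 / 1000)) (x := b) (by norm_num)
    (by linarith only [b1]) (by linarith only [b2])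
  have e2 := up (t1 := (10 / 1000)) (t2 := (20 / 1000)) (x := h0 + s - 1 - y) (by norm_num)
    (by linarith only [R.h1, s1, y2]) (by linarith only [R.h2, s2, y1])
  have e3 := up (t1 := (294 / 1000)) (t2 := (300 / 1000)) (x := h0 + s - 1) (by norm_num)
    (by linarith only [R.h1, s1]) (by linarith only [R.h2, s2])
  have e4 := R.lo6 (389 / 1000) (by norm_num)
  have e5 := up (t1 := (274 / 1000)) (t2 := (282 / 1000)) (x := y) (by norm_num)
    (by linarith only [y1]) (by linarith only [y2])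
  have e6 := R.lo7 (344 / 1000) (by norm_num)
  have e7 := R.lo9 (53 / 1000) (by norm_num)
  right
  unfold E3
  linarith only [R.k2, R.h2, s1, y2, b2, e1, e2, e3, e4, e5, e6, e7]

theorem be18 {s y b k : ℝ} (R : RegE s y b k)
    (s1 : 171 / 250 ≤ s) (s2 : s ≤ 351 / 500) (y1 : 501 / 1000 ≤ y) (y2 : y ≤ 521 / 1000)
    (b1 : 0 ≤ b) (b2 : b ≤ 1 / 2) :
    (s - 1 / 25 ≤ y - k + b / 2 ∧ 0 ≤ E2 s y b k) ∨ 0 ≤ E3 s y b k := by
  have e1 := up (t1 := (0 / 1000)) (t2 := (268 / 1000)) (x := b) (by norm_num)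
    (by linarith only [b1]) (by linarith only [b2])
  have e2 := up (t1 := (14 / 1000)) (t2 := (34 / 1000)) (x := h0 + s - 1 - y) (by norm_num)
    (by linarith only [R.h1, s1, y2]) (by linarith only [R.h2, s2, y1])
  have e3 := up (t1 := (299 / 1000)) (t2 := (312 / 1000)) (x := h0 + s - 1) (by norm_num)
    (by linarith only [R.h1, s1]) (by linarith only [R.h2, s2])
  have e4 := R.lo6 (395 / 1000) (by norm_num)
  have e5 := up (t1 := (268 / 1000)) (t2 := (282 / 1000)) (x := y) (by norm_num)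
    (by linarith only [y1]) (by linarith only [y2])
  have e6 := R.lo7 (344 / 1000) (by norm_num)
  have e7 := R.lo9 (48 / 1000) (by norm_num)
  right
  unfold E3
  linarith only [R.k2, R.h2, s1, y2, b2, e1, e2, e3, e4, e5, e6, e7]

theorem be19 {s y b k : ℝ} (R : RegE s y b k)
    (s1 : 351 / 500 ≤ s) (s2 : s ≤ 3681 / 5000) (y1 : 481 / 1000 ≤ y) (y2 : y ≤ 521 / 1000)
    (b1 : 0 ≤ b) (b2 : b ≤ 1 / 2) :
    (s - 1 / 25 ≤ y - k + b / 2 ∧ 0 ≤ E2 s y b k) ∨ 0 ≤ E3 s y b k := by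
  have e1 := up (t1 := (0 / 1000)) (t2 := (268 / 1000)) (x := b) (by norm_num)
    (by linarith only [b1]) (by linarith only [b2])
  have e2 := up (t1 := (23 / 1000)) (t2 := (61 / 1000)) (x := h0 + s - 1 - y) (by norm_num)
    (by linarith only [R.h1, s1, y2]) (by linarith only [R.h2, s2, y1])
  have e3 := up (t1 := (311 / 1000)) (t2 := (335 / 1000)) (x := h0 + s - 1) (by norm_num)
    (by linarith only [R.h1, s1]) (by linarith only [R.h2, s2])
  have e4 := R.lo6 (410 / 1000) (by norm_num)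
  have e5 := up (t1 := (256 / 1000)) (t2 := (282 / 1000)) (x := y) (by norm_num)
    (by linarith only [y1]) (by linarith only [y2])
  have e6 := R.lo7 (344 / 1000) (by norm_num)
  have e7 := R.lo9 (38 / 1000) (by norm_num)
  right
  unfold E3
  linarith only [R.k2, R.h2, s1, y2, b2, e1, e2, e3, e4, e5, e6, e7]

theorem be21 {s y b k : ℝ} (R : RegE s y b k)
    (s1 : 1667 / 2500 ≤ s) (s2 : s ≤ 3681 / 5000) (y1 : 521 / 1000 ≤ y) (y2 : y ≤ 6023 / 10000)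
    (b1 : 0 ≤ b) (b2 : b ≤ 1 / 4) :
    (s - 1 / 25 ≤ y - k + b / 2 ∧ 0 ≤ E2 s y b k) ∨ 0 ≤ E3 s y b k := by
  have e1 := up (t1 := (0 / 1000)) (t2 := (128 / 1000)) (x := b) (by norm_num)
    (by linarith only [b1]) (by linarith only [b2])
  have e2 := up (t1 := (0 / 1000)) (t2 := (41 / 1000)) (x := h0 + s - 1 - y) (by norm_num)
    (by linarith only [R.he]) (by linarith only [R.h2, s2, y1])
  have e3 := up (t1 := (288 / 1000)) (t2 := (335 / 1000)) (x := h0 + s - 1) (by norm_num)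
    (by linarith only [R.h1, s1]) (by linarith only [R.h2, s2])
  have e4 := R.lo6 (382 / 1000) (by norm_num)
  have e5 := up (t1 := (281 / 1000)) (t2 := (335 / 1000)) (x := y) (by norm_num)
    (by linarith only [y1]) (by linarith only [R.h2, R.he, s2])
  have e6 := R.lo7 (313 / 1000) (by norm_num)
  have e7 := R.lo9 (169 / 1000) (by norm_num)
  right
  unfold E3
  linarith only [R.k2, R.h2, R.he, s1, b2, e1, e2, e3, e4, e5, e6, e7]

theorem be23 {s y b k : ℝ} (R : RegE s y b k)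
    (s1 : 1667 / 2500 ≤ s) (s2 : s ≤ 3681 / 5000) (y1 : 521 / 1000 ≤ y) (y2 : y ≤ 6023 / 10000)
    (b1 : 1 / 4 ≤ b) (b2 : b ≤ 3 / 8) :
    (s - 1 / 25 ≤ y - k + b / 2 ∧ 0 ≤ E2 s y b k) ∨ 0 ≤ E3 s y b k := by
  have e1 := up (t1 := (127 / 1000)) (t2 := (195 / 1000)) (x := b) (by norm_num)
    (by linarith only [b1]) (by linarith only [b2])
  have e2 := up (t1 := (0 / 1000)) (t2 := (41 / 1000)) (x := h0 + s - 1 - y) (by norm_num)
    (by linarith only [R.he]) (by linarith only [R.h2, s2, y1])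
  have e3 := up (t1 := (288 / 1000)) (t2 := (335 / 1000)) (x := h0 + s - 1) (by norm_num)
    (by linarith only [R.h1, s1]) (by linarith only [R.h2, s2])
  have e4 := R.lo6 (382 / 1000) (by norm_num)
  have e5 := up (t1 := (281 / 1000)) (t2 := (335 / 1000)) (x := y) (by norm_num)
    (by linarith only [y1]) (by linarith only [R.h2, R.he, s2])
  have e6 := R.lo7 (356 / 1000) (by norm_num)
  have e7 := R.lo9 (117 / 1000) (by norm_num)
  right
  unfold E3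
  linarith only [R.k2, R.h2, R.he, s1, b2, e1, e2, e3, e4, e5, e6, e7]

theorem be25 {s y b k : ℝ} (R : RegE s y b k)
    (s1 : 1667 / 2500 ≤ s) (s2 : s ≤ 3681 / 5000) (y1 : 521 / 1000 ≤ y) (y2 : y ≤ 6023 / 10000)
    (b1 : 3 / 8 ≤ b) (b2 : b ≤ 219 / 500) :
    (s - 1 / 25 ≤ y - k + b / 2 ∧ 0 ≤ E2 s y b k) ∨ 0 ≤ E3 s y b k := by
  have e1 := up (t1 := (194 / 1000)) (t2 := (231 / 1000)) (x := b) (by norm_num)
    (by linarith only [b1]) (by linarith only [b2])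
  have e2 := up (t1 := (0 / 1000)) (t2 := (41 / 1000)) (x := h0 + s - 1 - y) (by norm_num)
    (by linarith only [R.he]) (by linarith only [R.h2, s2, y1])
  have e3 := up (t1 := (288 / 1000)) (t2 := (335 / 1000)) (x := h0 + s - 1) (by norm_num)
    (by linarith only [R.h1, s1]) (by linarith only [R.h2, s2])
  have e4 := R.lo6 (382 / 1000) (by norm_num)
  have e5 := up (t1 := (281 / 1000)) (t2 := (335 / 1000)) (x := y) (by norm_num)
    (by linarith only [y1]) (by linarith only [R.h2, R.he, s2])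
  have e6 := R.lo7 (369 / 1000) (by norm_num)
  have e7 := R.lo7 (337 / 1000) (by norm_num)
  have e8 := R.lo9 (88 / 1000) (by norm_num)
  right
  unfold E3
  linarith only [R.k2, R.h2, R.he, b2, e1, e2, e3, e4, e5, e6, e7, e8]

theorem be27 {s y b k : ℝ} (R : RegE s y b k)
    (s1 : 1667 / 2500 ≤ s) (s2 : s ≤ 3681 / 5000) (y1 : 521 / 1000 ≤ y) (y2 : y ≤ 6023 / 10000)
    (b1 : 219 / 500 ≤ b) (b2 : b ≤ 469 / 1000) :
    (s - 1 / 25 ≤ y - k + b / 2 ∧ 0 ≤ E2 s y b k) ∨ 0 ≤ E3 s y b k := by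
  have e1 := up (t1 := (230 / 1000)) (t2 := (250 / 1000)) (x := b) (by norm_num)
    (by linarith only [b1]) (by linarith only [b2])
  have e2 := up (t1 := (0 / 1000)) (t2 := (41 / 1000)) (x := h0 + s - 1 - y) (by norm_num)
    (by linarith only [R.he]) (by linarith only [R.h2, s2, y1])
  have e3 := up (t1 := (288 / 1000)) (t2 := (335 / 1000)) (x := h0 + s - 1) (by norm_num)
    (by linarith only [R.h1, s1]) (by linarith only [R.h2, s2])
  have e4 := R.lo6 (382 / 1000) (by norm_num)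
  have e5 := up (t1 := (281 / 1000)) (t2 := (335 / 1000)) (x := y) (by norm_num)
    (by linarith only [y1]) (by linarith only [R.h2, R.he, s2])
  have e6 := R.lo7 (372 / 1000) (by norm_num)
  have e7 := R.lo7 (342 / 1000) (by norm_num)
  have e8 := R.lo9 (73 / 1000) (by norm_num)
  right
  unfold E3
  linarith only [R.k2, R.h2, R.he, b2, e1, e2, e3, e4, e5, e6, e7, e8]

theorem be33 {s y b k : ℝ} (R : RegE s y b k)
    (s1 : 1667 / 2500 ≤ s) (s2 : s ≤ 351 / 500) (y1 : 521 / 1000 ≤ y) (y2 : y ≤ 133 / 250)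
    (b1 : 469 / 1000 ≤ b) (b2 : b ≤ 97 / 200) :
    (s - 1 / 25 ≤ y - k + b / 2 ∧ 0 ≤ E2 s y b k) ∨ 0 ≤ E3 s y b k := by
  have e1 := up (t1 := (249 / 1000)) (t2 := (259 / 1000)) (x := b) (by norm_num)
    (by linarith only [b1]) (by linarith only [b2])
  have e2 := up (t1 := (0 / 1000)) (t2 := (24 / 1000)) (x := h0 + s - 1 - y) (by norm_num)
    (by linarith only [R.h1, s1, y2]) (by linarith only [R.h2, s2, y1])
  have e3 := up (t1 := (288 / 1000)) (t2 := (312 / 1000)) (x := h0 + s - 1) (by norm_num)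
    (by linarith only [R.h1, s1]) (by linarith only [R.h2, s2])
  have e4 := R.lo6 (382 / 1000) (by norm_num)
  have e5 := up (t1 := (281 / 1000)) (t2 := (289 / 1000)) (x := y) (by norm_num)
    (by linarith only [y1]) (by linarith only [y2])
  have e6 := R.lo7 (352 / 1000) (by norm_num)
  have e7 := R.lo9 (72 / 1000) (by norm_num)
  right
  unfold E3
  linarith only [R.k2, R.h2, s1, y2, b2, e1, e2, e3, e4, e5, e6, e7]

theorem be34 {s y b k : ℝ} (R : RegE s y b k)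
    (s1 : 351 / 500 ≤ s) (s2 : s ≤ 3681 / 5000) (y1 : 521 / 1000 ≤ y) (y2 : y ≤ 133 / 250)
    (b1 : 469 / 1000 ≤ b) (b2 : b ≤ 97 / 200) :
    (s - 1 / 25 ≤ y - k + b / 2 ∧ 0 ≤ E2 s y b k) ∨ 0 ≤ E3 s y b k := by
  have e1 := up (t1 := (249 / 1000)) (t2 := (259 / 1000)) (x := b) (by norm_num)
    (by linarith only [b1]) (by linarith only [b2])
  have e2 := up (t1 := (18 / 1000)) (t2 := (41 / 1000)) (x := h0 + s - 1 - y) (by norm_num)
    (by linarith only [R.h1, s1, y2]) (by linarith only [R.h2, s2, y1])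
  have e3 := up (t1 := (311 / 1000)) (t2 := (335 / 1000)) (x := h0 + s - 1) (by norm_num)
    (by linarith only [R.h1, s1]) (by linarith only [R.h2, s2])
  have e4 := R.lo6 (410 / 1000) (by norm_num)
  have e5 := up (t1 := (281 / 1000)) (t2 := (289 / 1000)) (x := y) (by norm_num)
    (by linarith only [y1]) (by linarith only [y2])
  have e6 := R.lo7 (352 / 1000) (by norm_num)
  have e7 := R.lo9 (72 / 1000) (by norm_num)
  right
  unfold E3
  linarith only [R.k2, R.h2, s1, y2, b2, e1, e2, e3, e4, e5, e6, e7]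

theorem be36 {s y b k : ℝ} (R : RegE s y b k)
    (s1 : 1667 / 2500 ≤ s) (s2 : s ≤ 351 / 500) (y1 : 133 / 250 ≤ y) (y2 : y ≤ 271 / 500)
    (b1 : 469 / 1000 ≤ b) (b2 : b ≤ 97 / 200) :
    (s - 1 / 25 ≤ y - k + b / 2 ∧ 0 ≤ E2 s y b k) ∨ 0 ≤ E3 s y b k := by
  have e1 := up (t1 := (249 / 1000)) (t2 := (259 / 1000)) (x := b) (by norm_num)
    (by linarith only [b1]) (by linarith only [b2])
  have e2 := up (t1 := (0 / 1000)) (t2 := (19 / 1000)) (x := h0 + s - 1 - y) (by norm_num)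
    (by linarith only [R.he]) (by linarith only [R.h2, s2, y1])
  have e3 := up (t1 := (288 / 1000)) (t2 := (312 / 1000)) (x := h0 + s - 1) (by norm_num)
    (by linarith only [R.h1, s1]) (by linarith only [R.h2, s2])
  have e4 := up (t1 := (352 / 1000)) (t2 := (379 / 1000)) (x := s - 1 / 25) (by norm_num)
    (by linarith only [s1]) (by linarith only [s2])
  have e5 := R.lo6 (382 / 1000) (by norm_num)
  have e6 := up (t1 := (288 / 1000)) (t2 := (295 / 1000)) (x := y) (by norm_num)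
    (by linarith only [y1]) (by linarith only [y2])
  have e7 := R.lo5 (241 / 1000) (by norm_num)
  have e8 := R.lo7 (351 / 1000) (by norm_num)
  have e9 := R.lo8 (381 / 1000) (by norm_num)
  have e10 := R.lo9 (71 / 1000) (by norm_num)
  left
  refine ⟨by linarith only [R.k2, s2, y1, b1, e1], ?_⟩
  unfold E2
  linarith only [R.k2, R.h2, R.he, s1, b2, e1, e2, e3, e4, e5, e6, e7, e8, e9, e10]

theorem be37 {s y b k : ℝ} (R : RegE s y b k)
    (s1 : 351 / 500 ≤ s) (s2 : s ≤ 3681 / 5000) (y1 : 133 / 250 ≤ y) (y2 : y ≤ 271 / 500)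
    (b1 : 469 / 1000 ≤ b) (b2 : b ≤ 97 / 200) :
    (s - 1 / 25 ≤ y - k + b / 2 ∧ 0 ≤ E2 s y b k) ∨ 0 ≤ E3 s y b k := by
  have e1 := up (t1 := (249 / 1000)) (t2 := (259 / 1000)) (x := b) (by norm_num)
    (by linarith only [b1]) (by linarith only [b2])
  have e2 := up (t1 := (13 / 1000)) (t2 := (36 / 1000)) (x := h0 + s - 1 - y) (by norm_num)
    (by linarith only [R.h1, s1, y2]) (by linarith only [R.h2, s2, y1])
  have e3 := up (t1 := (311 / 1000)) (t2 := (335 / 1000)) (x := h0 + s - 1) (by norm_num)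
    (by linarith only [R.h1, s1]) (by linarith only [R.h2, s2])
  have e4 := R.lo6 (410 / 1000) (by norm_num)
  have e5 := up (t1 := (288 / 1000)) (t2 := (295 / 1000)) (x := y) (by norm_num)
    (by linarith only [y1]) (by linarith only [y2])
  have e6 := R.lo7 (359 / 1000) (by norm_num)
  have e7 := R.lo9 (77 / 1000) (by norm_num)
  right
  unfold E3
  linarith only [R.k2, R.h2, s1, y2, b2, e1, e2, e3, e4, e5, e6, e7]

theorem be38 {s y b k : ℝ} (R : RegE s y b k)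
    (s1 : 1667 / 2500 ≤ s) (s2 : s ≤ 3681 / 5000) (y1 : 271 / 500 ≤ y) (y2 : y ≤ 281 / 500)
    (b1 : 469 / 1000 ≤ b) (b2 : b ≤ 97 / 200) :
    (s - 1 / 25 ≤ y - k + b / 2 ∧ 0 ≤ E2 s y b k) ∨ 0 ≤ E3 s y b k := by
  have e1 := up (t1 := (249 / 1000)) (t2 := (259 / 1000)) (x := b) (by norm_num)
    (by linarith only [b1]) (by linarith only [b2])
  have e2 := up (t1 := (0 / 1000)) (t2 := (31 / 1000)) (x := h0 + s - 1 - y) (by norm_num)
    (by linarith only [R.he]) (by linarith only [R.h2, s2, y1])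
  have e3 := up (t1 := (294 / 1000)) (t2 := (335 / 1000)) (x := h0 + s - 1) (by norm_num)
    (by linarith only [R.he, y1]) (by linarith only [R.h2, s2])
  have e4 := R.lo6 (389 / 1000) (by norm_num)
  have e5 := up (t1 := (294 / 1000)) (t2 := (308 / 1000)) (x := y) (by norm_num)
    (by linarith only [y1]) (by linarith only [y2])
  have e6 := R.lo7 (359 / 1000) (by norm_num)
  have e7 := R.lo9 (76 / 1000) (by norm_num)
  right
  unfold E3
  linarith only [R.k2, R.h2, R.he, y1, b2, e1, e2, e3, e4, e5, e6, e7]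

theorem be39 {s y b k : ℝ} (R : RegE s y b k)
    (s1 : 1667 / 2500 ≤ s) (s2 : s ≤ 3681 / 5000) (y1 : 281 / 500 ≤ y) (y2 : y ≤ 6023 / 10000)
    (b1 : 469 / 1000 ≤ b) (b2 : b ≤ 97 / 200) :
    (s - 1 / 25 ≤ y - k + b / 2 ∧ 0 ≤ E2 s y b k) ∨ 0 ≤ E3 s y b k := by
  have e1 := up (t1 := (249 / 1000)) (t2 := (259 / 1000)) (x := b) (by norm_num)
    (by linarith only [b1]) (by linarith only [b2])
  have e2 := up (t1 := (0 / 1000)) (t2 := (21 / 1000)) (x := h0 + s - 1 - y) (by norm_num)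
    (by linarith only [R.he]) (by linarith only [R.h2, s2, y1])
  have e3 := up (t1 := (307 / 1000)) (t2 := (335 / 1000)) (x := h0 + s - 1) (by norm_num)
    (by linarith only [R.he, y1]) (by linarith only [R.h2, s2])
  have e4 := R.lo6 (405 / 1000) (by norm_num)
  have e5 := up (t1 := (307 / 1000)) (t2 := (335 / 1000)) (x := y) (by norm_num)
    (by linarith only [y1]) (by linarith only [R.h2, R.he, s2])
  have e6 := R.lo7 (373 / 1000) (by norm_num)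
  have e7 := R.lo9 (86 / 1000) (by norm_num)
  right
  unfold E3
  linarith only [R.k2, R.h2, R.he, y1, b2, e1, e2, e3, e4, e5, e6, e7]

theorem be43 {s y b k : ℝ} (R : RegE s y b k)
    (s1 : 1667 / 2500 ≤ s) (s2 : s ≤ 171 / 250) (y1 : 521 / 1000 ≤ y) (y2 : y ≤ 281 / 500)
    (b1 : 97 / 200 ≤ b) (b2 : b ≤ 1 / 2) :
    (s - 1 / 25 ≤ y - k + b / 2 ∧ 0 ≤ E2 s y b k) ∨ 0 ≤ E3 s y b k := by
  have e1 := up (t1 := (258 / 1000)) (t2 := (268 / 1000)) (x := b) (by norm_num)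
    (by linarith only [b1]) (by linarith only [b2])
  have e2 := up (t1 := (0 / 1000)) (t2 := (15 / 1000)) (x := h0 + s - 1 - y) (by norm_num)
    (by linarith only [R.he]) (by linarith only [R.h2, s2, y1])
  have e3 := up (t1 := (288 / 1000)) (t2 := (300 / 1000)) (x := h0 + s - 1) (by norm_num)
    (by linarith only [R.h1, s1]) (by linarith only [R.h2, s2])
  have e4 := up (t1 := (352 / 1000)) (t2 := (365 / 1000)) (x := s - 1 / 25) (by norm_num)
    (by linarith only [s1]) (by linarith only [s2])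
  have e5 := R.lo6 (382 / 1000) (by norm_num)
  have e6 := up (t1 := (281 / 1000)) (t2 := (300 / 1000)) (x := y) (by norm_num)
    (by linarith only [y1]) (by linarith only [R.h2, R.he, s2])
  have e7 := R.lo5 (248 / 1000) (by norm_num)
  have e8 := R.lo7 (354 / 1000) (by norm_num)
  have e9 := R.lo8 (384 / 1000) (by norm_num)
  have e10 := R.lo9 (69 / 1000) (by norm_num)
  left
  refine ⟨by linarith only [R.k2, s2, y1, b1, e1], ?_⟩
  unfold E2
  linarith only [R.k2, R.h2, R.he, s1, b2, e1, e2, e3, e4, e5, e6, e7, e8, e9, e10]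

theorem be46 {s y b k : ℝ} (R : RegE s y b k)
    (s1 : 171 / 250 ≤ s) (s2 : s ≤ 693 / 1000) (y1 : 521 / 1000 ≤ y) (y2 : y ≤ 271 / 500)
    (b1 : 97 / 200 ≤ b) (b2 : b ≤ 1 / 2) :
    (s - 1 / 25 ≤ y - k + b / 2 ∧ 0 ≤ E2 s y b k) ∨ 0 ≤ E3 s y b k := by
  have e1 := up (t1 := (258 / 1000)) (t2 := (268 / 1000)) (x := b) (by norm_num)
    (by linarith only [b1]) (by linarith only [b2])
  have e2 := up (t1 := (4 / 1000)) (t2 := (20 / 1000)) (x := h0 + s - 1 - y) (by norm_num)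
    (by linarith only [R.h1, s1, y2]) (by linarith only [R.h2, s2, y1])
  have e3 := up (t1 := (299 / 1000)) (t2 := (306 / 1000)) (x := h0 + s - 1) (by norm_num)
    (by linarith only [R.h1, s1]) (by linarith only [R.h2, s2])
  have e4 := up (t1 := (364 / 1000)) (t2 := (372 / 1000)) (x := s - 1 / 25) (by norm_num)
    (by linarith only [s1]) (by linarith only [s2])
  have e5 := R.lo6 (395 / 1000) (by norm_num)
  have e6 := up (t1 := (281 / 1000)) (t2 := (295 / 1000)) (x := y) (by norm_num)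
    (by linarith only [y1]) (by linarith only [y2])
  have e7 := R.lo5 (253 / 1000) (by norm_num)
  have e8 := R.lo7 (359 / 1000) (by norm_num)
  have e9 := R.lo8 (389 / 1000) (by norm_num)
  have e10 := R.lo9 (67 / 1000) (by norm_num)
  left
  refine ⟨by linarith only [R.k2, s2, y1, b1, e1], ?_⟩
  unfold E2
  linarith only [R.k2, R.h2, s1, y2, b2, e1, e2, e3, e4, e5, e6, e7, e8, e9, e10]

theorem be47 {s y b k : ℝ} (R : RegE s y b k)
    (s1 : 693 / 1000 ≤ s) (s2 : s ≤ 351 / 500) (y1 : 521 / 1000 ≤ y) (y2 : y ≤ 271 / 500)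
    (b1 : 97 / 200 ≤ b) (b2 : b ≤ 1 / 2) :
    (s - 1 / 25 ≤ y - k + b / 2 ∧ 0 ≤ E2 s y b k) ∨ 0 ≤ E3 s y b k := by
  have e1 := up (t1 := (258 / 1000)) (t2 := (268 / 1000)) (x := b) (by norm_num)
    (by linarith only [b1]) (by linarith only [b2])
  have e2 := up (t1 := (8 / 1000)) (t2 := (24 / 1000)) (x := h0 + s - 1 - y) (by norm_num)
    (by linarith only [R.h1, s1, y2]) (by linarith only [R.h2, s2, y1])
  have e3 := up (t1 := (305 / 1000)) (t2 := (312 / 1000)) (x := h0 + s - 1) (by norm_num)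
    (by linarith only [R.h1, s1]) (by linarith only [R.h2, s2])
  have e4 := R.lo6 (403 / 1000) (by norm_num)
  have e5 := up (t1 := (281 / 1000)) (t2 := (295 / 1000)) (x := y) (by norm_num)
    (by linarith only [y1]) (by linarith only [y2])
  have e6 := R.lo7 (359 / 1000) (by norm_num)
  have e7 := R.lo9 (67 / 1000) (by norm_num)
  right
  unfold E3
  linarith only [R.k2, R.h2, s1, y2, b2, e1, e2, e3, e4, e5, e6, e7]

theorem be48 {s y b k : ℝ} (R : RegE s y b k)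
    (s1 : 171 / 250 ≤ s) (s2 : s ≤ 351 / 500) (y1 : 271 / 500 ≤ y) (y2 : y ≤ 281 / 500)
    (b1 : 97 / 200 ≤ b) (b2 : b ≤ 1 / 2) :
    (s - 1 / 25 ≤ y - k + b / 2 ∧ 0 ≤ E2 s y b k) ∨ 0 ≤ E3 s y b k := by
  have e1 := up (t1 := (258 / 1000)) (t2 := (268 / 1000)) (x := b) (by norm_num)
    (by linarith only [b1]) (by linarith only [b2])
  have e2 := up (t1 := (0 / 1000)) (t2 := (14 / 1000)) (x := h0 + s - 1 - y) (by norm_num)
    (by linarith only [R.he]) (by linarith only [R.h2, s2, y1])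
  have e3 := up (t1 := (299 / 1000)) (t2 := (312 / 1000)) (x := h0 + s - 1) (by norm_num)
    (by linarith only [R.h1, s1]) (by linarith only [R.h2, s2])
  have e4 := up (t1 := (364 / 1000)) (t2 := (379 / 1000)) (x := s - 1 / 25) (by norm_num)
    (by linarith only [s1]) (by linarith only [s2])
  have e5 := R.lo6 (395 / 1000) (by norm_num)
  have e6 := up (t1 := (294 / 1000)) (t2 := (308 / 1000)) (x := y) (by norm_num)
    (by linarith only [y1]) (by linarith only [y2])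
  have e7 := R.lo5 (247 / 1000) (by norm_num)
  have e8 := R.lo7 (366 / 1000) (by norm_num)
  have e9 := R.lo8 (397 / 1000) (by norm_num)
  have e10 := R.lo9 (68 / 1000) (by norm_num)
  left
  refine ⟨by linarith only [R.k2, s2, y1, b1, e1], ?_⟩
  unfold E2
  linarith only [R.k2, R.h2, R.he, s1, b2, e1, e2, e3, e4, e5, e6, e7, e8, e9, e10]

theorem be49 {s y b k : ℝ} (R : RegE s y b k)
    (s1 : 351 / 500 ≤ s) (s2 : s ≤ 3681 / 5000) (y1 : 521 / 1000 ≤ y) (y2 : y ≤ 281 / 500)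
    (b1 : 97 / 200 ≤ b) (b2 : b ≤ 1 / 2) :
    (s - 1 / 25 ≤ y - k + b / 2 ∧ 0 ≤ E2 s y b k) ∨ 0 ≤ E3 s y b k := by
  have e1 := up (t1 := (258 / 1000)) (t2 := (268 / 1000)) (x := b) (by norm_num)
    (by linarith only [b1]) (by linarith only [b2])
  have e2 := up (t1 := (3 / 1000)) (t2 := (41 / 1000)) (x := h0 + s - 1 - y) (by norm_num)
    (by linarith only [R.h1, s1, y2]) (by linarith only [R.h2, s2, y1])
  have e3 := up (t1 := (311 / 1000)) (t2 := (335 / 1000)) (x := h0 + s - 1) (by norm_num)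
    (by linarith only [R.h1, s1]) (by linarith only [R.h2, s2])
  have e4 := R.lo6 (410 / 1000) (by norm_num)
  have e5 := up (t1 := (281 / 1000)) (t2 := (308 / 1000)) (x := y) (by norm_num)
    (by linarith only [y1]) (by linarith only [y2])
  have e6 := R.lo7 (374 / 1000) (by norm_num)
  have e7 := R.lo9 (72 / 1000) (by norm_num)
  right
  unfold E3
  linarith only [R.k2, R.h2, s1, y2, b2, e1, e2, e3, e4, e5, e6, e7]

theorem be51 {s y b k : ℝ} (R : RegE s y b k)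
    (s1 : 1667 / 2500 ≤ s) (s2 : s ≤ 351 / 500) (y1 : 281 / 500 ≤ y) (y2 : y ≤ 6023 / 10000)
    (b1 : 97 / 200 ≤ b) (b2 : b ≤ 1 / 2) :
    (s - 1 / 25 ≤ y - k + b / 2 ∧ 0 ≤ E2 s y b k) ∨ 0 ≤ E3 s y b k := by
  have e1 := up (t1 := (258 / 1000)) (t2 := (268 / 1000)) (x := b) (by norm_num)
    (by linarith only [b1]) (by linarith only [b2])
  have e2 := up (t1 := (0 / 1000)) (t2 := (4 / 1000)) (x := h0 + s - 1 - y) (by norm_num)
    (by linarith only [R.he]) (by linarith only [R.h2, s2, y1])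
  have e3 := up (t1 := (307 / 1000)) (t2 := (312 / 1000)) (x := h0 + s - 1) (by norm_num)
    (by linarith only [R.he, y1]) (by linarith only [R.h2, s2])
  have e4 := up (t1 := (373 / 1000)) (t2 := (379 / 1000)) (x := s - 1 / 25) (by norm_num)
    (by linarith only [R.h2, R.he, y1]) (by linarith only [s2])
  have e5 := R.lo6 (405 / 1000) (by norm_num)
  have e6 := up (t1 := (307 / 1000)) (t2 := (312 / 1000)) (x := y) (by norm_num)
    (by linarith only [y1]) (by linarith only [R.h2, R.he, s2])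
  have e7 := R.lo5 (241 / 1000) (by norm_num)
  have e8 := R.lo7 (374 / 1000) (by norm_num)
  have e9 := R.lo8 (405 / 1000) (by norm_num)
  have e10 := R.lo9 (78 / 1000) (by norm_num)
  left
  refine ⟨by linarith only [R.k2, s2, y1, b1, e1], ?_⟩
  unfold E2
  linarith only [R.k2, R.h2, R.he, y1, b2, e1, e2, e3, e4, e5, e6, e7, e8, e9, e10]

theorem be53 {s y b k : ℝ} (R : RegE s y b k)
    (s1 : 351 / 500 ≤ s) (s2 : s ≤ 719 / 1000) (y1 : 281 / 500 ≤ y) (y2 : y ≤ 6023 / 10000)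
    (b1 : 97 / 200 ≤ b) (b2 : b ≤ 1 / 2) :
    (s - 1 / 25 ≤ y - k + b / 2 ∧ 0 ≤ E2 s y b k) ∨ 0 ≤ E3 s y b k := by
  have e1 := up (t1 := (258 / 1000)) (t2 := (268 / 1000)) (x := b) (by norm_num)
    (by linarith only [b1]) (by linarith only [b2])
  have e2 := up (t1 := (0 / 1000)) (t2 := (12 / 1000)) (x := h0 + s - 1 - y) (by norm_num)
    (by linarith only [R.he]) (by linarith only [R.h2, s2, y1])
  have e3 := up (t1 := (311 / 1000)) (t2 := (324 / 1000)) (x := h0 + s - 1) (by norm_num)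
    (by linarith only [R.h1, s1]) (by linarith only [R.h2, s2])
  have e4 := up (t1 := (378 / 1000)) (t2 := (392 / 1000)) (x := s - 1 / 25) (by norm_num)
    (by linarith only [s1]) (by linarith only [s2])
  have e5 := R.lo6 (410 / 1000) (by norm_num)
  have e6 := up (t1 := (307 / 1000)) (t2 := (324 / 1000)) (x := y) (by norm_num)
    (by linarith only [y1]) (by linarith only [R.h2, R.he, s2])
  have e7 := R.lo5 (246 / 1000) (by norm_num)
  have e8 := R.lo7 (374 / 1000) (by norm_num)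
  have e9 := R.lo8 (414 / 1000) (by norm_num)
  have e10 := R.lo9 (78 / 1000) (by norm_num)
  left
  refine ⟨by linarith only [R.k2, s2, y1, b1, e1], ?_⟩
  unfold E2
  linarith only [R.k2, R.h2, R.he, s1, b2, e1, e2, e3, e4, e5, e6, e7, e8, e9, e10]

theorem be54 {s y b k : ℝ} (R : RegE s y b k)
    (s1 : 719 / 1000 ≤ s) (s2 : s ≤ 3681 / 5000) (y1 : 281 / 500 ≤ y) (y2 : y ≤ 6023 / 10000)
    (b1 : 97 / 200 ≤ b) (b2 : b ≤ 1 / 2) :
    (s - 1 / 25 ≤ y - k + b / 2 ∧ 0 ≤ E2 s y b k) ∨ 0 ≤ E3 s y b k := by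
  have e1 := up (t1 := (258 / 1000)) (t2 := (268 / 1000)) (x := b) (by norm_num)
    (by linarith only [b1]) (by linarith only [b2])
  have e2 := up (t1 := (0 / 1000)) (t2 := (21 / 1000)) (x := h0 + s - 1 - y) (by norm_num)
    (by linarith only [R.he]) (by linarith only [R.h2, s2, y1])
  have e3 := up (t1 := (323 / 1000)) (t2 := (335 / 1000)) (x := h0 + s - 1) (by norm_num)
    (by linarith only [R.h1, s1]) (by linarith only [R.h2, s2])
  have e4 := R.lo6 (424 / 1000) (by norm_num)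
  have e5 := up (t1 := (307 / 1000)) (t2 := (335 / 1000)) (x := y) (by norm_num)
    (by linarith only [y1]) (by linarith only [R.h2, R.he, s2])
  have e6 := R.lo7 (389 / 1000) (by norm_num)
  have e7 := R.lo9 (93 / 1000) (by norm_num)
  right
  unfold E3
  linarith only [R.k2, R.h2, R.he, s1, b2, e1, e2, e3, e4, e5, e6, e7]

theorem be52 {s y b k : ℝ} (R : RegE s y b k)
    (s1 : 351 / 500 ≤ s) (s2 : s ≤ 3681 / 5000) (y1 : 281 / 500 ≤ y) (y2 : y ≤ 6023 / 10000)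
    (b1 : 97 / 200 ≤ b) (b2 : b ≤ 1 / 2) :
    (s - 1 / 25 ≤ y - k + b / 2 ∧ 0 ≤ E2 s y b k) ∨ 0 ≤ E3 s y b k := by
  rcases le_total s (719 / 1000) with h | h
  · exact be53 R s1 h y1 y2 b1 b2
  · exact be54 R h s2 y1 y2 b1 b2

theorem be50 {s y b k : ℝ} (R : RegE s y b k)
    (s1 : 1667 / 2500 ≤ s) (s2 : s ≤ 3681 / 5000) (y1 : 281 / 500 ≤ y) (y2 : y ≤ 6023 / 10000)
    (b1 : 97 / 200 ≤ b) (b2 : b ≤ 1 / 2) :
    (s - 1 / 25 ≤ y - k + b / 2 ∧ 0 ≤ E2 s y b k) ∨ 0 ≤ E3 s y b k := by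
  rcases le_total s (351 / 500) with h | h
  · exact be51 R s1 h y1 y2 b1 b2
  · exact be52 R h s2 y1 y2 b1 b2

theorem be45 {s y b k : ℝ} (R : RegE s y b k)
    (s1 : 171 / 250 ≤ s) (s2 : s ≤ 351 / 500) (y1 : 521 / 1000 ≤ y) (y2 : y ≤ 271 / 500)
    (b1 : 97 / 200 ≤ b) (b2 : b ≤ 1 / 2) :
    (s - 1 / 25 ≤ y - k + b / 2 ∧ 0 ≤ E2 s y b k) ∨ 0 ≤ E3 s y b k := by
  rcases le_total s (693 / 1000) with h | h
  · exact be46 R s1 h y1 y2 b1 b2
  · exact be47 R h s2 y1 y2 b1 b2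

theorem be44 {s y b k : ℝ} (R : RegE s y b k)
    (s1 : 171 / 250 ≤ s) (s2 : s ≤ 351 / 500) (y1 : 521 / 1000 ≤ y) (y2 : y ≤ 281 / 500)
    (b1 : 97 / 200 ≤ b) (b2 : b ≤ 1 / 2) :
    (s - 1 / 25 ≤ y - k + b / 2 ∧ 0 ≤ E2 s y b k) ∨ 0 ≤ E3 s y b k := by
  rcases le_total y (271 / 500) with h | h
  · exact be45 R s1 s2 y1 h b1 b2
  · exact be48 R s1 s2 h y2 b1 b2

theorem be42 {s y b k : ℝ} (R : RegE s y b k)
    (s1 : 1667 / 2500 ≤ s) (s2 : s ≤ 351 / 500) (y1 : 521 / 1000 ≤ y) (y2 : y ≤ 281 / 500)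
    (b1 : 97 / 200 ≤ b) (b2 : b ≤ 1 / 2) :
    (s - 1 / 25 ≤ y - k + b / 2 ∧ 0 ≤ E2 s y b k) ∨ 0 ≤ E3 s y b k := by
  rcases le_total s (171 / 250) with h | h
  · exact be43 R s1 h y1 y2 b1 b2
  · exact be44 R h s2 y1 y2 b1 b2

theorem be41 {s y b k : ℝ} (R : RegE s y b k)
    (s1 : 1667 / 2500 ≤ s) (s2 : s ≤ 3681 / 5000) (y1 : 521 / 1000 ≤ y) (y2 : y ≤ 281 / 500)
    (b1 : 97 / 200 ≤ b) (b2 : b ≤ 1 / 2) :
    (s - 1 / 25 ≤ y - k + b / 2 ∧ 0 ≤ E2 s y b k) ∨ 0 ≤ E3 s y b k := by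
  rcases le_total s (351 / 500) with h | h
  · exact be42 R s1 h y1 y2 b1 b2
  · exact be49 R h s2 y1 y2 b1 b2

theorem be40 {s y b k : ℝ} (R : RegE s y b k)
    (s1 : 1667 / 2500 ≤ s) (s2 : s ≤ 3681 / 5000) (y1 : 521 / 1000 ≤ y) (y2 : y ≤ 6023 / 10000)
    (b1 : 97 / 200 ≤ b) (b2 : b ≤ 1 / 2) :
    (s - 1 / 25 ≤ y - k + b / 2 ∧ 0 ≤ E2 s y b k) ∨ 0 ≤ E3 s y b k := by
  rcases le_total y (281 / 500) with h | h
  · exact be41 R s1 s2 y1 h b1 b2
  · exact be50 R s1 s2 h y2 b1 b2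

theorem be35 {s y b k : ℝ} (R : RegE s y b k)
    (s1 : 1667 / 2500 ≤ s) (s2 : s ≤ 3681 / 5000) (y1 : 133 / 250 ≤ y) (y2 : y ≤ 271 / 500)
    (b1 : 469 / 1000 ≤ b) (b2 : b ≤ 97 / 200) :
    (s - 1 / 25 ≤ y - k + b / 2 ∧ 0 ≤ E2 s y b k) ∨ 0 ≤ E3 s y b k := by
  rcases le_total s (351 / 500) with h | h
  · exact be36 R s1 h y1 y2 b1 b2
  · exact be37 R h s2 y1 y2 b1 b2

theorem be32 {s y b k : ℝ} (R : RegE s y b k)
    (s1 : 1667 / 2500 ≤ s) (s2 : s ≤ 3681 / 5000) (y1 : 521 / 1000 ≤ y) (y2 : y ≤ 133 / 250)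
    (b1 : 469 / 1000 ≤ b) (b2 : b ≤ 97 / 200) :
    (s - 1 / 25 ≤ y - k + b / 2 ∧ 0 ≤ E2 s y b k) ∨ 0 ≤ E3 s y b k := by
  rcases le_total s (351 / 500) with h | h
  · exact be33 R s1 h y1 y2 b1 b2
  · exact be34 R h s2 y1 y2 b1 b2

theorem be31 {s y b k : ℝ} (R : RegE s y b k)
    (s1 : 1667 / 2500 ≤ s) (s2 : s ≤ 3681 / 5000) (y1 : 521 / 1000 ≤ y) (y2 : y ≤ 271 / 500)
    (b1 : 469 / 1000 ≤ b) (b2 : b ≤ 97 / 200) :
    (s - 1 / 25 ≤ y - k + b / 2 ∧ 0 ≤ E2 s y b k) ∨ 0 ≤ E3 s y b k := by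
  rcases le_total y (133 / 250) with h | h
  · exact be32 R s1 s2 y1 h b1 b2
  · exact be35 R s1 s2 h y2 b1 b2

theorem be30 {s y b k : ℝ} (R : RegE s y b k)
    (s1 : 1667 / 2500 ≤ s) (s2 : s ≤ 3681 / 5000) (y1 : 521 / 1000 ≤ y) (y2 : y ≤ 281 / 500)
    (b1 : 469 / 1000 ≤ b) (b2 : b ≤ 97 / 200) :
    (s - 1 / 25 ≤ y - k + b / 2 ∧ 0 ≤ E2 s y b k) ∨ 0 ≤ E3 s y b k := by
  rcases le_total y (271 / 500) with h | h
  · exact be31 R s1 s2 y1 h b1 b2
  · exact be38 R s1 s2 h y2 b1 b2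

theorem be29 {s y b k : ℝ} (R : RegE s y b k)
    (s1 : 1667 / 2500 ≤ s) (s2 : s ≤ 3681 / 5000) (y1 : 521 / 1000 ≤ y) (y2 : y ≤ 6023 / 10000)
    (b1 : 469 / 1000 ≤ b) (b2 : b ≤ 97 / 200) :
    (s - 1 / 25 ≤ y - k + b / 2 ∧ 0 ≤ E2 s y b k) ∨ 0 ≤ E3 s y b k := by
  rcases le_total y (281 / 500) with h | h
  · exact be30 R s1 s2 y1 h b1 b2
  · exact be39 R s1 s2 h y2 b1 b2

theorem be28 {s y b k : ℝ} (R : RegE s y b k)
    (s1 : 1667 / 2500 ≤ s) (s2 : s ≤ 3681 / 5000) (y1 : 521 / 1000 ≤ y) (y2 : y ≤ 6023 / 10000)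
    (b1 : 469 / 1000 ≤ b) (b2 : b ≤ 1 / 2) :
    (s - 1 / 25 ≤ y - k + b / 2 ∧ 0 ≤ E2 s y b k) ∨ 0 ≤ E3 s y b k := by
  rcases le_total b (97 / 200) with h | h
  · exact be29 R s1 s2 y1 y2 b1 h
  · exact be40 R s1 s2 y1 y2 h b2

theorem be26 {s y b k : ℝ} (R : RegE s y b k)
    (s1 : 1667 / 2500 ≤ s) (s2 : s ≤ 3681 / 5000) (y1 : 521 / 1000 ≤ y) (y2 : y ≤ 6023 / 10000)
    (b1 : 219 / 500 ≤ b) (b2 : b ≤ 1 / 2) :
    (s - 1 / 25 ≤ y - k + b / 2 ∧ 0 ≤ E2 s y b k) ∨ 0 ≤ E3 s y b k := by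
  rcases le_total b (469 / 1000) with h | h
  · exact be27 R s1 s2 y1 y2 b1 h
  · exact be28 R s1 s2 y1 y2 h b2

theorem be24 {s y b k : ℝ} (R : RegE s y b k)
    (s1 : 1667 / 2500 ≤ s) (s2 : s ≤ 3681 / 5000) (y1 : 521 / 1000 ≤ y) (y2 : y ≤ 6023 / 10000)
    (b1 : 3 / 8 ≤ b) (b2 : b ≤ 1 / 2) :
    (s - 1 / 25 ≤ y - k + b / 2 ∧ 0 ≤ E2 s y b k) ∨ 0 ≤ E3 s y b k := by
  rcases le_total b (219 / 500) with h | h
  · exact be25 R s1 s2 y1 y2 b1 h
  · exact be26 R s1 s2 y1 y2 h b2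

theorem be22 {s y b k : ℝ} (R : RegE s y b k)
    (s1 : 1667 / 2500 ≤ s) (s2 : s ≤ 3681 / 5000) (y1 : 521 / 1000 ≤ y) (y2 : y ≤ 6023 / 10000)
    (b1 : 1 / 4 ≤ b) (b2 : b ≤ 1 / 2) :
    (s - 1 / 25 ≤ y - k + b / 2 ∧ 0 ≤ E2 s y b k) ∨ 0 ≤ E3 s y b k := by
  rcases le_total b (3 / 8) with h | h
  · exact be23 R s1 s2 y1 y2 b1 h
  · exact be24 R s1 s2 y1 y2 h b2

theorem be20 {s y b k : ℝ} (R : RegE s y b k)
    (s1 : 1667 / 2500 ≤ s) (s2 : s ≤ 3681 / 5000) (y1 : 521 / 1000 ≤ y) (y2 : y ≤ 6023 / 10000)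
    (b1 : 0 ≤ b) (b2 : b ≤ 1 / 2) :
    (s - 1 / 25 ≤ y - k + b / 2 ∧ 0 ≤ E2 s y b k) ∨ 0 ≤ E3 s y b k := by
  rcases le_total b (1 / 4) with h | h
  · exact be21 R s1 s2 y1 y2 b1 h
  · exact be22 R s1 s2 y1 y2 h b2

theorem be14 {s y b k : ℝ} (R : RegE s y b k)
    (s1 : 1667 / 2500 ≤ s) (s2 : s ≤ 3377 / 5000) (y1 : 511 / 1000 ≤ y) (y2 : y ≤ 521 / 1000)
    (b1 : 3 / 8 ≤ b) (b2 : b ≤ 1 / 2) :
    (s - 1 / 25 ≤ y - k + b / 2 ∧ 0 ≤ E2 s y b k) ∨ 0 ≤ E3 s y b k := by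
  rcases le_total b (219 / 500) with h | h
  · exact be15 R s1 s2 y1 y2 b1 h
  · exact be16 R s1 s2 y1 y2 h b2

theorem be12 {s y b k : ℝ} (R : RegE s y b k)
    (s1 : 1667 / 2500 ≤ s) (s2 : s ≤ 3377 / 5000) (y1 : 511 / 1000 ≤ y) (y2 : y ≤ 521 / 1000)
    (b1 : 1 / 4 ≤ b) (b2 : b ≤ 1 / 2) :
    (s - 1 / 25 ≤ y - k + b / 2 ∧ 0 ≤ E2 s y b k) ∨ 0 ≤ E3 s y b k := by
  rcases le_total b (3 / 8) with h | h
  · exact be13 R s1 s2 y1 y2 b1 h
  · exact be14 R s1 s2 y1 y2 h b2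

theorem be10 {s y b k : ℝ} (R : RegE s y b k)
    (s1 : 1667 / 2500 ≤ s) (s2 : s ≤ 3377 / 5000) (y1 : 511 / 1000 ≤ y) (y2 : y ≤ 521 / 1000)
    (b1 : 0 ≤ b) (b2 : b ≤ 1 / 2) :
    (s - 1 / 25 ≤ y - k + b / 2 ∧ 0 ≤ E2 s y b k) ∨ 0 ≤ E3 s y b k := by
  rcases le_total b (1 / 4) with h | h
  · exact be11 R s1 s2 y1 y2 b1 h
  · exact be12 R s1 s2 y1 y2 h b2

theorem be9 {s y b k : ℝ} (R : RegE s y b k)
    (s1 : 1667 / 2500 ≤ s) (s2 : s ≤ 171 / 250) (y1 : 511 / 1000 ≤ y) (y2 : y ≤ 521 / 1000)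
    (b1 : 0 ≤ b) (b2 : b ≤ 1 / 2) :
    (s - 1 / 25 ≤ y - k + b / 2 ∧ 0 ≤ E2 s y b k) ∨ 0 ≤ E3 s y b k := by
  rcases le_total s (3377 / 5000) with h | h
  · exact be10 R s1 h y1 y2 b1 b2
  · exact be17 R h s2 y1 y2 b1 b2

theorem be7 {s y b k : ℝ} (R : RegE s y b k)
    (s1 : 1667 / 2500 ≤ s) (s2 : s ≤ 171 / 250) (y1 : 501 / 1000 ≤ y) (y2 : y ≤ 521 / 1000)
    (b1 : 0 ≤ b) (b2 : b ≤ 1 / 2) :
    (s - 1 / 25 ≤ y - k + b / 2 ∧ 0 ≤ E2 s y b k) ∨ 0 ≤ E3 s y b k := by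
  rcases le_total y (511 / 1000) with h | h
  · exact be8 R s1 s2 y1 h b1 b2
  · exact be9 R s1 s2 h y2 b1 b2

theorem be6 {s y b k : ℝ} (R : RegE s y b k)
    (s1 : 1667 / 2500 ≤ s) (s2 : s ≤ 351 / 500) (y1 : 501 / 1000 ≤ y) (y2 : y ≤ 521 / 1000)
    (b1 : 0 ≤ b) (b2 : b ≤ 1 / 2) :
    (s - 1 / 25 ≤ y - k + b / 2 ∧ 0 ≤ E2 s y b k) ∨ 0 ≤ E3 s y b k := by
  rcases le_total s (171 / 250) with h | h
  · exact be7 R s1 h y1 y2 b1 b2
  · exact be18 R h s2 y1 y2 b1 b2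

theorem be4 {s y b k : ℝ} (R : RegE s y b k)
    (s1 : 1667 / 2500 ≤ s) (s2 : s ≤ 351 / 500) (y1 : 481 / 1000 ≤ y) (y2 : y ≤ 521 / 1000)
    (b1 : 0 ≤ b) (b2 : b ≤ 1 / 2) :
    (s - 1 / 25 ≤ y - k + b / 2 ∧ 0 ≤ E2 s y b k) ∨ 0 ≤ E3 s y b k := by
  rcases le_total y (501 / 1000) with h | h
  · exact be5 R s1 s2 y1 h b1 b2
  · exact be6 R s1 s2 h y2 b1 b2

theorem be3 {s y b k : ℝ} (R : RegE s y b k)
    (s1 : 1667 / 2500 ≤ s) (s2 : s ≤ 3681 / 5000) (y1 : 481 / 1000 ≤ y) (y2 : y ≤ 521 / 1000)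
    (b1 : 0 ≤ b) (b2 : b ≤ 1 / 2) :
    (s - 1 / 25 ≤ y - k + b / 2 ∧ 0 ≤ E2 s y b k) ∨ 0 ≤ E3 s y b k := by
  rcases le_total s (351 / 500) with h | h
  · exact be4 R s1 h y1 y2 b1 b2
  · exact be19 R h s2 y1 y2 b1 b2

theorem be1 {s y b k : ℝ} (R : RegE s y b k)
    (s1 : 1667 / 2500 ≤ s) (s2 : s ≤ 3681 / 5000) (y1 : 11 / 25 ≤ y) (y2 : y ≤ 521 / 1000)
    (b1 : 0 ≤ b) (b2 : b ≤ 1 / 2) :
    (s - 1 / 25 ≤ y - k + b / 2 ∧ 0 ≤ E2 s y b k) ∨ 0 ≤ E3 s y b k := by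
  rcases le_total y (481 / 1000) with h | h
  · exact be2 R s1 s2 y1 h b1 b2
  · exact be3 R s1 s2 h y2 b1 b2

theorem be0 {s y b k : ℝ} (R : RegE s y b k)
    (s1 : 1667 / 2500 ≤ s) (s2 : s ≤ 3681 / 5000) (y1 : 11 / 25 ≤ y) (y2 : y ≤ 6023 / 10000)
    (b1 : 0 ≤ b) (b2 : b ≤ 1 / 2) :
    (s - 1 / 25 ≤ y - k + b / 2 ∧ 0 ≤ E2 s y b k) ∨ 0 ≤ E3 s y b k := by
  rcases le_total y (521 / 1000) with h | h
  · exact be1 R s1 s2 y1 h b1 b2
  · exact be20 R s1 s2 h y2 b1 b2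

end Pool.Agent.Strip051.FourD
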