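import Pool.Agent.Strip051.FourB.Box

/-! # The new point above h0 + a -/

namespace Pool.Agent.Strip051.FourD

set_option linter.unusedVariables false

open Pool.Agent.StripNear Pool.Agent.StripSquare Pool.Agent.Strip051
open Pool.Agent.Strip051.Four.Low (ph)
open Pool.Agent.Strip051.FourB (lo up)

/-- The function of the boxes `bh`. -/
noncomputable def Hf (s t b k : ℝ) : ℝ :=
  2 * ph s - 4 * ph (s - 1 / 25 - t) - 4 * ph (t - 1 / 25) + 159 / 100 * (ph (h0 + s - 1 - t - k + b / 2) + ph (h0 + s - 1 - t - k - b / 2) - ph b)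

/-- The function of the boxes `bh`. -/
noncomputable def Hz (s t b k : ℝ) : ℝ :=
  2 * ph s - 4 * ph (s - 1 / 25 - t) - 4 * ph (t - 1 / 25)

/-- The region of the boxes `bh`. -/
structure RegH (s t b k : ℝ) : Prop where
  k1 : 86602 / 100000 * ph b ≤ k
  k2 : k ≤ 86603 / 100000 * ph b
  k3 : 0 ≤ k
  k4 : k ≤ 1161 / 10000
  h1 : 86602 / 100000 ≤ h0
  h2 : h0 ≤ 86603 / 100000
  hq : b / 2 - k ≤ t
  ht : t ≤ s / 2
  s1 : 1667 / 2500 ≤ s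
  s2 : s ≤ 3681 / 5000
  t1 : 1 / 25 ≤ t
  t2 : t ≤ 3681 / 10000
  b1 : 0 ≤ b
  b2 : b ≤ 1 / 2

theorem RegH.lo1 {s t b k : ℝ} (R : RegH s t b k) (w0 : ℝ) (hw0 : w0 ^ 2 < 1) :
    2 * w0 * (b) - 2 * w0 ^ 2 ≤ (1 - w0 ^ 2) * ph (b) :=
  lo hw0 (by linarith only [R.b1]) (by linarith only [R.b2])

theorem RegH.lo2 {s t b k : ℝ} (R : RegH s t b k) (w0 : ℝ) (hw0 : w0 ^ 2 < 1) :
    2 * w0 * (h0 + s - 1 - t - k + b / 2) - 2 * w0 ^ 2 ≤ (1 - w0 ^ 2) * ph (h0 + s - 1 - t - k + b / 2) :=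
  lo hw0 (by linarith only [R.k4, R.h1, R.ht, R.s1, R.b1]) (by linarith only [R.h2, R.hq, R.s2])

theorem RegH.lo3 {s t b k : ℝ} (R : RegH s t b k) (w0 : ℝ) (hw0 : w0 ^ 2 < 1) :
    2 * w0 * (h0 + s - 1 - t - k - b / 2) - 2 * w0 ^ 2 ≤ (1 - w0 ^ 2) * ph (h0 + s - 1 - t - k - b / 2) :=
  lo hw0 (by linarith only [R.k4, R.h1, R.ht, R.s1, R.b2]) (by linarith only [R.k3, R.h2, R.s2, R.t1, R.b1])

theorem RegH.lo4 {s t b k : ℝ} (R : RegH s t b k) (w0 : ℝ) (hw0 : w0 ^ 2 < 1) :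
    2 * w0 * (s - 1 / 25 - t) - 2 * w0 ^ 2 ≤ (1 - w0 ^ 2) * ph (s - 1 / 25 - t) :=
  lo hw0 (by linarith only [R.ht, R.s1]) (by linarith only [R.s2, R.t1])

theorem RegH.lo5 {s t b k : ℝ} (R : RegH s t b k) (w0 : ℝ) (hw0 : w0 ^ 2 < 1) :
    2 * w0 * (s) - 2 * w0 ^ 2 ≤ (1 - w0 ^ 2) * ph (s) :=
  lo hw0 (by linarith only [R.s1]) (by linarith only [R.s2])

theorem RegH.lo6 {s t b k : ℝ} (R : RegH s t b k) (w0 : ℝ) (hw0 : w0 ^ 2 < 1) :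
    2 * w0 * (t - 1 / 25) - 2 * w0 ^ 2 ≤ (1 - w0 ^ 2) * ph (t - 1 / 25) :=
  lo hw0 (by linarith only [R.t1]) (by linarith only [R.ht, R.s2])

theorem bh1 {s t b k : ℝ} (R : RegH s t b k)
    (s1 : 1667 / 2500 ≤ s) (s2 : s ≤ 3681 / 5000) (t1 : 1 / 25 ≤ t) (t2 : t ≤ 3681 / 10000)
    (b1 : 0 ≤ b) (b2 : b ≤ 1 / 4) :
    (t + k + b / 2 ≤ h0 + s - 1 ∧ 0 ≤ Hf s t b k) ∨ 0 ≤ Hz s t b k := by
  have e1 := up (t1 := (0 / 1000)) (t2 := (128 / 1000)) (x := b) (by norm_num)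
    (by linarith only [b1]) (by linarith only [b2])
  have e2 := up (t1 := (150 / 1000)) (t2 := (374 / 1000)) (x := s - 1 / 25 - t) (by norm_num)
    (by linarith only [R.ht, s1]) (by linarith only [s2, t1])
  have e3 := R.lo5 (382 / 1000) (by norm_num)
  have e4 := up (t1 := (0 / 1000)) (t2 := (169 / 1000)) (x := t - 1 / 25) (by norm_num)
    (by linarith only [t1]) (by linarith only [R.ht, s2])
  have e5 := R.lo2 (209 / 1000) (by norm_num)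
  have e6 := R.lo2 (335 / 1000) (by norm_num)
  have e7 := R.lo3 (156 / 1000) (by norm_num)
  left
  refine ⟨by linarith only [R.k2, R.h1, R.ht, s1, b2, e1], ?_⟩
  unfold Hf
  linarith only [R.k2, R.h1, s1, b2, e1, e2, e3, e4, e5, e6, e7]

theorem bh4 {s t b k : ℝ} (R : RegH s t b k)
    (s1 : 1667 / 2500 ≤ s) (s2 : s ≤ 3681 / 5000) (t1 : 1 / 25 ≤ t) (t2 : t ≤ 51 / 250)
    (b1 : 1 / 4 ≤ b) (b2 : b ≤ 3 / 8) :
    (t + k + b / 2 ≤ h0 + s - 1 ∧ 0 ≤ Hf s t b k) ∨ 0 ≤ Hz s t b k := by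
  have e1 := up (t1 := (127 / 1000)) (t2 := (195 / 1000)) (x := b) (by norm_num)
    (by linarith only [b1]) (by linarith only [b2])
  have e2 := up (t1 := (221 / 1000)) (t2 := (333 / 1000)) (x := s - 1 / 25 - t) (by norm_num)
    (by linarith only [s1, t2]) (by linarith only [R.k2, R.hq, s2, b1, e1])
  have e3 := R.lo5 (382 / 1000) (by norm_num)
  have e4 := up (t1 := (28 / 1000)) (t2 := (83 / 1000)) (x := t - 1 / 25) (by norm_num)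
    (by linarith only [R.k2, R.hq, b1, e1]) (by linarith only [t2])
  have e5 := R.lo2 (277 / 1000) (by norm_num)
  have e6 := R.lo3 (109 / 1000) (by norm_num)
  left
  refine ⟨by linarith only [R.k2, R.h1, s1, t2, b2, e1], ?_⟩
  unfold Hf
  linarith only [R.k2, R.h1, R.hq, s1, b2, e1, e2, e3, e4, e5, e6]

theorem bh6 {s t b k : ℝ} (R : RegH s t b k)
    (s1 : 1667 / 2500 ≤ s) (s2 : s ≤ 3681 / 5000) (t1 : 1 / 25 ≤ t) (t2 : t ≤ 51 / 250)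
    (b1 : 3 / 8 ≤ b) (b2 : b ≤ 219 / 500) :
    (t + k + b / 2 ≤ h0 + s - 1 ∧ 0 ≤ Hf s t b k) ∨ 0 ≤ Hz s t b k := by
  have e1 := up (t1 := (194 / 1000)) (t2 := (231 / 1000)) (x := b) (by norm_num)
    (by linarith only [b1]) (by linarith only [b2])
  have e2 := up (t1 := (221 / 1000)) (t2 := (315 / 1000)) (x := s - 1 / 25 - t) (by norm_num)
    (by linarith only [s1, t2]) (by linarith only [R.k2, R.hq, s2, b1, e1])
  have e3 := R.lo5 (382 / 1000) (by norm_num)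
  have e4 := up (t1 := (42 / 1000)) (t2 := (83 / 1000)) (x := t - 1 / 25) (by norm_num)
    (by linarith only [R.k2, R.hq, b1, e1]) (by linarith only [t2])
  have e5 := R.lo2 (285 / 1000) (by norm_num)
  have e6 := R.lo3 (63 / 1000) (by norm_num)
  left
  refine ⟨by linarith only [R.k2, R.h1, s1, t2, b2, e1], ?_⟩
  unfold Hf
  linarith only [R.k2, R.h1, R.hq, s1, b2, e1, e2, e3, e4, e5, e6]

theorem bh8 {s t b k : ℝ} (R : RegH s t b k)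
    (s1 : 1667 / 2500 ≤ s) (s2 : s ≤ 3681 / 5000) (t1 : 1 / 25 ≤ t) (t2 : t ≤ 61 / 500)
    (b1 : 219 / 500 ≤ b) (b2 : b ≤ 1 / 2) :
    (t + k + b / 2 ≤ h0 + s - 1 ∧ 0 ≤ Hf s t b k) ∨ 0 ≤ Hz s t b k := by
  have e1 := up (t1 := (230 / 1000)) (t2 := (254 / 1000)) (x := b) (by norm_num)
    (by linarith only [b1]) (by linarith only [R.k4, R.hq, t2])
  exfalso
  linarith only [R.k2, R.hq, t2, b1, e1]

theorem bh11 {s t b k : ℝ} (R : RegH s t b k)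
    (s1 : 1667 / 2500 ≤ s) (s2 : s ≤ 351 / 500) (t1 : 61 / 500 ≤ t) (t2 : t ≤ 163 / 1000)
    (b1 : 219 / 500 ≤ b) (b2 : b ≤ 1 / 2) :
    (t + k + b / 2 ≤ h0 + s - 1 ∧ 0 ≤ Hf s t b k) ∨ 0 ≤ Hz s t b k := by
  have e1 := up (t1 := (230 / 1000)) (t2 := (268 / 1000)) (x := b) (by norm_num)
    (by linarith only [b1]) (by linarith only [b2])
  have e2 := up (t1 := (245 / 1000)) (t2 := (288 / 1000)) (x := s - 1 / 25 - t) (by norm_num)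
    (by linarith only [s1, t2]) (by linarith only [R.k2, R.hq, s2, b1, e1])
  have e3 := R.lo5 (382 / 1000) (by norm_num)
  have e4 := up (t1 := (45 / 1000)) (t2 := (62 / 1000)) (x := t - 1 / 25) (by norm_num)
    (by linarith only [R.k2, R.hq, b1, e1]) (by linarith only [t2])
  have e5 := R.lo2 (290 / 1000) (by norm_num)
  have e6 := R.lo3 (2 / 1000) (by norm_num)
  left
  refine ⟨by linarith only [R.k2, R.h1, s1, t2, b2, e1], ?_⟩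
  unfold Hf
  linarith only [R.k2, R.h1, R.hq, s1, b2, e1, e2, e3, e4, e5, e6]

theorem bh12 {s t b k : ℝ} (R : RegH s t b k)
    (s1 : 351 / 500 ≤ s) (s2 : s ≤ 3681 / 5000) (t1 : 61 / 500 ≤ t) (t2 : t ≤ 163 / 1000)
    (b1 : 219 / 500 ≤ b) (b2 : b ≤ 1 / 2) :
    (t + k + b / 2 ≤ h0 + s - 1 ∧ 0 ≤ Hf s t b k) ∨ 0 ≤ Hz s t b k := by
  have e1 := up (t1 := (230 / 1000)) (t2 := (268 / 1000)) (x := b) (by norm_num)
    (by linarith only [b1]) (by linarith only [b2])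
  have e2 := up (t1 := (267 / 1000)) (t2 := (310 / 1000)) (x := s - 1 / 25 - t) (by norm_num)
    (by linarith only [s1, t2]) (by linarith only [R.k2, R.hq, s2, b1, e1])
  have e3 := R.lo5 (410 / 1000) (by norm_num)
  have e4 := up (t1 := (45 / 1000)) (t2 := (62 / 1000)) (x := t - 1 / 25) (by norm_num)
    (by linarith only [R.k2, R.hq, b1, e1]) (by linarith only [t2])
  have e5 := R.lo2 (312 / 1000) (by norm_num)
  have e6 := R.lo3 (20 / 1000) (by norm_num)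
  left
  refine ⟨by linarith only [R.k2, R.h1, s1, t2, b2, e1], ?_⟩
  unfold Hf
  linarith only [R.k2, R.h1, R.hq, s1, b2, e1, e2, e3, e4, e5, e6]

theorem bh15 {s t b k : ℝ} (R : RegH s t b k)
    (s1 : 1667 / 2500 ≤ s) (s2 : s ≤ 351 / 500) (t1 : 163 / 1000 ≤ t) (t2 : t ≤ 23 / 125)
    (b1 : 219 / 500 ≤ b) (b2 : b ≤ 1 / 2) :
    (t + k + b / 2 ≤ h0 + s - 1 ∧ 0 ≤ Hf s t b k) ∨ 0 ≤ Hz s t b k := by
  have e1 := up (t1 := (233 / 1000)) (t2 := (268 / 1000)) (x := s - 1 / 25 - t) (by norm_num)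
    (by linarith only [s1, t2]) (by linarith only [s2, t1])
  have e2 := R.lo5 (410 / 1000) (by norm_num)
  have e3 := up (t1 := (61 / 1000)) (t2 := (73 / 1000)) (x := t - 1 / 25) (by norm_num)
    (by linarith only [t1]) (by linarith only [t2])
  right
  unfold Hz
  linarith only [s2, t1, e1, e2, e3]

theorem bh16 {s t b k : ℝ} (R : RegH s t b k)
    (s1 : 351 / 500 ≤ s) (s2 : s ≤ 3681 / 5000) (t1 : 163 / 1000 ≤ t) (t2 : t ≤ 23 / 125)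
    (b1 : 219 / 500 ≤ b) (b2 : b ≤ 1 / 2) :
    (t + k + b / 2 ≤ h0 + s - 1 ∧ 0 ≤ Hf s t b k) ∨ 0 ≤ Hz s t b k := by
  have e1 := up (t1 := (230 / 1000)) (t2 := (268 / 1000)) (x := b) (by norm_num)
    (by linarith only [b1]) (by linarith only [b2])
  have e2 := up (t1 := (254 / 1000)) (t2 := (289 / 1000)) (x := s - 1 / 25 - t) (by norm_num)
    (by linarith only [s1, t2]) (by linarith only [s2, t1])
  have e3 := R.lo5 (410 / 1000) (by norm_num)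
  have e4 := up (t1 := (61 / 1000)) (t2 := (73 / 1000)) (x := t - 1 / 25) (by norm_num)
    (by linarith only [t1]) (by linarith only [t2])
  have e5 := R.lo2 (296 / 1000) (by norm_num)
  have e6 := R.lo3 (9 / 1000) (by norm_num)
  left
  refine ⟨by linarith only [R.k2, R.h1, s1, t2, b2, e1], ?_⟩
  unfold Hf
  linarith only [R.k2, R.h1, s1, t1, b2, e1, e2, e3, e4, e5, e6]

theorem bh17 {s t b k : ℝ} (R : RegH s t b k)
    (s1 : 1667 / 2500 ≤ s) (s2 : s ≤ 3681 / 5000) (t1 : 23 / 125 ≤ t) (t2 : t ≤ 51 / 250)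
    (b1 : 219 / 500 ≤ b) (b2 : b ≤ 1 / 2) :
    (t + k + b / 2 ≤ h0 + s - 1 ∧ 0 ≤ Hf s t b k) ∨ 0 ≤ Hz s t b k := by
  have e1 := up (t1 := (221 / 1000)) (t2 := (276 / 1000)) (x := s - 1 / 25 - t) (by norm_num)
    (by linarith only [s1, t2]) (by linarith only [s2, t1])
  have e2 := R.lo5 (410 / 1000) (by norm_num)
  have e3 := R.lo5 (439 / 1000) (by norm_num)
  have e4 := up (t1 := (72 / 1000)) (t2 := (83 / 1000)) (x := t - 1 / 25) (by norm_num)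
    (by linarith only [t1]) (by linarith only [t2])
  right
  unfold Hz
  linarith only [t1, e1, e2, e3, e4]

theorem bh18 {s t b k : ℝ} (R : RegH s t b k)
    (s1 : 1667 / 2500 ≤ s) (s2 : s ≤ 3681 / 5000) (t1 : 51 / 250 ≤ t) (t2 : t ≤ 3681 / 10000)
    (b1 : 1 / 4 ≤ b) (b2 : b ≤ 1 / 2) :
    (t + k + b / 2 ≤ h0 + s - 1 ∧ 0 ≤ Hf s t b k) ∨ 0 ≤ Hz s t b k := by
  have e1 := up (t1 := (150 / 1000)) (t2 := (264 / 1000)) (x := s - 1 / 25 - t) (by norm_num)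
    (by linarith only [R.ht, s1]) (by linarith only [s2, t1])
  have e2 := R.lo5 (382 / 1000) (by norm_num)
  have e3 := up (t1 := (82 / 1000)) (t2 := (169 / 1000)) (x := t - 1 / 25) (by norm_num)
    (by linarith only [t1]) (by linarith only [R.ht, s2])
  right
  unfold Hz
  linarith only [s1, t1, e1, e2, e3]

theorem bh14 {s t b k : ℝ} (R : RegH s t b k)
    (s1 : 1667 / 2500 ≤ s) (s2 : s ≤ 3681 / 5000) (t1 : 163 / 1000 ≤ t) (t2 : t ≤ 23 / 125)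
    (b1 : 219 / 500 ≤ b) (b2 : b ≤ 1 / 2) :
    (t + k + b / 2 ≤ h0 + s - 1 ∧ 0 ≤ Hf s t b k) ∨ 0 ≤ Hz s t b k := by
  rcases le_total s (351 / 500) with h | h
  · exact bh15 R s1 h t1 t2 b1 b2
  · exact bh16 R h s2 t1 t2 b1 b2

theorem bh13 {s t b k : ℝ} (R : RegH s t b k)
    (s1 : 1667 / 2500 ≤ s) (s2 : s ≤ 3681 / 5000) (t1 : 163 / 1000 ≤ t) (t2 : t ≤ 51 / 250)
    (b1 : 219 / 500 ≤ b) (b2 : b ≤ 1 / 2) :
    (t + k + b / 2 ≤ h0 + s - 1 ∧ 0 ≤ Hf s t b k) ∨ 0 ≤ Hz s t b k := by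
  rcases le_total t (23 / 125) with h | h
  · exact bh14 R s1 s2 t1 h b1 b2
  · exact bh17 R s1 s2 h t2 b1 b2

theorem bh10 {s t b k : ℝ} (R : RegH s t b k)
    (s1 : 1667 / 2500 ≤ s) (s2 : s ≤ 3681 / 5000) (t1 : 61 / 500 ≤ t) (t2 : t ≤ 163 / 1000)
    (b1 : 219 / 500 ≤ b) (b2 : b ≤ 1 / 2) :
    (t + k + b / 2 ≤ h0 + s - 1 ∧ 0 ≤ Hf s t b k) ∨ 0 ≤ Hz s t b k := by
  rcases le_total s (351 / 500) with h | h
  · exact bh11 R s1 h t1 t2 b1 b2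
  · exact bh12 R h s2 t1 t2 b1 b2

theorem bh9 {s t b k : ℝ} (R : RegH s t b k)
    (s1 : 1667 / 2500 ≤ s) (s2 : s ≤ 3681 / 5000) (t1 : 61 / 500 ≤ t) (t2 : t ≤ 51 / 250)
    (b1 : 219 / 500 ≤ b) (b2 : b ≤ 1 / 2) :
    (t + k + b / 2 ≤ h0 + s - 1 ∧ 0 ≤ Hf s t b k) ∨ 0 ≤ Hz s t b k := by
  rcases le_total t (163 / 1000) with h | h
  · exact bh10 R s1 s2 t1 h b1 b2
  · exact bh13 R s1 s2 h t2 b1 b2

theorem bh7 {s t b k : ℝ} (R : RegH s t b k)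
    (s1 : 1667 / 2500 ≤ s) (s2 : s ≤ 3681 / 5000) (t1 : 1 / 25 ≤ t) (t2 : t ≤ 51 / 250)
    (b1 : 219 / 500 ≤ b) (b2 : b ≤ 1 / 2) :
    (t + k + b / 2 ≤ h0 + s - 1 ∧ 0 ≤ Hf s t b k) ∨ 0 ≤ Hz s t b k := by
  rcases le_total t (61 / 500) with h | h
  · exact bh8 R s1 s2 t1 h b1 b2
  · exact bh9 R s1 s2 h t2 b1 b2

theorem bh5 {s t b k : ℝ} (R : RegH s t b k)
    (s1 : 1667 / 2500 ≤ s) (s2 : s ≤ 3681 / 5000) (t1 : 1 / 25 ≤ t) (t2 : t ≤ 51 / 250)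
    (b1 : 3 / 8 ≤ b) (b2 : b ≤ 1 / 2) :
    (t + k + b / 2 ≤ h0 + s - 1 ∧ 0 ≤ Hf s t b k) ∨ 0 ≤ Hz s t b k := by
  rcases le_total b (219 / 500) with h | h
  · exact bh6 R s1 s2 t1 t2 b1 h
  · exact bh7 R s1 s2 t1 t2 h b2

theorem bh3 {s t b k : ℝ} (R : RegH s t b k)
    (s1 : 1667 / 2500 ≤ s) (s2 : s ≤ 3681 / 5000) (t1 : 1 / 25 ≤ t) (t2 : t ≤ 51 / 250)
    (b1 : 1 / 4 ≤ b) (b2 : b ≤ 1 / 2) :
    (t + k + b / 2 ≤ h0 + s - 1 ∧ 0 ≤ Hf s t b k) ∨ 0 ≤ Hz s t b k := by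
  rcases le_total b (3 / 8) with h | h
  · exact bh4 R s1 s2 t1 t2 b1 h
  · exact bh5 R s1 s2 t1 t2 h b2

theorem bh2 {s t b k : ℝ} (R : RegH s t b k)
    (s1 : 1667 / 2500 ≤ s) (s2 : s ≤ 3681 / 5000) (t1 : 1 / 25 ≤ t) (t2 : t ≤ 3681 / 10000)
    (b1 : 1 / 4 ≤ b) (b2 : b ≤ 1 / 2) :
    (t + k + b / 2 ≤ h0 + s - 1 ∧ 0 ≤ Hf s t b k) ∨ 0 ≤ Hz s t b k := by
  rcases le_total t (51 / 250) with h | h
  · exact bh3 R s1 s2 t1 h b1 b2
  · exact bh18 R s1 s2 h t2 b1 b2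

theorem bh0 {s t b k : ℝ} (R : RegH s t b k)
    (s1 : 1667 / 2500 ≤ s) (s2 : s ≤ 3681 / 5000) (t1 : 1 / 25 ≤ t) (t2 : t ≤ 3681 / 10000)
    (b1 : 0 ≤ b) (b2 : b ≤ 1 / 2) :
    (t + k + b / 2 ≤ h0 + s - 1 ∧ 0 ≤ Hf s t b k) ∨ 0 ≤ Hz s t b k := by
  rcases le_total b (1 / 4) with h | h
  · exact bh1 R s1 s2 t1 t2 b1 h
  · exact bh2 R s1 s2 t1 t2 h b2

end Pool.Agent.Strip051.FourD
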