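import Pool.Agent.Strip051.FourB.Box

/-! # The new point between s and h0 -/

namespace Pool.Agent.Strip051.FourD

set_option linter.unusedVariables false

open Pool.Agent.StripNear Pool.Agent.StripSquare Pool.Agent.Strip051
open Pool.Agent.Strip051.Four.Low (ph)
open Pool.Agent.Strip051.FourB (lo up)

/-- The function of the boxes `bma`. -/
noncomputable def MaM1 (s y d b k : ℝ) : ℝ :=
  1 + 2 * ph s - 4 * ph y - ph b - 2 * ph (h0 + s - y) + ph (y - k - b / 2) + ph (y - k + b / 2)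

/-- The function of the boxes `bma`. -/
noncomputable def MaM2 (s y d b k : ℝ) : ℝ :=
  2 * ph s - 4 * ph y - 2 * ph b + ph (h0 - k + b / 2) - ph (h0 + s - y) - ph (s - 1 / 25) + ph (y - k - b / 2) + ph (y - k - b / 2 - 1 / 25) + ph (y - k + b / 2)

/-- The function of the boxes `bma`. -/
noncomputable def MaM3 (s y d b k : ℝ) : ℝ :=
  2 * ph s - 4 * ph y - 2 * ph b + ph (h0 - k + b / 2) - ph (h0 + s - y) + ph (y - k - b / 2 - 1 / 25) + ph (s - y + k + b / 2 - 1 / 25) + ph (y - k + b / 2)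

/-- The function of the boxes `bma`. -/
noncomputable def MaN1 (s y d b k : ℝ) : ℝ :=
  1 + 2 * ph s - 4 * ph y - ph b - 2 * ph (h0 + s - y) + ph (y - k - b / 2) + ph (h0 - k + b / 2) - ph (2 * h0 + 1 / 25 - y) + ph (h0 + 1 / 25)

/-- The region of the boxes `bma`. -/
structure RegMa (s y d b k : ℝ) : Prop where
  k1 : 86602 / 100000 * ph b ≤ k
  k2 : k ≤ 86603 / 100000 * ph b
  k3 : 0 ≤ k
  k4 : k ≤ 1161 / 10000
  h1 : 86602 / 100000 ≤ h0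
  h2 : h0 ≤ 86603 / 100000
  y1 : d + s ≤ y
  y2 : y ≤ d + s
  hd : y ≤ h0 - 15 / 1000
  hq : h0 - k + b / 2 ≤ 1
  s1 : 1667 / 2500 ≤ s
  s2 : s ≤ 3681 / 5000
  d1 : 1 / 50 ≤ d
  d2 : d ≤ 1843 / 10000
  b1 : 0 ≤ b
  b2 : b ≤ 1 / 2

theorem RegMa.lo2 {s y d b k : ℝ} (R : RegMa s y d b k) (w0 : ℝ) (hw0 : w0 ^ 2 < 1) :
    2 * w0 * (b) - 2 * w0 ^ 2 ≤ (1 - w0 ^ 2) * ph (b) :=
  lo hw0 (by linarith only [R.b1]) (by linarith only [R.b2])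

theorem RegMa.lo3 {s y d b k : ℝ} (R : RegMa s y d b k) (w0 : ℝ) (hw0 : w0 ^ 2 < 1) :
    2 * w0 * (h0 + 1 / 25) - 2 * w0 ^ 2 ≤ (1 - w0 ^ 2) * ph (h0 + 1 / 25) :=
  lo hw0 (by linarith only [R.h1]) (by linarith only [R.h2])

theorem RegMa.lo4 {s y d b k : ℝ} (R : RegMa s y d b k) (w0 : ℝ) (hw0 : w0 ^ 2 < 1) :
    2 * w0 * (h0 + s - y) - 2 * w0 ^ 2 ≤ (1 - w0 ^ 2) * ph (h0 + s - y) :=
  lo hw0 (by linarith only [R.hd, R.s1]) (by linarith only [R.h2, R.y1, R.d1])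

theorem RegMa.lo5 {s y d b k : ℝ} (R : RegMa s y d b k) (w0 : ℝ) (hw0 : w0 ^ 2 < 1) :
    2 * w0 * (h0 - k + b / 2) - 2 * w0 ^ 2 ≤ (1 - w0 ^ 2) * ph (h0 - k + b / 2) :=
  lo hw0 (by linarith only [R.k4, R.h1, R.b1]) (by linarith only [R.hq])

theorem RegMa.lo6 {s y d b k : ℝ} (R : RegMa s y d b k) (w0 : ℝ) (hw0 : w0 ^ 2 < 1) :
    2 * w0 * (s - 1 / 25) - 2 * w0 ^ 2 ≤ (1 - w0 ^ 2) * ph (s - 1 / 25) :=
  lo hw0 (by linarith only [R.s1]) (by linarith only [R.s2])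

theorem RegMa.lo7 {s y d b k : ℝ} (R : RegMa s y d b k) (w0 : ℝ) (hw0 : w0 ^ 2 < 1) :
    2 * w0 * (s - y + k + b / 2 - 1 / 25) - 2 * w0 ^ 2 ≤ (1 - w0 ^ 2) * ph (s - y + k + b / 2 - 1 / 25) :=
  lo hw0 (by linarith only [R.k3, R.h2, R.hd, R.s1, R.b1]) (by linarith only [R.k4, R.y1, R.d1, R.b2])

theorem RegMa.lo8 {s y d b k : ℝ} (R : RegMa s y d b k) (w0 : ℝ) (hw0 : w0 ^ 2 < 1) :
    2 * w0 * (s) - 2 * w0 ^ 2 ≤ (1 - w0 ^ 2) * ph (s) :=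
  lo hw0 (by linarith only [R.s1]) (by linarith only [R.s2])

theorem RegMa.lo9 {s y d b k : ℝ} (R : RegMa s y d b k) (w0 : ℝ) (hw0 : w0 ^ 2 < 1) :
    2 * w0 * (y - k + b / 2) - 2 * w0 ^ 2 ≤ (1 - w0 ^ 2) * ph (y - k + b / 2) :=
  lo hw0 (by linarith only [R.k4, R.y1, R.s1, R.d1, R.b1]) (by linarith only [R.hd, R.hq])

theorem RegMa.lo10 {s y d b k : ℝ} (R : RegMa s y d b k) (w0 : ℝ) (hw0 : w0 ^ 2 < 1) :
    2 * w0 * (y - k - b / 2 - 1 / 25) - 2 * w0 ^ 2 ≤ (1 - w0 ^ 2) * ph (y - k - b / 2 - 1 / 25) :=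
  lo hw0 (by linarith only [R.k4, R.y1, R.s1, R.d1, R.b2]) (by linarith only [R.k3, R.h2, R.hd, R.b1])

theorem RegMa.lo11 {s y d b k : ℝ} (R : RegMa s y d b k) (w0 : ℝ) (hw0 : w0 ^ 2 < 1) :
    2 * w0 * (y - k - b / 2) - 2 * w0 ^ 2 ≤ (1 - w0 ^ 2) * ph (y - k - b / 2) :=
  lo hw0 (by linarith only [R.k4, R.y1, R.s1, R.d1, R.b2]) (by linarith only [R.k3, R.h2, R.hd, R.b1])

theorem RegMa.lo12 {s y d b k : ℝ} (R : RegMa s y d b k) (w0 : ℝ) (hw0 : w0 ^ 2 < 1) :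
    2 * w0 * (y) - 2 * w0 ^ 2 ≤ (1 - w0 ^ 2) * ph (y) :=
  lo hw0 (by linarith only [R.y1, R.s1, R.d1]) (by linarith only [R.h2, R.hd])

theorem bma5 {s y d b k : ℝ} (R : RegMa s y d b k)
    (s1 : 1667 / 2500 ≤ s) (s2 : s ≤ 351 / 500) (d1 : 1 / 50 ≤ d) (d2 : d ≤ 61 / 1000)
    (b1 : 0 ≤ b) (b2 : b ≤ 1 / 8) :
    0 ≤ MaM1 s y d b k ∨ 0 ≤ MaM2 s y d b k ∨ 0 ≤ MaM3 s y d b k ∨ (2 * h0 + 1 / 25 - 1 ≤ y ∧ 0 ≤ MaN1 s y d b k) := by
  have e1 := up (t1 := (0 / 1000)) (t2 := (63 / 1000)) (x := b) (by norm_num)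
    (by linarith only [b1]) (by linarith only [b2])
  have e2 := R.lo8 (410 / 1000) (by norm_num)
  have e3 := up (t1 := (505 / 1000)) (t2 := (552 / 1000)) (x := h0 + s - y) (by norm_num)
    (by linarith only [R.h1, R.y2, d2]) (by linarith only [R.h2, R.y1, d1])
  have e4 := R.lo9 (454 / 1000) (by norm_num)
  have e5 := R.lo11 (400 / 1000) (by norm_num)
  have e6 := R.lo11 (346 / 1000) (by norm_num)
  have e7 := up (t1 := (397 / 1000)) (t2 := (464 / 1000)) (x := y) (by norm_num)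
    (by linarith only [R.y1, s1, d1]) (by linarith only [R.y2, s2, d2])
  left
  unfold MaM1
  linarith only [R.k2, R.h2, R.y1, s2, d1, e1, e2, e3, e4, e5, e6, e7]

theorem bma6 {s y d b k : ℝ} (R : RegMa s y d b k)
    (s1 : 351 / 500 ≤ s) (s2 : s ≤ 3681 / 5000) (d1 : 1 / 50 ≤ d) (d2 : d ≤ 61 / 1000)
    (b1 : 0 ≤ b) (b2 : b ≤ 1 / 8) :
    0 ≤ MaM1 s y d b k ∨ 0 ≤ MaM2 s y d b k ∨ 0 ≤ MaM3 s y d b k ∨ (2 * h0 + 1 / 25 - 1 ≤ y ∧ 0 ≤ MaN1 s y d b k) := by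
  have e1 := up (t1 := (0 / 1000)) (t2 := (63 / 1000)) (x := b) (by norm_num)
    (by linarith only [b1]) (by linarith only [b2])
  have e2 := R.lo8 (439 / 1000) (by norm_num)
  have e3 := up (t1 := (505 / 1000)) (t2 := (552 / 1000)) (x := h0 + s - y) (by norm_num)
    (by linarith only [R.h1, R.y2, d2]) (by linarith only [R.h2, R.y1, d1])
  have e4 := R.lo9 (487 / 1000) (by norm_num)
  have e5 := up (t1 := (426 / 1000)) (t2 := (498 / 1000)) (x := y) (by norm_num)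
    (by linarith only [R.y1, s1, d1]) (by linarith only [R.y2, s2, d2])
  have e6 := R.lo9 (510 / 1000) (by norm_num)
  have e7 := R.lo11 (400 / 1000) (by norm_num)
  left
  unfold MaM1
  linarith only [R.k2, R.h2, R.y1, s2, d1, e1, e2, e3, e4, e5, e6, e7]

theorem bma7 {s y d b k : ℝ} (R : RegMa s y d b k)
    (s1 : 1667 / 2500 ≤ s) (s2 : s ≤ 3681 / 5000) (d1 : 61 / 1000 ≤ d) (d2 : d ≤ 51 / 500)
    (b1 : 0 ≤ b) (b2 : b ≤ 1 / 8) :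
    0 ≤ MaM1 s y d b k ∨ 0 ≤ MaM2 s y d b k ∨ 0 ≤ MaM3 s y d b k ∨ (2 * h0 + 1 / 25 - 1 ≤ y ∧ 0 ≤ MaN1 s y d b k) := by
  have e1 := up (t1 := (0 / 1000)) (t2 := (63 / 1000)) (x := b) (by norm_num)
    (by linarith only [b1]) (by linarith only [b2])
  have e2 := R.lo8 (439 / 1000) (by norm_num)
  have e3 := up (t1 := (464 / 1000)) (t2 := (506 / 1000)) (x := h0 + s - y) (by norm_num)
    (by linarith only [R.h1, R.y2, d2]) (by linarith only [R.h2, R.y1, d1])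
  have e4 := R.lo9 (511 / 1000) (by norm_num)
  have e5 := R.lo9 (617 / 1000) (by norm_num)
  have e6 := R.lo11 (450 / 1000) (by norm_num)
  have e7 := up (t1 := (431 / 1000)) (t2 := (543 / 1000)) (x := y) (by norm_num)
    (by linarith only [R.y1, s1, d1]) (by linarith only [R.y2, s2, d2])
  left
  unfold MaM1
  linarith only [R.k2, R.h2, s2, b2, e1, e2, e3, e4, e5, e6, e7]

theorem bma9 {s y d b k : ℝ} (R : RegMa s y d b k)
    (s1 : 1667 / 2500 ≤ s) (s2 : s ≤ 3681 / 5000) (d1 : 1 / 50 ≤ d) (d2 : d ≤ 61 / 1000)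
    (b1 : 1 / 8 ≤ b) (b2 : b ≤ 1 / 4) :
    0 ≤ MaM1 s y d b k ∨ 0 ≤ MaM2 s y d b k ∨ 0 ≤ MaM3 s y d b k ∨ (2 * h0 + 1 / 25 - 1 ≤ y ∧ 0 ≤ MaN1 s y d b k) := by
  have e1 := up (t1 := (62 / 1000)) (t2 := (128 / 1000)) (x := b) (by norm_num)
    (by linarith only [b1]) (by linarith only [b2])
  have e2 := up (t1 := (352 / 1000)) (t2 := (406 / 1000)) (x := s - 1 / 25) (by norm_num)
    (by linarith only [s1]) (by linarith only [s2])
  have e3 := R.lo8 (439 / 1000) (by norm_num)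
  have e4 := up (t1 := (505 / 1000)) (t2 := (552 / 1000)) (x := h0 + s - y) (by norm_num)
    (by linarith only [R.h1, R.y2, d2]) (by linarith only [R.h2, R.y1, d1])
  have e5 := R.lo5 (707 / 1000) (by norm_num)
  have e6 := R.lo9 (520 / 1000) (by norm_num)
  have e7 := R.lo9 (618 / 1000) (by norm_num)
  have e8 := R.lo10 (327 / 1000) (by norm_num)
  have e9 := R.lo10 (399 / 1000) (by norm_num)
  have e10 := R.lo11 (355 / 1000) (by norm_num)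
  have e11 := up (t1 := (397 / 1000)) (t2 := (498 / 1000)) (x := y) (by norm_num)
    (by linarith only [R.y1, s1, d1]) (by linarith only [R.y2, s2, d2])
  right
  left
  unfold MaM2
  linarith only [R.k2, R.h1, s2, e1, e2, e3, e4, e5, e6, e7, e8, e9, e10, e11]

theorem bma11 {s y d b k : ℝ} (R : RegMa s y d b k)
    (s1 : 1667 / 2500 ≤ s) (s2 : s ≤ 3681 / 5000) (d1 : 61 / 1000 ≤ d) (d2 : d ≤ 51 / 500)
    (b1 : 1 / 8 ≤ b) (b2 : b ≤ 47 / 250) :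
    0 ≤ MaM1 s y d b k ∨ 0 ≤ MaM2 s y d b k ∨ 0 ≤ MaM3 s y d b k ∨ (2 * h0 + 1 / 25 - 1 ≤ y ∧ 0 ≤ MaN1 s y d b k) := by
  have e1 := up (t1 := (62 / 1000)) (t2 := (95 / 1000)) (x := b) (by norm_num)
    (by linarith only [b1]) (by linarith only [b2])
  have e2 := up (t1 := (352 / 1000)) (t2 := (406 / 1000)) (x := s - 1 / 25) (by norm_num)
    (by linarith only [s1]) (by linarith only [s2])
  have e3 := R.lo8 (439 / 1000) (by norm_num)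
  have e4 := up (t1 := (464 / 1000)) (t2 := (506 / 1000)) (x := h0 + s - y) (by norm_num)
    (by linarith only [R.h1, R.y2, d2]) (by linarith only [R.h2, R.y1, d1])
  have e5 := R.lo5 (686 / 1000) (by norm_num)
  have e6 := R.lo9 (557 / 1000) (by norm_num)
  have e7 := R.lo11 (403 / 1000) (by norm_num)
  have e8 := up (t1 := (431 / 1000)) (t2 := (543 / 1000)) (x := y) (by norm_num)
    (by linarith only [R.y1, s1, d1]) (by linarith only [R.y2, s2, d2])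
  have e9 := R.lo8 (425 / 1000) (by norm_num)
  have e10 := R.lo9 (608 / 1000) (by norm_num)
  have e11 := R.lo10 (403 / 1000) (by norm_num)
  have e12 := R.lo11 (437 / 1000) (by norm_num)
  right
  left
  unfold MaM2
  linarith only [R.k2, R.h1, e1, e2, e3, e4, e5, e6, e7, e8, e9, e10, e11, e12]

theorem bma12 {s y d b k : ℝ} (R : RegMa s y d b k)
    (s1 : 1667 / 2500 ≤ s) (s2 : s ≤ 3681 / 5000) (d1 : 61 / 1000 ≤ d) (d2 : d ≤ 51 / 500)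
    (b1 : 47 / 250 ≤ b) (b2 : b ≤ 1 / 4) :
    0 ≤ MaM1 s y d b k ∨ 0 ≤ MaM2 s y d b k ∨ 0 ≤ MaM3 s y d b k ∨ (2 * h0 + 1 / 25 - 1 ≤ y ∧ 0 ≤ MaN1 s y d b k) := by
  have e1 := up (t1 := (94 / 1000)) (t2 := (128 / 1000)) (x := b) (by norm_num)
    (by linarith only [b1]) (by linarith only [b2])
  have e2 := up (t1 := (352 / 1000)) (t2 := (406 / 1000)) (x := s - 1 / 25) (by norm_num)
    (by linarith only [s1]) (by linarith only [s2])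
  have e3 := R.lo8 (439 / 1000) (by norm_num)
  have e4 := up (t1 := (464 / 1000)) (t2 := (506 / 1000)) (x := h0 + s - y) (by norm_num)
    (by linarith only [R.h1, R.y2, d2]) (by linarith only [R.h2, R.y1, d1])
  have e5 := R.lo5 (734 / 1000) (by norm_num)
  have e6 := R.lo9 (584 / 1000) (by norm_num)
  have e7 := R.lo10 (342 / 1000) (by norm_num)
  have e8 := R.lo11 (371 / 1000) (by norm_num)
  have e9 := up (t1 := (431 / 1000)) (t2 := (543 / 1000)) (x := y) (by norm_num)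
    (by linarith only [R.y1, s1, d1]) (by linarith only [R.y2, s2, d2])
  have e10 := R.lo8 (425 / 1000) (by norm_num)
  have e11 := R.lo9 (641 / 1000) (by norm_num)
  have e12 := R.lo11 (402 / 1000) (by norm_num)
  right
  left
  unfold MaM2
  linarith only [R.k2, R.h1, e1, e2, e3, e4, e5, e6, e7, e8, e9, e10, e11, e12]

theorem bma14 {s y d b k : ℝ} (R : RegMa s y d b k)
    (s1 : 1667 / 2500 ≤ s) (s2 : s ≤ 3681 / 5000) (d1 : 51 / 500 ≤ d) (d2 : d ≤ 1843 / 10000)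
    (b1 : 0 ≤ b) (b2 : b ≤ 1 / 8) :
    0 ≤ MaM1 s y d b k ∨ 0 ≤ MaM2 s y d b k ∨ 0 ≤ MaM3 s y d b k ∨ (2 * h0 + 1 / 25 - 1 ≤ y ∧ 0 ≤ MaN1 s y d b k) := by
  have e1 := up (t1 := (0 / 1000)) (t2 := (63 / 1000)) (x := b) (by norm_num)
    (by linarith only [b1]) (by linarith only [b2])
  have e2 := R.lo8 (439 / 1000) (by norm_num)
  have e3 := up (t1 := (393 / 1000)) (t2 := (465 / 1000)) (x := h0 + s - y) (by norm_num)
    (by linarith only [R.hd, s1]) (by linarith only [R.h2, R.y1, d1])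
  have e4 := R.lo9 (638 / 1000) (by norm_num)
  have e5 := up (t1 := (468 / 1000)) (t2 := (559 / 1000)) (x := y) (by norm_num)
    (by linarith only [R.y1, s1, d1]) (by linarith only [R.h2, R.hd])
  have e6 := R.lo8 (425 / 1000) (by norm_num)
  have e7 := R.lo9 (592 / 1000) (by norm_num)
  have e8 := R.lo11 (518 / 1000) (by norm_num)
  left
  unfold MaM1
  linarith only [R.k2, R.h2, R.hd, e1, e2, e3, e4, e5, e6, e7, e8]

theorem bma16 {s y d b k : ℝ} (R : RegMa s y d b k)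
    (s1 : 1667 / 2500 ≤ s) (s2 : s ≤ 3681 / 5000) (d1 : 51 / 500 ≤ d) (d2 : d ≤ 1843 / 10000)
    (b1 : 1 / 8 ≤ b) (b2 : b ≤ 47 / 250) :
    0 ≤ MaM1 s y d b k ∨ 0 ≤ MaM2 s y d b k ∨ 0 ≤ MaM3 s y d b k ∨ (2 * h0 + 1 / 25 - 1 ≤ y ∧ 0 ≤ MaN1 s y d b k) := by
  have e1 := up (t1 := (62 / 1000)) (t2 := (95 / 1000)) (x := b) (by norm_num)
    (by linarith only [b1]) (by linarith only [b2])
  have e2 := R.lo8 (439 / 1000) (by norm_num)
  have e3 := up (t1 := (393 / 1000)) (t2 := (465 / 1000)) (x := h0 + s - y) (by norm_num)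
    (by linarith only [R.hd, s1]) (by linarith only [R.h2, R.y1, d1])
  have e4 := R.lo9 (679 / 1000) (by norm_num)
  have e5 := R.lo11 (425 / 1000) (by norm_num)
  have e6 := up (t1 := (468 / 1000)) (t2 := (559 / 1000)) (x := y) (by norm_num)
    (by linarith only [R.y1, s1, d1]) (by linarith only [R.h2, R.hd])
  have e7 := R.lo8 (425 / 1000) (by norm_num)
  have e8 := R.lo9 (638 / 1000) (by norm_num)
  have e9 := R.lo11 (453 / 1000) (by norm_num)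
  left
  unfold MaM1
  linarith only [R.k2, R.h2, e1, e2, e3, e4, e5, e6, e7, e8, e9]

theorem bma19 {s y d b k : ℝ} (R : RegMa s y d b k)
    (s1 : 1667 / 2500 ≤ s) (s2 : s ≤ 351 / 500) (d1 : 51 / 500 ≤ d) (d2 : d ≤ 143 / 1000)
    (b1 : 47 / 250 ≤ b) (b2 : b ≤ 1 / 4) :
    0 ≤ MaM1 s y d b k ∨ 0 ≤ MaM2 s y d b k ∨ 0 ≤ MaM3 s y d b k ∨ (2 * h0 + 1 / 25 - 1 ≤ y ∧ 0 ≤ MaN1 s y d b k) := by
  have e1 := up (t1 := (94 / 1000)) (t2 := (128 / 1000)) (x := b) (by norm_num)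
    (by linarith only [b1]) (by linarith only [b2])
  have e2 := R.lo8 (410 / 1000) (by norm_num)
  have e3 := up (t1 := (427 / 1000)) (t2 := (465 / 1000)) (x := h0 + s - y) (by norm_num)
    (by linarith only [R.h1, R.y2, d2]) (by linarith only [R.h2, R.y1, d1])
  have e4 := R.lo9 (619 / 1000) (by norm_num)
  have e5 := up (t1 := (468 / 1000)) (t2 := (551 / 1000)) (x := y) (by norm_num)
    (by linarith only [R.y1, s1, d1]) (by linarith only [R.y2, s2, d2])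
  have e6 := R.lo9 (665 / 1000) (by norm_num)
  have e7 := R.lo11 (386 / 1000) (by norm_num)
  left
  unfold MaM1
  linarith only [R.k2, R.h2, s2, b2, e1, e2, e3, e4, e5, e6, e7]

theorem bma20 {s y d b k : ℝ} (R : RegMa s y d b k)
    (s1 : 351 / 500 ≤ s) (s2 : s ≤ 3681 / 5000) (d1 : 51 / 500 ≤ d) (d2 : d ≤ 143 / 1000)
    (b1 : 47 / 250 ≤ b) (b2 : b ≤ 1 / 4) :
    0 ≤ MaM1 s y d b k ∨ 0 ≤ MaM2 s y d b k ∨ 0 ≤ MaM3 s y d b k ∨ (2 * h0 + 1 / 25 - 1 ≤ y ∧ 0 ≤ MaN1 s y d b k) := by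
  have e1 := up (t1 := (94 / 1000)) (t2 := (128 / 1000)) (x := b) (by norm_num)
    (by linarith only [b1]) (by linarith only [b2])
  have e2 := up (t1 := (378 / 1000)) (t2 := (406 / 1000)) (x := s - 1 / 25) (by norm_num)
    (by linarith only [s1]) (by linarith only [s2])
  have e3 := R.lo8 (424 / 1000) (by norm_num)
  have e4 := up (t1 := (427 / 1000)) (t2 := (465 / 1000)) (x := h0 + s - y) (by norm_num)
    (by linarith only [R.h1, R.y2, d2]) (by linarith only [R.h2, R.y1, d1])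
  have e5 := R.lo5 (734 / 1000) (by norm_num)
  have e6 := R.lo9 (720 / 1000) (by norm_num)
  have e7 := up (t1 := (504 / 1000)) (t2 := (559 / 1000)) (x := y) (by norm_num)
    (by linarith only [R.y1, s1, d1]) (by linarith only [R.h2, R.hd])
  have e8 := R.lo8 (417 / 1000) (by norm_num)
  have e9 := R.lo9 (688 / 1000) (by norm_num)
  have e10 := R.lo10 (392 / 1000) (by norm_num)
  have e11 := R.lo11 (425 / 1000) (by norm_num)
  right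
  left
  unfold MaM2
  linarith only [R.k2, R.h1, R.hd, e1, e2, e3, e4, e5, e6, e7, e8, e9, e10, e11]

theorem bma21 {s y d b k : ℝ} (R : RegMa s y d b k)
    (s1 : 1667 / 2500 ≤ s) (s2 : s ≤ 3681 / 5000) (d1 : 143 / 1000 ≤ d) (d2 : d ≤ 1843 / 10000)
    (b1 : 47 / 250 ≤ b) (b2 : b ≤ 1 / 4) :
    0 ≤ MaM1 s y d b k ∨ 0 ≤ MaM2 s y d b k ∨ 0 ≤ MaM3 s y d b k ∨ (2 * h0 + 1 / 25 - 1 ≤ y ∧ 0 ≤ MaN1 s y d b k) := by
  have e1 := up (t1 := (94 / 1000)) (t2 := (128 / 1000)) (x := b) (by norm_num)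
    (by linarith only [b1]) (by linarith only [b2])
  have e2 := R.lo8 (398 / 1000) (by norm_num)
  have e3 := R.lo8 (415 / 1000) (by norm_num)
  have e4 := up (t1 := (393 / 1000)) (t2 := (428 / 1000)) (x := h0 + s - y) (by norm_num)
    (by linarith only [R.hd, s1]) (by linarith only [R.h2, R.y1, d1])
  have e5 := R.lo9 (720 / 1000) (by norm_num)
  have e6 := R.lo11 (408 / 1000) (by norm_num)
  have e7 := R.lo11 (444 / 1000) (by norm_num)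
  have e8 := up (t1 := (510 / 1000)) (t2 := (559 / 1000)) (x := y) (by norm_num)
    (by linarith only [R.y1, s1, d1]) (by linarith only [R.h2, R.hd])
  left
  unfold MaM1
  linarith only [R.k2, R.h2, R.hd, e1, e2, e3, e4, e5, e6, e7, e8]

theorem bma24 {s y d b k : ℝ} (R : RegMa s y d b k)
    (s1 : 1667 / 2500 ≤ s) (s2 : s ≤ 3681 / 5000) (d1 : 1 / 50 ≤ d) (d2 : d ≤ 51 / 500)
    (b1 : 1 / 4 ≤ b) (b2 : b ≤ 3 / 8) :
    0 ≤ MaM1 s y d b k ∨ 0 ≤ MaM2 s y d b k ∨ 0 ≤ MaM3 s y d b k ∨ (2 * h0 + 1 / 25 - 1 ≤ y ∧ 0 ≤ MaN1 s y d b k) := by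
  have e1 := up (t1 := (127 / 1000)) (t2 := (195 / 1000)) (x := b) (by norm_num)
    (by linarith only [b1]) (by linarith only [b2])
  have e2 := R.lo8 (410 / 1000) (by norm_num)
  have e3 := up (t1 := (464 / 1000)) (t2 := (552 / 1000)) (x := h0 + s - y) (by norm_num)
    (by linarith only [R.h1, R.y2, d2]) (by linarith only [R.h2, R.y1, d1])
  have e4 := R.lo5 (760 / 1000) (by norm_num)
  have e5 := R.lo9 (587 / 1000) (by norm_num)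
  have e6 := up (t1 := (397 / 1000)) (t2 := (543 / 1000)) (x := y) (by norm_num)
    (by linarith only [R.y1, s1, d1]) (by linarith only [R.y2, s2, d2])
  have e7 := R.lo5 (784 / 1000) (by norm_num)
  have e8 := R.lo7 (19 / 1000) (by norm_num)
  have e9 := R.lo9 (673 / 1000) (by norm_num)
  have e10 := R.lo10 (334 / 1000) (by norm_num)
  right
  right
  left
  unfold MaM3
  linarith only [R.k2, R.h1, R.y2, d2, e1, e2, e3, e4, e5, e6, e7, e8, e9, e10]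

theorem bma29 {s y d b k : ℝ} (R : RegMa s y d b k)
    (s1 : 1667 / 2500 ≤ s) (s2 : s ≤ 351 / 500) (d1 : 51 / 500 ≤ d) (d2 : d ≤ 143 / 1000)
    (b1 : 1 / 4 ≤ b) (b2 : b ≤ 141 / 500) :
    0 ≤ MaM1 s y d b k ∨ 0 ≤ MaM2 s y d b k ∨ 0 ≤ MaM3 s y d b k ∨ (2 * h0 + 1 / 25 - 1 ≤ y ∧ 0 ≤ MaN1 s y d b k) := by
  have e1 := up (t1 := (127 / 1000)) (t2 := (144 / 1000)) (x := b) (by norm_num)
    (by linarith only [b1]) (by linarith only [b2])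
  have e2 := up (t1 := (352 / 1000)) (t2 := (379 / 1000)) (x := s - 1 / 25) (by norm_num)
    (by linarith only [s1]) (by linarith only [s2])
  have e3 := R.lo8 (396 / 1000) (by norm_num)
  have e4 := R.lo8 (410 / 1000) (by norm_num)
  have e5 := up (t1 := (427 / 1000)) (t2 := (465 / 1000)) (x := h0 + s - y) (by norm_num)
    (by linarith only [R.h1, R.y2, d2]) (by linarith only [R.h2, R.y1, d1])
  have e6 := R.lo5 (773 / 1000) (by norm_num)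
  have e7 := R.lo5 (787 / 1000) (by norm_num)
  have e8 := R.lo9 (641 / 1000) (by norm_num)
  have e9 := R.lo9 (726 / 1000) (by norm_num)
  have e10 := R.lo10 (335 / 1000) (by norm_num)
  have e11 := R.lo11 (364 / 1000) (by norm_num)
  have e12 := up (t1 := (468 / 1000)) (t2 := (551 / 1000)) (x := y) (by norm_num)
    (by linarith only [R.y1, s1, d1]) (by linarith only [R.y2, s2, d2])
  right
  left
  unfold MaM2
  linarith only [R.k2, R.h1, e1, e2, e3, e4, e5, e6, e7, e8, e9, e10, e11, e12]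

theorem bma31 {s y d b k : ℝ} (R : RegMa s y d b k)
    (s1 : 1667 / 2500 ≤ s) (s2 : s ≤ 171 / 250) (d1 : 51 / 500 ≤ d) (d2 : d ≤ 143 / 1000)
    (b1 : 141 / 500 ≤ b) (b2 : b ≤ 313 / 1000) :
    0 ≤ MaM1 s y d b k ∨ 0 ≤ MaM2 s y d b k ∨ 0 ≤ MaM3 s y d b k ∨ (2 * h0 + 1 / 25 - 1 ≤ y ∧ 0 ≤ MaN1 s y d b k) := by
  have e1 := up (t1 := (143 / 1000)) (t2 := (161 / 1000)) (x := b) (by norm_num)
    (by linarith only [b1]) (by linarith only [b2])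
  have e2 := up (t1 := (352 / 1000)) (t2 := (365 / 1000)) (x := s - 1 / 25) (by norm_num)
    (by linarith only [s1]) (by linarith only [s2])
  have e3 := R.lo8 (395 / 1000) (by norm_num)
  have e4 := up (t1 := (427 / 1000)) (t2 := (465 / 1000)) (x := h0 + s - y) (by norm_num)
    (by linarith only [R.h1, R.y2, d2]) (by linarith only [R.h2, R.y1, d1])
  have e5 := R.lo5 (813 / 1000) (by norm_num)
  have e6 := R.lo9 (639 / 1000) (by norm_num)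
  have e7 := R.lo9 (701 / 1000) (by norm_num)
  have e8 := R.lo10 (313 / 1000) (by norm_num)
  have e9 := R.lo11 (340 / 1000) (by norm_num)
  have e10 := up (t1 := (468 / 1000)) (t2 := (530 / 1000)) (x := y) (by norm_num)
    (by linarith only [R.y1, s1, d1]) (by linarith only [R.y2, s2, d2])
  right
  left
  unfold MaM2
  linarith only [R.k2, R.h1, s2, b2, e1, e2, e3, e4, e5, e6, e7, e8, e9, e10]

theorem bma32 {s y d b k : ℝ} (R : RegMa s y d b k)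
    (s1 : 171 / 250 ≤ s) (s2 : s ≤ 351 / 500) (d1 : 51 / 500 ≤ d) (d2 : d ≤ 143 / 1000)
    (b1 : 141 / 500 ≤ b) (b2 : b ≤ 313 / 1000) :
    0 ≤ MaM1 s y d b k ∨ 0 ≤ MaM2 s y d b k ∨ 0 ≤ MaM3 s y d b k ∨ (2 * h0 + 1 / 25 - 1 ≤ y ∧ 0 ≤ MaN1 s y d b k) := by
  have e1 := up (t1 := (143 / 1000)) (t2 := (161 / 1000)) (x := b) (by norm_num)
    (by linarith only [b1]) (by linarith only [b2])
  have e2 := up (t1 := (364 / 1000)) (t2 := (379 / 1000)) (x := s - 1 / 25) (by norm_num)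
    (by linarith only [s1]) (by linarith only [s2])
  have e3 := R.lo8 (410 / 1000) (by norm_num)
  have e4 := up (t1 := (427 / 1000)) (t2 := (465 / 1000)) (x := h0 + s - y) (by norm_num)
    (by linarith only [R.h1, R.y2, d2]) (by linarith only [R.h2, R.y1, d1])
  have e5 := R.lo5 (813 / 1000) (by norm_num)
  have e6 := R.lo9 (744 / 1000) (by norm_num)
  have e7 := up (t1 := (485 / 1000)) (t2 := (551 / 1000)) (x := y) (by norm_num)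
    (by linarith only [R.y1, s1, d1]) (by linarith only [R.y2, s2, d2])
  have e8 := R.lo9 (709 / 1000) (by norm_num)
  have e9 := R.lo10 (327 / 1000) (by norm_num)
  have e10 := R.lo11 (355 / 1000) (by norm_num)
  right
  left
  unfold MaM2
  linarith only [R.k2, R.h1, s2, b2, e1, e2, e3, e4, e5, e6, e7, e8, e9, e10]

theorem bma33 {s y d b k : ℝ} (R : RegMa s y d b k)
    (s1 : 351 / 500 ≤ s) (s2 : s ≤ 3681 / 5000) (d1 : 51 / 500 ≤ d) (d2 : d ≤ 143 / 1000)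
    (b1 : 1 / 4 ≤ b) (b2 : b ≤ 313 / 1000) :
    0 ≤ MaM1 s y d b k ∨ 0 ≤ MaM2 s y d b k ∨ 0 ≤ MaM3 s y d b k ∨ (2 * h0 + 1 / 25 - 1 ≤ y ∧ 0 ≤ MaN1 s y d b k) := by
  have e1 := up (t1 := (127 / 1000)) (t2 := (161 / 1000)) (x := b) (by norm_num)
    (by linarith only [b1]) (by linarith only [b2])
  have e2 := R.lo3 (637 / 1000) (by norm_num)
  have e3 := R.lo8 (424 / 1000) (by norm_num)
  have e4 := R.lo8 (439 / 1000) (by norm_num)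
  have e5 := up (t1 := (662 / 1000)) (t2 := (775 / 1000)) (x := 2 * h0 + 1 / 25 - y) (by norm_num)
    (by linarith only [R.h1, R.hd]) (by linarith only [R.h2, R.y1, s1, d1])
  have e6 := up (t1 := (427 / 1000)) (t2 := (465 / 1000)) (x := h0 + s - y) (by norm_num)
    (by linarith only [R.h1, R.y2, d2]) (by linarith only [R.h2, R.y1, d1])
  have e7 := R.lo5 (785 / 1000) (by norm_num)
  have e8 := R.lo5 (760 / 1000) (by norm_num)
  have e9 := R.lo11 (370 / 1000) (by norm_num)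
  have e10 := up (t1 := (504 / 1000)) (t2 := (559 / 1000)) (x := y) (by norm_num)
    (by linarith only [R.y1, s1, d1]) (by linarith only [R.h2, R.hd])
  right
  right
  right
  refine ⟨by linarith only [R.h2, R.y1, s1, d1], ?_⟩
  unfold MaN1
  linarith only [R.k2, R.h2, R.y1, d1, e1, e2, e3, e4, e5, e6, e7, e8, e9, e10]

theorem bma34 {s y d b k : ℝ} (R : RegMa s y d b k)
    (s1 : 1667 / 2500 ≤ s) (s2 : s ≤ 3681 / 5000) (d1 : 51 / 500 ≤ d) (d2 : d ≤ 143 / 1000)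
    (b1 : 313 / 1000 ≤ b) (b2 : b ≤ 3 / 8) :
    0 ≤ MaM1 s y d b k ∨ 0 ≤ MaM2 s y d b k ∨ 0 ≤ MaM3 s y d b k ∨ (2 * h0 + 1 / 25 - 1 ≤ y ∧ 0 ≤ MaN1 s y d b k) := by
  have e1 := up (t1 := (160 / 1000)) (t2 := (195 / 1000)) (x := b) (by norm_num)
    (by linarith only [b1]) (by linarith only [b2])
  have e2 := R.lo8 (410 / 1000) (by norm_num)
  have e3 := up (t1 := (427 / 1000)) (t2 := (465 / 1000)) (x := h0 + s - y) (by norm_num)
    (by linarith only [R.h1, R.y2, d2]) (by linarith only [R.h2, R.y1, d1])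
  have e4 := R.lo5 (813 / 1000) (by norm_num)
  have e5 := R.lo7 (9 / 1000) (by norm_num)
  have e6 := R.lo9 (677 / 1000) (by norm_num)
  have e7 := R.lo9 (799 / 1000) (by norm_num)
  have e8 := R.lo10 (341 / 1000) (by norm_num)
  have e9 := up (t1 := (468 / 1000)) (t2 := (559 / 1000)) (x := y) (by norm_num)
    (by linarith only [R.y1, s1, d1]) (by linarith only [R.h2, R.hd])
  right
  right
  left
  unfold MaM3
  linarith only [R.k2, R.h1, R.y2, d2, b1, e1, e2, e3, e4, e5, e6, e7, e8, e9]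

theorem bma35 {s y d b k : ℝ} (R : RegMa s y d b k)
    (s1 : 1667 / 2500 ≤ s) (s2 : s ≤ 3681 / 5000) (d1 : 143 / 1000 ≤ d) (d2 : d ≤ 1843 / 10000)
    (b1 : 1 / 4 ≤ b) (b2 : b ≤ 3 / 8) :
    0 ≤ MaM1 s y d b k ∨ 0 ≤ MaM2 s y d b k ∨ 0 ≤ MaM3 s y d b k ∨ (2 * h0 + 1 / 25 - 1 ≤ y ∧ 0 ≤ MaN1 s y d b k) := by
  have e1 := up (t1 := (127 / 1000)) (t2 := (195 / 1000)) (x := b) (by norm_num)
    (by linarith only [b1]) (by linarith only [b2])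
  have e2 := R.lo3 (637 / 1000) (by norm_num)
  have e3 := R.lo8 (398 / 1000) (by norm_num)
  have e4 := R.lo8 (415 / 1000) (by norm_num)
  have e5 := up (t1 := (662 / 1000)) (t2 := (757 / 1000)) (x := 2 * h0 + 1 / 25 - y) (by norm_num)
    (by linarith only [R.h1, R.hd]) (by linarith only [R.h2, R.y1, s1, d1])
  have e6 := up (t1 := (393 / 1000)) (t2 := (428 / 1000)) (x := h0 + s - y) (by norm_num)
    (by linarith only [R.hd, s1]) (by linarith only [R.h2, R.y1, d1])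
  have e7 := R.lo5 (805 / 1000) (by norm_num)
  have e8 := R.lo11 (354 / 1000) (by norm_num)
  have e9 := R.lo11 (407 / 1000) (by norm_num)
  have e10 := up (t1 := (510 / 1000)) (t2 := (559 / 1000)) (x := y) (by norm_num)
    (by linarith only [R.y1, s1, d1]) (by linarith only [R.h2, R.hd])
  right
  right
  right
  refine ⟨by linarith only [R.h2, R.y1, s1, d1], ?_⟩
  unfold MaN1
  linarith only [R.k2, R.h2, R.hd, e1, e2, e3, e4, e5, e6, e7, e8, e9, e10]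

theorem bma37 {s y d b k : ℝ} (R : RegMa s y d b k)
    (s1 : 1667 / 2500 ≤ s) (s2 : s ≤ 3681 / 5000) (d1 : 1 / 50 ≤ d) (d2 : d ≤ 51 / 500)
    (b1 : 3 / 8 ≤ b) (b2 : b ≤ 1 / 2) :
    0 ≤ MaM1 s y d b k ∨ 0 ≤ MaM2 s y d b k ∨ 0 ≤ MaM3 s y d b k ∨ (2 * h0 + 1 / 25 - 1 ≤ y ∧ 0 ≤ MaN1 s y d b k) := by
  have e1 := up (t1 := (194 / 1000)) (t2 := (268 / 1000)) (x := b) (by norm_num)
    (by linarith only [b1]) (by linarith only [b2])
  have e2 := R.lo8 (410 / 1000) (by norm_num)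
  have e3 := up (t1 := (464 / 1000)) (t2 := (552 / 1000)) (x := h0 + s - y) (by norm_num)
    (by linarith only [R.h1, R.y2, d2]) (by linarith only [R.h2, R.y1, d1])
  have e4 := R.lo5 (901 / 1000) (by norm_num)
  have e5 := R.lo9 (614 / 1000) (by norm_num)
  have e6 := up (t1 := (397 / 1000)) (t2 := (543 / 1000)) (x := y) (by norm_num)
    (by linarith only [R.y1, s1, d1]) (by linarith only [R.y2, s2, d2])
  have e7 := R.lo5 (934 / 1000) (by norm_num)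
  have e8 := R.lo7 (99 / 1000) (by norm_num)
  have e9 := R.lo9 (712 / 1000) (by norm_num)
  have e10 := R.lo10 (229 / 1000) (by norm_num)
  right
  right
  left
  unfold MaM3
  linarith only [R.k2, R.h1, R.y2, d2, e1, e2, e3, e4, e5, e6, e7, e8, e9, e10]

theorem bma39 {s y d b k : ℝ} (R : RegMa s y d b k)
    (s1 : 1667 / 2500 ≤ s) (s2 : s ≤ 3681 / 5000) (d1 : 51 / 500 ≤ d) (d2 : d ≤ 1843 / 10000)
    (b1 : 3 / 8 ≤ b) (b2 : b ≤ 219 / 500) :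
    0 ≤ MaM1 s y d b k ∨ 0 ≤ MaM2 s y d b k ∨ 0 ≤ MaM3 s y d b k ∨ (2 * h0 + 1 / 25 - 1 ≤ y ∧ 0 ≤ MaN1 s y d b k) := by
  have e1 := up (t1 := (194 / 1000)) (t2 := (231 / 1000)) (x := b) (by norm_num)
    (by linarith only [b1]) (by linarith only [b2])
  have e2 := R.lo8 (382 / 1000) (by norm_num)
  have e3 := up (t1 := (393 / 1000)) (t2 := (465 / 1000)) (x := h0 + s - y) (by norm_num)
    (by linarith only [R.hd, s1]) (by linarith only [R.h2, R.y1, d1])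
  have e4 := R.lo5 (895 / 1000) (by norm_num)
  have e5 := R.lo9 (828 / 1000) (by norm_num)
  have e6 := up (t1 := (468 / 1000)) (t2 := (559 / 1000)) (x := y) (by norm_num)
    (by linarith only [R.y1, s1, d1]) (by linarith only [R.h2, R.hd])
  have e7 := R.lo5 (883 / 1000) (by norm_num)
  have e8 := R.lo7 (26 / 1000) (by norm_num)
  have e9 := R.lo9 (770 / 1000) (by norm_num)
  have e10 := R.lo10 (290 / 1000) (by norm_num)
  right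
  right
  left
  unfold MaM3
  linarith only [R.k2, R.h1, s1, e1, e2, e3, e4, e5, e6, e7, e8, e9, e10]

theorem bma41 {s y d b k : ℝ} (R : RegMa s y d b k)
    (s1 : 1667 / 2500 ≤ s) (s2 : s ≤ 3681 / 5000) (d1 : 51 / 500 ≤ d) (d2 : d ≤ 143 / 1000)
    (b1 : 219 / 500 ≤ b) (b2 : b ≤ 1 / 2) :
    0 ≤ MaM1 s y d b k ∨ 0 ≤ MaM2 s y d b k ∨ 0 ≤ MaM3 s y d b k ∨ (2 * h0 + 1 / 25 - 1 ≤ y ∧ 0 ≤ MaN1 s y d b k) := by
  have e1 := up (t1 := (230 / 1000)) (t2 := (268 / 1000)) (x := b) (by norm_num)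
    (by linarith only [b1]) (by linarith only [b2])
  have e2 := up (t1 := (427 / 1000)) (t2 := (465 / 1000)) (x := h0 + s - y) (by norm_num)
    (by linarith only [R.h1, R.y2, d2]) (by linarith only [R.h2, R.y1, d1])
  have e3 := R.lo5 (956 / 1000) (by norm_num)
  have e4 := R.lo9 (707 / 1000) (by norm_num)
  have e5 := up (t1 := (468 / 1000)) (t2 := (559 / 1000)) (x := y) (by norm_num)
    (by linarith only [R.y1, s1, d1]) (by linarith only [R.h2, R.hd])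
  have e6 := R.lo7 (92 / 1000) (by norm_num)
  have e7 := R.lo8 (403 / 1000) (by norm_num)
  have e8 := R.lo9 (782 / 1000) (by norm_num)
  have e9 := R.lo10 (226 / 1000) (by norm_num)
  right
  right
  left
  unfold MaM3
  linarith only [R.k2, R.h1, R.y2, d2, b2, e1, e2, e3, e4, e5, e6, e7, e8, e9]

theorem bma42 {s y d b k : ℝ} (R : RegMa s y d b k)
    (s1 : 1667 / 2500 ≤ s) (s2 : s ≤ 3681 / 5000) (d1 : 143 / 1000 ≤ d) (d2 : d ≤ 1843 / 10000)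
    (b1 : 219 / 500 ≤ b) (b2 : b ≤ 1 / 2) :
    0 ≤ MaM1 s y d b k ∨ 0 ≤ MaM2 s y d b k ∨ 0 ≤ MaM3 s y d b k ∨ (2 * h0 + 1 / 25 - 1 ≤ y ∧ 0 ≤ MaN1 s y d b k) := by
  have e1 := up (t1 := (230 / 1000)) (t2 := (268 / 1000)) (x := b) (by norm_num)
    (by linarith only [b1]) (by linarith only [b2])
  have e2 := R.lo3 (637 / 1000) (by norm_num)
  have e3 := R.lo8 (398 / 1000) (by norm_num)
  have e4 := R.lo8 (415 / 1000) (by norm_num)
  have e5 := up (t1 := (662 / 1000)) (t2 := (757 / 1000)) (x := 2 * h0 + 1 / 25 - y) (by norm_num)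
    (by linarith only [R.h1, R.hd]) (by linarith only [R.h2, R.y1, s1, d1])
  have e6 := up (t1 := (393 / 1000)) (t2 := (428 / 1000)) (x := h0 + s - y) (by norm_num)
    (by linarith only [R.hd, s1]) (by linarith only [R.h2, R.y1, d1])
  have e7 := R.lo5 (956 / 1000) (by norm_num)
  have e8 := R.lo11 (264 / 1000) (by norm_num)
  have e9 := up (t1 := (510 / 1000)) (t2 := (559 / 1000)) (x := y) (by norm_num)
    (by linarith only [R.y1, s1, d1]) (by linarith only [R.h2, R.hd])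
  right
  right
  right
  refine ⟨by linarith only [R.h2, R.y1, s1, d1], ?_⟩
  unfold MaN1
  linarith only [R.k2, R.h1, R.hd, b2, e1, e2, e3, e4, e5, e6, e7, e8, e9]

theorem bma40 {s y d b k : ℝ} (R : RegMa s y d b k)
    (s1 : 1667 / 2500 ≤ s) (s2 : s ≤ 3681 / 5000) (d1 : 51 / 500 ≤ d) (d2 : d ≤ 1843 / 10000)
    (b1 : 219 / 500 ≤ b) (b2 : b ≤ 1 / 2) :
    0 ≤ MaM1 s y d b k ∨ 0 ≤ MaM2 s y d b k ∨ 0 ≤ MaM3 s y d b k ∨ (2 * h0 + 1 / 25 - 1 ≤ y ∧ 0 ≤ MaN1 s y d b k) := by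
  rcases le_total d (143 / 1000) with h | h
  · exact bma41 R s1 s2 d1 h b1 b2
  · exact bma42 R s1 s2 h d2 b1 b2

theorem bma38 {s y d b k : ℝ} (R : RegMa s y d b k)
    (s1 : 1667 / 2500 ≤ s) (s2 : s ≤ 3681 / 5000) (d1 : 51 / 500 ≤ d) (d2 : d ≤ 1843 / 10000)
    (b1 : 3 / 8 ≤ b) (b2 : b ≤ 1 / 2) :
    0 ≤ MaM1 s y d b k ∨ 0 ≤ MaM2 s y d b k ∨ 0 ≤ MaM3 s y d b k ∨ (2 * h0 + 1 / 25 - 1 ≤ y ∧ 0 ≤ MaN1 s y d b k) := by
  rcases le_total b (219 / 500) with h | h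
  · exact bma39 R s1 s2 d1 d2 b1 h
  · exact bma40 R s1 s2 d1 d2 h b2

theorem bma36 {s y d b k : ℝ} (R : RegMa s y d b k)
    (s1 : 1667 / 2500 ≤ s) (s2 : s ≤ 3681 / 5000) (d1 : 1 / 50 ≤ d) (d2 : d ≤ 1843 / 10000)
    (b1 : 3 / 8 ≤ b) (b2 : b ≤ 1 / 2) :
    0 ≤ MaM1 s y d b k ∨ 0 ≤ MaM2 s y d b k ∨ 0 ≤ MaM3 s y d b k ∨ (2 * h0 + 1 / 25 - 1 ≤ y ∧ 0 ≤ MaN1 s y d b k) := by
  rcases le_total d (51 / 500) with h | h
  · exact bma37 R s1 s2 d1 h b1 b2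
  · exact bma38 R s1 s2 h d2 b1 b2

theorem bma30 {s y d b k : ℝ} (R : RegMa s y d b k)
    (s1 : 1667 / 2500 ≤ s) (s2 : s ≤ 351 / 500) (d1 : 51 / 500 ≤ d) (d2 : d ≤ 143 / 1000)
    (b1 : 141 / 500 ≤ b) (b2 : b ≤ 313 / 1000) :
    0 ≤ MaM1 s y d b k ∨ 0 ≤ MaM2 s y d b k ∨ 0 ≤ MaM3 s y d b k ∨ (2 * h0 + 1 / 25 - 1 ≤ y ∧ 0 ≤ MaN1 s y d b k) := by
  rcases le_total s (171 / 250) with h | h
  · exact bma31 R s1 h d1 d2 b1 b2
  · exact bma32 R h s2 d1 d2 b1 b2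

theorem bma28 {s y d b k : ℝ} (R : RegMa s y d b k)
    (s1 : 1667 / 2500 ≤ s) (s2 : s ≤ 351 / 500) (d1 : 51 / 500 ≤ d) (d2 : d ≤ 143 / 1000)
    (b1 : 1 / 4 ≤ b) (b2 : b ≤ 313 / 1000) :
    0 ≤ MaM1 s y d b k ∨ 0 ≤ MaM2 s y d b k ∨ 0 ≤ MaM3 s y d b k ∨ (2 * h0 + 1 / 25 - 1 ≤ y ∧ 0 ≤ MaN1 s y d b k) := by
  rcases le_total b (141 / 500) with h | h
  · exact bma29 R s1 s2 d1 d2 b1 h
  · exact bma30 R s1 s2 d1 d2 h b2

theorem bma27 {s y d b k : ℝ} (R : RegMa s y d b k)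
    (s1 : 1667 / 2500 ≤ s) (s2 : s ≤ 3681 / 5000) (d1 : 51 / 500 ≤ d) (d2 : d ≤ 143 / 1000)
    (b1 : 1 / 4 ≤ b) (b2 : b ≤ 313 / 1000) :
    0 ≤ MaM1 s y d b k ∨ 0 ≤ MaM2 s y d b k ∨ 0 ≤ MaM3 s y d b k ∨ (2 * h0 + 1 / 25 - 1 ≤ y ∧ 0 ≤ MaN1 s y d b k) := by
  rcases le_total s (351 / 500) with h | h
  · exact bma28 R s1 h d1 d2 b1 b2
  · exact bma33 R h s2 d1 d2 b1 b2

theorem bma26 {s y d b k : ℝ} (R : RegMa s y d b k)
    (s1 : 1667 / 2500 ≤ s) (s2 : s ≤ 3681 / 5000) (d1 : 51 / 500 ≤ d) (d2 : d ≤ 143 / 1000)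
    (b1 : 1 / 4 ≤ b) (b2 : b ≤ 3 / 8) :
    0 ≤ MaM1 s y d b k ∨ 0 ≤ MaM2 s y d b k ∨ 0 ≤ MaM3 s y d b k ∨ (2 * h0 + 1 / 25 - 1 ≤ y ∧ 0 ≤ MaN1 s y d b k) := by
  rcases le_total b (313 / 1000) with h | h
  · exact bma27 R s1 s2 d1 d2 b1 h
  · exact bma34 R s1 s2 d1 d2 h b2

theorem bma25 {s y d b k : ℝ} (R : RegMa s y d b k)
    (s1 : 1667 / 2500 ≤ s) (s2 : s ≤ 3681 / 5000) (d1 : 51 / 500 ≤ d) (d2 : d ≤ 1843 / 10000)
    (b1 : 1 / 4 ≤ b) (b2 : b ≤ 3 / 8) :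
    0 ≤ MaM1 s y d b k ∨ 0 ≤ MaM2 s y d b k ∨ 0 ≤ MaM3 s y d b k ∨ (2 * h0 + 1 / 25 - 1 ≤ y ∧ 0 ≤ MaN1 s y d b k) := by
  rcases le_total d (143 / 1000) with h | h
  · exact bma26 R s1 s2 d1 h b1 b2
  · exact bma35 R s1 s2 h d2 b1 b2

theorem bma23 {s y d b k : ℝ} (R : RegMa s y d b k)
    (s1 : 1667 / 2500 ≤ s) (s2 : s ≤ 3681 / 5000) (d1 : 1 / 50 ≤ d) (d2 : d ≤ 1843 / 10000)
    (b1 : 1 / 4 ≤ b) (b2 : b ≤ 3 / 8) :
    0 ≤ MaM1 s y d b k ∨ 0 ≤ MaM2 s y d b k ∨ 0 ≤ MaM3 s y d b k ∨ (2 * h0 + 1 / 25 - 1 ≤ y ∧ 0 ≤ MaN1 s y d b k) := by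
  rcases le_total d (51 / 500) with h | h
  · exact bma24 R s1 s2 d1 h b1 b2
  · exact bma25 R s1 s2 h d2 b1 b2

theorem bma22 {s y d b k : ℝ} (R : RegMa s y d b k)
    (s1 : 1667 / 2500 ≤ s) (s2 : s ≤ 3681 / 5000) (d1 : 1 / 50 ≤ d) (d2 : d ≤ 1843 / 10000)
    (b1 : 1 / 4 ≤ b) (b2 : b ≤ 1 / 2) :
    0 ≤ MaM1 s y d b k ∨ 0 ≤ MaM2 s y d b k ∨ 0 ≤ MaM3 s y d b k ∨ (2 * h0 + 1 / 25 - 1 ≤ y ∧ 0 ≤ MaN1 s y d b k) := by
  rcases le_total b (3 / 8) with h | h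
  · exact bma23 R s1 s2 d1 d2 b1 h
  · exact bma36 R s1 s2 d1 d2 h b2

theorem bma18 {s y d b k : ℝ} (R : RegMa s y d b k)
    (s1 : 1667 / 2500 ≤ s) (s2 : s ≤ 3681 / 5000) (d1 : 51 / 500 ≤ d) (d2 : d ≤ 143 / 1000)
    (b1 : 47 / 250 ≤ b) (b2 : b ≤ 1 / 4) :
    0 ≤ MaM1 s y d b k ∨ 0 ≤ MaM2 s y d b k ∨ 0 ≤ MaM3 s y d b k ∨ (2 * h0 + 1 / 25 - 1 ≤ y ∧ 0 ≤ MaN1 s y d b k) := by
  rcases le_total s (351 / 500) with h | h
  · exact bma19 R s1 h d1 d2 b1 b2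
  · exact bma20 R h s2 d1 d2 b1 b2

theorem bma17 {s y d b k : ℝ} (R : RegMa s y d b k)
    (s1 : 1667 / 2500 ≤ s) (s2 : s ≤ 3681 / 5000) (d1 : 51 / 500 ≤ d) (d2 : d ≤ 1843 / 10000)
    (b1 : 47 / 250 ≤ b) (b2 : b ≤ 1 / 4) :
    0 ≤ MaM1 s y d b k ∨ 0 ≤ MaM2 s y d b k ∨ 0 ≤ MaM3 s y d b k ∨ (2 * h0 + 1 / 25 - 1 ≤ y ∧ 0 ≤ MaN1 s y d b k) := by
  rcases le_total d (143 / 1000) with h | h
  · exact bma18 R s1 s2 d1 h b1 b2
  · exact bma21 R s1 s2 h d2 b1 b2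

theorem bma15 {s y d b k : ℝ} (R : RegMa s y d b k)
    (s1 : 1667 / 2500 ≤ s) (s2 : s ≤ 3681 / 5000) (d1 : 51 / 500 ≤ d) (d2 : d ≤ 1843 / 10000)
    (b1 : 1 / 8 ≤ b) (b2 : b ≤ 1 / 4) :
    0 ≤ MaM1 s y d b k ∨ 0 ≤ MaM2 s y d b k ∨ 0 ≤ MaM3 s y d b k ∨ (2 * h0 + 1 / 25 - 1 ≤ y ∧ 0 ≤ MaN1 s y d b k) := by
  rcases le_total b (47 / 250) with h | h
  · exact bma16 R s1 s2 d1 d2 b1 h
  · exact bma17 R s1 s2 d1 d2 h b2

theorem bma13 {s y d b k : ℝ} (R : RegMa s y d b k)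
    (s1 : 1667 / 2500 ≤ s) (s2 : s ≤ 3681 / 5000) (d1 : 51 / 500 ≤ d) (d2 : d ≤ 1843 / 10000)
    (b1 : 0 ≤ b) (b2 : b ≤ 1 / 4) :
    0 ≤ MaM1 s y d b k ∨ 0 ≤ MaM2 s y d b k ∨ 0 ≤ MaM3 s y d b k ∨ (2 * h0 + 1 / 25 - 1 ≤ y ∧ 0 ≤ MaN1 s y d b k) := by
  rcases le_total b (1 / 8) with h | h
  · exact bma14 R s1 s2 d1 d2 b1 h
  · exact bma15 R s1 s2 d1 d2 h b2

theorem bma10 {s y d b k : ℝ} (R : RegMa s y d b k)
    (s1 : 1667 / 2500 ≤ s) (s2 : s ≤ 3681 / 5000) (d1 : 61 / 1000 ≤ d) (d2 : d ≤ 51 / 500)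
    (b1 : 1 / 8 ≤ b) (b2 : b ≤ 1 / 4) :
    0 ≤ MaM1 s y d b k ∨ 0 ≤ MaM2 s y d b k ∨ 0 ≤ MaM3 s y d b k ∨ (2 * h0 + 1 / 25 - 1 ≤ y ∧ 0 ≤ MaN1 s y d b k) := by
  rcases le_total b (47 / 250) with h | h
  · exact bma11 R s1 s2 d1 d2 b1 h
  · exact bma12 R s1 s2 d1 d2 h b2

theorem bma8 {s y d b k : ℝ} (R : RegMa s y d b k)
    (s1 : 1667 / 2500 ≤ s) (s2 : s ≤ 3681 / 5000) (d1 : 1 / 50 ≤ d) (d2 : d ≤ 51 / 500)
    (b1 : 1 / 8 ≤ b) (b2 : b ≤ 1 / 4) :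
    0 ≤ MaM1 s y d b k ∨ 0 ≤ MaM2 s y d b k ∨ 0 ≤ MaM3 s y d b k ∨ (2 * h0 + 1 / 25 - 1 ≤ y ∧ 0 ≤ MaN1 s y d b k) := by
  rcases le_total d (61 / 1000) with h | h
  · exact bma9 R s1 s2 d1 h b1 b2
  · exact bma10 R s1 s2 h d2 b1 b2

theorem bma4 {s y d b k : ℝ} (R : RegMa s y d b k)
    (s1 : 1667 / 2500 ≤ s) (s2 : s ≤ 3681 / 5000) (d1 : 1 / 50 ≤ d) (d2 : d ≤ 61 / 1000)
    (b1 : 0 ≤ b) (b2 : b ≤ 1 / 8) :
    0 ≤ MaM1 s y d b k ∨ 0 ≤ MaM2 s y d b k ∨ 0 ≤ MaM3 s y d b k ∨ (2 * h0 + 1 / 25 - 1 ≤ y ∧ 0 ≤ MaN1 s y d b k) := by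
  rcases le_total s (351 / 500) with h | h
  · exact bma5 R s1 h d1 d2 b1 b2
  · exact bma6 R h s2 d1 d2 b1 b2

theorem bma3 {s y d b k : ℝ} (R : RegMa s y d b k)
    (s1 : 1667 / 2500 ≤ s) (s2 : s ≤ 3681 / 5000) (d1 : 1 / 50 ≤ d) (d2 : d ≤ 51 / 500)
    (b1 : 0 ≤ b) (b2 : b ≤ 1 / 8) :
    0 ≤ MaM1 s y d b k ∨ 0 ≤ MaM2 s y d b k ∨ 0 ≤ MaM3 s y d b k ∨ (2 * h0 + 1 / 25 - 1 ≤ y ∧ 0 ≤ MaN1 s y d b k) := by
  rcases le_total d (61 / 1000) with h | h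
  · exact bma4 R s1 s2 d1 h b1 b2
  · exact bma7 R s1 s2 h d2 b1 b2

theorem bma2 {s y d b k : ℝ} (R : RegMa s y d b k)
    (s1 : 1667 / 2500 ≤ s) (s2 : s ≤ 3681 / 5000) (d1 : 1 / 50 ≤ d) (d2 : d ≤ 51 / 500)
    (b1 : 0 ≤ b) (b2 : b ≤ 1 / 4) :
    0 ≤ MaM1 s y d b k ∨ 0 ≤ MaM2 s y d b k ∨ 0 ≤ MaM3 s y d b k ∨ (2 * h0 + 1 / 25 - 1 ≤ y ∧ 0 ≤ MaN1 s y d b k) := by
  rcases le_total b (1 / 8) with h | h
  · exact bma3 R s1 s2 d1 d2 b1 h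
  · exact bma8 R s1 s2 d1 d2 h b2

theorem bma1 {s y d b k : ℝ} (R : RegMa s y d b k)
    (s1 : 1667 / 2500 ≤ s) (s2 : s ≤ 3681 / 5000) (d1 : 1 / 50 ≤ d) (d2 : d ≤ 1843 / 10000)
    (b1 : 0 ≤ b) (b2 : b ≤ 1 / 4) :
    0 ≤ MaM1 s y d b k ∨ 0 ≤ MaM2 s y d b k ∨ 0 ≤ MaM3 s y d b k ∨ (2 * h0 + 1 / 25 - 1 ≤ y ∧ 0 ≤ MaN1 s y d b k) := by
  rcases le_total d (51 / 500) with h | h
  · exact bma2 R s1 s2 d1 h b1 b2
  · exact bma13 R s1 s2 h d2 b1 b2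

theorem bma0 {s y d b k : ℝ} (R : RegMa s y d b k)
    (s1 : 1667 / 2500 ≤ s) (s2 : s ≤ 3681 / 5000) (d1 : 1 / 50 ≤ d) (d2 : d ≤ 1843 / 10000)
    (b1 : 0 ≤ b) (b2 : b ≤ 1 / 2) :
    0 ≤ MaM1 s y d b k ∨ 0 ≤ MaM2 s y d b k ∨ 0 ≤ MaM3 s y d b k ∨ (2 * h0 + 1 / 25 - 1 ≤ y ∧ 0 ≤ MaN1 s y d b k) := by
  rcases le_total b (1 / 4) with h | h
  · exact bma1 R s1 s2 d1 d2 b1 h
  · exact bma22 R s1 s2 d1 d2 h b2

end Pool.Agent.Strip051.FourD
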