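import Pool.Agent.Strip051.FourB.Box

/-! # The new point between s and h0 -/

namespace Pool.Agent.Strip051.FourD

set_option linter.unusedVariables false

open Pool.Agent.StripNear Pool.Agent.StripSquare Pool.Agent.Strip051
open Pool.Agent.Strip051.Four.Low (ph)
open Pool.Agent.Strip051.FourB (lo up)

/-- The function of the boxes `bmb`. -/
noncomputable def MbM2 (s y d b k : ℝ) : ℝ :=
  2 * ph s - 4 * ph y - 2 * ph b + ph (h0 - k + b / 2) - ph (h0 + s - y) - ph (s - 1 / 25) + ph (y - k - b / 2) + ph (y - k - b / 2 - 1 / 25) + ph (y - k + b / 2)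

/-- The function of the boxes `bmb`. -/
noncomputable def MbM3 (s y d b k : ℝ) : ℝ :=
  2 * ph s - 4 * ph y - 2 * ph b + ph (h0 - k + b / 2) - ph (h0 + s - y) + ph (y - k - b / 2 - 1 / 25) + ph (s - y + k + b / 2 - 1 / 25) + ph (y - k + b / 2)

/-- The region of the boxes `bmb`. -/
structure RegMb (s y d b k : ℝ) : Prop where
  k1 : 86602 / 100000 * ph b ≤ k
  k2 : k ≤ 86603 / 100000 * ph b
  k3 : 0 ≤ k
  k4 : k ≤ 1161 / 10000
  h1 : 86602 / 100000 ≤ h0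
  h2 : h0 ≤ 86603 / 100000
  y1 : d + s ≤ y
  y2 : y ≤ d + s
  hd : y ≤ h0 - 15 / 1000
  hq : h0 - k + b / 2 ≤ 1
  s1 : 1667 / 2500 ≤ s
  s2 : s ≤ 3681 / 5000
  d1 : 0 ≤ d
  d2 : d ≤ 1 / 50
  b1 : 1 / 50 ≤ b
  b2 : b ≤ 1 / 2

theorem RegMb.lo1 {s y d b k : ℝ} (R : RegMb s y d b k) (w0 : ℝ) (hw0 : w0 ^ 2 < 1) :
    2 * w0 * (b) - 2 * w0 ^ 2 ≤ (1 - w0 ^ 2) * ph (b) :=
  lo hw0 (by linarith only [R.b1]) (by linarith only [R.b2])

theorem RegMb.lo2 {s y d b k : ℝ} (R : RegMb s y d b k) (w0 : ℝ) (hw0 : w0 ^ 2 < 1) :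
    2 * w0 * (h0 + s - y) - 2 * w0 ^ 2 ≤ (1 - w0 ^ 2) * ph (h0 + s - y) :=
  lo hw0 (by linarith only [R.h1, R.y2, R.d2]) (by linarith only [R.h2, R.y1, R.d1])

theorem RegMb.lo3 {s y d b k : ℝ} (R : RegMb s y d b k) (w0 : ℝ) (hw0 : w0 ^ 2 < 1) :
    2 * w0 * (h0 - k + b / 2) - 2 * w0 ^ 2 ≤ (1 - w0 ^ 2) * ph (h0 - k + b / 2) :=
  lo hw0 (by linarith only [R.k4, R.h1, R.b1]) (by linarith only [R.hq])

theorem RegMb.lo4 {s y d b k : ℝ} (R : RegMb s y d b k) (w0 : ℝ) (hw0 : w0 ^ 2 < 1) :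
    2 * w0 * (s - 1 / 25) - 2 * w0 ^ 2 ≤ (1 - w0 ^ 2) * ph (s - 1 / 25) :=
  lo hw0 (by linarith only [R.s1]) (by linarith only [R.s2])

theorem RegMb.lo5 {s y d b k : ℝ} (R : RegMb s y d b k) (w0 : ℝ) (hw0 : w0 ^ 2 < 1) :
    2 * w0 * (s - y + k + b / 2 - 1 / 25) - 2 * w0 ^ 2 ≤ (1 - w0 ^ 2) * ph (s - y + k + b / 2 - 1 / 25) :=
  lo hw0 (by linarith only [R.k3, R.y2, R.d2, R.b1]) (by linarith only [R.k4, R.y1, R.d1, R.b2])

theorem RegMb.lo6 {s y d b k : ℝ} (R : RegMb s y d b k) (w0 : ℝ) (hw0 : w0 ^ 2 < 1) :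
    2 * w0 * (s) - 2 * w0 ^ 2 ≤ (1 - w0 ^ 2) * ph (s) :=
  lo hw0 (by linarith only [R.s1]) (by linarith only [R.s2])

theorem RegMb.lo7 {s y d b k : ℝ} (R : RegMb s y d b k) (w0 : ℝ) (hw0 : w0 ^ 2 < 1) :
    2 * w0 * (y - k + b / 2) - 2 * w0 ^ 2 ≤ (1 - w0 ^ 2) * ph (y - k + b / 2) :=
  lo hw0 (by linarith only [R.k4, R.y1, R.s1, R.d1, R.b1]) (by linarith only [R.h1, R.y2, R.hq, R.s2, R.d2])

theorem RegMb.lo8 {s y d b k : ℝ} (R : RegMb s y d b k) (w0 : ℝ) (hw0 : w0 ^ 2 < 1) :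
    2 * w0 * (y - k - b / 2 - 1 / 25) - 2 * w0 ^ 2 ≤ (1 - w0 ^ 2) * ph (y - k - b / 2 - 1 / 25) :=
  lo hw0 (by linarith only [R.k4, R.y1, R.s1, R.d1, R.b2]) (by linarith only [R.k3, R.y2, R.s2, R.d2, R.b1])

theorem RegMb.lo9 {s y d b k : ℝ} (R : RegMb s y d b k) (w0 : ℝ) (hw0 : w0 ^ 2 < 1) :
    2 * w0 * (y - k - b / 2) - 2 * w0 ^ 2 ≤ (1 - w0 ^ 2) * ph (y - k - b / 2) :=
  lo hw0 (by linarith only [R.k4, R.y1, R.s1, R.d1, R.b2]) (by linarith only [R.k3, R.y2, R.s2, R.d2, R.b1])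

theorem RegMb.lo10 {s y d b k : ℝ} (R : RegMb s y d b k) (w0 : ℝ) (hw0 : w0 ^ 2 < 1) :
    2 * w0 * (y) - 2 * w0 ^ 2 ≤ (1 - w0 ^ 2) * ph (y) :=
  lo hw0 (by linarith only [R.y1, R.s1, R.d1]) (by linarith only [R.y2, R.s2, R.d2])

theorem bmb3 {s y d b k : ℝ} (R : RegMb s y d b k)
    (s1 : 1667 / 2500 ≤ s) (s2 : s ≤ 351 / 500) (d1 : 0 ≤ d) (d2 : d ≤ 1 / 50)
    (b1 : 1 / 50 ≤ b) (b2 : b ≤ 7 / 50) :
    0 ≤ MbM2 s y d b k ∨ 0 ≤ MbM3 s y d b k := by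
  have e1 := up (t1 := (10 / 1000)) (t2 := (71 / 1000)) (x := b) (by norm_num)
    (by linarith only [b1]) (by linarith only [b2])
  have e2 := up (t1 := (352 / 1000)) (t2 := (379 / 1000)) (x := s - 1 / 25) (by norm_num)
    (by linarith only [s1]) (by linarith only [s2])
  have e3 := R.lo6 (410 / 1000) (by norm_num)
  have e4 := up (t1 := (551 / 1000)) (t2 := (578 / 1000)) (x := h0 + s - y) (by norm_num)
    (by linarith only [R.h1, R.y2, d2]) (by linarith only [R.h2, R.y1, d1])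
  have e5 := R.lo3 (591 / 1000) (by norm_num)
  have e6 := R.lo7 (434 / 1000) (by norm_num)
  have e7 := R.lo7 (390 / 1000) (by norm_num)
  have e8 := R.lo8 (386 / 1000) (by norm_num)
  have e9 := R.lo9 (369 / 1000) (by norm_num)
  have e10 := R.lo9 (418 / 1000) (by norm_num)
  have e11 := up (t1 := (382 / 1000)) (t2 := (427 / 1000)) (x := y) (by norm_num)
    (by linarith only [R.y1, s1, d1]) (by linarith only [R.y2, s2, d2])
  left
  unfold MbM2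
  linarith only [R.k2, R.h1, R.y1, d1, e1, e2, e3, e4, e5, e6, e7, e8, e9, e10, e11]

theorem bmb4 {s y d b k : ℝ} (R : RegMb s y d b k)
    (s1 : 351 / 500 ≤ s) (s2 : s ≤ 3681 / 5000) (d1 : 0 ≤ d) (d2 : d ≤ 1 / 50)
    (b1 : 1 / 50 ≤ b) (b2 : b ≤ 7 / 50) :
    0 ≤ MbM2 s y d b k ∨ 0 ≤ MbM3 s y d b k := by
  have e1 := up (t1 := (10 / 1000)) (t2 := (71 / 1000)) (x := b) (by norm_num)
    (by linarith only [b1]) (by linarith only [b2])
  have e2 := up (t1 := (378 / 1000)) (t2 := (406 / 1000)) (x := s - 1 / 25) (by norm_num)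
    (by linarith only [s1]) (by linarith only [s2])
  have e3 := R.lo6 (439 / 1000) (by norm_num)
  have e4 := up (t1 := (551 / 1000)) (t2 := (578 / 1000)) (x := h0 + s - y) (by norm_num)
    (by linarith only [R.h1, R.y2, d2]) (by linarith only [R.h2, R.y1, d1])
  have e5 := R.lo7 (465 / 1000) (by norm_num)
  have e6 := up (t1 := (410 / 1000)) (t2 := (458 / 1000)) (x := y) (by norm_num)
    (by linarith only [R.y1, s1, d1]) (by linarith only [R.y2, s2, d2])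
  have e7 := R.lo3 (593 / 1000) (by norm_num)
  have e8 := R.lo6 (432 / 1000) (by norm_num)
  have e9 := R.lo7 (442 / 1000) (by norm_num)
  have e10 := R.lo8 (389 / 1000) (by norm_num)
  have e11 := R.lo9 (422 / 1000) (by norm_num)
  left
  unfold MbM2
  linarith only [R.k2, R.h1, R.y1, d1, e1, e2, e3, e4, e5, e6, e7, e8, e9, e10, e11]

theorem bmb5 {s y d b k : ℝ} (R : RegMb s y d b k)
    (s1 : 1667 / 2500 ≤ s) (s2 : s ≤ 3681 / 5000) (d1 : 0 ≤ d) (d2 : d ≤ 1 / 50)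
    (b1 : 7 / 50 ≤ b) (b2 : b ≤ 13 / 50) :
    0 ≤ MbM2 s y d b k ∨ 0 ≤ MbM3 s y d b k := by
  have e1 := up (t1 := (70 / 1000)) (t2 := (133 / 1000)) (x := b) (by norm_num)
    (by linarith only [b1]) (by linarith only [b2])
  have e2 := up (t1 := (352 / 1000)) (t2 := (406 / 1000)) (x := s - 1 / 25) (by norm_num)
    (by linarith only [s1]) (by linarith only [s2])
  have e3 := R.lo6 (439 / 1000) (by norm_num)
  have e4 := up (t1 := (551 / 1000)) (t2 := (578 / 1000)) (x := h0 + s - y) (by norm_num)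
    (by linarith only [R.h1, R.y2, d2]) (by linarith only [R.h2, R.y1, d1])
  have e5 := R.lo3 (716 / 1000) (by norm_num)
  have e6 := R.lo3 (675 / 1000) (by norm_num)
  have e7 := R.lo7 (492 / 1000) (by norm_num)
  have e8 := R.lo8 (301 / 1000) (by norm_num)
  have e9 := R.lo9 (328 / 1000) (by norm_num)
  have e10 := up (t1 := (382 / 1000)) (t2 := (458 / 1000)) (x := y) (by norm_num)
    (by linarith only [R.y1, s1, d1]) (by linarith only [R.y2, s2, d2])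
  left
  unfold MbM2
  linarith only [R.k2, R.h1, R.y1, s2, d1, e1, e2, e3, e4, e5, e6, e7, e8, e9, e10]

theorem bmb6 {s y d b k : ℝ} (R : RegMb s y d b k)
    (s1 : 1667 / 2500 ≤ s) (s2 : s ≤ 3681 / 5000) (d1 : 0 ≤ d) (d2 : d ≤ 1 / 50)
    (b1 : 13 / 50 ≤ b) (b2 : b ≤ 1 / 2) :
    0 ≤ MbM2 s y d b k ∨ 0 ≤ MbM3 s y d b k := by
  have e1 := up (t1 := (132 / 1000)) (t2 := (268 / 1000)) (x := b) (by norm_num)
    (by linarith only [b1]) (by linarith only [b2])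
  have e2 := R.lo6 (410 / 1000) (by norm_num)
  have e3 := up (t1 := (551 / 1000)) (t2 := (578 / 1000)) (x := h0 + s - y) (by norm_num)
    (by linarith only [R.h1, R.y2, d2]) (by linarith only [R.h2, R.y1, d1])
  have e4 := R.lo3 (829 / 1000) (by norm_num)
  have e5 := R.lo5 (108 / 1000) (by norm_num)
  have e6 := R.lo5 (168 / 1000) (by norm_num)
  have e7 := R.lo7 (531 / 1000) (by norm_num)
  have e8 := R.lo7 (612 / 1000) (by norm_num)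
  have e9 := R.lo8 (214 / 1000) (by norm_num)
  have e10 := up (t1 := (382 / 1000)) (t2 := (458 / 1000)) (x := y) (by norm_num)
    (by linarith only [R.y1, s1, d1]) (by linarith only [R.y2, s2, d2])
  right
  unfold MbM3
  linarith only [R.k2, R.h1, R.y2, d2, e1, e2, e3, e4, e5, e6, e7, e8, e9, e10]

theorem bmb2 {s y d b k : ℝ} (R : RegMb s y d b k)
    (s1 : 1667 / 2500 ≤ s) (s2 : s ≤ 3681 / 5000) (d1 : 0 ≤ d) (d2 : d ≤ 1 / 50)
    (b1 : 1 / 50 ≤ b) (b2 : b ≤ 7 / 50) :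
    0 ≤ MbM2 s y d b k ∨ 0 ≤ MbM3 s y d b k := by
  rcases le_total s (351 / 500) with h | h
  · exact bmb3 R s1 h d1 d2 b1 b2
  · exact bmb4 R h s2 d1 d2 b1 b2

theorem bmb1 {s y d b k : ℝ} (R : RegMb s y d b k)
    (s1 : 1667 / 2500 ≤ s) (s2 : s ≤ 3681 / 5000) (d1 : 0 ≤ d) (d2 : d ≤ 1 / 50)
    (b1 : 1 / 50 ≤ b) (b2 : b ≤ 13 / 50) :
    0 ≤ MbM2 s y d b k ∨ 0 ≤ MbM3 s y d b k := by
  rcases le_total b (7 / 50) with h | h
  · exact bmb2 R s1 s2 d1 d2 b1 h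
  · exact bmb5 R s1 s2 d1 d2 h b2

theorem bmb0 {s y d b k : ℝ} (R : RegMb s y d b k)
    (s1 : 1667 / 2500 ≤ s) (s2 : s ≤ 3681 / 5000) (d1 : 0 ≤ d) (d2 : d ≤ 1 / 50)
    (b1 : 1 / 50 ≤ b) (b2 : b ≤ 1 / 2) :
    0 ≤ MbM2 s y d b k ∨ 0 ≤ MbM3 s y d b k := by
  rcases le_total b (13 / 50) with h | h
  · exact bmb1 R s1 s2 d1 d2 b1 h
  · exact bmb6 R s1 s2 d1 d2 h b2

end Pool.Agent.Strip051.FourD
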