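import Pool.Agent.Strip051.FourB.Box

/-! # The new point between e and s - a, the exit above the top -/

namespace Pool.Agent.Strip051.FourD

set_option linter.unusedVariables false

open Pool.Agent.StripNear Pool.Agent.StripSquare Pool.Agent.Strip051
open Pool.Agent.Strip051.Four.Low (ph)
open Pool.Agent.Strip051.FourB (lo up)

/-- The function of the boxes `bua`. -/
noncomputable def Ua (s y u b k : ℝ) : ℝ :=
  2 * ph s - 4 * ph y - 2 * ph b + ph (h0 + 1 / 25 + u) - ph (h0 + 1 / 25) + ph (y - k + b / 2) + ph (y - k - b / 2 - 1 / 25) + ph (s - y + k + b / 2 - 1 / 25)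

/-- The region of the boxes `bua`. -/
structure RegUa (s y u b k : ℝ) : Prop where
  k1 : 86602 / 100000 * ph b ≤ k
  k2 : k ≤ 86603 / 100000 * ph b
  k3 : 0 ≤ k
  k4 : k ≤ 1161 / 10000
  h1 : 86602 / 100000 ≤ h0
  h2 : h0 ≤ 86603 / 100000
  e1 : u + s ≤ y - k + b / 2
  e2 : y - k + b / 2 ≤ u + s
  hy : y ≤ s - 1 / 25
  hv : h0 + 1 / 25 + u ≤ 1
  s1 : 1667 / 2500 ≤ s
  s2 : s ≤ 3681 / 5000
  u1 : 0 ≤ u
  u2 : u ≤ 67 / 500
  b1 : 1 / 25 ≤ b
  b2 : b ≤ 1 / 2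

theorem RegUa.lo1 {s y u b k : ℝ} (R : RegUa s y u b k) (w0 : ℝ) (hw0 : w0 ^ 2 < 1) :
    2 * w0 * (b) - 2 * w0 ^ 2 ≤ (1 - w0 ^ 2) * ph (b) :=
  lo hw0 (by linarith only [R.k3, R.e1, R.hy, R.u1]) (by linarith only [R.b2])

theorem RegUa.lo2 {s y u b k : ℝ} (R : RegUa s y u b k) (w0 : ℝ) (hw0 : w0 ^ 2 < 1) :
    2 * w0 * (h0 + 1 / 25 + u) - 2 * w0 ^ 2 ≤ (1 - w0 ^ 2) * ph (h0 + 1 / 25 + u) :=
  lo hw0 (by linarith only [R.h1, R.u1]) (by linarith only [R.hv])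

theorem RegUa.lo3 {s y u b k : ℝ} (R : RegUa s y u b k) (w0 : ℝ) (hw0 : w0 ^ 2 < 1) :
    2 * w0 * (h0 + 1 / 25) - 2 * w0 ^ 2 ≤ (1 - w0 ^ 2) * ph (h0 + 1 / 25) :=
  lo hw0 (by linarith only [R.h1]) (by linarith only [R.h2])

theorem RegUa.lo4 {s y u b k : ℝ} (R : RegUa s y u b k) (w0 : ℝ) (hw0 : w0 ^ 2 < 1) :
    2 * w0 * (s - y + k + b / 2 - 1 / 25) - 2 * w0 ^ 2 ≤ (1 - w0 ^ 2) * ph (s - y + k + b / 2 - 1 / 25) :=
  lo hw0 (by linarith only [R.k3, R.e1, R.hy, R.u1]) (by linarith only [R.e1, R.u1, R.b2])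

theorem RegUa.lo5 {s y u b k : ℝ} (R : RegUa s y u b k) (w0 : ℝ) (hw0 : w0 ^ 2 < 1) :
    2 * w0 * (s) - 2 * w0 ^ 2 ≤ (1 - w0 ^ 2) * ph (s) :=
  lo hw0 (by linarith only [R.s1]) (by linarith only [R.s2])

theorem RegUa.lo6 {s y u b k : ℝ} (R : RegUa s y u b k) (w0 : ℝ) (hw0 : w0 ^ 2 < 1) :
    2 * w0 * (y - k + b / 2) - 2 * w0 ^ 2 ≤ (1 - w0 ^ 2) * ph (y - k + b / 2) :=
  lo hw0 (by linarith only [R.e1, R.s1, R.u1]) (by linarith only [R.h1, R.e2, R.hv, R.s2])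

theorem RegUa.lo7 {s y u b k : ℝ} (R : RegUa s y u b k) (w0 : ℝ) (hw0 : w0 ^ 2 < 1) :
    2 * w0 * (y - k - b / 2 - 1 / 25) - 2 * w0 ^ 2 ≤ (1 - w0 ^ 2) * ph (y - k - b / 2 - 1 / 25) :=
  lo hw0 (by linarith only [R.e1, R.s1, R.u1, R.b2]) (by linarith only [R.k3, R.e1, R.hy, R.s2, R.u1])

theorem RegUa.lo8 {s y u b k : ℝ} (R : RegUa s y u b k) (w0 : ℝ) (hw0 : w0 ^ 2 < 1) :
    2 * w0 * (y) - 2 * w0 ^ 2 ≤ (1 - w0 ^ 2) * ph (y) :=
  lo hw0 (by linarith only [R.k3, R.e1, R.s1, R.u1, R.b2]) (by linarith only [R.hy, R.s2])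

theorem bua1 {s y u b k : ℝ} (R : RegUa s y u b k)
    (s1 : 1667 / 2500 ≤ s) (s2 : s ≤ 3681 / 5000) (u1 : 0 ≤ u) (u2 : u ≤ 67 / 500)
    (b1 : 1 / 25 ≤ b) (b2 : b ≤ 27 / 100) :
    0 ≤ Ua s y u b k := by
  have e1 := up (t1 := (40 / 1000)) (t2 := (138 / 1000)) (x := b) (by norm_num)
    (by linarith only [R.k3, R.e1, R.hy, u1]) (by linarith only [b2])
  have e2 := R.lo2 (637 / 1000) (by norm_num)
  have e3 := up (t1 := (636 / 1000)) (t2 := (637 / 1000)) (x := h0 + 1 / 25) (by norm_num)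
    (by linarith only [R.h1]) (by linarith only [R.h2])
  have e4 := R.lo5 (382 / 1000) (by norm_num)
  have e5 := R.lo4 (23 / 1000) (by norm_num)
  have e6 := R.lo6 (382 / 1000) (by norm_num)
  have e7 := R.lo7 (258 / 1000) (by norm_num)
  have e8 := R.lo7 (340 / 1000) (by norm_num)
  have e9 := R.lo1 (138 / 1000) (by norm_num)
  have e10 := up (t1 := (308 / 1000)) (t2 := (406 / 1000)) (x := y) (by norm_num)
    (by linarith only [R.k1, R.e1, s1, u1, b2, e9]) (by linarith only [R.hy, s2])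
  unfold Ua
  linarith only [R.k2, R.h1, R.e2, R.hy, u1, e1, e2, e3, e4, e5, e6, e7, e8, e10]

theorem bua6 {s y u b k : ℝ} (R : RegUa s y u b k)
    (s1 : 1667 / 2500 ≤ s) (s2 : s ≤ 171 / 250) (u1 : 0 ≤ u) (u2 : u ≤ 17 / 500)
    (b1 : 27 / 100 ≤ b) (b2 : b ≤ 1 / 2) :
    0 ≤ Ua s y u b k := by
  have e1 := up (t1 := (137 / 1000)) (t2 := (268 / 1000)) (x := b) (by norm_num)
    (by linarith only [b1]) (by linarith only [b2])
  have e2 := R.lo2 (637 / 1000) (by norm_num)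
  have e3 := up (t1 := (636 / 1000)) (t2 := (637 / 1000)) (x := h0 + 1 / 25) (by norm_num)
    (by linarith only [R.h1]) (by linarith only [R.h2])
  have e4 := R.lo5 (382 / 1000) (by norm_num)
  have e5 := R.lo1 (200 / 1000) (by norm_num)
  have e6 := R.lo1 (268 / 1000) (by norm_num)
  have e7 := up (t1 := (288 / 1000)) (t2 := (345 / 1000)) (x := y) (by norm_num)
    (by linarith only [R.k1, R.e1, s1, u1, e5, e6]) (by linarith only [R.k2, R.e2, s2, u2, b1, e1])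
  have e8 := R.lo2 (652 / 1000) (by norm_num)
  have e9 := R.lo4 (238 / 1000) (by norm_num)
  have e10 := R.lo6 (389 / 1000) (by norm_num)
  have e11 := R.lo7 (68 / 1000) (by norm_num)
  unfold Ua
  linarith only [R.k2, R.h1, R.e2, s1, b2, e1, e2, e3, e4, e7, e8, e9, e10, e11]

theorem bua7 {s y u b k : ℝ} (R : RegUa s y u b k)
    (s1 : 1667 / 2500 ≤ s) (s2 : s ≤ 171 / 250) (u1 : 17 / 500 ≤ u) (u2 : u ≤ 67 / 1000)
    (b1 : 27 / 100 ≤ b) (b2 : b ≤ 1 / 2) :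
    0 ≤ Ua s y u b k := by
  have e1 := up (t1 := (137 / 1000)) (t2 := (268 / 1000)) (x := b) (by norm_num)
    (by linarith only [b1]) (by linarith only [b2])
  have e2 := R.lo2 (701 / 1000) (by norm_num)
  have e3 := up (t1 := (636 / 1000)) (t2 := (637 / 1000)) (x := h0 + 1 / 25) (by norm_num)
    (by linarith only [R.h1]) (by linarith only [R.h2])
  have e4 := R.lo5 (389 / 1000) (by norm_num)
  have e5 := R.lo4 (224 / 1000) (by norm_num)
  have e6 := R.lo6 (430 / 1000) (by norm_num)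
  have e7 := R.lo6 (409 / 1000) (by norm_num)
  have e8 := R.lo7 (81 / 1000) (by norm_num)
  have e9 := R.lo1 (200 / 1000) (by norm_num)
  have e10 := R.lo1 (268 / 1000) (by norm_num)
  have e11 := up (t1 := (310 / 1000)) (t2 := (365 / 1000)) (x := y) (by norm_num)
    (by linarith only [R.k1, R.e1, s1, u1, e9, e10]) (by linarith only [R.hy, s2])
  unfold Ua
  linarith only [R.k2, R.h1, R.e2, u1, b2, e1, e2, e3, e4, e5, e6, e7, e8, e11]

theorem bua8 {s y u b k : ℝ} (R : RegUa s y u b k)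
    (s1 : 1667 / 2500 ≤ s) (s2 : s ≤ 171 / 250) (u1 : 67 / 1000 ≤ u) (u2 : u ≤ 67 / 500)
    (b1 : 27 / 100 ≤ b) (b2 : b ≤ 1 / 2) :
    0 ≤ Ua s y u b k := by
  have e1 := up (t1 := (137 / 1000)) (t2 := (268 / 1000)) (x := b) (by norm_num)
    (by linarith only [b1]) (by linarith only [b2])
  have e2 := R.lo2 (791 / 1000) (by norm_num)
  have e3 := up (t1 := (636 / 1000)) (t2 := (637 / 1000)) (x := h0 + 1 / 25) (by norm_num)
    (by linarith only [R.h1]) (by linarith only [R.h2])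
  have e4 := R.lo5 (389 / 1000) (by norm_num)
  have e5 := R.lo4 (205 / 1000) (by norm_num)
  have e6 := R.lo6 (457 / 1000) (by norm_num)
  have e7 := R.lo6 (437 / 1000) (by norm_num)
  have e8 := R.lo7 (98 / 1000) (by norm_num)
  have e9 := R.lo1 (200 / 1000) (by norm_num)
  have e10 := R.lo1 (268 / 1000) (by norm_num)
  have e11 := up (t1 := (333 / 1000)) (t2 := (365 / 1000)) (x := y) (by norm_num)
    (by linarith only [R.k1, R.e1, s1, u1, e9, e10]) (by linarith only [R.hy, s2])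
  unfold Ua
  linarith only [R.k2, R.h1, R.e2, u1, b2, e1, e2, e3, e4, e5, e6, e7, e8, e11]

theorem bua9 {s y u b k : ℝ} (R : RegUa s y u b k)
    (s1 : 171 / 250 ≤ s) (s2 : s ≤ 351 / 500) (u1 : 0 ≤ u) (u2 : u ≤ 67 / 500)
    (b1 : 27 / 100 ≤ b) (b2 : b ≤ 1 / 2) :
    0 ≤ Ua s y u b k := by
  have e1 := up (t1 := (137 / 1000)) (t2 := (268 / 1000)) (x := b) (by norm_num)
    (by linarith only [b1]) (by linarith only [b2])
  have e2 := R.lo2 (637 / 1000) (by norm_num)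
  have e3 := up (t1 := (636 / 1000)) (t2 := (637 / 1000)) (x := h0 + 1 / 25) (by norm_num)
    (by linarith only [R.h1]) (by linarith only [R.h2])
  have e4 := R.lo5 (395 / 1000) (by norm_num)
  have e5 := R.lo1 (200 / 1000) (by norm_num)
  have e6 := R.lo1 (268 / 1000) (by norm_num)
  have e7 := up (t1 := (299 / 1000)) (t2 := (379 / 1000)) (x := y) (by norm_num)
    (by linarith only [R.k1, R.e1, s1, u1, e5, e6]) (by linarith only [R.hy, s2])
  have e8 := R.lo2 (686 / 1000) (by norm_num)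
  have e9 := R.lo4 (228 / 1000) (by norm_num)
  have e10 := R.lo6 (419 / 1000) (by norm_num)
  have e11 := R.lo7 (87 / 1000) (by norm_num)
  unfold Ua
  linarith only [R.k2, R.h1, R.e2, s1, b2, e1, e2, e3, e4, e7, e8, e9, e10, e11]

theorem bua10 {s y u b k : ℝ} (R : RegUa s y u b k)
    (s1 : 351 / 500 ≤ s) (s2 : s ≤ 3681 / 5000) (u1 : 0 ≤ u) (u2 : u ≤ 67 / 500)
    (b1 : 27 / 100 ≤ b) (b2 : b ≤ 1 / 2) :
    0 ≤ Ua s y u b k := by
  have e1 := up (t1 := (137 / 1000)) (t2 := (268 / 1000)) (x := b) (by norm_num)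
    (by linarith only [b1]) (by linarith only [b2])
  have e2 := R.lo2 (637 / 1000) (by norm_num)
  have e3 := up (t1 := (636 / 1000)) (t2 := (637 / 1000)) (x := h0 + 1 / 25) (by norm_num)
    (by linarith only [R.h1]) (by linarith only [R.h2])
  have e4 := R.lo5 (410 / 1000) (by norm_num)
  have e5 := R.lo1 (200 / 1000) (by norm_num)
  have e6 := R.lo1 (268 / 1000) (by norm_num)
  have e7 := up (t1 := (311 / 1000)) (t2 := (406 / 1000)) (x := y) (by norm_num)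
    (by linarith only [R.k1, R.e1, s1, u1, e5, e6]) (by linarith only [R.hy, s2])
  have e8 := R.lo2 (686 / 1000) (by norm_num)
  have e9 := R.lo4 (228 / 1000) (by norm_num)
  have e10 := R.lo5 (415 / 1000) (by norm_num)
  have e11 := R.lo6 (438 / 1000) (by norm_num)
  have e12 := R.lo7 (99 / 1000) (by norm_num)
  unfold Ua
  linarith only [R.k2, R.h1, R.e2, b2, e1, e2, e3, e4, e7, e8, e9, e10, e11, e12]

theorem bua5 {s y u b k : ℝ} (R : RegUa s y u b k)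
    (s1 : 1667 / 2500 ≤ s) (s2 : s ≤ 171 / 250) (u1 : 0 ≤ u) (u2 : u ≤ 67 / 1000)
    (b1 : 27 / 100 ≤ b) (b2 : b ≤ 1 / 2) :
    0 ≤ Ua s y u b k := by
  rcases le_total u (17 / 500) with h | h
  · exact bua6 R s1 s2 u1 h b1 b2
  · exact bua7 R s1 s2 h u2 b1 b2

theorem bua4 {s y u b k : ℝ} (R : RegUa s y u b k)
    (s1 : 1667 / 2500 ≤ s) (s2 : s ≤ 171 / 250) (u1 : 0 ≤ u) (u2 : u ≤ 67 / 500)
    (b1 : 27 / 100 ≤ b) (b2 : b ≤ 1 / 2) :
    0 ≤ Ua s y u b k := by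
  rcases le_total u (67 / 1000) with h | h
  · exact bua5 R s1 s2 u1 h b1 b2
  · exact bua8 R s1 s2 h u2 b1 b2

theorem bua3 {s y u b k : ℝ} (R : RegUa s y u b k)
    (s1 : 1667 / 2500 ≤ s) (s2 : s ≤ 351 / 500) (u1 : 0 ≤ u) (u2 : u ≤ 67 / 500)
    (b1 : 27 / 100 ≤ b) (b2 : b ≤ 1 / 2) :
    0 ≤ Ua s y u b k := by
  rcases le_total s (171 / 250) with h | h
  · exact bua4 R s1 h u1 u2 b1 b2
  · exact bua9 R h s2 u1 u2 b1 b2

theorem bua2 {s y u b k : ℝ} (R : RegUa s y u b k)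
    (s1 : 1667 / 2500 ≤ s) (s2 : s ≤ 3681 / 5000) (u1 : 0 ≤ u) (u2 : u ≤ 67 / 500)
    (b1 : 27 / 100 ≤ b) (b2 : b ≤ 1 / 2) :
    0 ≤ Ua s y u b k := by
  rcases le_total s (351 / 500) with h | h
  · exact bua3 R s1 h u1 u2 b1 b2
  · exact bua10 R h s2 u1 u2 b1 b2

theorem bua0 {s y u b k : ℝ} (R : RegUa s y u b k)
    (s1 : 1667 / 2500 ≤ s) (s2 : s ≤ 3681 / 5000) (u1 : 0 ≤ u) (u2 : u ≤ 67 / 500)
    (b1 : 1 / 25 ≤ b) (b2 : b ≤ 1 / 2) :
    0 ≤ Ua s y u b k := by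
  rcases le_total b (27 / 100) with h | h
  · exact bua1 R s1 s2 u1 u2 b1 h
  · exact bua2 R s1 s2 u1 u2 h b2

end Pool.Agent.Strip051.FourD
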