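import Pool.Agent.Strip051.FourB.Box

/-! # The new point between s - a and s, the exit above the top -/

namespace Pool.Agent.Strip051.FourD

set_option linter.unusedVariables false

open Pool.Agent.StripNear Pool.Agent.StripSquare Pool.Agent.Strip051
open Pool.Agent.Strip051.Four.Low (ph)
open Pool.Agent.Strip051.FourB (lo up)

/-- The function of the boxes `bub`. -/
noncomputable def Ub1 (s y u b k : ℝ) : ℝ :=
  2 * ph s - 4 * ph y - 2 * ph b + ph (h0 - k + b / 2) - ph (h0 + s - y) - ph (s - 1 / 25) + ph (y - k + b / 2) + ph (y - k - b / 2) + ph (y - k - b / 2 - 1 / 25)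

/-- The function of the boxes `bub`. -/
noncomputable def Ub2 (s y u b k : ℝ) : ℝ :=
  2 * ph s - 4 * ph y - 2 * ph b + ph (h0 - k + b / 2) - ph (h0 + s - y) + ph (y - k + b / 2) + ph (y - k - b / 2 - 1 / 25) + ph (s - y + k + b / 2 - 1 / 25)

/-- The region of the boxes `bub`. -/
structure RegUb (s y u b k : ℝ) : Prop where
  k1 : 86602 / 100000 * ph b ≤ k
  k2 : k ≤ 86603 / 100000 * ph b
  k3 : 0 ≤ k
  k4 : k ≤ 1161 / 10000
  h1 : 86602 / 100000 ≤ h0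
  h2 : h0 ≤ 86603 / 100000
  e1 : u + s ≤ y - k + b / 2
  e2 : y - k + b / 2 ≤ u + s
  hy : s - 1 / 25 ≤ y
  hys : y ≤ s
  hq : h0 - k + b / 2 ≤ 1
  s1 : 1667 / 2500 ≤ s
  s2 : s ≤ 3681 / 5000
  u1 : 0 ≤ u
  u2 : u ≤ 67 / 500
  b1 : 3 / 100 ≤ b
  b2 : b ≤ 1 / 2

theorem RegUb.lo1 {s y u b k : ℝ} (R : RegUb s y u b k) (w0 : ℝ) (hw0 : w0 ^ 2 < 1) :
    2 * w0 * (b) - 2 * w0 ^ 2 ≤ (1 - w0 ^ 2) * ph (b) :=
  lo hw0 (by linarith only [R.b1]) (by linarith only [R.b2])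

theorem RegUb.lo2 {s y u b k : ℝ} (R : RegUb s y u b k) (w0 : ℝ) (hw0 : w0 ^ 2 < 1) :
    2 * w0 * (h0 + s - y) - 2 * w0 ^ 2 ≤ (1 - w0 ^ 2) * ph (h0 + s - y) :=
  lo hw0 (by linarith only [R.h1, R.hys]) (by linarith only [R.h2, R.hy])

theorem RegUb.lo3 {s y u b k : ℝ} (R : RegUb s y u b k) (w0 : ℝ) (hw0 : w0 ^ 2 < 1) :
    2 * w0 * (h0 - k + b / 2) - 2 * w0 ^ 2 ≤ (1 - w0 ^ 2) * ph (h0 - k + b / 2) :=
  lo hw0 (by linarith only [R.h1, R.e1, R.hys, R.u1]) (by linarith only [R.hq])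

theorem RegUb.lo4 {s y u b k : ℝ} (R : RegUb s y u b k) (w0 : ℝ) (hw0 : w0 ^ 2 < 1) :
    2 * w0 * (s - 1 / 25) - 2 * w0 ^ 2 ≤ (1 - w0 ^ 2) * ph (s - 1 / 25) :=
  lo hw0 (by linarith only [R.s1]) (by linarith only [R.s2])

theorem RegUb.lo5 {s y u b k : ℝ} (R : RegUb s y u b k) (w0 : ℝ) (hw0 : w0 ^ 2 < 1) :
    2 * w0 * (s - y + k + b / 2 - 1 / 25) - 2 * w0 ^ 2 ≤ (1 - w0 ^ 2) * ph (s - y + k + b / 2 - 1 / 25) :=
  lo hw0 (by linarith only [R.k3, R.hys, R.b1]) (by linarith only [R.k4, R.hy, R.b2])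

theorem RegUb.lo6 {s y u b k : ℝ} (R : RegUb s y u b k) (w0 : ℝ) (hw0 : w0 ^ 2 < 1) :
    2 * w0 * (s) - 2 * w0 ^ 2 ≤ (1 - w0 ^ 2) * ph (s) :=
  lo hw0 (by linarith only [R.s1]) (by linarith only [R.s2])

theorem RegUb.lo7 {s y u b k : ℝ} (R : RegUb s y u b k) (w0 : ℝ) (hw0 : w0 ^ 2 < 1) :
    2 * w0 * (y - k + b / 2) - 2 * w0 ^ 2 ≤ (1 - w0 ^ 2) * ph (y - k + b / 2) :=
  lo hw0 (by linarith only [R.e1, R.s1, R.u1]) (by linarith only [R.h1, R.hys, R.hq, R.s2])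

theorem RegUb.lo8 {s y u b k : ℝ} (R : RegUb s y u b k) (w0 : ℝ) (hw0 : w0 ^ 2 < 1) :
    2 * w0 * (y - k - b / 2 - 1 / 25) - 2 * w0 ^ 2 ≤ (1 - w0 ^ 2) * ph (y - k - b / 2 - 1 / 25) :=
  lo hw0 (by linarith only [R.k4, R.hy, R.s1, R.b2]) (by linarith only [R.k3, R.hys, R.s2, R.b1])

theorem RegUb.lo9 {s y u b k : ℝ} (R : RegUb s y u b k) (w0 : ℝ) (hw0 : w0 ^ 2 < 1) :
    2 * w0 * (y - k - b / 2) - 2 * w0 ^ 2 ≤ (1 - w0 ^ 2) * ph (y - k - b / 2) :=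
  lo hw0 (by linarith only [R.k4, R.hy, R.s1, R.b2]) (by linarith only [R.k3, R.hys, R.s2, R.b1])

theorem RegUb.lo10 {s y u b k : ℝ} (R : RegUb s y u b k) (w0 : ℝ) (hw0 : w0 ^ 2 < 1) :
    2 * w0 * (y) - 2 * w0 ^ 2 ≤ (1 - w0 ^ 2) * ph (y) :=
  lo hw0 (by linarith only [R.hy, R.s1]) (by linarith only [R.hys, R.s2])

theorem bub9 {s y u b k : ℝ} (R : RegUb s y u b k)
    (s1 : 1667 / 2500 ≤ s) (s2 : s ≤ 6711 / 10000) (u1 : 0 ≤ u) (u2 : u ≤ 67 / 500)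
    (b1 : 3 / 100 ≤ b) (b2 : b ≤ 9 / 200) :
    0 ≤ Ub1 s y u b k ∨ 0 ≤ Ub2 s y u b k := by
  have e1 := up (t1 := (15 / 1000)) (t2 := (23 / 1000)) (x := b) (by norm_num)
    (by linarith only [b1]) (by linarith only [b2])
  have e2 := up (t1 := (352 / 1000)) (t2 := (356 / 1000)) (x := s - 1 / 25) (by norm_num)
    (by linarith only [s1]) (by linarith only [s2])
  have e3 := R.lo6 (385 / 1000) (by norm_num)
  have e4 := R.lo1 (23 / 1000) (by norm_num)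
  have e5 := up (t1 := (577 / 1000)) (t2 := (608 / 1000)) (x := h0 + s - y) (by norm_num)
    (by linarith only [R.h1, R.hys]) (by linarith only [R.k1, R.h2, R.e1, u1, b2, e4])
  have e6 := R.lo3 (598 / 1000) (by norm_num)
  have e7 := R.lo8 (332 / 1000) (by norm_num)
  have e8 := R.lo9 (361 / 1000) (by norm_num)
  have e9 := up (t1 := (365 / 1000)) (t2 := (386 / 1000)) (x := y) (by norm_num)
    (by linarith only [R.k1, R.e1, s1, u1, b2, e4]) (by linarith only [R.hys, s2])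
  have e10 := R.lo3 (601 / 1000) (by norm_num)
  have e11 := R.lo7 (385 / 1000) (by norm_num)
  left
  unfold Ub1
  linarith only [R.k2, R.h1, R.e1, s2, u1, e1, e2, e3, e5, e6, e7, e8, e9, e10, e11]

theorem bub10 {s y u b k : ℝ} (R : RegUb s y u b k)
    (s1 : 6711 / 10000 ≤ s) (s2 : s ≤ 3377 / 5000) (u1 : 0 ≤ u) (u2 : u ≤ 67 / 500)
    (b1 : 3 / 100 ≤ b) (b2 : b ≤ 9 / 200) :
    0 ≤ Ub1 s y u b k ∨ 0 ≤ Ub2 s y u b k := by
  have e1 := up (t1 := (15 / 1000)) (t2 := (23 / 1000)) (x := b) (by norm_num)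
    (by linarith only [b1]) (by linarith only [b2])
  have e2 := up (t1 := (355 / 1000)) (t2 := (359 / 1000)) (x := s - 1 / 25) (by norm_num)
    (by linarith only [s1]) (by linarith only [s2])
  have e3 := R.lo6 (389 / 1000) (by norm_num)
  have e4 := R.lo1 (23 / 1000) (by norm_num)
  have e5 := up (t1 := (577 / 1000)) (t2 := (608 / 1000)) (x := h0 + s - y) (by norm_num)
    (by linarith only [R.h1, R.hys]) (by linarith only [R.k1, R.h2, R.e1, u1, b2, e4])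
  have e6 := R.lo3 (603 / 1000) (by norm_num)
  have e7 := R.lo3 (598 / 1000) (by norm_num)
  have e8 := R.lo7 (385 / 1000) (by norm_num)
  have e9 := R.lo8 (335 / 1000) (by norm_num)
  have e10 := R.lo9 (364 / 1000) (by norm_num)
  have e11 := up (t1 := (368 / 1000)) (t2 := (389 / 1000)) (x := y) (by norm_num)
    (by linarith only [R.k1, R.e1, s1, u1, b2, e4]) (by linarith only [R.hys, s2])
  left
  unfold Ub1
  linarith only [R.k2, R.h1, R.e1, s2, u1, e1, e2, e3, e5, e6, e7, e8, e9, e10, e11]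

theorem bub12 {s y u b k : ℝ} (R : RegUb s y u b k)
    (s1 : 3377 / 5000 ≤ s) (s2 : s ≤ 6797 / 10000) (u1 : 0 ≤ u) (u2 : u ≤ 67 / 500)
    (b1 : 3 / 100 ≤ b) (b2 : b ≤ 9 / 200) :
    0 ≤ Ub1 s y u b k ∨ 0 ≤ Ub2 s y u b k := by
  have e1 := up (t1 := (15 / 1000)) (t2 := (23 / 1000)) (x := b) (by norm_num)
    (by linarith only [b1]) (by linarith only [b2])
  have e2 := up (t1 := (358 / 1000)) (t2 := (362 / 1000)) (x := s - 1 / 25) (by norm_num)
    (by linarith only [s1]) (by linarith only [s2])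
  have e3 := R.lo6 (392 / 1000) (by norm_num)
  have e4 := R.lo1 (23 / 1000) (by norm_num)
  have e5 := up (t1 := (577 / 1000)) (t2 := (608 / 1000)) (x := h0 + s - y) (by norm_num)
    (by linarith only [R.h1, R.hys]) (by linarith only [R.k1, R.h2, R.e1, u1, b2, e4])
  have e6 := R.lo3 (598 / 1000) (by norm_num)
  have e7 := R.lo7 (389 / 1000) (by norm_num)
  have e8 := R.lo8 (338 / 1000) (by norm_num)
  have e9 := R.lo9 (367 / 1000) (by norm_num)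
  have e10 := up (t1 := (372 / 1000)) (t2 := (393 / 1000)) (x := y) (by norm_num)
    (by linarith only [R.k1, R.e1, s1, u1, b2, e4]) (by linarith only [R.hys, s2])
  left
  unfold Ub1
  linarith only [R.k2, R.h1, R.e1, s2, u1, b1, e1, e2, e3, e5, e6, e7, e8, e9, e10]

theorem bub13 {s y u b k : ℝ} (R : RegUb s y u b k)
    (s1 : 6797 / 10000 ≤ s) (s2 : s ≤ 171 / 250) (u1 : 0 ≤ u) (u2 : u ≤ 67 / 500)
    (b1 : 3 / 100 ≤ b) (b2 : b ≤ 9 / 200) :
    0 ≤ Ub1 s y u b k ∨ 0 ≤ Ub2 s y u b k := by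
  have e1 := up (t1 := (15 / 1000)) (t2 := (23 / 1000)) (x := b) (by norm_num)
    (by linarith only [b1]) (by linarith only [b2])
  have e2 := up (t1 := (361 / 1000)) (t2 := (365 / 1000)) (x := s - 1 / 25) (by norm_num)
    (by linarith only [s1]) (by linarith only [s2])
  have e3 := R.lo6 (395 / 1000) (by norm_num)
  have e4 := R.lo1 (23 / 1000) (by norm_num)
  have e5 := up (t1 := (577 / 1000)) (t2 := (608 / 1000)) (x := h0 + s - y) (by norm_num)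
    (by linarith only [R.h1, R.hys]) (by linarith only [R.k1, R.h2, R.e1, u1, b2, e4])
  have e6 := R.lo3 (598 / 1000) (by norm_num)
  have e7 := R.lo7 (392 / 1000) (by norm_num)
  have e8 := R.lo8 (341 / 1000) (by norm_num)
  have e9 := R.lo9 (371 / 1000) (by norm_num)
  have e10 := up (t1 := (375 / 1000)) (t2 := (396 / 1000)) (x := y) (by norm_num)
    (by linarith only [R.k1, R.e1, s1, u1, b2, e4]) (by linarith only [R.hys, s2])
  left
  unfold Ub1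
  linarith only [R.k2, R.h1, R.e1, s2, u1, b1, e1, e2, e3, e5, e6, e7, e8, e9, e10]

theorem bub16 {s y u b k : ℝ} (R : RegUb s y u b k)
    (s1 : 171 / 250 ≤ s) (s2 : s ≤ 1377 / 2000) (u1 : 0 ≤ u) (u2 : u ≤ 67 / 500)
    (b1 : 3 / 100 ≤ b) (b2 : b ≤ 9 / 200) :
    0 ≤ Ub1 s y u b k ∨ 0 ≤ Ub2 s y u b k := by
  have e1 := up (t1 := (15 / 1000)) (t2 := (23 / 1000)) (x := b) (by norm_num)
    (by linarith only [b1]) (by linarith only [b2])
  have e2 := up (t1 := (364 / 1000)) (t2 := (369 / 1000)) (x := s - 1 / 25) (by norm_num)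
    (by linarith only [s1]) (by linarith only [s2])
  have e3 := R.lo6 (399 / 1000) (by norm_num)
  have e4 := R.lo1 (23 / 1000) (by norm_num)
  have e5 := up (t1 := (577 / 1000)) (t2 := (608 / 1000)) (x := h0 + s - y) (by norm_num)
    (by linarith only [R.h1, R.hys]) (by linarith only [R.k1, R.h2, R.e1, u1, b2, e4])
  have e6 := R.lo3 (598 / 1000) (by norm_num)
  have e7 := R.lo7 (395 / 1000) (by norm_num)
  have e8 := R.lo8 (345 / 1000) (by norm_num)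
  have e9 := R.lo9 (374 / 1000) (by norm_num)
  have e10 := up (t1 := (378 / 1000)) (t2 := (400 / 1000)) (x := y) (by norm_num)
    (by linarith only [R.k1, R.e1, s1, u1, b2, e4]) (by linarith only [R.hys, s2])
  left
  unfold Ub1
  linarith only [R.k2, R.h1, R.e1, s2, u1, b1, e1, e2, e3, e5, e6, e7, e8, e9, e10]

theorem bub17 {s y u b k : ℝ} (R : RegUb s y u b k)
    (s1 : 1377 / 2000 ≤ s) (s2 : s ≤ 693 / 1000) (u1 : 0 ≤ u) (u2 : u ≤ 67 / 500)
    (b1 : 3 / 100 ≤ b) (b2 : b ≤ 9 / 200) :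
    0 ≤ Ub1 s y u b k ∨ 0 ≤ Ub2 s y u b k := by
  have e1 := up (t1 := (15 / 1000)) (t2 := (23 / 1000)) (x := b) (by norm_num)
    (by linarith only [b1]) (by linarith only [b2])
  have e2 := up (t1 := (368 / 1000)) (t2 := (372 / 1000)) (x := s - 1 / 25) (by norm_num)
    (by linarith only [s1]) (by linarith only [s2])
  have e3 := R.lo6 (403 / 1000) (by norm_num)
  have e4 := R.lo1 (23 / 1000) (by norm_num)
  have e5 := up (t1 := (577 / 1000)) (t2 := (608 / 1000)) (x := h0 + s - y) (by norm_num)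
    (by linarith only [R.h1, R.hys]) (by linarith only [R.k1, R.h2, R.e1, u1, b2, e4])
  have e6 := R.lo3 (598 / 1000) (by norm_num)
  have e7 := R.lo7 (399 / 1000) (by norm_num)
  have e8 := R.lo8 (348 / 1000) (by norm_num)
  have e9 := R.lo9 (377 / 1000) (by norm_num)
  have e10 := up (t1 := (382 / 1000)) (t2 := (403 / 1000)) (x := y) (by norm_num)
    (by linarith only [R.k1, R.e1, s1, u1, b2, e4]) (by linarith only [R.hys, s2])
  left
  unfold Ub1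
  linarith only [R.k2, R.h1, R.e1, s2, u1, b1, e1, e2, e3, e5, e6, e7, e8, e9, e10]

theorem bub19 {s y u b k : ℝ} (R : RegUb s y u b k)
    (s1 : 693 / 1000 ≤ s) (s2 : s ≤ 279 / 400) (u1 : 0 ≤ u) (u2 : u ≤ 67 / 500)
    (b1 : 3 / 100 ≤ b) (b2 : b ≤ 9 / 200) :
    0 ≤ Ub1 s y u b k ∨ 0 ≤ Ub2 s y u b k := by
  have e1 := up (t1 := (15 / 1000)) (t2 := (23 / 1000)) (x := b) (by norm_num)
    (by linarith only [b1]) (by linarith only [b2])
  have e2 := up (t1 := (371 / 1000)) (t2 := (375 / 1000)) (x := s - 1 / 25) (by norm_num)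
    (by linarith only [s1]) (by linarith only [s2])
  have e3 := R.lo6 (406 / 1000) (by norm_num)
  have e4 := R.lo1 (23 / 1000) (by norm_num)
  have e5 := up (t1 := (577 / 1000)) (t2 := (608 / 1000)) (x := h0 + s - y) (by norm_num)
    (by linarith only [R.h1, R.hys]) (by linarith only [R.k1, R.h2, R.e1, u1, b2, e4])
  have e6 := R.lo3 (598 / 1000) (by norm_num)
  have e7 := R.lo7 (403 / 1000) (by norm_num)
  have e8 := R.lo8 (351 / 1000) (by norm_num)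
  have e9 := R.lo9 (381 / 1000) (by norm_num)
  have e10 := up (t1 := (385 / 1000)) (t2 := (407 / 1000)) (x := y) (by norm_num)
    (by linarith only [R.k1, R.e1, s1, u1, b2, e4]) (by linarith only [R.hys, s2])
  left
  unfold Ub1
  linarith only [R.k2, R.h1, R.e1, s2, u1, b1, e1, e2, e3, e5, e6, e7, e8, e9, e10]

theorem bub20 {s y u b k : ℝ} (R : RegUb s y u b k)
    (s1 : 279 / 400 ≤ s) (s2 : s ≤ 351 / 500) (u1 : 0 ≤ u) (u2 : u ≤ 67 / 500)
    (b1 : 3 / 100 ≤ b) (b2 : b ≤ 9 / 200) :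
    0 ≤ Ub1 s y u b k ∨ 0 ≤ Ub2 s y u b k := by
  have e1 := up (t1 := (15 / 1000)) (t2 := (23 / 1000)) (x := b) (by norm_num)
    (by linarith only [b1]) (by linarith only [b2])
  have e2 := up (t1 := (374 / 1000)) (t2 := (379 / 1000)) (x := s - 1 / 25) (by norm_num)
    (by linarith only [s1]) (by linarith only [s2])
  have e3 := R.lo6 (410 / 1000) (by norm_num)
  have e4 := R.lo1 (23 / 1000) (by norm_num)
  have e5 := up (t1 := (577 / 1000)) (t2 := (608 / 1000)) (x := h0 + s - y) (by norm_num)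
    (by linarith only [R.h1, R.hys]) (by linarith only [R.k1, R.h2, R.e1, u1, b2, e4])
  have e6 := R.lo3 (598 / 1000) (by norm_num)
  have e7 := R.lo7 (406 / 1000) (by norm_num)
  have e8 := R.lo8 (354 / 1000) (by norm_num)
  have e9 := R.lo9 (384 / 1000) (by norm_num)
  have e10 := up (t1 := (389 / 1000)) (t2 := (411 / 1000)) (x := y) (by norm_num)
    (by linarith only [R.k1, R.e1, s1, u1, b2, e4]) (by linarith only [R.hys, s2])
  left
  unfold Ub1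
  linarith only [R.k2, R.h1, R.e1, s2, u1, b1, e1, e2, e3, e5, e6, e7, e8, e9, e10]

theorem bub22 {s y u b k : ℝ} (R : RegUb s y u b k)
    (s1 : 1667 / 2500 ≤ s) (s2 : s ≤ 171 / 250) (u1 : 0 ≤ u) (u2 : u ≤ 67 / 500)
    (b1 : 9 / 200 ≤ b) (b2 : b ≤ 3 / 50) :
    0 ≤ Ub1 s y u b k ∨ 0 ≤ Ub2 s y u b k := by
  have e1 := up (t1 := (22 / 1000)) (t2 := (31 / 1000)) (x := b) (by norm_num)
    (by linarith only [b1]) (by linarith only [b2])
  have e2 := R.lo6 (389 / 1000) (by norm_num)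
  have e3 := R.lo6 (395 / 1000) (by norm_num)
  have e4 := R.lo1 (30 / 1000) (by norm_num)
  have e5 := up (t1 := (577 / 1000)) (t2 := (619 / 1000)) (x := h0 + s - y) (by norm_num)
    (by linarith only [R.h1, R.hys]) (by linarith only [R.k1, R.h2, R.e1, u1, b2, e4])
  have e6 := R.lo3 (608 / 1000) (by norm_num)
  have e7 := R.lo5 (1 / 1000) (by norm_num)
  have e8 := R.lo7 (400 / 1000) (by norm_num)
  have e9 := R.lo8 (329 / 1000) (by norm_num)
  have e10 := up (t1 := (360 / 1000)) (t2 := (396 / 1000)) (x := y) (by norm_num)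
    (by linarith only [R.k1, R.e1, s1, u1, b2, e4]) (by linarith only [R.hys, s2])
  right
  unfold Ub2
  linarith only [R.k2, R.h1, R.e1, u1, b1, e1, e2, e3, e5, e6, e7, e8, e9, e10]

theorem bub23 {s y u b k : ℝ} (R : RegUb s y u b k)
    (s1 : 171 / 250 ≤ s) (s2 : s ≤ 351 / 500) (u1 : 0 ≤ u) (u2 : u ≤ 67 / 500)
    (b1 : 9 / 200 ≤ b) (b2 : b ≤ 3 / 50) :
    0 ≤ Ub1 s y u b k ∨ 0 ≤ Ub2 s y u b k := by
  have e1 := up (t1 := (22 / 1000)) (t2 := (31 / 1000)) (x := b) (by norm_num)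
    (by linarith only [b1]) (by linarith only [b2])
  have e2 := R.lo6 (403 / 1000) (by norm_num)
  have e3 := R.lo1 (30 / 1000) (by norm_num)
  have e4 := up (t1 := (577 / 1000)) (t2 := (619 / 1000)) (x := h0 + s - y) (by norm_num)
    (by linarith only [R.h1, R.hys]) (by linarith only [R.k1, R.h2, R.e1, u1, b2, e3])
  have e5 := R.lo3 (608 / 1000) (by norm_num)
  have e6 := R.lo5 (-8 / 1000) (by norm_num)
  have e7 := R.lo7 (414 / 1000) (by norm_num)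
  have e8 := R.lo8 (341 / 1000) (by norm_num)
  have e9 := R.lo8 (361 / 1000) (by norm_num)
  have e10 := up (t1 := (373 / 1000)) (t2 := (411 / 1000)) (x := y) (by norm_num)
    (by linarith only [R.k1, R.e1, s1, u1, b2, e3]) (by linarith only [R.hys, s2])
  right
  unfold Ub2
  linarith only [R.k2, R.h1, R.hys, b1, e1, e2, e4, e5, e6, e7, e8, e9, e10]

theorem bub28 {s y u b k : ℝ} (R : RegUb s y u b k)
    (s1 : 351 / 500 ≤ s) (s2 : s ≤ 3531 / 5000) (u1 : 0 ≤ u) (u2 : u ≤ 67 / 500)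
    (b1 : 3 / 100 ≤ b) (b2 : b ≤ 9 / 200) :
    0 ≤ Ub1 s y u b k ∨ 0 ≤ Ub2 s y u b k := by
  have e1 := up (t1 := (15 / 1000)) (t2 := (23 / 1000)) (x := b) (by norm_num)
    (by linarith only [b1]) (by linarith only [b2])
  have e2 := up (t1 := (378 / 1000)) (t2 := (382 / 1000)) (x := s - 1 / 25) (by norm_num)
    (by linarith only [s1]) (by linarith only [s2])
  have e3 := R.lo6 (413 / 1000) (by norm_num)
  have e4 := R.lo1 (23 / 1000) (by norm_num)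
  have e5 := up (t1 := (577 / 1000)) (t2 := (608 / 1000)) (x := h0 + s - y) (by norm_num)
    (by linarith only [R.h1, R.hys]) (by linarith only [R.k1, R.h2, R.e1, u1, b2, e4])
  have e6 := R.lo3 (598 / 1000) (by norm_num)
  have e7 := R.lo7 (410 / 1000) (by norm_num)
  have e8 := R.lo8 (357 / 1000) (by norm_num)
  have e9 := R.lo9 (388 / 1000) (by norm_num)
  have e10 := up (t1 := (392 / 1000)) (t2 := (414 / 1000)) (x := y) (by norm_num)
    (by linarith only [R.k1, R.e1, s1, u1, b2, e4]) (by linarith only [R.hys, s2])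
  left
  unfold Ub1
  linarith only [R.k2, R.h1, R.e1, s2, u1, b1, e1, e2, e3, e5, e6, e7, e8, e9, e10]

theorem bub29 {s y u b k : ℝ} (R : RegUb s y u b k)
    (s1 : 3531 / 5000 ≤ s) (s2 : s ≤ 1421 / 2000) (u1 : 0 ≤ u) (u2 : u ≤ 67 / 500)
    (b1 : 3 / 100 ≤ b) (b2 : b ≤ 9 / 200) :
    0 ≤ Ub1 s y u b k ∨ 0 ≤ Ub2 s y u b k := by
  have e1 := up (t1 := (15 / 1000)) (t2 := (23 / 1000)) (x := b) (by norm_num)
    (by linarith only [b1]) (by linarith only [b2])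
  have e2 := up (t1 := (381 / 1000)) (t2 := (385 / 1000)) (x := s - 1 / 25) (by norm_num)
    (by linarith only [s1]) (by linarith only [s2])
  have e3 := R.lo6 (417 / 1000) (by norm_num)
  have e4 := R.lo1 (23 / 1000) (by norm_num)
  have e5 := up (t1 := (577 / 1000)) (t2 := (608 / 1000)) (x := h0 + s - y) (by norm_num)
    (by linarith only [R.h1, R.hys]) (by linarith only [R.k1, R.h2, R.e1, u1, b2, e4])
  have e6 := R.lo3 (598 / 1000) (by norm_num)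
  have e7 := R.lo7 (413 / 1000) (by norm_num)
  have e8 := R.lo8 (361 / 1000) (by norm_num)
  have e9 := R.lo9 (391 / 1000) (by norm_num)
  have e10 := up (t1 := (395 / 1000)) (t2 := (418 / 1000)) (x := y) (by norm_num)
    (by linarith only [R.k1, R.e1, s1, u1, b2, e4]) (by linarith only [R.hys, s2])
  left
  unfold Ub1
  linarith only [R.k2, R.h1, R.e1, s2, u1, b1, e1, e2, e3, e5, e6, e7, e8, e9, e10]

theorem bub31 {s y u b k : ℝ} (R : RegUb s y u b k)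
    (s1 : 1421 / 2000 ≤ s) (s2 : s ≤ 1787 / 2500) (u1 : 0 ≤ u) (u2 : u ≤ 67 / 500)
    (b1 : 3 / 100 ≤ b) (b2 : b ≤ 9 / 200) :
    0 ≤ Ub1 s y u b k ∨ 0 ≤ Ub2 s y u b k := by
  have e1 := up (t1 := (15 / 1000)) (t2 := (23 / 1000)) (x := b) (by norm_num)
    (by linarith only [b1]) (by linarith only [b2])
  have e2 := up (t1 := (384 / 1000)) (t2 := (389 / 1000)) (x := s - 1 / 25) (by norm_num)
    (by linarith only [s1]) (by linarith only [s2])
  have e3 := R.lo6 (421 / 1000) (by norm_num)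
  have e4 := R.lo1 (23 / 1000) (by norm_num)
  have e5 := up (t1 := (577 / 1000)) (t2 := (608 / 1000)) (x := h0 + s - y) (by norm_num)
    (by linarith only [R.h1, R.hys]) (by linarith only [R.k1, R.h2, R.e1, u1, b2, e4])
  have e6 := R.lo3 (598 / 1000) (by norm_num)
  have e7 := R.lo7 (417 / 1000) (by norm_num)
  have e8 := R.lo8 (364 / 1000) (by norm_num)
  have e9 := R.lo9 (394 / 1000) (by norm_num)
  have e10 := up (t1 := (399 / 1000)) (t2 := (421 / 1000)) (x := y) (by norm_num)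
    (by linarith only [R.k1, R.e1, s1, u1, b2, e4]) (by linarith only [R.hys, s2])
  left
  unfold Ub1
  linarith only [R.k2, R.h1, R.e1, s2, u1, b1, e1, e2, e3, e5, e6, e7, e8, e9, e10]

theorem bub32 {s y u b k : ℝ} (R : RegUb s y u b k)
    (s1 : 1787 / 2500 ≤ s) (s2 : s ≤ 719 / 1000) (u1 : 0 ≤ u) (u2 : u ≤ 67 / 500)
    (b1 : 3 / 100 ≤ b) (b2 : b ≤ 9 / 200) :
    0 ≤ Ub1 s y u b k ∨ 0 ≤ Ub2 s y u b k := by
  have e1 := up (t1 := (15 / 1000)) (t2 := (23 / 1000)) (x := b) (by norm_num)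
    (by linarith only [b1]) (by linarith only [b2])
  have e2 := up (t1 := (388 / 1000)) (t2 := (392 / 1000)) (x := s - 1 / 25) (by norm_num)
    (by linarith only [s1]) (by linarith only [s2])
  have e3 := R.lo6 (424 / 1000) (by norm_num)
  have e4 := R.lo1 (23 / 1000) (by norm_num)
  have e5 := up (t1 := (577 / 1000)) (t2 := (608 / 1000)) (x := h0 + s - y) (by norm_num)
    (by linarith only [R.h1, R.hys]) (by linarith only [R.k1, R.h2, R.e1, u1, b2, e4])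
  have e6 := R.lo3 (598 / 1000) (by norm_num)
  have e7 := R.lo7 (421 / 1000) (by norm_num)
  have e8 := R.lo8 (367 / 1000) (by norm_num)
  have e9 := R.lo9 (398 / 1000) (by norm_num)
  have e10 := up (t1 := (402 / 1000)) (t2 := (425 / 1000)) (x := y) (by norm_num)
    (by linarith only [R.k1, R.e1, s1, u1, b2, e4]) (by linarith only [R.hys, s2])
  left
  unfold Ub1
  linarith only [R.k2, R.h1, R.e1, s2, u1, b1, e1, e2, e3, e5, e6, e7, e8, e9, e10]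

theorem bub34 {s y u b k : ℝ} (R : RegUb s y u b k)
    (s1 : 351 / 500 ≤ s) (s2 : s ≤ 1421 / 2000) (u1 : 0 ≤ u) (u2 : u ≤ 67 / 500)
    (b1 : 9 / 200 ≤ b) (b2 : b ≤ 3 / 50) :
    0 ≤ Ub1 s y u b k ∨ 0 ≤ Ub2 s y u b k := by
  have e1 := up (t1 := (22 / 1000)) (t2 := (31 / 1000)) (x := b) (by norm_num)
    (by linarith only [b1]) (by linarith only [b2])
  have e2 := R.lo6 (410 / 1000) (by norm_num)
  have e3 := R.lo1 (30 / 1000) (by norm_num)
  have e4 := up (t1 := (577 / 1000)) (t2 := (619 / 1000)) (x := h0 + s - y) (by norm_num)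
    (by linarith only [R.h1, R.hys]) (by linarith only [R.k1, R.h2, R.e1, u1, b2, e3])
  have e5 := R.lo3 (608 / 1000) (by norm_num)
  have e6 := R.lo5 (-8 / 1000) (by norm_num)
  have e7 := R.lo7 (425 / 1000) (by norm_num)
  have e8 := R.lo8 (367 / 1000) (by norm_num)
  have e9 := up (t1 := (387 / 1000)) (t2 := (418 / 1000)) (x := y) (by norm_num)
    (by linarith only [R.k1, R.e1, s1, u1, b2, e3]) (by linarith only [R.hys, s2])
  right
  unfold Ub2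
  linarith only [R.k2, R.h1, R.hys, s1, b1, e1, e2, e4, e5, e6, e7, e8, e9]

theorem bub36 {s y u b k : ℝ} (R : RegUb s y u b k)
    (s1 : 1421 / 2000 ≤ s) (s2 : s ≤ 1787 / 2500) (u1 : 0 ≤ u) (u2 : u ≤ 67 / 500)
    (b1 : 9 / 200 ≤ b) (b2 : b ≤ 3 / 50) :
    0 ≤ Ub1 s y u b k ∨ 0 ≤ Ub2 s y u b k := by
  have e1 := up (t1 := (22 / 1000)) (t2 := (31 / 1000)) (x := b) (by norm_num)
    (by linarith only [b1]) (by linarith only [b2])
  have e2 := R.lo6 (417 / 1000) (by norm_num)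
  have e3 := R.lo1 (30 / 1000) (by norm_num)
  have e4 := up (t1 := (577 / 1000)) (t2 := (619 / 1000)) (x := h0 + s - y) (by norm_num)
    (by linarith only [R.h1, R.hys]) (by linarith only [R.k1, R.h2, R.e1, u1, b2, e3])
  have e5 := R.lo3 (608 / 1000) (by norm_num)
  have e6 := R.lo5 (-8 / 1000) (by norm_num)
  have e7 := R.lo7 (431 / 1000) (by norm_num)
  have e8 := R.lo8 (370 / 1000) (by norm_num)
  have e9 := up (t1 := (393 / 1000)) (t2 := (421 / 1000)) (x := y) (by norm_num)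
    (by linarith only [R.k1, R.e1, s1, u1, b2, e3]) (by linarith only [R.hys, s2])
  right
  unfold Ub2
  linarith only [R.k2, R.h1, R.hys, s1, b1, e1, e2, e4, e5, e6, e7, e8, e9]

theorem bub37 {s y u b k : ℝ} (R : RegUb s y u b k)
    (s1 : 1787 / 2500 ≤ s) (s2 : s ≤ 719 / 1000) (u1 : 0 ≤ u) (u2 : u ≤ 67 / 500)
    (b1 : 9 / 200 ≤ b) (b2 : b ≤ 3 / 50) :
    0 ≤ Ub1 s y u b k ∨ 0 ≤ Ub2 s y u b k := by
  have e1 := up (t1 := (22 / 1000)) (t2 := (31 / 1000)) (x := b) (by norm_num)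
    (by linarith only [b1]) (by linarith only [b2])
  have e2 := R.lo6 (421 / 1000) (by norm_num)
  have e3 := R.lo1 (30 / 1000) (by norm_num)
  have e4 := up (t1 := (577 / 1000)) (t2 := (619 / 1000)) (x := h0 + s - y) (by norm_num)
    (by linarith only [R.h1, R.hys]) (by linarith only [R.k1, R.h2, R.e1, u1, b2, e3])
  have e5 := R.lo3 (608 / 1000) (by norm_num)
  have e6 := R.lo5 (-8 / 1000) (by norm_num)
  have e7 := R.lo7 (435 / 1000) (by norm_num)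
  have e8 := R.lo8 (374 / 1000) (by norm_num)
  have e9 := up (t1 := (397 / 1000)) (t2 := (425 / 1000)) (x := y) (by norm_num)
    (by linarith only [R.k1, R.e1, s1, u1, b2, e3]) (by linarith only [R.hys, s2])
  right
  unfold Ub2
  linarith only [R.k2, R.h1, R.hys, s1, b1, e1, e2, e4, e5, e6, e7, e8, e9]

theorem bub43 {s y u b k : ℝ} (R : RegUb s y u b k)
    (s1 : 719 / 1000 ≤ s) (s2 : s ≤ 1819 / 2500) (u1 : 0 ≤ u) (u2 : u ≤ 17 / 1000)
    (b1 : 3 / 100 ≤ b) (b2 : b ≤ 9 / 200) :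
    0 ≤ Ub1 s y u b k ∨ 0 ≤ Ub2 s y u b k := by
  have e1 := up (t1 := (15 / 1000)) (t2 := (23 / 1000)) (x := b) (by norm_num)
    (by linarith only [b1]) (by linarith only [b2])
  have e2 := up (t1 := (391 / 1000)) (t2 := (399 / 1000)) (x := s - 1 / 25) (by norm_num)
    (by linarith only [s1]) (by linarith only [s2])
  have e3 := R.lo6 (428 / 1000) (by norm_num)
  have e4 := R.lo6 (432 / 1000) (by norm_num)
  have e5 := R.lo1 (23 / 1000) (by norm_num)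
  have e6 := up (t1 := (577 / 1000)) (t2 := (608 / 1000)) (x := h0 + s - y) (by norm_num)
    (by linarith only [R.h1, R.hys]) (by linarith only [R.k1, R.h2, R.e1, u1, b2, e5])
  have e7 := R.lo3 (598 / 1000) (by norm_num)
  have e8 := R.lo7 (435 / 1000) (by norm_num)
  have e9 := R.lo8 (372 / 1000) (by norm_num)
  have e10 := R.lo9 (403 / 1000) (by norm_num)
  have e11 := up (t1 := (406 / 1000)) (t2 := (432 / 1000)) (x := y) (by norm_num)
    (by linarith only [R.k1, R.e1, s1, u1, b2, e5]) (by linarith only [R.hys, s2])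
  left
  unfold Ub1
  linarith only [R.k2, R.h1, R.e1, u1, b1, e1, e2, e3, e4, e6, e7, e8, e9, e10, e11]

theorem bub44 {s y u b k : ℝ} (R : RegUb s y u b k)
    (s1 : 1819 / 2500 ≤ s) (s2 : s ≤ 3681 / 5000) (u1 : 0 ≤ u) (u2 : u ≤ 17 / 1000)
    (b1 : 3 / 100 ≤ b) (b2 : b ≤ 9 / 200) :
    0 ≤ Ub1 s y u b k ∨ 0 ≤ Ub2 s y u b k := by
  have e1 := up (t1 := (15 / 1000)) (t2 := (23 / 1000)) (x := b) (by norm_num)
    (by linarith only [b1]) (by linarith only [b2])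
  have e2 := up (t1 := (398 / 1000)) (t2 := (406 / 1000)) (x := s - 1 / 25) (by norm_num)
    (by linarith only [s1]) (by linarith only [s2])
  have e3 := R.lo6 (439 / 1000) (by norm_num)
  have e4 := R.lo1 (23 / 1000) (by norm_num)
  have e5 := up (t1 := (577 / 1000)) (t2 := (608 / 1000)) (x := h0 + s - y) (by norm_num)
    (by linarith only [R.h1, R.hys]) (by linarith only [R.k1, R.h2, R.e1, u1, b2, e4])
  have e6 := R.lo3 (598 / 1000) (by norm_num)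
  have e7 := R.lo7 (443 / 1000) (by norm_num)
  have e8 := R.lo7 (432 / 1000) (by norm_num)
  have e9 := R.lo8 (378 / 1000) (by norm_num)
  have e10 := R.lo9 (410 / 1000) (by norm_num)
  have e11 := up (t1 := (413 / 1000)) (t2 := (440 / 1000)) (x := y) (by norm_num)
    (by linarith only [R.k1, R.e1, s1, u1, b2, e4]) (by linarith only [R.hys, s2])
  left
  unfold Ub1
  linarith only [R.k2, R.h1, R.e1, u1, b1, e1, e2, e3, e5, e6, e7, e8, e9, e10, e11]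

theorem bub46 {s y u b k : ℝ} (R : RegUb s y u b k)
    (s1 : 719 / 1000 ≤ s) (s2 : s ≤ 1819 / 2500) (u1 : 0 ≤ u) (u2 : u ≤ 17 / 1000)
    (b1 : 9 / 200 ≤ b) (b2 : b ≤ 3 / 50) :
    0 ≤ Ub1 s y u b k ∨ 0 ≤ Ub2 s y u b k := by
  have e1 := up (t1 := (22 / 1000)) (t2 := (31 / 1000)) (x := b) (by norm_num)
    (by linarith only [b1]) (by linarith only [b2])
  have e2 := R.lo6 (424 / 1000) (by norm_num)
  have e3 := R.lo1 (30 / 1000) (by norm_num)
  have e4 := up (t1 := (583 / 1000)) (t2 := (619 / 1000)) (x := h0 + s - y) (by norm_num)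
    (by linarith only [R.k2, R.h1, R.e2, u2, b1, e1]) (by linarith only [R.k1, R.h2, R.e1, u1, b2, e3])
  have e5 := R.lo3 (608 / 1000) (by norm_num)
  have e6 := R.lo5 (-6 / 1000) (by norm_num)
  have e7 := R.lo7 (435 / 1000) (by norm_num)
  have e8 := R.lo8 (377 / 1000) (by norm_num)
  have e9 := up (t1 := (400 / 1000)) (t2 := (428 / 1000)) (x := y) (by norm_num)
    (by linarith only [R.k1, R.e1, s1, u1, b2, e3]) (by linarith only [R.k2, R.e2, s2, u2, b1, e1])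
  right
  unfold Ub2
  linarith only [R.k2, R.h1, R.e2, s1, u2, b1, e1, e2, e4, e5, e6, e7, e8, e9]

theorem bub47 {s y u b k : ℝ} (R : RegUb s y u b k)
    (s1 : 1819 / 2500 ≤ s) (s2 : s ≤ 3681 / 5000) (u1 : 0 ≤ u) (u2 : u ≤ 17 / 1000)
    (b1 : 9 / 200 ≤ b) (b2 : b ≤ 3 / 50) :
    0 ≤ Ub1 s y u b k ∨ 0 ≤ Ub2 s y u b k := by
  have e1 := up (t1 := (22 / 1000)) (t2 := (31 / 1000)) (x := b) (by norm_num)
    (by linarith only [b1]) (by linarith only [b2])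
  have e2 := R.lo6 (432 / 1000) (by norm_num)
  have e3 := R.lo1 (30 / 1000) (by norm_num)
  have e4 := up (t1 := (583 / 1000)) (t2 := (619 / 1000)) (x := h0 + s - y) (by norm_num)
    (by linarith only [R.k2, R.h1, R.e2, u2, b1, e1]) (by linarith only [R.k1, R.h2, R.e1, u1, b2, e3])
  have e5 := R.lo3 (608 / 1000) (by norm_num)
  have e6 := R.lo5 (-6 / 1000) (by norm_num)
  have e7 := R.lo7 (443 / 1000) (by norm_num)
  have e8 := R.lo8 (383 / 1000) (by norm_num)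
  have e9 := up (t1 := (407 / 1000)) (t2 := (436 / 1000)) (x := y) (by norm_num)
    (by linarith only [R.k1, R.e1, s1, u1, b2, e3]) (by linarith only [R.k2, R.e2, s2, u2, b1, e1])
  right
  unfold Ub2
  linarith only [R.k2, R.h1, R.e2, s1, u2, b1, e1, e2, e4, e5, e6, e7, e8, e9]

theorem bub48 {s y u b k : ℝ} (R : RegUb s y u b k)
    (s1 : 719 / 1000 ≤ s) (s2 : s ≤ 3681 / 5000) (u1 : 17 / 1000 ≤ u) (u2 : u ≤ 17 / 500)
    (b1 : 3 / 100 ≤ b) (b2 : b ≤ 3 / 50) :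
    0 ≤ Ub1 s y u b k ∨ 0 ≤ Ub2 s y u b k := by
  have e1 := up (t1 := (17 / 1000)) (t2 := (31 / 1000)) (x := b) (by norm_num)
    (by linarith only [R.k3, R.e1, R.hys, u1]) (by linarith only [b2])
  have e2 := up (t1 := (391 / 1000)) (t2 := (406 / 1000)) (x := s - 1 / 25) (by norm_num)
    (by linarith only [s1]) (by linarith only [s2])
  have e3 := R.lo6 (432 / 1000) (by norm_num)
  have e4 := R.lo1 (30 / 1000) (by norm_num)
  have e5 := up (t1 := (577 / 1000)) (t2 := (594 / 1000)) (x := h0 + s - y) (by norm_num)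
    (by linarith only [R.h1, R.hys]) (by linarith only [R.k1, R.h2, R.e1, u1, b2, e4])
  have e6 := R.lo3 (601 / 1000) (by norm_num)
  have e7 := R.lo7 (452 / 1000) (by norm_num)
  have e8 := R.lo7 (439 / 1000) (by norm_num)
  have e9 := R.lo8 (375 / 1000) (by norm_num)
  have e10 := R.lo9 (406 / 1000) (by norm_num)
  have e11 := R.lo9 (423 / 1000) (by norm_num)
  have e12 := up (t1 := (414 / 1000)) (t2 := (440 / 1000)) (x := y) (by norm_num)
    (by linarith only [R.k1, R.e1, s1, u1, b2, e4]) (by linarith only [R.hys, s2])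
  left
  unfold Ub1
  linarith only [R.k2, R.h1, R.e1, u1, e1, e2, e3, e5, e6, e7, e8, e9, e10, e11, e12]

theorem bub49 {s y u b k : ℝ} (R : RegUb s y u b k)
    (s1 : 719 / 1000 ≤ s) (s2 : s ≤ 3681 / 5000) (u1 : 17 / 500 ≤ u) (u2 : u ≤ 67 / 1000)
    (b1 : 3 / 100 ≤ b) (b2 : b ≤ 3 / 50) :
    0 ≤ Ub1 s y u b k ∨ 0 ≤ Ub2 s y u b k := by
  exfalso
  linarith only [R.k3, R.e1, R.hys, u1, b2]

theorem bub50 {s y u b k : ℝ} (R : RegUb s y u b k)
    (s1 : 719 / 1000 ≤ s) (s2 : s ≤ 3681 / 5000) (u1 : 67 / 1000 ≤ u) (u2 : u ≤ 67 / 500)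
    (b1 : 3 / 100 ≤ b) (b2 : b ≤ 3 / 50) :
    0 ≤ Ub1 s y u b k ∨ 0 ≤ Ub2 s y u b k := by
  exfalso
  linarith only [R.k3, R.e1, R.hys, u1, b2]

theorem bub52 {s y u b k : ℝ} (R : RegUb s y u b k)
    (s1 : 1667 / 2500 ≤ s) (s2 : s ≤ 351 / 500) (u1 : 0 ≤ u) (u2 : u ≤ 67 / 500)
    (b1 : 3 / 50 ≤ b) (b2 : b ≤ 89 / 1000) :
    0 ≤ Ub1 s y u b k ∨ 0 ≤ Ub2 s y u b k := by
  have e1 := up (t1 := (30 / 1000)) (t2 := (45 / 1000)) (x := b) (by norm_num)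
    (by linarith only [b1]) (by linarith only [b2])
  have e2 := R.lo6 (396 / 1000) (by norm_num)
  have e3 := up (t1 := (577 / 1000)) (t2 := (637 / 1000)) (x := h0 + s - y) (by norm_num)
    (by linarith only [R.h1, R.hys]) (by linarith only [R.h2, R.hy])
  have e4 := R.lo3 (618 / 1000) (by norm_num)
  have e5 := R.lo5 (10 / 1000) (by norm_num)
  have e6 := R.lo7 (412 / 1000) (by norm_num)
  have e7 := R.lo7 (382 / 1000) (by norm_num)
  have e8 := R.lo8 (323 / 1000) (by norm_num)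
  have e9 := up (t1 := (352 / 1000)) (t2 := (411 / 1000)) (x := y) (by norm_num)
    (by linarith only [R.hy, s1]) (by linarith only [R.hys, s2])
  right
  unfold Ub2
  linarith only [R.k2, R.h1, R.e1, u1, b1, e1, e2, e3, e4, e5, e6, e7, e8, e9]

theorem bub53 {s y u b k : ℝ} (R : RegUb s y u b k)
    (s1 : 351 / 500 ≤ s) (s2 : s ≤ 3681 / 5000) (u1 : 0 ≤ u) (u2 : u ≤ 67 / 500)
    (b1 : 3 / 50 ≤ b) (b2 : b ≤ 89 / 1000) :
    0 ≤ Ub1 s y u b k ∨ 0 ≤ Ub2 s y u b k := by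
  have e1 := up (t1 := (30 / 1000)) (t2 := (45 / 1000)) (x := b) (by norm_num)
    (by linarith only [b1]) (by linarith only [b2])
  have e2 := R.lo6 (424 / 1000) (by norm_num)
  have e3 := R.lo6 (410 / 1000) (by norm_num)
  have e4 := up (t1 := (577 / 1000)) (t2 := (637 / 1000)) (x := h0 + s - y) (by norm_num)
    (by linarith only [R.h1, R.hys]) (by linarith only [R.h2, R.hy])
  have e5 := R.lo3 (618 / 1000) (by norm_num)
  have e6 := R.lo5 (-4 / 1000) (by norm_num)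
  have e7 := R.lo7 (442 / 1000) (by norm_num)
  have e8 := R.lo8 (347 / 1000) (by norm_num)
  have e9 := up (t1 := (378 / 1000)) (t2 := (440 / 1000)) (x := y) (by norm_num)
    (by linarith only [R.hy, s1]) (by linarith only [R.hys, s2])
  right
  unfold Ub2
  linarith only [R.k2, R.h1, R.hys, b1, e1, e2, e3, e4, e5, e6, e7, e8, e9]

theorem bub54 {s y u b k : ℝ} (R : RegUb s y u b k)
    (s1 : 1667 / 2500 ≤ s) (s2 : s ≤ 3681 / 5000) (u1 : 0 ≤ u) (u2 : u ≤ 67 / 500)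
    (b1 : 89 / 1000 ≤ b) (b2 : b ≤ 37 / 250) :
    0 ≤ Ub1 s y u b k ∨ 0 ≤ Ub2 s y u b k := by
  have e1 := up (t1 := (44 / 1000)) (t2 := (75 / 1000)) (x := b) (by norm_num)
    (by linarith only [b1]) (by linarith only [b2])
  have e2 := R.lo6 (410 / 1000) (by norm_num)
  have e3 := R.lo6 (382 / 1000) (by norm_num)
  have e4 := up (t1 := (577 / 1000)) (t2 := (637 / 1000)) (x := h0 + s - y) (by norm_num)
    (by linarith only [R.h1, R.hys]) (by linarith only [R.h2, R.hy])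
  have e5 := R.lo3 (638 / 1000) (by norm_num)
  have e6 := R.lo5 (4 / 1000) (by norm_num)
  have e7 := R.lo7 (437 / 1000) (by norm_num)
  have e8 := R.lo8 (317 / 1000) (by norm_num)
  have e9 := up (t1 := (352 / 1000)) (t2 := (440 / 1000)) (x := y) (by norm_num)
    (by linarith only [R.hy, s1]) (by linarith only [R.hys, s2])
  right
  unfold Ub2
  linarith only [R.k2, R.h1, R.hys, b1, e1, e2, e3, e4, e5, e6, e7, e8, e9]

theorem bub55 {s y u b k : ℝ} (R : RegUb s y u b k)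
    (s1 : 1667 / 2500 ≤ s) (s2 : s ≤ 3681 / 5000) (u1 : 0 ≤ u) (u2 : u ≤ 67 / 500)
    (b1 : 37 / 250 ≤ b) (b2 : b ≤ 53 / 200) :
    0 ≤ Ub1 s y u b k ∨ 0 ≤ Ub2 s y u b k := by
  have e1 := up (t1 := (74 / 1000)) (t2 := (135 / 1000)) (x := b) (by norm_num)
    (by linarith only [b1]) (by linarith only [b2])
  have e2 := R.lo6 (410 / 1000) (by norm_num)
  have e3 := R.lo6 (382 / 1000) (by norm_num)
  have e4 := up (t1 := (577 / 1000)) (t2 := (637 / 1000)) (x := h0 + s - y) (by norm_num)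
    (by linarith only [R.h1, R.hys]) (by linarith only [R.h2, R.hy])
  have e5 := R.lo3 (681 / 1000) (by norm_num)
  have e6 := R.lo5 (22 / 1000) (by norm_num)
  have e7 := R.lo7 (465 / 1000) (by norm_num)
  have e8 := R.lo8 (279 / 1000) (by norm_num)
  have e9 := up (t1 := (352 / 1000)) (t2 := (440 / 1000)) (x := y) (by norm_num)
    (by linarith only [R.hy, s1]) (by linarith only [R.hys, s2])
  right
  unfold Ub2
  linarith only [R.k2, R.h1, R.hys, b1, e1, e2, e3, e4, e5, e6, e7, e8, e9]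

theorem bub56 {s y u b k : ℝ} (R : RegUb s y u b k)
    (s1 : 1667 / 2500 ≤ s) (s2 : s ≤ 3681 / 5000) (u1 : 0 ≤ u) (u2 : u ≤ 67 / 500)
    (b1 : 53 / 200 ≤ b) (b2 : b ≤ 1 / 2) :
    0 ≤ Ub1 s y u b k ∨ 0 ≤ Ub2 s y u b k := by
  have e1 := up (t1 := (134 / 1000)) (t2 := (268 / 1000)) (x := b) (by norm_num)
    (by linarith only [b1]) (by linarith only [b2])
  have e2 := R.lo6 (410 / 1000) (by norm_num)
  have e3 := up (t1 := (577 / 1000)) (t2 := (637 / 1000)) (x := h0 + s - y) (by norm_num)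
    (by linarith only [R.h1, R.hys]) (by linarith only [R.h2, R.hy])
  have e4 := R.lo3 (831 / 1000) (by norm_num)
  have e5 := R.lo3 (956 / 1000) (by norm_num)
  have e6 := R.lo5 (124 / 1000) (by norm_num)
  have e7 := R.lo7 (499 / 1000) (by norm_num)
  have e8 := R.lo7 (583 / 1000) (by norm_num)
  have e9 := R.lo8 (196 / 1000) (by norm_num)
  have e10 := up (t1 := (352 / 1000)) (t2 := (440 / 1000)) (x := y) (by norm_num)
    (by linarith only [R.hy, s1]) (by linarith only [R.hys, s2])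
  right
  unfold Ub2
  linarith only [R.k2, R.h1, R.hys, e1, e2, e3, e4, e5, e6, e7, e8, e9, e10]

theorem bub51 {s y u b k : ℝ} (R : RegUb s y u b k)
    (s1 : 1667 / 2500 ≤ s) (s2 : s ≤ 3681 / 5000) (u1 : 0 ≤ u) (u2 : u ≤ 67 / 500)
    (b1 : 3 / 50 ≤ b) (b2 : b ≤ 89 / 1000) :
    0 ≤ Ub1 s y u b k ∨ 0 ≤ Ub2 s y u b k := by
  rcases le_total s (351 / 500) with h | h
  · exact bub52 R s1 h u1 u2 b1 b2
  · exact bub53 R h s2 u1 u2 b1 b2

theorem bub45 {s y u b k : ℝ} (R : RegUb s y u b k)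
    (s1 : 719 / 1000 ≤ s) (s2 : s ≤ 3681 / 5000) (u1 : 0 ≤ u) (u2 : u ≤ 17 / 1000)
    (b1 : 9 / 200 ≤ b) (b2 : b ≤ 3 / 50) :
    0 ≤ Ub1 s y u b k ∨ 0 ≤ Ub2 s y u b k := by
  rcases le_total s (1819 / 2500) with h | h
  · exact bub46 R s1 h u1 u2 b1 b2
  · exact bub47 R h s2 u1 u2 b1 b2

theorem bub42 {s y u b k : ℝ} (R : RegUb s y u b k)
    (s1 : 719 / 1000 ≤ s) (s2 : s ≤ 3681 / 5000) (u1 : 0 ≤ u) (u2 : u ≤ 17 / 1000)
    (b1 : 3 / 100 ≤ b) (b2 : b ≤ 9 / 200) :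
    0 ≤ Ub1 s y u b k ∨ 0 ≤ Ub2 s y u b k := by
  rcases le_total s (1819 / 2500) with h | h
  · exact bub43 R s1 h u1 u2 b1 b2
  · exact bub44 R h s2 u1 u2 b1 b2

theorem bub41 {s y u b k : ℝ} (R : RegUb s y u b k)
    (s1 : 719 / 1000 ≤ s) (s2 : s ≤ 3681 / 5000) (u1 : 0 ≤ u) (u2 : u ≤ 17 / 1000)
    (b1 : 3 / 100 ≤ b) (b2 : b ≤ 3 / 50) :
    0 ≤ Ub1 s y u b k ∨ 0 ≤ Ub2 s y u b k := by
  rcases le_total b (9 / 200) with h | h
  · exact bub42 R s1 s2 u1 u2 b1 h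
  · exact bub45 R s1 s2 u1 u2 h b2

theorem bub40 {s y u b k : ℝ} (R : RegUb s y u b k)
    (s1 : 719 / 1000 ≤ s) (s2 : s ≤ 3681 / 5000) (u1 : 0 ≤ u) (u2 : u ≤ 17 / 500)
    (b1 : 3 / 100 ≤ b) (b2 : b ≤ 3 / 50) :
    0 ≤ Ub1 s y u b k ∨ 0 ≤ Ub2 s y u b k := by
  rcases le_total u (17 / 1000) with h | h
  · exact bub41 R s1 s2 u1 h b1 b2
  · exact bub48 R s1 s2 h u2 b1 b2

theorem bub39 {s y u b k : ℝ} (R : RegUb s y u b k)
    (s1 : 719 / 1000 ≤ s) (s2 : s ≤ 3681 / 5000) (u1 : 0 ≤ u) (u2 : u ≤ 67 / 1000)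
    (b1 : 3 / 100 ≤ b) (b2 : b ≤ 3 / 50) :
    0 ≤ Ub1 s y u b k ∨ 0 ≤ Ub2 s y u b k := by
  rcases le_total u (17 / 500) with h | h
  · exact bub40 R s1 s2 u1 h b1 b2
  · exact bub49 R s1 s2 h u2 b1 b2

theorem bub38 {s y u b k : ℝ} (R : RegUb s y u b k)
    (s1 : 719 / 1000 ≤ s) (s2 : s ≤ 3681 / 5000) (u1 : 0 ≤ u) (u2 : u ≤ 67 / 500)
    (b1 : 3 / 100 ≤ b) (b2 : b ≤ 3 / 50) :
    0 ≤ Ub1 s y u b k ∨ 0 ≤ Ub2 s y u b k := by
  rcases le_total u (67 / 1000) with h | h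
  · exact bub39 R s1 s2 u1 h b1 b2
  · exact bub50 R s1 s2 h u2 b1 b2

theorem bub35 {s y u b k : ℝ} (R : RegUb s y u b k)
    (s1 : 1421 / 2000 ≤ s) (s2 : s ≤ 719 / 1000) (u1 : 0 ≤ u) (u2 : u ≤ 67 / 500)
    (b1 : 9 / 200 ≤ b) (b2 : b ≤ 3 / 50) :
    0 ≤ Ub1 s y u b k ∨ 0 ≤ Ub2 s y u b k := by
  rcases le_total s (1787 / 2500) with h | h
  · exact bub36 R s1 h u1 u2 b1 b2
  · exact bub37 R h s2 u1 u2 b1 b2

theorem bub33 {s y u b k : ℝ} (R : RegUb s y u b k)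
    (s1 : 351 / 500 ≤ s) (s2 : s ≤ 719 / 1000) (u1 : 0 ≤ u) (u2 : u ≤ 67 / 500)
    (b1 : 9 / 200 ≤ b) (b2 : b ≤ 3 / 50) :
    0 ≤ Ub1 s y u b k ∨ 0 ≤ Ub2 s y u b k := by
  rcases le_total s (1421 / 2000) with h | h
  · exact bub34 R s1 h u1 u2 b1 b2
  · exact bub35 R h s2 u1 u2 b1 b2

theorem bub30 {s y u b k : ℝ} (R : RegUb s y u b k)
    (s1 : 1421 / 2000 ≤ s) (s2 : s ≤ 719 / 1000) (u1 : 0 ≤ u) (u2 : u ≤ 67 / 500)
    (b1 : 3 / 100 ≤ b) (b2 : b ≤ 9 / 200) :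
    0 ≤ Ub1 s y u b k ∨ 0 ≤ Ub2 s y u b k := by
  rcases le_total s (1787 / 2500) with h | h
  · exact bub31 R s1 h u1 u2 b1 b2
  · exact bub32 R h s2 u1 u2 b1 b2

theorem bub27 {s y u b k : ℝ} (R : RegUb s y u b k)
    (s1 : 351 / 500 ≤ s) (s2 : s ≤ 1421 / 2000) (u1 : 0 ≤ u) (u2 : u ≤ 67 / 500)
    (b1 : 3 / 100 ≤ b) (b2 : b ≤ 9 / 200) :
    0 ≤ Ub1 s y u b k ∨ 0 ≤ Ub2 s y u b k := by
  rcases le_total s (3531 / 5000) with h | h
  · exact bub28 R s1 h u1 u2 b1 b2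
  · exact bub29 R h s2 u1 u2 b1 b2

theorem bub26 {s y u b k : ℝ} (R : RegUb s y u b k)
    (s1 : 351 / 500 ≤ s) (s2 : s ≤ 719 / 1000) (u1 : 0 ≤ u) (u2 : u ≤ 67 / 500)
    (b1 : 3 / 100 ≤ b) (b2 : b ≤ 9 / 200) :
    0 ≤ Ub1 s y u b k ∨ 0 ≤ Ub2 s y u b k := by
  rcases le_total s (1421 / 2000) with h | h
  · exact bub27 R s1 h u1 u2 b1 b2
  · exact bub30 R h s2 u1 u2 b1 b2

theorem bub25 {s y u b k : ℝ} (R : RegUb s y u b k)
    (s1 : 351 / 500 ≤ s) (s2 : s ≤ 719 / 1000) (u1 : 0 ≤ u) (u2 : u ≤ 67 / 500)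
    (b1 : 3 / 100 ≤ b) (b2 : b ≤ 3 / 50) :
    0 ≤ Ub1 s y u b k ∨ 0 ≤ Ub2 s y u b k := by
  rcases le_total b (9 / 200) with h | h
  · exact bub26 R s1 s2 u1 u2 b1 h
  · exact bub33 R s1 s2 u1 u2 h b2

theorem bub24 {s y u b k : ℝ} (R : RegUb s y u b k)
    (s1 : 351 / 500 ≤ s) (s2 : s ≤ 3681 / 5000) (u1 : 0 ≤ u) (u2 : u ≤ 67 / 500)
    (b1 : 3 / 100 ≤ b) (b2 : b ≤ 3 / 50) :
    0 ≤ Ub1 s y u b k ∨ 0 ≤ Ub2 s y u b k := by
  rcases le_total s (719 / 1000) with h | h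
  · exact bub25 R s1 h u1 u2 b1 b2
  · exact bub38 R h s2 u1 u2 b1 b2

theorem bub21 {s y u b k : ℝ} (R : RegUb s y u b k)
    (s1 : 1667 / 2500 ≤ s) (s2 : s ≤ 351 / 500) (u1 : 0 ≤ u) (u2 : u ≤ 67 / 500)
    (b1 : 9 / 200 ≤ b) (b2 : b ≤ 3 / 50) :
    0 ≤ Ub1 s y u b k ∨ 0 ≤ Ub2 s y u b k := by
  rcases le_total s (171 / 250) with h | h
  · exact bub22 R s1 h u1 u2 b1 b2
  · exact bub23 R h s2 u1 u2 b1 b2

theorem bub18 {s y u b k : ℝ} (R : RegUb s y u b k)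
    (s1 : 693 / 1000 ≤ s) (s2 : s ≤ 351 / 500) (u1 : 0 ≤ u) (u2 : u ≤ 67 / 500)
    (b1 : 3 / 100 ≤ b) (b2 : b ≤ 9 / 200) :
    0 ≤ Ub1 s y u b k ∨ 0 ≤ Ub2 s y u b k := by
  rcases le_total s (279 / 400) with h | h
  · exact bub19 R s1 h u1 u2 b1 b2
  · exact bub20 R h s2 u1 u2 b1 b2

theorem bub15 {s y u b k : ℝ} (R : RegUb s y u b k)
    (s1 : 171 / 250 ≤ s) (s2 : s ≤ 693 / 1000) (u1 : 0 ≤ u) (u2 : u ≤ 67 / 500)
    (b1 : 3 / 100 ≤ b) (b2 : b ≤ 9 / 200) :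
    0 ≤ Ub1 s y u b k ∨ 0 ≤ Ub2 s y u b k := by
  rcases le_total s (1377 / 2000) with h | h
  · exact bub16 R s1 h u1 u2 b1 b2
  · exact bub17 R h s2 u1 u2 b1 b2

theorem bub14 {s y u b k : ℝ} (R : RegUb s y u b k)
    (s1 : 171 / 250 ≤ s) (s2 : s ≤ 351 / 500) (u1 : 0 ≤ u) (u2 : u ≤ 67 / 500)
    (b1 : 3 / 100 ≤ b) (b2 : b ≤ 9 / 200) :
    0 ≤ Ub1 s y u b k ∨ 0 ≤ Ub2 s y u b k := by
  rcases le_total s (693 / 1000) with h | h
  · exact bub15 R s1 h u1 u2 b1 b2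
  · exact bub18 R h s2 u1 u2 b1 b2

theorem bub11 {s y u b k : ℝ} (R : RegUb s y u b k)
    (s1 : 3377 / 5000 ≤ s) (s2 : s ≤ 171 / 250) (u1 : 0 ≤ u) (u2 : u ≤ 67 / 500)
    (b1 : 3 / 100 ≤ b) (b2 : b ≤ 9 / 200) :
    0 ≤ Ub1 s y u b k ∨ 0 ≤ Ub2 s y u b k := by
  rcases le_total s (6797 / 10000) with h | h
  · exact bub12 R s1 h u1 u2 b1 b2
  · exact bub13 R h s2 u1 u2 b1 b2

theorem bub8 {s y u b k : ℝ} (R : RegUb s y u b k)
    (s1 : 1667 / 2500 ≤ s) (s2 : s ≤ 3377 / 5000) (u1 : 0 ≤ u) (u2 : u ≤ 67 / 500)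
    (b1 : 3 / 100 ≤ b) (b2 : b ≤ 9 / 200) :
    0 ≤ Ub1 s y u b k ∨ 0 ≤ Ub2 s y u b k := by
  rcases le_total s (6711 / 10000) with h | h
  · exact bub9 R s1 h u1 u2 b1 b2
  · exact bub10 R h s2 u1 u2 b1 b2

theorem bub7 {s y u b k : ℝ} (R : RegUb s y u b k)
    (s1 : 1667 / 2500 ≤ s) (s2 : s ≤ 171 / 250) (u1 : 0 ≤ u) (u2 : u ≤ 67 / 500)
    (b1 : 3 / 100 ≤ b) (b2 : b ≤ 9 / 200) :
    0 ≤ Ub1 s y u b k ∨ 0 ≤ Ub2 s y u b k := by
  rcases le_total s (3377 / 5000) with h | h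
  · exact bub8 R s1 h u1 u2 b1 b2
  · exact bub11 R h s2 u1 u2 b1 b2

theorem bub6 {s y u b k : ℝ} (R : RegUb s y u b k)
    (s1 : 1667 / 2500 ≤ s) (s2 : s ≤ 351 / 500) (u1 : 0 ≤ u) (u2 : u ≤ 67 / 500)
    (b1 : 3 / 100 ≤ b) (b2 : b ≤ 9 / 200) :
    0 ≤ Ub1 s y u b k ∨ 0 ≤ Ub2 s y u b k := by
  rcases le_total s (171 / 250) with h | h
  · exact bub7 R s1 h u1 u2 b1 b2
  · exact bub14 R h s2 u1 u2 b1 b2

theorem bub5 {s y u b k : ℝ} (R : RegUb s y u b k)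
    (s1 : 1667 / 2500 ≤ s) (s2 : s ≤ 351 / 500) (u1 : 0 ≤ u) (u2 : u ≤ 67 / 500)
    (b1 : 3 / 100 ≤ b) (b2 : b ≤ 3 / 50) :
    0 ≤ Ub1 s y u b k ∨ 0 ≤ Ub2 s y u b k := by
  rcases le_total b (9 / 200) with h | h
  · exact bub6 R s1 s2 u1 u2 b1 h
  · exact bub21 R s1 s2 u1 u2 h b2

theorem bub4 {s y u b k : ℝ} (R : RegUb s y u b k)
    (s1 : 1667 / 2500 ≤ s) (s2 : s ≤ 3681 / 5000) (u1 : 0 ≤ u) (u2 : u ≤ 67 / 500)
    (b1 : 3 / 100 ≤ b) (b2 : b ≤ 3 / 50) :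
    0 ≤ Ub1 s y u b k ∨ 0 ≤ Ub2 s y u b k := by
  rcases le_total s (351 / 500) with h | h
  · exact bub5 R s1 h u1 u2 b1 b2
  · exact bub24 R h s2 u1 u2 b1 b2

theorem bub3 {s y u b k : ℝ} (R : RegUb s y u b k)
    (s1 : 1667 / 2500 ≤ s) (s2 : s ≤ 3681 / 5000) (u1 : 0 ≤ u) (u2 : u ≤ 67 / 500)
    (b1 : 3 / 100 ≤ b) (b2 : b ≤ 89 / 1000) :
    0 ≤ Ub1 s y u b k ∨ 0 ≤ Ub2 s y u b k := by
  rcases le_total b (3 / 50) with h | h
  · exact bub4 R s1 s2 u1 u2 b1 h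
  · exact bub51 R s1 s2 u1 u2 h b2

theorem bub2 {s y u b k : ℝ} (R : RegUb s y u b k)
    (s1 : 1667 / 2500 ≤ s) (s2 : s ≤ 3681 / 5000) (u1 : 0 ≤ u) (u2 : u ≤ 67 / 500)
    (b1 : 3 / 100 ≤ b) (b2 : b ≤ 37 / 250) :
    0 ≤ Ub1 s y u b k ∨ 0 ≤ Ub2 s y u b k := by
  rcases le_total b (89 / 1000) with h | h
  · exact bub3 R s1 s2 u1 u2 b1 h
  · exact bub54 R s1 s2 u1 u2 h b2

theorem bub1 {s y u b k : ℝ} (R : RegUb s y u b k)
    (s1 : 1667 / 2500 ≤ s) (s2 : s ≤ 3681 / 5000) (u1 : 0 ≤ u) (u2 : u ≤ 67 / 500)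
    (b1 : 3 / 100 ≤ b) (b2 : b ≤ 53 / 200) :
    0 ≤ Ub1 s y u b k ∨ 0 ≤ Ub2 s y u b k := by
  rcases le_total b (37 / 250) with h | h
  · exact bub2 R s1 s2 u1 u2 b1 h
  · exact bub55 R s1 s2 u1 u2 h b2

theorem bub0 {s y u b k : ℝ} (R : RegUb s y u b k)
    (s1 : 1667 / 2500 ≤ s) (s2 : s ≤ 3681 / 5000) (u1 : 0 ≤ u) (u2 : u ≤ 67 / 500)
    (b1 : 3 / 100 ≤ b) (b2 : b ≤ 1 / 2) :
    0 ≤ Ub1 s y u b k ∨ 0 ≤ Ub2 s y u b k := by
  rcases le_total b (53 / 200) with h | h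
  · exact bub1 R s1 s2 u1 u2 b1 h
  · exact bub56 R s1 s2 u1 u2 h b2

end Pool.Agent.Strip051.FourD
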