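import Pool.Agent.Strip051.FourB.Box

/-! # The weights -/

namespace Pool.Agent.Strip051.FourD

set_option linter.unusedVariables false

open Pool.Agent.StripNear Pool.Agent.StripSquare Pool.Agent.Strip051
open Pool.Agent.Strip051.Four.Low (ph)
open Pool.Agent.Strip051.FourB (lo up)

/-- The function of the boxes `bw1x`. -/
noncomputable def W1 (s : ℝ) : ℝ :=
  83 / 50 * ph (h0 + s - 1) - ph s

/-- The region of the boxes `bw1x`. -/
structure RegW1 (s : ℝ) : Prop where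
  h1 : 86602 / 100000 ≤ h0
  h2 : h0 ≤ 86603 / 100000
  s1 : 1667 / 2500 ≤ s
  s2 : s ≤ 3681 / 5000

theorem RegW1.lo1 {s : ℝ} (R : RegW1 s) (w0 : ℝ) (hw0 : w0 ^ 2 < 1) :
    2 * w0 * (h0 + s - 1) - 2 * w0 ^ 2 ≤ (1 - w0 ^ 2) * ph (h0 + s - 1) :=
  lo hw0 (by linarith only [R.h1, R.s1]) (by linarith only [R.h2, R.s2])

theorem RegW1.lo2 {s : ℝ} (R : RegW1 s) (w0 : ℝ) (hw0 : w0 ^ 2 < 1) :
    2 * w0 * (s) - 2 * w0 ^ 2 ≤ (1 - w0 ^ 2) * ph (s) :=
  lo hw0 (by linarith only [R.s1]) (by linarith only [R.s2])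

theorem bw1x0 {s : ℝ} (R : RegW1 s)
    (s1 : 1667 / 2500 ≤ s) (s2 : s ≤ 3681 / 5000) :
    0 ≤ W1 s := by
  have e1 := R.lo1 (289 / 1000) (by norm_num)
  have e2 := up (t1 := (382 / 1000)) (t2 := (440 / 1000)) (x := s) (by norm_num)
    (by linarith only [s1]) (by linarith only [s2])
  unfold W1
  linarith only [R.h1, s1, e1, e2]

end Pool.Agent.Strip051.FourD
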