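import Pool.Agent.Strip051.FourB.Box

/-! # The weights -/

namespace Pool.Agent.Strip051.FourD

set_option linter.unusedVariables false

open Pool.Agent.StripNear Pool.Agent.StripSquare Pool.Agent.Strip051
open Pool.Agent.Strip051.Four.Low (ph)
open Pool.Agent.Strip051.FourB (lo up)

/-- The function of the boxes `bw3x`. -/
noncomputable def W3 (s : ℝ) : ℝ :=
  2 * ph s - 4 * ph (11 / 25) - 83 / 50 * (ph (h0 + s - 1 - 11 / 25) + ph (h0 + s - 1) - ph (11 / 25))

/-- The region of the boxes `bw3x`. -/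
structure RegW3 (s : ℝ) : Prop where
  h1 : 86602 / 100000 ≤ h0
  h2 : h0 ≤ 86603 / 100000
  s1 : 1667 / 2500 ≤ s
  s2 : s ≤ 3681 / 5000

theorem RegW3.lo1 {s : ℝ} (R : RegW3 s) (w0 : ℝ) (hw0 : w0 ^ 2 < 1) :
    2 * w0 * (11 / 25) - 2 * w0 ^ 2 ≤ (1 - w0 ^ 2) * ph (11 / 25) :=
  lo hw0 (by linear_combination) (by linear_combination)

theorem RegW3.lo2 {s : ℝ} (R : RegW3 s) (w0 : ℝ) (hw0 : w0 ^ 2 < 1) :
    2 * w0 * (h0 + s - 1 - 11 / 25) - 2 * w0 ^ 2 ≤ (1 - w0 ^ 2) * ph (h0 + s - 1 - 11 / 25) :=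
  lo hw0 (by linear_combination R.h1 + R.s1) (by linear_combination R.h2 + R.s2)

theorem RegW3.lo3 {s : ℝ} (R : RegW3 s) (w0 : ℝ) (hw0 : w0 ^ 2 < 1) :
    2 * w0 * (h0 + s - 1) - 2 * w0 ^ 2 ≤ (1 - w0 ^ 2) * ph (h0 + s - 1) :=
  lo hw0 (by linear_combination R.h1 + R.s1) (by linear_combination R.h2 + R.s2)

theorem RegW3.lo4 {s : ℝ} (R : RegW3 s) (w0 : ℝ) (hw0 : w0 ^ 2 < 1) :
    2 * w0 * (s) - 2 * w0 ^ 2 ≤ (1 - w0 ^ 2) * ph (s) :=
  lo hw0 (by linear_combination R.s1) (by linear_combination R.s2)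

theorem bw3x0 {s : ℝ} (R : RegW3 s)
    (s1 : 1667 / 2500 ≤ s) (s2 : s ≤ 3681 / 5000) :
    0 ≤ W3 s := by
  have e1 := up (t1 := (231 / 1000)) (t2 := (232 / 1000)) (x := 11 / 25) (by norm_num)
    (by linear_combination) (by linear_combination)
  have e2 := up (t1 := (46 / 1000)) (t2 := (82 / 1000)) (x := h0 + s - 1 - 11 / 25) (by norm_num)
    (by linear_combination (250529 / 250000) * R.h1 + (250529 / 250000) * s1) (by linear_combination (251681 / 250000) * R.h2 + (251681 / 250000) * s2)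
  have e3 := up (t1 := (288 / 1000)) (t2 := (335 / 1000)) (x := h0 + s - 1) (by norm_num)
    (by linear_combination (16921 / 15625) * R.h1 + (16921 / 15625) * s1) (by linear_combination (44489 / 40000) * R.h2 + (44489 / 40000) * s2)
  have e4 := R.lo4 (382 / 1000) (by norm_num)
  unfold W3
  linear_combination (15278237533 / 11251399032) * R.h2 + (345280143471791 / 800795823304536) * s1 +
    (292500 / 118301) * e1 + (415000 / 249057) * e2 + (10375 / 5647) * e3 + (500000 / 213519) * e4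

end Pool.Agent.Strip051.FourD
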