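import Pool.Agent.Strip051.FourB.Corner
import Pool.Agent.Strip051.FourD.BoxDb
import Pool.Agent.Strip051.FourD.BoxUb
import Pool.Agent.Strip051.FourD.BoxMa
import Pool.Agent.Strip051.FourD.BoxMb

/-! # The corners: small difference between the exit and the virtual disc -/

namespace Pool.Agent.Strip051.FourD

open Pool.Agent.StripNear Pool.Agent.StripSquare Pool.Agent.Strip051
open Pool.Agent.Strip051.Four.Low (ph ph_mono ph_nonneg ph_neg ph_hi2')
open Pool.Agent.Strip051.FourB (sec_num slope_le tan_up tan_dn tan_at)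

/-- A numeric bound for the slope. -/
theorem slope_num {x x0 G K : ℝ} (h0 : 0 ≤ x) (h1 : x ≤ x0) (hx0 : x0 ^ 2 < 1) (hG0 : 0 ≤ G)
    (hG : G ^ 2 ≤ 1 - x0 ^ 2) (hK : x0 ≤ K * G) (K0 : 0 ≤ K) : x ≤ K * g x := by
  apply slope_le h0 h1 hx0
  have : G ≤ g x0 := by
    unfold g
    exact Real.le_sqrt_of_sq_le hG
  have := mul_le_mul_of_nonneg_left this K0
  linear_combination hK + this

/-- A numeric lower bound for the slope. -/
theorem slope_num' {x x0 G K : ℝ} (h0 : 0 ≤ x0) (h1 : x0 ≤ x) (hG0 : 0 ≤ G)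
    (hG : 1 - x0 ^ 2 ≤ G ^ 2) (hK : K * G ≤ x0) (K0 : 0 ≤ K) : K * g x ≤ x := by
  have h2 : g x ≤ G := by
    apply (g_anti h0 h1).trans
    unfold g
    exact Real.sqrt_le_iff.2 ⟨hG0, hG⟩
  have := mul_le_mul_of_nonneg_left h2 K0
  linear_combination h1 + hK + this

/-- Upper bound for an increment. -/
theorem inc_up {x d x0 G K : ℝ} (hx : 0 ≤ x) (hd : 0 ≤ d) (h1 : x + d ≤ x0) (hx0 : x0 ^ 2 < 1)
    (hG0 : 0 ≤ G) (hG : G ^ 2 ≤ 1 - x0 ^ 2) (hK : x0 ≤ K * G) (K0 : 0 ≤ K) :
    ph (x + d) - ph x ≤ K * d := by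
  have hxd : (x + d) ^ 2 < 1 := by linear_combination hx0 + 2 * (mul_nonneg (sub_nonneg.mpr hx) (sub_nonneg.mpr h1)) +
    2 * (mul_nonneg (sub_nonneg.mpr hd) (sub_nonneg.mpr h1)) + (mul_nonneg (sub_nonneg.mpr h1) (sub_nonneg.mpr h1))
  have h := tan_up (s := x + d) (x := d) (K := K) (by linear_combination hx + hd) hxd hd (by linear_combination hx)
    (slope_num (by linear_combination hx + hd) h1 hx0 hG0 hG hK K0)
  rwa [show x + d - d = x by ring] at h

/-- Lower bound for an increment. -/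
theorem inc_lo {x d x0 G K : ℝ} (hx0 : 0 ≤ x0) (h1 : x0 ≤ x) (hd : 0 ≤ d) (h2 : x + d ≤ 1)
    (hx1 : x < 1) (hG0 : 0 ≤ G) (hG : 1 - x0 ^ 2 ≤ G ^ 2) (hK : K * G ≤ x0) (K0 : 0 ≤ K) :
    K * d ≤ ph (x + d) - ph x := by
  exact tan_dn (s := x) (x := d) (K := K) (by linear_combination hx1 + (mul_nonneg (sub_nonneg.mpr hx0) (sub_nonneg.mpr hd)) + (mul_nonneg (sub_nonneg.mpr hx0) (sub_nonneg.mpr h2)) +
    (mul_nonneg (sub_nonneg.mpr h1) (sub_nonneg.mpr hd)) + (mul_nonneg (sub_nonneg.mpr h1) (sub_nonneg.mpr h2))) hd (by linear_combination h2 + (mul_nonneg (sub_nonneg.mpr hx0) (sub_nonneg.mpr h2)) + (mul_nonneg (sub_nonneg.mpr h1) (sub_nonneg.mpr h2)) +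
    (mul_nonneg (sub_nonneg.mpr hd) (sub_nonneg.mpr h2)))
    (slope_num' hx0 h1 hG0 hG hK K0)

section

variable {s y u b k : ℝ}

/-- The exit is below the top, small angles, numeric constants. -/
theorem cD_aux {v1 v2 v3 x0 G1 G2 G3 G4 q1 q2 q3 K : ℝ}
    (hk0 : 0 ≤ k) (hk : k ≤ 86603 / 100000 * ph b) (b0 : 0 ≤ b) (b1 : b ≤ 1 / 25)
    (u0 : 0 ≤ u) (u1 : u ≤ 1 / 50) (hys : y ≤ s) (hs1 : s ≤ 7362 / 10000)
    (hu : u + (y - k + b / 2) = s)
    (c1 : 0 ≤ v1) (c2 : v1 ≤ s - 3 / 50) (c3 : 0 < G1) (c4 : 1 - v1 ^ 2 ≤ G1 ^ 2)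
    (c5 : q1 * G1 ^ 3 ≤ 1)
    (d1 : 0 ≤ v2) (d2 : v2 ≤ s - 1 / 10) (d3 : 0 < G2) (d4 : 1 - v2 ^ 2 ≤ G2 ^ 2)
    (d5 : q2 * G2 ^ 3 ≤ 1)
    (e1 : 0 ≤ v3) (e2 : v3 ≤ s - 2 / 25) (e3 : 0 < G3) (e4 : 1 - v3 ^ 2 ≤ G3 ^ 2)
    (e5 : q3 * G3 ^ 3 ≤ 1) (e6 : 0 ≤ q3)
    (f1 : s ≤ x0) (f2 : x0 ^ 2 < 1) (f3 : 0 ≤ G4) (f4 : G4 ^ 2 ≤ 1 - x0 ^ 2) (f5 : x0 ≤ K * G4)
    (f6 : 0 ≤ K)
    (fin : (4 * (86603 / 100000) * K + 2) * (5061 / 10000) - (q1 + q2) / 4 ≤ q3) :
    0 ≤ Db1 s y u b k := by
  have f0 := ph_nonneg b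
  have fb : ph b ≤ 5061 / 10000 * b ^ 2 := ph_hi2' (by linear_combination (1 / 25) * b1 + (mul_nonneg (sub_nonneg.mpr b0) (sub_nonneg.mpr b1)))
  have bb : b ^ 2 ≤ 1 / 25 * b := by linear_combination (mul_nonneg (sub_nonneg.mpr b0) (sub_nonneg.mpr b1))
  have kb : k ≤ 44 / 100 * b ^ 2 := by linear_combination (154747 / 39845253) * hk0 + (40000000 / 39845253) * hk + (4400 / 5061) * fb
  have kb2 : k ≤ 18 / 1000 * b := by linear_combination (3900739 / 146099261) * hk0 + (150000000 / 146099261) * hk + (1500 / 1687) * fb +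
    (9 / 20) * bb
  have P1 := sec_num (v := y - k - b / 2) (x := b / 2) (a := b / 2) (v0 := v1) (G := G1)
    (q := q1) c1 (by linear_combination b1 + u1 - hu + c2) (by linear_combination (1 / 2) * b0) (by linear_combination (1 / 2) * b0) (by linear_combination hk0 + (1 / 2) * b1 + hys + hs1) c3 c4 c5
  have P2 := sec_num (v := y - k - b / 2 - 1 / 25) (x := b / 2) (a := b / 2) (v0 := v2)
    (G := G2) (q := q2) d1 (by linear_combination b1 + u1 - hu + d2) (by linear_combination (1 / 2) * b0) (by linear_combination (1 / 2) * b0) (by linear_combination hk0 + (1 / 2) * b1 + hys + hs1) d3 d4 d5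
  have P3 := sec_num (v := y - k - 1 / 25) (x := u + b / 2) (a := 1 / 25) (v0 := v3)
    (G := G3) (q := q3) e1 (by linear_combination (1 / 2) * b1 + u1 - hu + e2) (by linear_combination (1 / 2) * b0 + u0) (by linear_combination) (by linear_combination hk0 + (1 / 2) * b1 + u1 + hys + hs1) e3 e4 e5
  have P4 := inc_up (x := y - k) (d := k) (x0 := x0) (G := G4) (K := K) (by linear_combination (1 / 2) * b1 + u1 - hu + c1 + c2) hk0
    (by linear_combination hys + f1) f2 f3 f4 f5 f6
  rw [show y - k - b / 2 + b / 2 + b / 2 = y - k + b / 2 by ring,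
    show y - k - b / 2 + b / 2 = y - k by ring] at P1
  rw [show y - k - b / 2 - 1 / 25 + b / 2 + b / 2 = y - k + b / 2 - 1 / 25 by ring,
    show y - k - b / 2 - 1 / 25 + b / 2 = y - k - 1 / 25 by ring] at P2
  rw [show y - k - 1 / 25 + (u + b / 2) + 1 / 25 = s by linear_combination hu,
    show y - k - 1 / 25 + 1 / 25 = y - k by ring,
    show y - k - 1 / 25 + (u + b / 2) = s - 1 / 25 by linear_combination hu] at P3
  rw [show y - k + k = y by ring] at P4
  have h1 : K * k ≤ K * (86603 / 100000 * ph b) := mul_le_mul_of_nonneg_left hk f6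
  have h2 : (4 * (86603 / 100000) * K + 2) * ph b ≤
      (4 * (86603 / 100000) * K + 2) * (5061 / 10000 * b ^ 2) :=
    mul_le_mul_of_nonneg_left fb (by positivity)
  have h3 : ((4 * (86603 / 100000) * K + 2) * (5061 / 10000) - (q1 + q2) / 4) * b ^ 2 ≤
      q3 * b ^ 2 := mul_le_mul_of_nonneg_right fin (sq_nonneg b)
  have h4 : q3 * b ^ 2 ≤ q3 * (1 / 25 * b) := mul_le_mul_of_nonneg_left bb e6
  have h5 : 0 ≤ q3 * u := mul_nonneg e6 u0
  unfold Db1
  linear_combination P1 + P2 + 2 * P3 + 4 * P4 + 4 * h1 + h2 + h3 + h4 + (2 / 25) * h5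

/-- The exit is below the top, small angles. -/
theorem cD (hs0 : 6668 / 10000 ≤ s) (hs1 : s ≤ 7362 / 10000)
    (hk0 : 0 ≤ k) (hk : k ≤ 86603 / 100000 * ph b) (b0 : 0 ≤ b) (b1 : b ≤ 1 / 25)
    (u0 : 0 ≤ u) (u1 : u ≤ 1 / 50) (hys : y ≤ s) (hu : u + (y - k + b / 2) = s) :
    0 ≤ Db1 s y u b k := by
  rcases le_total s (7 / 10) with h | h
  · exact cD_aux (v1 := 6068 / 10000) (v2 := 5668 / 10000) (v3 := 5868 / 10000) (x0 := 7 / 10)
      (G1 := 79487 / 100000) (G2 := 82386 / 100000) (G3 := 80974 / 100000)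
      (G4 := 7141 / 10000) (q1 := 199 / 100) (q2 := 178 / 100) (q3 := 188 / 100)
      (K := 9803 / 10000) hk0 hk b0 b1 u0 u1 hys hs1 hu
      (by norm_num) (by linear_combination hs0) (by norm_num) (by norm_num) (by norm_num)
      (by norm_num) (by linear_combination hs0) (by norm_num) (by norm_num) (by norm_num)
      (by norm_num) (by linear_combination hs0) (by norm_num) (by norm_num) (by norm_num) (by norm_num)
      h (by norm_num) (by norm_num) (by norm_num) (by norm_num) (by norm_num) (by norm_num)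
  · exact cD_aux (v1 := 64 / 100) (v2 := 60 / 100) (v3 := 62 / 100) (x0 := 7362 / 10000)
      (G1 := 76838 / 100000) (G2 := 80 / 100) (G3 := 78461 / 100000)
      (G4 := 67675 / 100000) (q1 := 2204 / 1000) (q2 := 1953 / 1000) (q3 := 207 / 100)
      (K := 10879 / 10000) hk0 hk b0 b1 u0 u1 hys hs1 hu
      (by norm_num) (by linear_combination h) (by norm_num) (by norm_num) (by norm_num)
      (by norm_num) (by linear_combination h) (by norm_num) (by norm_num) (by norm_num)
      (by norm_num) (by linear_combination h) (by norm_num) (by norm_num) (by norm_num) (by norm_num)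
      hs1 (by norm_num) (by norm_num) (by norm_num) (by norm_num) (by norm_num) (by norm_num)

/-- The exit is above the top, small angles, numeric constants. -/
theorem cU_aux {v1 v3 x0 G1 G3 G4 q1 q3 K : ℝ}
    (hh : 86602 / 100000 ≤ h0) (hh1 : h0 ≤ 86603 / 100000)
    (hk0 : 0 ≤ k) (hk : k ≤ 86603 / 100000 * ph b) (b0 : 0 ≤ b) (b1 : b ≤ 3 / 100)
    (u0 : 0 ≤ u) (hys : y ≤ s) (hs0 : 6668 / 10000 ≤ s) (hs1 : s ≤ 7362 / 10000)
    (hu : u + s = y - k + b / 2)
    (c1 : 0 ≤ v1) (c2 : v1 ≤ s - 3 / 100) (c3 : 0 < G1) (c4 : 1 - v1 ^ 2 ≤ G1 ^ 2)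
    (c5 : q1 * G1 ^ 3 ≤ 1)
    (e1 : 0 ≤ v3) (e2 : v3 ≤ s - 7 / 100) (e3 : 0 < G3) (e4 : 1 - v3 ^ 2 ≤ G3 ^ 2)
    (e5 : q3 * G3 ^ 3 ≤ 1) (e6 : 0 ≤ q3) (e7 : q3 ≤ 25 / 10)
    (f1 : s ≤ x0) (f2 : x0 ^ 2 < 1) (f3 : 0 ≤ G4) (f4 : G4 ^ 2 ≤ 1 - x0 ^ 2) (f5 : x0 ≤ K * G4)
    (f6 : 0 ≤ K)
    (fin : 3 * ((4 * (86603 / 100000) * K + 2) * (5061 / 10000) - q1 / 4) ≤ 4 * q3) :
    0 ≤ Ub1 s y u b k := by
  have f0 := ph_nonneg b
  have fb : ph b ≤ 5061 / 10000 * b ^ 2 := ph_hi2' (by linear_combination (3 / 100) * b1 + (mul_nonneg (sub_nonneg.mpr b0) (sub_nonneg.mpr b1)))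
  have bb : b ^ 2 ≤ 3 / 100 * b := by linear_combination (mul_nonneg (sub_nonneg.mpr b0) (sub_nonneg.mpr b1))
  have kb : k ≤ 44 / 100 * b ^ 2 := by linear_combination (154747 / 39845253) * hk0 + (40000000 / 39845253) * hk + (4400 / 5061) * fb
  have kb2 : k ≤ 14 / 1000 * b := by linear_combination (48600000000 / 48685106651) * hk + (85106651 / 48685106651) * u0 +
    (85106651 / 48685106651) * hys + (85106651 / 48685106651) * hu + (42089058000 / 48685106651) * fb +
    (106506361269 / 243425533255) * bb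
  have P1 := sec_num (v := y - k - b / 2) (x := b / 2) (a := b / 2) (v0 := v1) (G := G1)
    (q := q1) c1 (by linear_combination b1 + u0 + hu + c2) (by linear_combination (1 / 2) * b0) (by linear_combination (1 / 2) * b0) (by linear_combination hk0 + (1 / 2) * b1 + hys + hs1) c3 c4 c5
  have P4 := inc_up (x := y - k) (d := k) (x0 := x0) (G := G4) (K := K) (by linear_combination (1 / 2) * b1 + u0 + hs0 + hu) hk0
    (by linear_combination hys + f1) f2 f3 f4 f5 f6
  -- the second differences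
  have P2 := sec_num (v := y - k - 1 / 25) (x := b / 2 - u) (a := 1 / 25) (v0 := v3)
    (G := G3) (q := q3) e1 (by linear_combination (1 / 2) * b1 + u0 + hu + e2) (by linear_combination hk0 + hys + hu) (by linear_combination) (by linear_combination hk0 + (1 / 2) * b1 + u0 + hys + hs1) e3 e4 e5
  have P3 := sec_num (v := y - k - 1 / 25 - (b / 2 - u)) (x := b / 2 - u)
    (a := 1 / 25 + (b / 2 - u)) (v0 := v3)
    (G := G3) (q := q3) e1 (by linear_combination b1 + 2 * u0 + hu + e2) (by linear_combination hk0 + hys + hu) (by linear_combination hk0 + hys + hu) (by linear_combination hk0 + (1 / 2) * b1 + u0 + hys + hs1) e3 e4 e5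
  have P5 := inc_up (x := y - k - b / 2 - 1 / 25) (d := u) (x0 := 6962 / 10000)
    (G := 7178 / 10000) (K := 97 / 100)
    (by linear_combination b1 + u0 + hs0 + hu) u0 (by linear_combination 2 * hk0 + 2 * hys + hs1 + hu) (by norm_num) (by norm_num) (by norm_num) (by norm_num)
    (by norm_num)
  have P6 := inc_lo (x := h0 + s - y) (d := u) (x0 := 86602 / 100000) (G := 50003 / 100000)
    (K := 173 / 100) (by norm_num) (by linear_combination hh + hys) u0 (by linear_combination hh1 + hk0 + (1 / 2) * b1 + hu) (by linear_combination hh1 + hk0 + (1 / 2) * b1 + u0 + hu)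
    (by norm_num) (by norm_num) (by norm_num) (by norm_num)
  rw [show y - k - b / 2 + b / 2 + b / 2 = y - k + b / 2 by ring,
    show y - k - b / 2 + b / 2 = y - k by ring] at P1
  rw [show y - k - 1 / 25 + (b / 2 - u) + 1 / 25 = s by linear_combination -hu,
    show y - k - 1 / 25 + 1 / 25 = y - k by ring,
    show y - k - 1 / 25 + (b / 2 - u) = s - 1 / 25 by linear_combination -hu] at P2
  rw [show y - k - 1 / 25 - (b / 2 - u) + (b / 2 - u) + (1 / 25 + (b / 2 - u)) = s by linear_combination -hu,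
    show y - k - 1 / 25 - (b / 2 - u) + (1 / 25 + (b / 2 - u)) = y - k by ring,
    show y - k - 1 / 25 - (b / 2 - u) + (b / 2 - u) = y - k - 1 / 25 by ring,
    show y - k - 1 / 25 - (b / 2 - u) = y - k - b / 2 - 1 / 25 + u by ring] at P3
  rw [show y - k + k = y by ring] at P4
  rw [show h0 + s - y + u = h0 - k + b / 2 by linear_combination hu] at P6
  have h1 : K * k ≤ K * (86603 / 100000 * ph b) := mul_le_mul_of_nonneg_left hk f6
  have h2 : (4 * (86603 / 100000) * K + 2) * ph b ≤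
      (4 * (86603 / 100000) * K + 2) * (5061 / 10000 * b ^ 2) :=
    mul_le_mul_of_nonneg_left fb (by positivity)
  have h3 : 3 * ((4 * (86603 / 100000) * K + 2) * (5061 / 10000) - q1 / 4) * b ^ 2 ≤
      4 * q3 * b ^ 2 := mul_le_mul_of_nonneg_right fin (sq_nonneg b)
  have h4 : q3 * b ^ 2 ≤ q3 * (3 / 100 * b) := mul_le_mul_of_nonneg_left bb e6
  have h5 : 0 ≤ q3 * (b / 2 - u) ^ 2 := mul_nonneg e6 (sq_nonneg _)
  have h6 : q3 * u ≤ 25 / 10 * u := mul_le_mul_of_nonneg_right e7 u0
  unfold Ub1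
  linear_combination (14 / 25) * u0 + P1 + 4 * P4 + P2 + P3 + P5 + P6 + 4 * h1 + h2 +
    (1 / 3) * h3 + (4 / 3) * h4 + h5 + (2 / 25) * h6

/-- The exit is above the top, small angles. -/
theorem cU (hh : 86602 / 100000 ≤ h0) (hh1 : h0 ≤ 86603 / 100000)
    (hs0 : 6668 / 10000 ≤ s) (hs1 : s ≤ 7362 / 10000)
    (hk0 : 0 ≤ k) (hk : k ≤ 86603 / 100000 * ph b) (b0 : 0 ≤ b) (b1 : b ≤ 3 / 100)
    (u0 : 0 ≤ u) (hys : y ≤ s) (hu : u + s = y - k + b / 2) :
    0 ≤ Ub1 s y u b k := by
  rcases le_total s (7 / 10) with h | h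
  · exact cU_aux (v1 := 6368 / 10000) (v3 := 5968 / 10000) (x0 := 7 / 10)
      (G1 := 7711 / 10000) (G3 := 8024 / 10000)
      (G4 := 7141 / 10000) (q1 := 218 / 100) (q3 := 1935 / 1000)
      (K := 9803 / 10000) hh hh1 hk0 hk b0 b1 u0 hys hs0 hs1 hu
      (by norm_num) (by linear_combination hs0) (by norm_num) (by norm_num) (by norm_num)
      (by norm_num) (by linear_combination hs0) (by norm_num) (by norm_num) (by norm_num) (by norm_num)
      (by norm_num)
      h (by norm_num) (by norm_num) (by norm_num) (by norm_num) (by norm_num) (by norm_num)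
  · exact cU_aux (v1 := 67 / 100) (v3 := 63 / 100) (x0 := 7362 / 10000)
      (G1 := 74237 / 100000) (G3 := 7766 / 10000)
      (G4 := 67675 / 100000) (q1 := 244 / 100) (q3 := 2135 / 1000)
      (K := 10879 / 10000) hh hh1 hk0 hk b0 b1 u0 hys hs0 hs1 hu
      (by norm_num) (by linear_combination h) (by norm_num) (by norm_num) (by norm_num)
      (by norm_num) (by linear_combination h) (by norm_num) (by norm_num) (by norm_num) (by norm_num)
      (by norm_num)
      hs1 (by norm_num) (by norm_num) (by norm_num) (by norm_num) (by norm_num) (by norm_num)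

/-- The new point just above `s`, small angles. -/
theorem cM {d : ℝ} (hh : 86602 / 100000 ≤ h0) (hh1 : h0 ≤ 86603 / 100000)
    (hs0 : 6668 / 10000 ≤ s) (hs1 : s ≤ 7362 / 10000) (hph : 2 * ph h0 = 1)
    (hk0 : 0 ≤ k) (hk : k ≤ 86603 / 100000 * ph b) (b0 : 0 ≤ b) (b1 : b ≤ 1 / 50)
    (d0 : 0 ≤ d) (d1 : d ≤ 1 / 50) (hy : y = d + s) :
    0 ≤ MaM1 s y d b k ∨ 0 ≤ MaM2 s y d b k := by
  have f0 := ph_nonneg b
  have fb : ph b ≤ 5061 / 10000 * b ^ 2 := ph_hi2' (by linear_combination (1 / 50) * b1 + (mul_nonneg (sub_nonneg.mpr b0) (sub_nonneg.mpr b1)))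
  have bb : b ^ 2 ≤ 1 / 50 * b := by linear_combination (mul_nonneg (sub_nonneg.mpr b0) (sub_nonneg.mpr b1))
  have kb : k ≤ 44 / 100 * b ^ 2 := by linear_combination (154747 / 39845253) * hk0 + (40000000 / 39845253) * hk + (4400 / 5061) * fb
  have kb2 : k ≤ 9 / 1000 * b := by linear_combination hk + (11702217 / 50000000000) * b0 + (86603 / 100000) * fb + (438297783 / 1000000000) * bb
  have P1 := sec_num (v := y - k - b / 2) (x := b / 2) (a := b / 2) (v0 := 0) (G := 1)
    (q := 1) (by norm_num) (by linear_combination hs0 + hk + (25438297783 / 50000000000) * b1 + d0 - hy + (86603 / 100000) * fb +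
      (438297783 / 1000000000) * bb) (by linear_combination (1 / 2) * b0) (by linear_combination (1 / 2) * b0) (by linear_combination hs1 + hk0 + (1 / 2) * b1 + d1 + hy) (by norm_num)
    (by norm_num) (by norm_num)
  have P2 := inc_up (x := y - k) (d := k) (x0 := 7562 / 10000) (G := 6543 / 10000)
    (K := 11558 / 10000) (by linear_combination hs0 + hk + (438297783 / 50000000000) * b1 + d0 - hy + (86603 / 100000) * fb +
      (438297783 / 1000000000) * bb) hk0
    (by linear_combination hs1 + d1 + hy) (by norm_num) (by norm_num) (by norm_num) (by norm_num) (by norm_num)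
  have P3 := inc_up (x := s) (d := d) (x0 := 7562 / 10000) (G := 6543 / 10000)
    (K := 11558 / 10000) (by linear_combination hs0) d0
    (by linear_combination hs1 + d1) (by norm_num) (by norm_num) (by norm_num) (by norm_num) (by norm_num)
  rw [show y - k - b / 2 + b / 2 + b / 2 = y - k + b / 2 by ring,
    show y - k - b / 2 + b / 2 = y - k by ring] at P1
  rw [show y - k + k = y by ring] at P2
  rw [show s + d = y by linear_combination -hy] at P3
  have hbb : 0 ≤ b / 2 * (b / 2) := by positivity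
  rcases le_total (b / 2 + k) d with hd | hd
  · left
    have P4 := inc_lo (x := h0 + s - y) (d := d) (x0 := 84602 / 100000) (G := 53316 / 100000)
      (K := 158 / 100) (by norm_num) (by linear_combination hh + d1 + hy) d0 (by linear_combination hh1 - hy) (by linear_combination hh1 + d0 - hy)
      (by norm_num) (by norm_num) (by norm_num) (by norm_num)
    rw [show h0 + s - y + d = h0 by linear_combination -hy] at P4
    unfold MaM1
    linear_combination hph + (57533900000 / 25438297783) * hk + (25390728354893 / 31797872228750) * d0 +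
      (75264381200 / 25438297783) * fb + (3173172887957 / 2543829778300) * bb + P1 + 2 * P2 +
      2 * P3 + (3173172887957 / 63595744457500) * hd + 2 * P4
  · right
    have P4 := inc_lo (x := h0 + s - y) (d := d + (b / 2 - k)) (x0 := 84602 / 100000)
      (G := 53316 / 100000)
      (K := 158 / 100) (by norm_num) (by linear_combination hh + d1 + hy) (by linear_combination hk + (24561702217 / 50000000000) * b0 + d0 + (86603 / 100000) * fb +
        (438297783 / 1000000000) * bb) (by linear_combination hh1 + hk0 + (1 / 2) * b1 - hy) (by linear_combination hh1 + d0 - hy)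
      (by norm_num) (by norm_num) (by norm_num) (by norm_num)
    rw [show h0 + s - y + (d + (b / 2 - k)) = h0 - k + b / 2 by linear_combination -hy] at P4
    have P5 := inc_up (x := y - k - b / 2 - 1 / 25) (d := b / 2 + k - d) (x0 := 6962 / 10000)
      (G := 7178 / 10000) (K := 97 / 100)
      (by linear_combination hs0 + hk + (25438297783 / 50000000000) * b1 + d0 - hy + (86603 / 100000) * fb +
        (438297783 / 1000000000) * bb) (by linear_combination hd) (by linear_combination hs1 + hy) (by norm_num) (by norm_num) (by norm_num)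
      (by norm_num) (by norm_num)
    rw [show y - k - b / 2 - 1 / 25 + (b / 2 + k - d) = s - 1 / 25 by linear_combination hy] at P5
    unfold MaM2
    linear_combination (6077 / 1250) * hk + (15446214372709 / 62500000000000) * b0 + (149 / 625) * d0 +
      (776286431 / 125000000) * fb + (3616285627291 / 1250000000000) * bb + P1 + 2 * P2 +
      2 * P3 + P4 + P5

/-- The new point close to `h0`. -/
theorem cH {t q p : ℝ} (hh : 86602 / 100000 ≤ h0) (hh1 : h0 ≤ 86603 / 100000)
    (hs0 : 6668 / 10000 ≤ s) (hs1 : s ≤ 7362 / 10000) (hph : 2 * ph h0 = 1)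
    (hpq : ph p + ph q = 1 + ph b) (hp0 : 1 / 2 ≤ p) (hp : p ≤ h0)
    (hq : h0 ≤ q) (hq1 : q ≤ 1) (t0 : 0 ≤ t) (t1 : t ≤ 15 / 1000) :
    0 ≤ 1 + 2 * ph s - 4 * ph (h0 - t) - ph b - 2 * ph (s + t) + ph (p - t) + ph (q - t) ∨
    0 ≤ 1 + 2 * ph s - 4 * ph (h0 - t) - ph b - 2 * ph (s + t) + ph (p - t) + ph q -
      ph (h0 + 1 / 25 + t) + ph (h0 + 1 / 25) := by
  have A1 := inc_lo (x := h0 - t) (d := t) (x0 := 85102 / 100000) (G := 52514 / 100000)
    (K := 162 / 100) (by norm_num) (by linear_combination hh + t1) t0 (by linear_combination hh1) (by linear_combination hh1 + t0)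
    (by norm_num) (by norm_num) (by norm_num) (by norm_num)
  have A2 := inc_up (x := s) (d := t) (x0 := 7512 / 10000) (G := 66 / 100)
    (K := 1139 / 1000) (by linear_combination hs0) t0
    (by linear_combination hs1 + t1) (by norm_num) (by norm_num) (by norm_num) (by norm_num) (by norm_num)
  have A3 := inc_up (x := h0 + 1 / 25) (d := t) (x0 := 92103 / 100000) (G := 3894 / 10000)
    (K := 2366 / 1000) (by linear_combination hh) t0
    (by linear_combination hh1 + t1) (by norm_num) (by norm_num) (by norm_num) (by norm_num) (by norm_num)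
  rw [show h0 - t + t = h0 by ring] at A1
  have A4 := sec_num (v := p - t) (x := h0 - p) (a := t) (v0 := 0) (G := 1) (q := 0)
    (by norm_num) (by linear_combination hp0 + t1) (by linear_combination hp) t0 (by linear_combination hh1) (by norm_num)
    (by norm_num) (by norm_num)
  rw [show p - t + (h0 - p) + t = h0 by ring, show p - t + t = p by ring,
    show p - t + (h0 - p) = h0 - t by ring] at A4
  rcases le_total q (h0 + 1 / 25 + t) with h | h
  · left
    have A5 := sec_num (v := q - t) (x := h0 + 1 / 25 + t - q) (a := t) (v0 := 0) (G := 1)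
      (q := 0)
      (by norm_num) (by linear_combination hh + hq + t1) (by linear_combination h) t0 (by linear_combination hh1 + t1) (by norm_num)
      (by norm_num) (by norm_num)
    rw [show q - t + (h0 + 1 / 25 + t - q) + t = h0 + 1 / 25 + t by ring,
      show q - t + t = q by ring, show q - t + (h0 + 1 / 25 + t - q) = h0 + 1 / 25 by ring] at A5
    linear_combination 2 * hph - hpq + (27 / 125) * t0 + 3 * A1 + 2 * A2 + A3 + A4 + A5
  · right
    linear_combination 2 * hph - hpq + (27 / 125) * t0 + 3 * A1 + 2 * A2 + A3 + A4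

end

end Pool.Agent.Strip051.FourD
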