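import Pool.Agent.Strip051.FourB.Defs

/-! # The six probes for the strip of height `2 h0 + s`, `(77 / 100) h0 ≤ s ≤ (17 / 20) h0`

The middle probes are the ones of `FourB` with an edge of width `a = 1 / 25`, cut at `s - a` and
continued by a fifth arc; the wall probes are the point `0` and the interval from `0` to
`e = h0 + s - 1`. -/

namespace Pool.Agent.Strip051.FourD

open Pool.Agent.StripNear Pool.Agent.StripSquare Pool.Agent.Strip051
open Pool.Agent.Strip051.Four (gn mirP mirP_ok mirP_gn mirP_val j1 j4 j1_gn j4_gn arc_sub le_gn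
  gn_nonneg gain_ge ext_facts g_le_of_abs gam_neg adm_low)
open Pool.Agent.Strip051.FourB (bd bd_le1 bd_le2 bd_le3 bd_le4)

/-- The body of the second probe: five unit arcs. -/
noncomputable def be (s a z : ℝ) : ℝ :=
  min (bd s a z) (g (z - (s - a)) + (g s + (g (s - 2 * a) - g (s - a)) - g (h0 + a)))

/-- The second probe. -/
noncomputable def k2 (s a : ℝ) : Probe := ⟨s - a, s - a + 1, be s a⟩

/-- The third probe. -/
noncomputable def k3 (s a : ℝ) : Probe := mirP (2 * h0 + s) (k2 s a)

/-- The parameters. -/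
structure Par (s a e w : ℝ) : Prop where
  s0 : 77 / 100 * h0 ≤ s
  s1 : s ≤ 17 / 20 * h0
  ha : a = 1 / 25
  he : e = h0 + s - 1
  hw : w * (1 - g e) = 1 - g s

section

variable {s a e w : ℝ}

theorem Par.s_gt (P : Par s a e w) : 0.6668 < s := by
  have := P.s0
  have := h0_gt
  linear_combination (77 / 100) * this + (‹77 / 100 * h0 ≤ s›)

theorem Par.s_lt (P : Par s a e w) : s < 0.7362 := by
  have := P.s1
  have := h0_lt
  linear_combination (17 / 20) * this + (‹s ≤ 17 / 20 * h0›)

theorem Par.e_gt (P : Par s a e w) : 0.5328 < e := by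
  have := P.s_gt
  have := h0_gt
  rw [P.he]
  linear_combination this + (‹0.6668 < s›)

theorem Par.e_lt (P : Par s a e w) : e < 0.6023 := by
  have := P.s_lt
  have := h0_lt
  rw [P.he]
  linear_combination this + (‹s < 0.7362›)

theorem Par.ge_lt (P : Par s a e w) : g e ≤ 0.85 := by
  have h1 := P.e_gt
  have h2 := P.e_lt
  have h3 := g_sq (r := e) (by linear_combination (11351 / 10000) * h2 + (mul_pos (sub_pos.mpr h1) (sub_pos.mpr h2)))
  have h4 := g_nonneg e
  exact not_lt.mp (fun hg__ => absurd h1 (not_lt.mpr (by linear_combination (8500 / 6023) * hg__ + (5000 / 6023) * h3 + (5000 / 6023) * (mul_pos (sub_pos.mpr h2) (sub_pos.mpr h2)) + (5000 / 6023) * (mul_pos (sub_pos.mpr hg__) (sub_pos.mpr hg__)))))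

theorem Par.w_nonneg (P : Par s a e w) : 0 ≤ w := by
  have h1 := P.hw
  have h2 := P.ge_lt
  have h3 := g_le_one s
  by_contra h
  push Not at h
  exact absurd h (not_lt.mpr (by linear_combination -(20 / 3) * h1 + (20 / 3) * h3 + (20 / 3) * (mul_nonneg (sub_nonneg.mpr h2) (sub_nonneg.mpr (le_of_lt h)))))

theorem Par.w_lt (P : Par s a e w) : w ≤ 4 := by
  have h1 := P.hw
  have h2 := P.ge_lt
  have h4 := P.s_lt
  have h5 := P.s_gt
  have h6 := g_sq (r := s) (by linear_combination (1403 / 1000) * h4 + (mul_pos (sub_pos.mpr h4) (sub_pos.mpr h5)))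
  have h7 := g_nonneg s
  have h8 : 0.6 ≤ g s := by exact not_lt.mp (fun hg__ => absurd h4 (not_lt.mpr (by linear_combination (600 / 1403) * hg__ - (1000 / 1403) * h6 + (1000 / 1403) * (mul_pos (sub_pos.mpr h4) (sub_pos.mpr h5)) + (1000 / 1403) * (mul_nonneg (sub_nonneg.mpr (le_of_lt hg__)) (sub_nonneg.mpr h7)))))
  by_contra h
  push Not at h
  exact absurd h (not_lt.mpr (by linear_combination (20 / 3) * h1 + (80 / 3) * h2 + (20 / 3) * h8 + (20 / 3) * (mul_nonneg (sub_nonneg.mpr h2) (sub_nonneg.mpr (le_of_lt h)))))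

end

theorem par_exists {s : ℝ} (h1 : 77 / 100 * h0 ≤ s) (h2 : s ≤ 17 / 20 * h0) :
    ∃ a e w, Par s a e w := by
  have hh := h0_lt
  have hg := h0_gt
  have h3 : g (h0 + s - 1) ≠ 1 := by
    have h4 := g_sq (r := h0 + s - 1) (by linear_combination (567641 / 500000) * h2 + (2943091 / 4000000) * hg + (mul_nonneg (sub_nonneg.mpr h1) (sub_nonneg.mpr h2)) +
      (1369 / 32) * (mul_nonneg (sub_nonneg.mpr h1) (sub_nonneg.mpr (le_of_lt hh))) + (31329 / 800) * (mul_nonneg (sub_nonneg.mpr h2) (sub_nonneg.mpr (le_of_lt hh))))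
    intro h5
    rw [h5] at h4
    exact absurd hh (not_lt.mpr (by linear_combination (5000000 / 4134543) * h4 + (35466250000 / 1790257119) * (mul_nonneg (sub_nonneg.mpr h1) (sub_nonneg.mpr h1)) + (33301250000 / 1790257119) * (mul_nonneg (sub_nonneg.mpr h1) (sub_nonneg.mpr h2)) + (89784106250 / 1790257119) * (mul_nonneg (sub_nonneg.mpr h1) (sub_nonneg.mpr (le_of_lt hg))) + (1106250 / 23359) * (mul_nonneg (sub_nonneg.mpr h2) (sub_nonneg.mpr (le_of_lt hg)))))
  refine ⟨1 / 25, h0 + s - 1, (1 - g s) / (1 - g (h0 + s - 1)), h1, h2, rfl, rfl, ?_⟩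
  apply div_mul_cancel₀
  intro h
  exact h3 (by linear_combination -h)

theorem k2_gn (s a r q y : ℝ) : gn (k3 s a) r q y = gn (k2 s a) q r (2 * h0 + s - y) :=
  mirP_gn _ _ _ _ _

theorem k3_gn (s a r q y : ℝ) : gn (k2 s a) r q y = gn (k3 s a) q r (2 * h0 + s - y) := by
  rw [k2_gn, sub_sub_cancel]

/-! ### The body -/

section

variable {s a z : ℝ}

theorem be_le1 : be s a z ≤ g (z - (h0 + s)) + (g (s - a) - g s + 1 - g (s - 2 * a)) :=
  (min_le_left _ _).trans bd_le1

theorem be_le2 : be s a z ≤ g (z - (h0 + s - a)) + (1 - g (s - 2 * a)) :=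
  (min_le_left _ _).trans bd_le2

theorem be_le3 : be s a z ≤ g (z - (h0 + a)) :=
  (min_le_left _ _).trans bd_le3

theorem be_le4 : be s a z ≤ g (z - h0) + (g (s - 2 * a) - g (s - a)) :=
  (min_le_left _ _).trans bd_le4

theorem be_le5 : be s a z ≤
    g (z - (s - a)) + (g s + (g (s - 2 * a) - g (s - a)) - g (h0 + a)) :=
  min_le_right _ _

end

section

variable {s a e w z : ℝ}

theorem arc12 (P : Par s a e w) (h1 : s - a ≤ z) (h2 : z ≤ h0) :
    g (z - (h0 + s)) + (g (s - a) - g s + 1 - g (s - 2 * a)) ≤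
      g (z - (h0 + s - a)) + (1 - g (s - 2 * a)) := by
  have := P.s_gt
  have := P.s_lt
  have := P.ha
  have := h0_lt
  have e1 := arc_sub (a := h0 + s - a) (b := h0 + s) (x := z) (y := h0) (by linear_combination -(‹a = 1 / 25›)) h2
    (by linear_combination h1 + this + (‹a = 1 / 25›)) (by linear_combination (‹0.6668 < s›) + (‹a = 1 / 25›))
  rw [show h0 - (h0 + s - a) = -(s - a) by ring, show h0 - (h0 + s) = -s by ring, g_neg,
    g_neg] at e1
  linear_combination e1

theorem arc21 (P : Par s a e w) (h1 : h0 ≤ z) (h2 : z ≤ s - a + 1) :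
    g (z - (h0 + s - a)) + (1 - g (s - 2 * a)) ≤
      g (z - (h0 + s)) + (g (s - a) - g s + 1 - g (s - 2 * a)) := by
  have := P.s_gt
  have := P.s_lt
  have := P.ha
  have := h0_gt
  have e1 := arc_sub (a := h0 + s - a) (b := h0 + s) (x := h0) (y := z) (by linear_combination -(‹a = 1 / 25›)) h1
    (by linear_combination (‹s < 0.7362›)) (by linear_combination h2 + this)
  rw [show h0 - (h0 + s - a) = -(s - a) by ring, show h0 - (h0 + s) = -s by ring, g_neg,
    g_neg] at e1
  linear_combination e1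

theorem arc23 (P : Par s a e w) (h1 : s - a ≤ z) (h2 : z ≤ h0 + a) :
    g (z - (h0 + s - a)) + (1 - g (s - 2 * a)) ≤ g (z - (h0 + a)) := by
  have := P.s_gt
  have := P.s_lt
  have := P.ha
  have := h0_lt
  have e1 := arc_sub (a := h0 + a) (b := h0 + s - a) (x := z) (y := h0 + a) (by linear_combination (‹0.6668 < s›) + 2 * (‹a = 1 / 25›)) h2
    (by linear_combination h1 + this) (by linear_combination)
  rw [sub_self, g_zero, show h0 + a - (h0 + s - a) = -(s - 2 * a) by ring, g_neg] at e1
  linear_combination e1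

theorem arc32 (P : Par s a e w) (h1 : h0 + a ≤ z) (h2 : z ≤ s - a + 1) :
    g (z - (h0 + a)) ≤ g (z - (h0 + s - a)) + (1 - g (s - 2 * a)) := by
  have := P.s_gt
  have := P.s_lt
  have := P.ha
  have := h0_gt
  have e1 := arc_sub (a := h0 + a) (b := h0 + s - a) (x := h0 + a) (y := z) (by linear_combination (‹0.6668 < s›) + 2 * (‹a = 1 / 25›)) h1
    (by linear_combination (‹s < 0.7362›) - 2 * (‹a = 1 / 25›)) (by linear_combination h2 + this + (‹s < 0.7362›) - 2 * (‹a = 1 / 25›))
  rw [sub_self, g_zero, show h0 + a - (h0 + s - a) = -(s - 2 * a) by ring, g_neg] at e1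
  linear_combination e1

theorem arc34 (P : Par s a e w) (h1 : s - a ≤ z) (h2 : z ≤ h0 + s - a) :
    g (z - (h0 + a)) ≤ g (z - h0) + (g (s - 2 * a) - g (s - a)) := by
  have := P.s_gt
  have := P.s_lt
  have := P.ha
  have := h0_lt
  have e1 := arc_sub (a := h0) (b := h0 + a) (x := z) (y := h0 + s - a) (by linear_combination -(‹a = 1 / 25›)) h2
    (by linear_combination h1 + this + (‹0.6668 < s›) + 2 * (‹a = 1 / 25›)) (by linear_combination (‹s < 0.7362›) - (‹a = 1 / 25›))
  rw [show h0 + s - a - h0 = s - a by ring, show h0 + s - a - (h0 + a) = s - 2 * a by ring] at e1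
  linear_combination e1

theorem arc43 (P : Par s a e w) (h1 : h0 + s - a ≤ z) (h2 : z ≤ s - a + 1) :
    g (z - h0) + (g (s - 2 * a) - g (s - a)) ≤ g (z - (h0 + a)) := by
  have := P.s_gt
  have := P.s_lt
  have := P.ha
  have := h0_gt
  have e1 := arc_sub (a := h0) (b := h0 + a) (x := h0 + s - a) (y := z) (by linear_combination -(‹a = 1 / 25›)) h1
    (by linear_combination (‹0.6668 < s›) + 2 * (‹a = 1 / 25›)) (by linear_combination h2 + this + (‹s < 0.7362›) - (‹a = 1 / 25›))
  rw [show h0 + s - a - h0 = s - a by ring, show h0 + s - a - (h0 + a) = s - 2 * a by ring] at e1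
  linear_combination e1

theorem arc45 (P : Par s a e w) (h1 : s - a ≤ z) (h2 : z ≤ h0 + s) :
    g (z - h0) + (g (s - 2 * a) - g (s - a)) ≤
      g (z - (s - a)) + (g s + (g (s - 2 * a) - g (s - a)) - g (h0 + a)) := by
  have := P.s_gt
  have := P.s_lt
  have := P.ha
  have := h0_lt
  have := h0_gt
  have e1 := arc_sub (a := s - a) (b := h0) (x := z) (y := h0 + s) (by linear_combination this + (‹s < 0.7362›) - (‹a = 1 / 25›)) h2
    (by linear_combination h1 + (‹0.6668 < s›) + (‹a = 1 / 25›) + (‹h0 < 0.8661›)) (by linear_combination (‹a = 1 / 25›) + (‹h0 < 0.8661›))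
  rw [add_sub_cancel_left, show h0 + s - (s - a) = h0 + a by ring] at e1
  linear_combination e1

theorem arc54 (P : Par s a e w) (h1 : h0 + s ≤ z) (h2 : z ≤ s - a + 1) :
    g (z - (s - a)) + (g s + (g (s - 2 * a) - g (s - a)) - g (h0 + a)) ≤
      g (z - h0) + (g (s - 2 * a) - g (s - a)) := by
  have := P.s_gt
  have := P.s_lt
  have := P.ha
  have := h0_lt
  have := h0_gt
  have e1 := arc_sub (a := s - a) (b := h0) (x := h0 + s) (y := z) (by linear_combination this + (‹s < 0.7362›) - (‹a = 1 / 25›)) h1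
    (by linear_combination (‹0.6668 < s›)) (by linear_combination h2)
  rw [add_sub_cancel_left, show h0 + s - (s - a) = h0 + a by ring] at e1
  linear_combination e1

/-- The cell `[s - a, h0]`. -/
theorem be_eq1 (P : Par s a e w) (h1 : s - a ≤ z) (h2 : z ≤ h0) :
    be s a z = g (z - (h0 + s)) + (g (s - a) - g s + 1 - g (s - 2 * a)) := by
  have := P.s_gt
  have := P.s_lt
  have := P.ha
  have e1 := arc12 P h1 h2
  have e2 := arc23 P h1 (by linear_combination h2 - this)
  have e3 := arc34 P h1 (by linear_combination h2 + this + (‹0.6668 < s›))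
  have e4 := arc45 P h1 (by linear_combination h2 + (‹0.6668 < s›))
  refine le_antisymm be_le1 ?_
  unfold be bd
  refine le_min (le_min (le_min ?_ ?_) (le_min ?_ ?_)) ?_ <;> linarith

/-- The cell `[h0, h0 + a]`. -/
theorem be_eq2 (P : Par s a e w) (h1 : h0 ≤ z) (h2 : z ≤ h0 + a) :
    be s a z = g (z - (h0 + s - a)) + (1 - g (s - 2 * a)) := by
  have := P.s_gt
  have := P.s_lt
  have := P.ha
  have := h0_gt
  have := h0_lt
  have e1 := arc21 P h1 (by linear_combination h2 + this + (‹0.6668 < s›) + 2 * (‹a = 1 / 25›))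
  have e2 := arc23 P (by linear_combination h1 + (‹s < 0.7362›) - (‹a = 1 / 25›) + (‹0.866 < h0›)) h2
  have e3 := arc34 P (z := z) (by linear_combination h1 + (‹s < 0.7362›) - (‹a = 1 / 25›) + (‹0.866 < h0›)) (by linear_combination h2 + (‹0.6668 < s›) + 2 * (‹a = 1 / 25›))
  have e4 := arc45 P (z := z) (by linear_combination h1 + (‹s < 0.7362›) - (‹a = 1 / 25›) + (‹0.866 < h0›)) (by linear_combination h2 + (‹0.6668 < s›) + (‹a = 1 / 25›))
  refine le_antisymm be_le2 ?_
  unfold be bd
  refine le_min (le_min (le_min ?_ ?_) (le_min ?_ ?_)) ?_ <;> linarith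

/-- The cell `[h0 + a, h0 + s - a]`. -/
theorem be_eq3 (P : Par s a e w) (h1 : h0 + a ≤ z) (h2 : z ≤ h0 + s - a) :
    be s a z = g (z - (h0 + a)) := by
  have := P.s_gt
  have := P.s_lt
  have := P.ha
  have := h0_gt
  have := h0_lt
  have e1 := arc21 P (z := z) (by linear_combination h1 - (‹a = 1 / 25›)) (by linear_combination h2 + this)
  have e2 := arc32 P (z := z) h1 (by linear_combination h2 + this)
  have e3 := arc34 P (z := z) (by linear_combination h1 + (‹s < 0.7362›) - 2 * (‹a = 1 / 25›) + (‹0.866 < h0›)) h2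
  have e4 := arc45 P (z := z) (by linear_combination h1 + (‹s < 0.7362›) - 2 * (‹a = 1 / 25›) + (‹0.866 < h0›)) (by linear_combination h2 - (‹a = 1 / 25›))
  refine le_antisymm be_le3 ?_
  unfold be bd
  refine le_min (le_min (le_min ?_ ?_) (le_min ?_ ?_)) ?_ <;> linarith

/-- The cell `[h0 + s - a, h0 + s]`. -/
theorem be_eq4 (P : Par s a e w) (h1 : h0 + s - a ≤ z) (h2 : z ≤ h0 + s) :
    be s a z = g (z - h0) + (g (s - 2 * a) - g (s - a)) := by
  have := P.s_gt
  have := P.s_lt
  have := P.ha
  have := h0_gt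
  have := h0_lt
  have e1 := arc21 P (z := z) (by linear_combination h1 + (‹0.6668 < s›) + (‹a = 1 / 25›)) (by linear_combination h2 + this + (‹a = 1 / 25›))
  have e2 := arc32 P (z := z) (by linear_combination h1 + (‹0.6668 < s›) + 2 * (‹a = 1 / 25›)) (by linear_combination h2 + this + (‹a = 1 / 25›))
  have e3 := arc43 P h1 (by linear_combination h2 + this + (‹a = 1 / 25›))
  have e4 := arc45 P (z := z) (by linear_combination h1 + (‹0.866 < h0›)) h2
  refine le_antisymm be_le4 ?_
  unfold be bd
  refine le_min (le_min (le_min ?_ ?_) (le_min ?_ ?_)) ?_ <;> linarith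

/-- The cell `[h0 + s, s - a + 1]`. -/
theorem be_eq5 (P : Par s a e w) (h1 : h0 + s ≤ z) (h2 : z ≤ s - a + 1) :
    be s a z = g (z - (s - a)) + (g s + (g (s - 2 * a) - g (s - a)) - g (h0 + a)) := by
  have := P.s_gt
  have := P.s_lt
  have := P.ha
  have := h0_gt
  have e1 := arc21 P (z := z) (by linear_combination h1 + (‹0.6668 < s›)) (by linear_combination h2)
  have e2 := arc32 P (z := z) (by linear_combination 2 * h1 + h2 + this + (‹0.6668 < s›)) (by linear_combination h2)
  have e3 := arc43 P (z := z) (by linear_combination h1 - (‹a = 1 / 25›)) (by linear_combination h2)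
  have e4 := arc54 P h1 h2
  refine le_antisymm be_le5 ?_
  unfold be bd
  refine le_min (le_min (le_min ?_ ?_) (le_min ?_ ?_)) ?_ <;> linarith

end

/-! ### The probes lie in the strip -/

section

variable {s a e w : ℝ}

theorem j0_ok (P : Par s a e w) : (j1 0).Ok (2 * h0 + s) := by
  have := h0_pos
  have := P.s_gt
  refine ⟨le_rfl, le_rfl, by simp only [j1]; linear_combination this + 2 * (‹0 < h0›), 1, fun z _ _ => g_le_one _⟩

theorem j1_ok (P : Par s a e w) : (j1 e).Ok (2 * h0 + s) := by
  have := h0_gt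
  have := P.s_gt
  have := P.e_gt
  have := P.e_lt
  refine ⟨le_rfl, by simp only [j1]; linear_combination (‹0.5328 < e›), by simp only [j1]; linear_combination this + 2 * (‹0.866 < h0›) + (‹0.6668 < s›), 1,
    fun z _ _ => g_le_one _⟩

theorem k2_ok (P : Par s a e w) : (k2 s a).Ok (2 * h0 + s) := by
  have := h0_gt
  have := P.s_gt
  have := P.ha
  refine ⟨by simp only [k2]; linear_combination this + (‹0.6668 < s›), by simp only [k2]; linear_combination,
    by simp only [k2]; linear_combination -this + 2 * (‹0.866 < h0›), 1, fun z _ _ => ?_⟩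
  exact be_le3.trans (g_le_one _)

theorem k3_ok (P : Par s a e w) : (k3 s a).Ok (2 * h0 + s) := mirP_ok (k2_ok P)

theorem j4_ok (P : Par s a e w) : (j4 s e).Ok (2 * h0 + s) := mirP_ok (j1_ok P)

theorem j5_ok (P : Par s a e w) : (j4 s 0).Ok (2 * h0 + s) := mirP_ok (j0_ok P)

/-- The gain of a wall probe, the new point inside. -/
theorem wall_in {t H r q y : ℝ} (hj : (j1 t).Ok H) (h1 : 0 ≤ y) (h2 : y ≤ t) (h3 : t ≤ 1) :
    2 * g (t - y) - 1 ≤ gn (j1 t) r q y := by
  have h3 := le_gn (r := r) (q := q) (y := y) (z0 := y) (v := g (t - y) - 1) hj h1 h2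
    (by
      intro z k1 k2
      simp only [j1] at k1 k2 ⊢
      right
      have := arc_sub (a := y) (b := t) (x := z) (y := t) h2 k2 (by linear_combination h3 + k1) (by linear_combination h1 + h3)
      rw [sub_self, g_zero] at this
      linear_combination this)
  simp only [j1, sub_self] at h3
  have h4 : gam r q 0 = 0 := by
    unfold gam
    rw [if_pos le_rfl, vir_zero]
  have h5 : g (y - t) = g (t - y) := by rw [← g_neg, neg_sub]
  rw [h4, h5] at h3
  simp only [j1]
  linear_combination h3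

/-- The gain of a wall probe, the new point between its end and `h0`. -/
theorem wall_out {t H r y : ℝ} (hj : (j1 t).Ok H) (h0' : 0 ≤ t) (h1 : t ≤ y) (h2 : y ≤ h0) :
    1 + 2 * g y - 2 * g t ≤ gn (j1 t) r y y := by
  have hh := h0_lt
  have h3 := le_gn (r := r) (q := y) (y := y) (z0 := t) (v := g y - g t) hj h0' le_rfl
    (by
      intro z k1 k2
      simp only [j1] at k1 k2 ⊢
      right
      have := arc_sub (a := t) (b := y) (x := 0) (y := z) h1 k1 (by linear_combination h2 + hh) (by linear_combination k2)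
      rw [zero_sub, zero_sub, g_neg, g_neg] at this
      linear_combination this)
  simp only [j1, sub_self, g_zero] at h3
  have h4 : gam r y (t - y) ≤ g t - g y := by
    unfold gam
    split
    · next h =>
      rw [show t - y = 0 by exact le_antisymm (by linear_combination h1) (by linear_combination h), vir_zero]
      rw [show t = y by exact le_antisymm (by linear_combination h1) (by linear_combination h), sub_self]
    · unfold vir
      apply max_le
      · have := g_anti h0' h1
        linear_combination this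
      · rw [show -(t - y) - y = -t by ring, g_neg]
  simp only [j1]
  linear_combination h3 + h4

/-- What remains to be proved when the new point is below `e`. -/
def LowE (s a e w : ℝ) : Prop := ∀ y r : ℝ, 0 ≤ y → y ≤ e → 1 / 2 ≤ r → r ≤ 1 →
  2 * (1 + g s) ≤ (4 - w) * (2 * g y - 1) + w * (2 * g (e - y) - 1) +
    2 * (gn (k2 s a) r y y + gn (k3 s a) r y y)

/-- What remains to be proved when the new point is between `e` and `s`. -/
def LowA (s a e : ℝ) : Prop := ∀ y r : ℝ, e ≤ y → y ≤ s → 1 / 2 ≤ r → r ≤ 1 →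
  2 * (1 + g s - 2 * g y) ≤ gn (k2 s a) r y y + gn (k3 s a) r y y

/-- What remains to be proved when the new point is between `s` and `h0`. -/
def MidB (s a : ℝ) : Prop := ∀ y r : ℝ, s ≤ y → y ≤ h0 → 1 / 2 ≤ r → r ≤ 1 →
  2 * (1 + g s - 2 * g y) ≤ gn (k2 s a) r y y + gn (k3 s a) r y y

/-- What remains to be proved when the new point is between `h0` and `h0 + s / 2`. -/
def HighC (s a e w : ℝ) : Prop := ∀ y r q : ℝ, h0 ≤ y → y ≤ h0 + s / 2 → 1 / 2 ≤ r → r ≤ 1 →
  1 / 2 ≤ q → q ≤ 1 → q ≤ y → ext q ≤ y →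
  2 * (1 + g s) ≤ w * gn (j1 e) r q y + 2 * (gn (k2 s a) r q y + gn (k3 s a) r q y)

/-- The insertion inequality up to the middle of the strip. -/
theorem half_gain (P : Par s a e w) (hE : LowE s a e w) (hA : LowA s a e) (hB : MidB s a)
    (hC : HighC s a e w) {y r q : ℝ} (h1 : 0 ≤ y) (h2 : y ≤ h0 + s / 2)
    (hr : Adm (2 * h0 + s - y) r) (hq : Adm y q) :
    2 * (1 + g s) ≤ (4 - w) * gn (j1 0) r q y + w * gn (j1 e) r q y +
      2 * (gn (k2 s a) r q y + gn (k3 s a) r q y) +
      (4 - w) * gn (j4 s 0) r q y + w * gn (j4 s e) r q y := by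
  have hg := h0_gt
  have := P.s_gt
  have := P.s_lt
  have he1 := P.e_lt
  have he2 := P.e_gt
  have hw0 := P.w_nonneg
  have hw4 : 0 ≤ 4 - w := by linear_combination P.w_lt
  have k0 := mul_nonneg hw4 (gn_nonneg (r := r) (q := q) (y := y) (j0_ok P))
  have k1 := mul_nonneg hw0 (gn_nonneg (r := r) (q := q) (y := y) (j1_ok P))
  have k4 := mul_nonneg hw0 (gn_nonneg (r := r) (q := q) (y := y) (j4_ok P))
  have k5 := mul_nonneg hw4 (gn_nonneg (r := r) (q := q) (y := y) (j5_ok P))
  have hr' : 1 / 2 ≤ r ∧ r ≤ 1 := by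
    rcases hr with hr | ⟨-, -, hr⟩
    · exact ⟨hr.1, hr.2.1⟩
    · exact absurd h2 (not_le.mpr (by linear_combination hr + (1 / 2) * (‹0.6668 < s›)))
  obtain ⟨r1, r2⟩ := hr'
  rcases le_total y h0 with h4 | h4
  · have hqy := adm_low h4 hq
    subst hqy
    have a0 := mul_le_mul_of_nonneg_left (wall_out (r := r) (j0_ok P) le_rfl h1 h4) hw4
    rw [g_zero] at a0
    rcases le_total q e with h5 | h5
    · have a1 := mul_le_mul_of_nonneg_left (wall_in (r := r) (q := q) (j1_ok P) h1 h5
        (by linear_combination he1)) hw0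
      have := hE q r h1 h5 r1 r2
      linear_combination k4 + k5 + a0 + a1 + this
    · have a1 := mul_le_mul_of_nonneg_left (wall_out (r := r) (j1_ok P) (by linear_combination he2) h5 h4) hw0
      have hw := P.hw
      have k6 : 2 * (1 + g s - 2 * g q) ≤ gn (FourD.k2 s a) r q q + gn (FourD.k3 s a) r q q := by
        rcases le_total q s with h6 | h6
        · exact hA q r h5 h6 r1 r2
        · exact hB q r h6 h4 r1 r2
      linear_combination k4 + k5 + a0 + a1 - 2 * hw + 2 * k6
  · have hq' : 1 / 2 ≤ q ∧ q ≤ 1 ∧ q ≤ y ∧ ext q ≤ y := by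
      rcases hq with hq | ⟨-, -, hq⟩
      · exact hq
      · exact absurd h4 (not_le.mpr (by linear_combination hq))
    obtain ⟨q1, q2, q3, q4⟩ := hq'
    have := hC y r q h4 h2 r1 r2 q1 q2 q3 q4
    linear_combination k0 + k4 + k5 + this

/-- The insertion inequality. -/
theorem full_gain (P : Par s a e w) (hE : LowE s a e w) (hA : LowA s a e) (hB : MidB s a)
    (hC : HighC s a e w) {y r q : ℝ} (h1 : 0 ≤ y) (h2 : y ≤ 2 * h0 + s)
    (hr : Adm (2 * h0 + s - y) r) (hq : Adm y q) :
    2 * (1 + g s) ≤ (4 - w) * gn (j1 0) r q y + w * gn (j1 e) r q y +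
      2 * (gn (k2 s a) r q y + gn (k3 s a) r q y) +
      (4 - w) * gn (j4 s 0) r q y + w * gn (j4 s e) r q y := by
  rcases le_total y (h0 + s / 2) with h3 | h3
  · exact half_gain P hE hA hB hC h1 h3 hr hq
  · have := half_gain P hE hA hB hC (y := 2 * h0 + s - y) (r := q) (q := r) (by linear_combination h2)
      (by linear_combination h3) (by rwa [sub_sub_cancel]) hr
    rw [j4_gn s 0 q r, j4_gn s e q r, k3_gn s a q r, k2_gn s a q r, j1_gn s 0 q r,
      j1_gn s e q r, sub_sub_cancel] at this
    linear_combination this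

/-- The six probes. -/
noncomputable def probes (s a e : ℝ) : Fin 6 → Probe :=
  ![j1 0, j1 e, k2 s a, k3 s a, j4 s 0, j4 s e]

/-- The six weights. -/
noncomputable def weights (s w : ℝ) : Fin 6 → ℝ :=
  ![(4 - w) / (2 * (1 + g s)), w / (2 * (1 + g s)), 1 / (1 + g s), 1 / (1 + g s),
    (4 - w) / (2 * (1 + g s)), w / (2 * (1 + g s))]

theorem cert (P : Par s a e w) (hE : LowE s a e w) (hA : LowA s a e) (hB : MidB s a)
    (hC : HighC s a e w) : ProbeCert (2 * h0 + s) (weights s w) (probes s a e) := by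
  have hc : 0 < 1 + g s := by linear_combination (g_nonneg s)
  have hw0 := P.w_nonneg
  have hw4 : 0 ≤ 4 - w := by linear_combination P.w_lt
  refine ⟨?_, ?_, ?_⟩
  · intro i
    fin_cases i <;> simp [weights] <;> positivity
  · intro i
    fin_cases i
    · exact j0_ok P
    · exact j1_ok P
    · exact k2_ok P
    · exact k3_ok P
    · exact j5_ok P
    · exact j4_ok P
  · intro y r q h1 h2 hr hq
    have h := full_gain P hE hA hB hC h1 h2 hr hq
    have e : ∑ i, weights s w i * ((probes s a e i).val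
        (fun z => max (gam r q (z - y)) (g (z - y))) -
        (probes s a e i).val (fun z => gam r q (z - y))) =
        (1 / (2 * (1 + g s))) * ((4 - w) * gn (j1 0) r q y + w * gn (j1 e) r q y +
      2 * (gn (k2 s a) r q y + gn (k3 s a) r q y) +
      (4 - w) * gn (j4 s 0) r q y + w * gn (j4 s e) r q y) := by
      rw [Fin.sum_univ_six]
      simp only [weights, probes, gn]
      simp
      field_simp
      ring
    rw [e]
    calc (1 : ℝ) = (1 / (2 * (1 + g s))) * (2 * (1 + g s)) := by field_simp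
      _ ≤ _ := mul_le_mul_of_nonneg_left h (by positivity)

theorem count (P : Par s a e w) (hE : LowE s a e w) (hA : LowA s a e) (hB : MidB s a)
    (hC : HighC s a e w) : CountBound 2 s := by
  have hc : 0 < 1 + g s := by linear_combination (g_nonneg s)
  have hp := h0_pos
  apply countBound_of_probe (by linear_combination P.s_gt) (by linear_combination P.s1 + (3 / 20) * hp) (c := weights s w)
    (j := probes s a e)
  · have := cert P hE hA hB hC
    push_cast
    exact this
  · rw [Fin.sum_univ_six]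
    simp only [weights]
    simp
    apply le_of_eq
    field_simp
    ring

end

end Pool.Agent.Strip051.FourD
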