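import Pool.Agent.Strip051.FourD.Defs

/-! # Gains of the middle probes when the new point is below `h0` -/

namespace Pool.Agent.Strip051.FourD

open Pool.Agent.StripNear Pool.Agent.StripSquare Pool.Agent.Strip051
open Pool.Agent.Strip051.Four (gn mirP mirP_ok mirP_gn mirP_val j1 j4 arc_sub le_gn
  gn_nonneg gain_ge ext_facts g_le_of_abs)

/-- `p ≤ q` are the heights of the virtual disc and of the exit in some order, `b` is the
difference. -/
structure Pq (r p q b : ℝ) : Prop where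
  two : (r = q ∧ ext r = p) ∨ (r = p ∧ ext r = q)
  r1 : 1 / 2 ≤ r
  r2 : r ≤ 1
  b0 : 0 ≤ b
  b1 : b ≤ 1 / 2
  hp : p = h0 * g b - b / 2
  hq : q = h0 * g b + b / 2
  p1 : 1 / 2 ≤ p
  q1 : q ≤ 1
  gpq : g p + g q = g b

theorem pq_exists {r : ℝ} (h1 : 1 / 2 ≤ r) (h2 : r ≤ 1) : ∃ p q b, Pq r p q b := by
  obtain ⟨e1, e2, e3, e4, e5⟩ := ext_facts h1 h2
  have e : ext r = r / 2 + h0 * g r := rfl
  have e' : ext (ext r) = ext r / 2 + h0 * g (ext r) := rfl
  rw [e5] at e'
  rcases le_total r (ext r) with h | h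
  · refine ⟨r, ext r, ext r - r, Or.inr ⟨rfl, rfl⟩, h1, h2, by linear_combination h, by linear_combination h1 + e2, ?_, ?_,
      h1, e2, by linear_combination -e3⟩
    · rw [e3]
      linear_combination e + e'
    · rw [e3]
      linear_combination e + e'
  · refine ⟨ext r, r, r - ext r, Or.inl ⟨rfl, rfl⟩, h1, h2, by linear_combination h, by linear_combination h2 + e1, ?_, ?_,
      e1, h2, ?_⟩
    · rw [← g_neg, neg_sub, e3]
      linear_combination e + e'
    · rw [← g_neg, neg_sub, e3]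
      linear_combination e + e'
    · rw [← g_neg (r - ext r), neg_sub, e3]

section

variable {r p q b x y : ℝ}

theorem Pq.gb (h : Pq r p q b) : g (ext r - r) = g b := by
  have e3 := (ext_facts h.r1 h.r2).2.2.1
  have := h.gpq
  rcases h.two with ⟨h1, h2⟩ | ⟨h1, h2⟩
  · rw [h2, h1] at e3
    rw [h2, h1]
    linear_combination e3 + this
  · rw [h2, h1] at e3
    rw [h2, h1]
    linear_combination e3 + this

theorem Pq.le (h : Pq r p q b) : p ≤ q := by
  have := h.hp
  have := h.hq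
  have := h.b0
  linear_combination this + (‹p = h0 * g b - b / 2›) - (‹q = h0 * g b + b / 2›)

theorem Pq.q_ge (h : Pq r p q b) : h0 ≤ q := by
  have hh := h0_lt
  have hp := h0_pos
  have h1 := h.b0
  have h2 := h.b1
  have h3 := g_sq (r := b) (by linear_combination (1 / 2) * h2 + (mul_nonneg (sub_nonneg.mpr h1) (sub_nonneg.mpr h2)))
  have h4 := g_nonneg b
  have h5 := g_le_one b
  have h6 : 1 - g b ≤ b ^ 2 := by linear_combination -h3 + (mul_nonneg (sub_nonneg.mpr h4) (sub_nonneg.mpr h5))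
  have h7 : h0 * (1 - g b) ≤ 0.8661 * b ^ 2 :=
    mul_le_mul hh.le h6 (by linear_combination h5) (by norm_num)
  have h8 : b ^ 2 ≤ b / 2 := by linear_combination (mul_nonneg (sub_nonneg.mpr h1) (sub_nonneg.mpr h2))
  have := h.hq
  linear_combination (1339 / 20000) * h1 + h7 + (8661 / 10000) * h8 - this

/-- A bound for the gain of a probe, one arc and one contact for either order. -/
theorem Pq.two_ge (h : Pq r p q b) {j : Probe} {H C1 α1 z1 b1 C2 α2 z2 b2 v : ℝ}
    (hj : j.Ok H)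
    (a1 : ∀ z, j.lo ≤ z → z ≤ j.hi → j.a z ≤ g (z - C1) + α1)
    (a2 : ∀ z, j.lo ≤ z → z ≤ j.hi → j.a z ≤ g (z - C2) + α2)
    (c1 : y ≤ C1) (c1' : C1 ≤ y + q) (l1 : j.lo ≤ z1) (l1' : z1 ≤ j.hi) (d1 : y ≤ z1)
    (d1' : z1 ≤ y + 2 * q) (f1 : b1 ≤ j.a z1)
    (c2 : y ≤ C2) (c2' : C2 ≤ y + p) (l2 : j.lo ≤ z2) (l2' : z2 ≤ j.hi) (d2 : y ≤ z2)
    (d2' : z2 ≤ y + 2 * p) (f2 : b2 ≤ j.a z2)
    (v1 : v ≤ g b - (g (y + p - C1) + α1) - g (y + q - z1) + b1)
    (v2 : v ≤ g b - (g (y + q - C2) + α2) - g (y + p - z2) + b2) : v ≤ gn j r x y := by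
  rcases h.two with ⟨e1, e2⟩ | ⟨e1, e2⟩
  · have := gain_ge (q := x) (C := C1) (α := α1) (z0 := z1) (β := b1) hj h.r1 h.r2 c1
      (by rw [e1]; exact c1') a1 l1 l1' d1 (by rw [e1]; exact d1') f1
    rw [h.gb, e2, e1] at this
    rw [e1]
    exact v1.trans this
  · have := gain_ge (q := x) (C := C2) (α := α2) (z0 := z2) (β := b2) hj h.r1 h.r2 c2
      (by rw [e1]; exact c2') a2 l2 l2' d2 (by rw [e1]; exact d2') f2
    rw [h.gb, e2, e1] at this
    rw [e1]
    exact v2.trans this

end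

/-- The old front above the new point. -/
theorem gam_up {r q y z0 : ℝ} (h1 : y ≤ z0) (h2 : z0 ≤ y + 2 * r) :
    gam r q (z0 - y) = g (y + r - z0) - g r := by
  unfold gam
  rw [if_pos (by linear_combination h1)]
  unfold vir
  have h6 : g r ≤ g (z0 - y - r) := g_le_of_abs (by linear_combination h2) (by linear_combination h1)
  rw [max_eq_right (by linear_combination h6), ← g_neg (z0 - y - r),
    show -(z0 - y - r) = y + r - z0 by ring]

theorem gam_at {r q y : ℝ} : gam r q (y - y) = 0 := by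
  unfold gam
  rw [sub_self, if_pos le_rfl, vir_zero]

/-- The gain of a probe which ends below the exit. -/
theorem gain_top {j : Probe} {H y r q C α z0 β : ℝ} (hj : j.Ok H)
    (hC1 : y ≤ C) (hC2 : C ≤ j.lo + 1) (hhi : j.hi ≤ y + 1)
    (ha : ∀ z, j.lo ≤ z → z ≤ j.hi → j.a z ≤ g (z - C) + α)
    (hlo : j.lo ≤ z0) (hz0 : z0 ≤ j.hi) (hz1 : y ≤ z0) (hz2 : z0 ≤ y + 2 * r)
    (hβ : β ≤ j.a z0) :
    g (j.hi - y) - (g (j.hi - C) + α) - (g (y + r - z0) - g r) + β ≤ gn j r q y := by
  have h3 := le_gn (r := r) (q := q) (y := y) (z0 := z0)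
    (v := g (j.hi - y) - g (j.hi - C) - α) hj hlo hz0 (by
      intro z hz1 hz2
      have h3 := ha z hz1 hz2
      right
      have := four (x := z - C) (y := z - y) (z := j.hi - C) (w := j.hi - y) (by linear_combination hC2 + hz1)
        (by linear_combination hhi) (by linear_combination hC1) (by linear_combination hz2) (by ring)
      linear_combination h3 + this)
  rw [gam_up hz1 hz2] at h3
  linear_combination hβ + h3

section

variable {s a e w z y r x p q b : ℝ}

/-! ### Values of the bodies -/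

theorem be_lam (P : Par s a e w) :
    be s a (s - a) = g (h0 + a) + (g (s - a) - g s + 1 - g (s - 2 * a)) := by
  have := P.s_lt
  have := P.ha
  have := h0_gt
  rw [be_eq1 P le_rfl (by linear_combination this + (‹s < 0.7362›) - (‹a = 1 / 25›)), show s - a - (h0 + s) = -(h0 + a) by ring, g_neg]

theorem be_h (P : Par s a e w) : be s a h0 = g (s - a) + 1 - g (s - 2 * a) := by
  have := P.s_lt
  have := P.ha
  have := h0_gt
  rw [be_eq1 P (by linear_combination this + (‹s < 0.7362›) - (‹a = 1 / 25›)) le_rfl, show h0 - (h0 + s) = -s by ring, g_neg]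
  ring

theorem be_ha (P : Par s a e w) : be s a (h0 + a) = 1 := by
  have := P.s_gt
  have := P.ha
  rw [be_eq3 P le_rfl (by linear_combination 2 * this + (‹0.6668 < s›)), sub_self, g_zero]

theorem be_va (P : Par s a e w) : be s a (h0 + s - a) = g (s - 2 * a) := by
  have := P.s_gt
  have := P.ha
  rw [be_eq3 P (by linear_combination 2 * this + (‹0.6668 < s›)) le_rfl, show h0 + s - a - (h0 + a) = s - 2 * a by ring]

theorem be_v (P : Par s a e w) : be s a (h0 + s) = g s + (g (s - 2 * a) - g (s - a)) := by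
  have := P.ha
  rw [be_eq4 P (by linear_combination -this) le_rfl, add_sub_cancel_left]

theorem be_y (P : Par s a e w) (h1 : s - a ≤ y) (h2 : y ≤ h0) :
    be s a y = g (h0 + s - y) + (g (s - a) - g s + 1 - g (s - 2 * a)) := by
  rw [be_eq1 P h1 h2, show y - (h0 + s) = -(h0 + s - y) by ring, g_neg]

theorem k3_lo (s a : ℝ) : (k3 s a).lo = 2 * h0 + a - 1 := by
  simp only [k3, Four.mirP, k2]
  ring

theorem k3_hi (s a : ℝ) : (k3 s a).hi = 2 * h0 + a := by
  simp only [k3, Four.mirP, k2]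
  ring

theorem k3_a (s a z : ℝ) : (k3 s a).a z = be s a (2 * h0 + s - z) := rfl

theorem k3_le1 : (k3 s a).a z ≤ g (z - h0) + (g (s - a) - g s + 1 - g (s - 2 * a)) := by
  have := be_le1 (s := s) (a := a) (z := 2 * h0 + s - z)
  rw [show 2 * h0 + s - z - (h0 + s) = -(z - h0) by ring, g_neg] at this
  exact this

theorem k3_le2 : (k3 s a).a z ≤ g (z - (h0 + a)) + (1 - g (s - 2 * a)) := by
  have := be_le2 (s := s) (a := a) (z := 2 * h0 + s - z)
  rw [show 2 * h0 + s - z - (h0 + s - a) = -(z - (h0 + a)) by ring, g_neg] at this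
  exact this

theorem k3_le3 : (k3 s a).a z ≤ g (z - (h0 + s - a)) + 0 := by
  have := be_le3 (s := s) (a := a) (z := 2 * h0 + s - z)
  rw [show 2 * h0 + s - z - (h0 + a) = -(z - (h0 + s - a)) by ring, g_neg] at this
  rw [add_zero]
  exact this

theorem k3_le4 : (k3 s a).a z ≤ g (z - (h0 + s)) + (g (s - 2 * a) - g (s - a)) := by
  have := be_le4 (s := s) (a := a) (z := 2 * h0 + s - z)
  rw [show 2 * h0 + s - z - h0 = -(z - (h0 + s)) by ring, g_neg] at this
  exact this

theorem k3_h (P : Par s a e w) : (k3 s a).a h0 = g s + (g (s - 2 * a) - g (s - a)) := by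
  rw [k3_a, show 2 * h0 + s - h0 = h0 + s by ring, be_v P]

theorem k3_ha (P : Par s a e w) : (k3 s a).a (h0 + a) = g (s - 2 * a) := by
  rw [k3_a, show 2 * h0 + s - (h0 + a) = h0 + s - a by ring, be_va P]

theorem k3_va (P : Par s a e w) : (k3 s a).a (h0 + s - a) = 1 := by
  rw [k3_a, show 2 * h0 + s - (h0 + s - a) = h0 + a by ring, be_ha P]

theorem k3_y (P : Par s a e w) (h1 : 2 * h0 + a - 1 ≤ y) (h2 : y ≤ h0) :
    (k3 s a).a y = g (2 * h0 + a - y) + (g s + (g (s - 2 * a) - g (s - a)) - g (h0 + a)) := by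
  rw [k3_a, be_eq5 P (by linear_combination h2) (by linear_combination h1),
    show 2 * h0 + s - y - (s - a) = 2 * h0 + a - y by ring]

/-- The arc with centre between `s - a` and `h0` which touches the second body at `h0 + s`. -/
theorem touch (P : Par s a e w) (h1 : s - a ≤ y) (h2 : y ≤ h0) (k1 : s - a ≤ z)
    (k2 : z ≤ s - a + 1) :
    be s a z ≤ g (z - y) + (g s + (g (s - 2 * a) - g (s - a)) - g (h0 + s - y)) := by
  have hh := h0_lt
  have hg := h0_gt
  have := P.s_lt
  have := P.s_gt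
  have := P.ha
  rcases le_total z (h0 + s) with h | h
  · have e1 := be_le4 (s := s) (a := a) (z := z)
    have e2 := arc_sub (a := y) (b := h0) (x := z) (y := h0 + s) h2 h (by linear_combination k1 + hh + this + (‹0.6668 < s›)) (by linear_combination h1 + hh + this)
    rw [add_sub_cancel_left] at e2
    linear_combination e1 + e2
  · have e1 := be_le5 (s := s) (a := a) (z := z)
    have e2 := arc_sub (a := s - a) (b := y) (x := h0 + s) (y := z) h1 h (by linear_combination h2 + (‹0.6668 < s›))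
      (by linear_combination k2)
    rw [show h0 + s - (s - a) = h0 + a by ring] at e2
    linear_combination e1 + e2

/-! ### The second probe -/

theorem g2_44 (P : Par s a e w) (h : Pq r p q b) (h1 : 11 / 25 ≤ y) (h2 : y ≤ h0) :
    g b - g (y + q - h0) - g (y + p - h0) + 2 * g (s - a) + 1 - 2 * g (s - 2 * a) ≤
      gn (k2 s a) r x y := by
  have hh := h0_lt
  have hg := h0_gt
  have := P.s_gt
  have := P.s_lt
  have := P.ha
  have := h.p1
  have := h.le
  apply h.two_ge (j := k2 s a) (C1 := h0) (α1 := g (s - 2 * a) - g (s - a)) (z1 := h0)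
    (b1 := g (s - a) + 1 - g (s - 2 * a)) (C2 := h0) (α2 := g (s - 2 * a) - g (s - a))
    (z2 := h0) (b2 := g (s - a) + 1 - g (s - 2 * a)) (k2_ok P) (fun z _ _ => be_le4)
    (fun z _ _ => be_le4)
  all_goals try simp only [k2]
  any_goals linarith
  · exact (be_h P).ge
  · exact (be_h P).ge

theorem g2_43 (P : Par s a e w) (h : Pq r p q b) (h1 : 11 / 25 ≤ y) (h2 : y ≤ h0) :
    g b - g (y + q - h0) - g (y + p - (h0 + a)) + g (s - a) + 1 - g (s - 2 * a) ≤
      gn (k2 s a) r x y := by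
  have hh := h0_lt
  have hg := h0_gt
  have := P.s_gt
  have := P.s_lt
  have := P.ha
  have := h.p1
  have := h.le
  apply h.two_ge (j := k2 s a) (C1 := h0 + a) (α1 := 0) (z1 := h0)
    (b1 := g (s - a) + 1 - g (s - 2 * a)) (C2 := h0) (α2 := g (s - 2 * a) - g (s - a))
    (z2 := h0 + a) (b2 := 1) (k2_ok P) (fun z _ _ => by rw [add_zero]; exact be_le3)
    (fun z _ _ => be_le4)
  all_goals try simp only [k2]
  any_goals linarith
  · exact (be_h P).ge
  · exact (be_ha P).ge

theorem g2_33 (P : Par s a e w) (h : Pq r p q b) (h1 : 11 / 25 ≤ y) (h2 : y ≤ h0) :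
    g b - g (y + q - (h0 + a)) - g (y + p - (h0 + a)) + 1 ≤ gn (k2 s a) r x y := by
  have hh := h0_lt
  have hg := h0_gt
  have := P.s_gt
  have := P.s_lt
  have := P.ha
  have := h.p1
  have := h.le
  apply h.two_ge (j := k2 s a) (C1 := h0 + a) (α1 := 0) (z1 := h0 + a) (b1 := 1)
    (C2 := h0 + a) (α2 := 0) (z2 := h0 + a) (b2 := 1) (k2_ok P)
    (fun z _ _ => by rw [add_zero]; exact be_le3) (fun z _ _ => by rw [add_zero]; exact be_le3)
  all_goals try simp only [k2]
  any_goals linarith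
  · exact (be_ha P).ge
  · exact (be_ha P).ge

theorem g2_53 (P : Par s a e w) (h : Pq r p q b) (h1 : 11 / 25 ≤ y) (h2 : y ≤ s - a) :
    g b - g (y + q - (s - a)) + g (h0 + a) - g s + g (s - a) - g (s - 2 * a) -
      g (y + p - (h0 + a)) + 1 ≤ gn (k2 s a) r x y := by
  have hh := h0_lt
  have hg := h0_gt
  have := P.s_gt
  have := P.s_lt
  have := P.ha
  have := h.p1
  have := h.le
  apply h.two_ge (j := k2 s a) (C1 := h0 + a) (α1 := 0) (z1 := s - a)
    (b1 := g (h0 + a) + (g (s - a) - g s + 1 - g (s - 2 * a))) (C2 := s - a)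
    (α2 := g s + (g (s - 2 * a) - g (s - a)) - g (h0 + a))
    (z2 := h0 + a) (b2 := 1) (k2_ok P) (fun z _ _ => by rw [add_zero]; exact be_le3)
    (fun z _ _ => be_le5)
  all_goals try simp only [k2]
  any_goals linarith
  · exact (be_lam P).ge
  · exact (be_ha P).ge

/-- The new front touches the second body at `h0 + s`, old contact at `z0`. -/
theorem g2_touch (P : Par s a e w) (h1 : s - a ≤ y) (h2 : y ≤ h0) {z0 β : ℝ}
    (h3 : y ≤ z0) (h4 : z0 ≤ y + 2 * r) (h5 : z0 ≤ s - a + 1) (hβ : β ≤ be s a z0) :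
    g (h0 + s - y) - (g s + (g (s - 2 * a) - g (s - a))) - g (y + r - z0) + g r + β ≤
      gn (k2 s a) r x y := by
  have h6 := le_gn (r := r) (q := x) (y := y) (z0 := z0)
    (v := g (h0 + s - y) - (g s + (g (s - 2 * a) - g (s - a)))) (k2_ok P)
    (by simp only [k2]; linear_combination h1 + h3) (by simp only [k2]; linear_combination h5)
    (by
      intro z k1 k2
      simp only [FourD.k2] at k1 k2 ⊢
      right
      have := touch P h1 h2 k1 k2
      linear_combination this)
  rw [gam_up h3 h4] at h6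
  simp only [k2] at h6 ⊢
  linear_combination hβ + h6

theorem g2_63 (P : Par s a e w) (h : Pq r p q b) (h1 : s - a ≤ y) (h2 : y ≤ h0) :
    g b - g q + g (h0 + s - y) - g s + g (s - a) - g (s - 2 * a) -
      g (y + p - (h0 + a)) + 1 ≤ gn (k2 s a) r x y := by
  have hh := h0_lt
  have hg := h0_gt
  have := P.s_gt
  have := P.s_lt
  have := P.ha
  have := h.p1
  have := h.le
  have hgpq := h.gpq
  rcases h.two with ⟨e1, e2⟩ | ⟨e1, e2⟩
  · have := gain_ge (q := x) (y := y) (C := h0 + a) (α := 0) (z0 := y) (β := be s a y)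
      (j := k2 s a) (k2_ok P) h.r1 h.r2 (by linear_combination h2 - (‹a = 1 / 25›)) (by rw [e1]; linear_combination h1 + hh + this + (‹0.6668 < s›) + 2 * (‹a = 1 / 25›) + (‹1 / 2 ≤ p›))
      (fun z _ _ => by rw [add_zero]; exact be_le3) (by simp only [k2]; linear_combination h1)
      (by simp only [k2]; linear_combination h2 + hh + (‹0.6668 < s›) + (‹a = 1 / 25›)) le_rfl (by rw [e1]; linear_combination 2 * this + 2 * (‹1 / 2 ≤ p›)) le_rfl
    rw [h.gb, e2, e1, be_y P h1 h2, add_sub_cancel_left] at this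
    rw [e1]
    linear_combination this
  · have := g2_touch (r := r) (x := x) P h1 h2 (z0 := h0 + a) (β := 1) (by linear_combination h2 - (‹a = 1 / 25›))
      (by rw [e1]; linear_combination h1 + hh + (‹0.6668 < s›) + 2 * (‹a = 1 / 25›) + 2 * (‹1 / 2 ≤ p›)) (by linear_combination hh + (‹0.6668 < s›) + 2 * (‹a = 1 / 25›)) (be_ha P).ge
    rw [e1] at this ⊢
    linear_combination -hgpq + this

theorem g2_64 (P : Par s a e w) (h : Pq r p q b) (h1 : s - a ≤ y) (h2 : y ≤ h0) :
    g b - g q + g (h0 + s - y) - g s + 2 * g (s - a) - 2 * g (s - 2 * a) -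
      g (y + p - h0) + 1 ≤ gn (k2 s a) r x y := by
  have hh := h0_lt
  have hg := h0_gt
  have := P.s_gt
  have := P.s_lt
  have := P.ha
  have := h.p1
  have := h.le
  have hgpq := h.gpq
  rcases h.two with ⟨e1, e2⟩ | ⟨e1, e2⟩
  · have := gain_ge (q := x) (y := y) (C := h0) (α := g (s - 2 * a) - g (s - a)) (z0 := y)
      (β := be s a y)
      (j := k2 s a) (k2_ok P) h.r1 h.r2 (by linear_combination h2) (by rw [e1]; linear_combination h1 + hh + this + (‹0.6668 < s›) + (‹a = 1 / 25›) + (‹1 / 2 ≤ p›))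
      (fun z _ _ => be_le4) (by simp only [k2]; linear_combination h1)
      (by simp only [k2]; linear_combination h2 + hh + (‹0.6668 < s›) + (‹a = 1 / 25›)) le_rfl (by rw [e1]; linear_combination 2 * this + 2 * (‹1 / 2 ≤ p›)) le_rfl
    rw [h.gb, e2, e1, be_y P h1 h2, add_sub_cancel_left] at this
    rw [e1]
    linear_combination this
  · have := g2_touch (r := r) (x := x) P h1 h2 (z0 := h0) (β := g (s - a) + 1 - g (s - 2 * a))
      (by linear_combination h2) (by rw [e1]; linear_combination h1 + hh + (‹0.6668 < s›) + (‹a = 1 / 25›) + 2 * (‹1 / 2 ≤ p›)) (by linear_combination hh + (‹0.6668 < s›) + (‹a = 1 / 25›)) (be_h P).ge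
    rw [e1] at this ⊢
    linear_combination -hgpq + this

theorem g2_66 (P : Par s a e w) (r1 : 1 / 2 ≤ r) (h1 : s - a ≤ y) (h2 : y ≤ h0) :
    2 * g (h0 + s - y) - 2 * g s + 2 * g (s - a) - 2 * g (s - 2 * a) + 1 ≤
      gn (k2 s a) r x y := by
  have hh := h0_lt
  have := P.s_gt
  have := P.ha
  have := g2_touch (r := r) (x := x) P h1 h2 (z0 := y) (β := be s a y) le_rfl
    (by linear_combination 2 * r1) (by linear_combination h2 + hh + this + (‹0.6668 < s›)) le_rfl
  rw [be_y P h1 h2, add_sub_cancel_left] at this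
  linear_combination this

/-! ### The third probe -/

theorem g3_11 (P : Par s a e w) (h : Pq r p q b) (h1 : 11 / 25 ≤ y) (h2 : y ≤ h0) :
    g b - g (y + q - (h0 + a)) - g (y + p - (h0 + a)) + 2 * g (s - 2 * a) - 1 ≤
      gn (k3 s a) r x y := by
  have hh := h0_lt
  have hg := h0_gt
  have := P.s_gt
  have := P.s_lt
  have := P.ha
  have := h.p1
  have := h.le
  apply h.two_ge (j := k3 s a) (C1 := h0 + a) (α1 := 1 - g (s - 2 * a)) (z1 := h0 + a)
    (b1 := g (s - 2 * a)) (C2 := h0 + a) (α2 := 1 - g (s - 2 * a))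
    (z2 := h0 + a) (b2 := g (s - 2 * a)) (k3_ok P) (fun z _ _ => k3_le2) (fun z _ _ => k3_le2)
  all_goals try rw [k3_lo]
  all_goals try rw [k3_hi]
  any_goals linarith
  · exact (k3_ha P).ge
  · exact (k3_ha P).ge

theorem g3_12 (P : Par s a e w) (h : Pq r p q b) (h1 : 11 / 25 ≤ y) (h2 : y ≤ h0)
    (h3 : h0 + s - a ≤ y + q) :
    g b - g (y + q - (h0 + a)) - g (h0 + s - a - (y + p)) + g (s - 2 * a) ≤
      gn (k3 s a) r x y := by
  have hh := h0_lt
  have hg := h0_gt
  have := P.s_gt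
  have := P.s_lt
  have := P.ha
  have := h.p1
  have := h.le
  have e3 : g (y + p - (h0 + s - a)) = g (h0 + s - a - (y + p)) := by rw [← g_neg, neg_sub]
  have := h.hp
  have := h.hq
  have := h.b1
  apply h.two_ge (j := k3 s a) (C1 := h0 + s - a) (α1 := 0) (z1 := h0 + a)
    (b1 := g (s - 2 * a)) (C2 := h0 + a) (α2 := 1 - g (s - 2 * a))
    (z2 := h0 + s - a) (b2 := 1) (k3_ok P) (fun z _ _ => k3_le3) (fun z _ _ => k3_le2)
  all_goals try rw [k3_lo]
  all_goals try rw [k3_hi]
  any_goals linarith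
  · exact (k3_ha P).ge
  · exact (k3_va P).ge

theorem g3_31 (P : Par s a e w) (h : Pq r p q b) (h1 : 11 / 25 ≤ y) (h2 : y ≤ h0) :
    g b - g (y + q - h0) + g s - g (s - a) - g (y + p - (h0 + a)) + 2 * g (s - 2 * a) - 1 ≤
      gn (k3 s a) r x y := by
  have hh := h0_lt
  have hg := h0_gt
  have := P.s_gt
  have := P.s_lt
  have := P.ha
  have := h.p1
  have := h.le
  apply h.two_ge (j := k3 s a) (C1 := h0 + a) (α1 := 1 - g (s - 2 * a)) (z1 := h0)
    (b1 := g s + (g (s - 2 * a) - g (s - a))) (C2 := h0)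
    (α2 := g (s - a) - g s + 1 - g (s - 2 * a))
    (z2 := h0 + a) (b2 := g (s - 2 * a)) (k3_ok P) (fun z _ _ => k3_le2) (fun z _ _ => k3_le1)
  all_goals try rw [k3_lo]
  all_goals try rw [k3_hi]
  any_goals linarith
  · exact (k3_h P).ge
  · exact (k3_ha P).ge

theorem g3_32 (P : Par s a e w) (h : Pq r p q b) (h1 : 11 / 25 ≤ y) (h2 : y ≤ h0)
    (h3 : h0 + s - a ≤ y + q) :
    g b - g (y + q - h0) + g s - g (s - a) - g (h0 + s - a - (y + p)) + g (s - 2 * a) ≤
      gn (k3 s a) r x y := by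
  have hh := h0_lt
  have hg := h0_gt
  have := P.s_gt
  have := P.s_lt
  have := P.ha
  have := h.p1
  have := h.le
  have e3 : g (y + p - (h0 + s - a)) = g (h0 + s - a - (y + p)) := by rw [← g_neg, neg_sub]
  have := h.hp
  have := h.hq
  have := h.b1
  apply h.two_ge (j := k3 s a) (C1 := h0 + s - a) (α1 := 0) (z1 := h0)
    (b1 := g s + (g (s - 2 * a) - g (s - a))) (C2 := h0)
    (α2 := g (s - a) - g s + 1 - g (s - 2 * a))
    (z2 := h0 + s - a) (b2 := 1) (k3_ok P) (fun z _ _ => k3_le3) (fun z _ _ => k3_le1)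
  all_goals try rw [k3_lo]
  all_goals try rw [k3_hi]
  any_goals linarith
  · exact (k3_h P).ge
  · exact (k3_va P).ge

theorem g3_33 (P : Par s a e w) (h : Pq r p q b) (h1 : 11 / 25 ≤ y) (h2 : y ≤ h0) :
    g b - g (y + q - h0) - g (y + p - h0) + 2 * g s - 2 * g (s - a) + 2 * g (s - 2 * a) - 1 ≤
      gn (k3 s a) r x y := by
  have hh := h0_lt
  have hg := h0_gt
  have := P.s_gt
  have := P.s_lt
  have := P.ha
  have := h.p1
  have := h.le
  apply h.two_ge (j := k3 s a) (C1 := h0) (α1 := g (s - a) - g s + 1 - g (s - 2 * a)) (z1 := h0)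
    (b1 := g s + (g (s - 2 * a) - g (s - a))) (C2 := h0)
    (α2 := g (s - a) - g s + 1 - g (s - 2 * a))
    (z2 := h0) (b2 := g s + (g (s - 2 * a) - g (s - a))) (k3_ok P) (fun z _ _ => k3_le1)
    (fun z _ _ => k3_le1)
  all_goals try rw [k3_lo]
  all_goals try rw [k3_hi]
  any_goals linarith
  · exact (k3_h P).ge
  · exact (k3_h P).ge

/-- The new point is above the lower end of the third probe. -/
theorem g3_7 (P : Par s a e w) (h : Pq r p q b) (h1 : 2 * h0 + a - 1 ≤ y) (h2 : y ≤ h0)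
    {C α z0 β v : ℝ}
    (hC : ∀ z, (k3 s a).a z ≤ g (z - C) + α) (c1 : h0 ≤ C) (c2 : C ≤ y + q) (l1 : h0 ≤ z0)
    (l2 : z0 ≤ h0 + s) (l3 : z0 ≤ y + 2 * p) (f1 : β ≤ (k3 s a).a z0)
    (v1 : v ≤ g b - (g (y + p - C) + α) - g q + g (2 * h0 + a - y) +
      (g s + (g (s - 2 * a) - g (s - a)) - g (h0 + a)))
    (v2 : v ≤ g p - g (y + p - z0) + β + g (2 * h0 + a - y) - g (h0 + a) -
      (g (s - a) - g s + 1 - g (s - 2 * a))) :
    v ≤ gn (k3 s a) r x y := by
  have hh := h0_lt
  have hg := h0_gt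
  have := P.s_gt
  have := P.s_lt
  have := P.ha
  have := h.p1
  have := h.le
  have := h.q1
  rcases h.two with ⟨e1, e2⟩ | ⟨e1, e2⟩
  · have := gain_ge (q := x) (y := y) (C := C) (α := α) (z0 := y) (β := (k3 s a).a y)
      (j := k3 s a) (k3_ok P) h.r1 h.r2 (by linear_combination h2 + c1) (by rw [e1]; linear_combination c2)
      (fun z _ _ => hC z) (by rw [k3_lo]; linear_combination h1)
      (by rw [k3_hi]; linear_combination h2 + hg - (‹a = 1 / 25›)) le_rfl (by rw [e1]; linear_combination 2 * h2 + 2 * c1 + 2 * c2) le_rfl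
    rw [h.gb, e2, e1, k3_y P h1 h2, add_sub_cancel_left] at this
    rw [e1]
    linear_combination v1 + this
  · have := gain_top (y := y) (r := r) (q := x) (C := h0)
      (α := g (s - a) - g s + 1 - g (s - 2 * a))
      (z0 := z0) (β := β) (j := k3 s a) (k3_ok P) h2 (by rw [k3_lo]; linear_combination hg - (‹a = 1 / 25›))
      (by rw [k3_hi]; linear_combination h1) (fun z _ _ => k3_le1) (by rw [k3_lo]; linear_combination h1 + h2 + l1)
      (by rw [k3_hi]; linear_combination l2 + hg + (‹s < 0.7362›) - (‹a = 1 / 25›)) (by linear_combination h2 + l1) (by rw [e1]; linear_combination l3) f1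
    rw [k3_hi, show 2 * h0 + a - h0 = h0 + a by ring] at this
    rw [e1] at this ⊢
    linear_combination v2 + this

theorem g3_71 (P : Par s a e w) (h : Pq r p q b) (h1 : 2 * h0 + a - 1 ≤ y) (h2 : y ≤ h0) :
    g b - g q + g (2 * h0 + a - y) - g (h0 + a) + g s - g (s - a) - g (y + p - (h0 + a)) +
      2 * g (s - 2 * a) - 1 ≤ gn (k3 s a) r x y := by
  have hh := h0_lt
  have hg := h0_gt
  have := P.s_gt
  have := P.s_lt
  have := P.ha
  have := h.p1
  have := h.le
  have := h.gpq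
  apply g3_7 P h h1 h2 (C := h0 + a) (α := 1 - g (s - 2 * a)) (z0 := h0 + a)
    (β := g (s - 2 * a)) (fun z => k3_le2)
  any_goals linarith
  exact (k3_ha P).ge

theorem g3_72 (P : Par s a e w) (h : Pq r p q b) (h1 : 2 * h0 + a - 1 ≤ y) (h2 : y ≤ h0) :
    g b - g q + g (2 * h0 + a - y) - g (h0 + a) + g s - g (s - a) - g (h0 + s - a - (y + p)) +
      g (s - 2 * a) ≤ gn (k3 s a) r x y := by
  have hh := h0_lt
  have hg := h0_gt
  have := P.s_gt
  have := P.s_lt
  have := P.ha
  have := h.p1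
  have := h.le
  have := h.q_ge
  have := h.gpq
  have e3 : g (y + p - (h0 + s - a)) = g (h0 + s - a - (y + p)) := by rw [← g_neg, neg_sub]
  apply g3_7 P h h1 h2 (C := h0 + s - a) (α := 0) (z0 := h0 + s - a)
    (β := 1) (fun z => k3_le3)
  any_goals linarith
  exact (k3_va P).ge

theorem g3_73 (P : Par s a e w) (h : Pq r p q b) (h1 : 2 * h0 + a - 1 ≤ y) (h2 : y ≤ h0) :
    g b - g q + g (2 * h0 + a - y) - g (h0 + a) + 2 * g s - 2 * g (s - a) - g (y + p - h0) +
      2 * g (s - 2 * a) - 1 ≤ gn (k3 s a) r x y := by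
  have hh := h0_lt
  have hg := h0_gt
  have := P.s_gt
  have := P.s_lt
  have := P.ha
  have := h.p1
  have := h.le
  have := h.gpq
  apply g3_7 P h h1 h2 (C := h0) (α := g (s - a) - g s + 1 - g (s - 2 * a)) (z0 := h0)
    (β := g s + (g (s - 2 * a) - g (s - a))) (fun z => k3_le1)
  any_goals linarith
  exact (k3_h P).ge

end

end Pool.Agent.Strip051.FourD
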