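import Pool.Agent.Strip051.FourD.Gains

/-! # Gains when the new point is between `h0` and `h0 + s / 2` -/

namespace Pool.Agent.Strip051.FourD

open Pool.Agent.StripNear Pool.Agent.StripSquare Pool.Agent.Strip051
open Pool.Agent.Strip051.Four (gn mirP mirP_ok mirP_gn mirP_val j1 j4 arc_sub le_gn
  gn_nonneg gain_ge ext_facts g_le_of_abs)

section

variable {s a e w z y r q x t : ℝ}

/-- The new front touches the probe at `z1`, old contact at the height of the new point. -/
theorem gain_flat {j : Probe} {H y r q z1 β : ℝ} (hj : j.Ok H) (h1 : j.lo ≤ y) (h2 : y ≤ j.hi)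
    (h : ∀ z, j.lo ≤ z → z ≤ j.hi → j.a z + (g (z1 - y) - β) ≤ g (z - y)) :
    g (z1 - y) - β + j.a y ≤ gn j r q y := by
  have h3 := le_gn (r := r) (q := q) (y := y) (z0 := y) (v := g (z1 - y) - β) hj h1 h2
    (fun z k1 k2 => Or.inr (h z k1 k2))
  rw [gam_at] at h3
  linear_combination h3

/-- The second probe, the new point in `[h0, h0 + a]`. -/
theorem hi2_a (P : Par s a e w) (h1 : h0 ≤ y) (h2 : y ≤ h0 + a) :
    2 * g (h0 + s - a - y) + 1 - 2 * g (s - 2 * a) ≤ gn (k2 s a) r q y := by
  have hh := h0_lt
  have hg := h0_gt
  have := P.s_gt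
  have := P.s_lt
  have := P.ha
  have h3 := gain_flat (r := r) (q := q) (y := y) (z1 := h0 + s - a) (β := g (s - 2 * a))
    (k2_ok P) (by simp only [k2]; linear_combination h1 + hg - this + (‹s < 0.7362›)) (by simp only [k2]; linear_combination h2 + hh + 2 * this + (‹0.6668 < s›))
    (by
      intro z k1 k2
      simp only [FourD.k2] at k1 k2 ⊢
      rcases le_total z (h0 + s - a) with k3 | k3
      · have e1 := arc_sub (a := y) (b := h0 + a) (x := z) (y := h0 + s - a) h2 k3
          (by linear_combination hh + 2 * this + k1 + (‹0.6668 < s›)) (by linear_combination h1 - this + (‹s < 0.7362›))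
        rw [show h0 + s - a - (h0 + a) = s - 2 * a by ring] at e1
        have e2 := be_le3 (s := s) (a := a) (z := z)
        linear_combination e1 + e2
      · have e1 := arc_sub (a := h0) (b := y) (x := h0 + s - a) (y := z) h1 k3
          (by linear_combination h2 + 2 * this + (‹0.6668 < s›)) (by linear_combination hg - this + k2 + (‹s < 0.7362›))
        rw [show h0 + s - a - h0 = s - a by ring] at e1
        have e2 := be_le4 (s := s) (a := a) (z := z)
        linear_combination e1 + e2)
  simp only [k2] at h3 ⊢
  rw [be_eq2 P h1 h2, show y - (h0 + s - a) = -(h0 + s - a - y) by ring, g_neg] at h3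
  linear_combination h3

/-- The second probe, the new point in `[h0 + a, h0 + s / 2]`. -/
theorem hi2_b (P : Par s a e w) (h1 : h0 + a ≤ y) (h2 : y ≤ h0 + s / 2) :
    2 * g (y - (h0 + a)) - 1 ≤ gn (k2 s a) r q y := by
  have hh := h0_lt
  have hg := h0_gt
  have := P.s_gt
  have := P.s_lt
  have := P.ha
  have h3 := gain_flat (r := r) (q := q) (y := y) (z1 := h0 + a) (β := 1)
    (k2_ok P) (by simp only [k2]; linear_combination h1 + hg - 2 * this + (‹s < 0.7362›)) (by simp only [k2]; linear_combination h1 + 2 * h2 + hh)
    (by
      intro z k1 k2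
      simp only [FourD.k2] at k1 k2 ⊢
      rcases le_total z (h0 + a) with k3 | k3
      · have e1 := arc_sub (a := y) (b := h0 + s - a) (x := z) (y := h0 + a) (by linear_combination h1 + 2 * h2) k3
          (by linear_combination hh + k1) (by linear_combination h1)
        rw [show h0 + a - (h0 + s - a) = -(s - 2 * a) by ring, g_neg] at e1
        have e2 := be_le2 (s := s) (a := a) (z := z)
        linear_combination e1 + e2
      · have e1 := arc_sub (a := h0 + a) (b := y) (x := h0 + a) (y := z) h1 k3
          (by linear_combination h2 - this + (1 / 2) * (‹s < 0.7362›)) (by linear_combination hg - 2 * this + k2 + (‹s < 0.7362›))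
        rw [sub_self, g_zero] at e1
        have e2 := be_le3 (s := s) (a := a) (z := z)
        linear_combination e1 + e2)
  simp only [k2] at h3 ⊢
  rw [be_eq3 P h1 (by linear_combination h1 + 2 * h2), show h0 + a - y = -(y - (h0 + a)) by ring, g_neg] at h3
  linear_combination h3

/-- The third probe, the new point in `[h0, h0 + a]`. -/
theorem hi3_a (P : Par s a e w) (h1 : h0 ≤ y) (h2 : y ≤ h0 + a) :
    2 * g (h0 + s - y) - 2 * g (s - a) + 2 * g (s - 2 * a) - 1 ≤ gn (k3 s a) r q y := by
  have hh := h0_lt
  have hg := h0_gt
  have := P.s_gt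
  have := P.s_lt
  have := P.ha
  have h3 := gain_flat (r := r) (q := q) (y := y) (z1 := h0 + s)
    (β := g (s - a) + 1 - g (s - 2 * a))
    (k3_ok P) (by rw [k3_lo]; linear_combination h1 + hh + this) (by rw [k3_hi]; linear_combination h2 + hg)
    (by
      intro z k1 k2
      rw [k3_lo] at k1
      rw [k3_hi] at k2
      rcases le_total z (h0 + s) with k3 | k3
      · have e1 := arc_sub (a := y) (b := h0 + a) (x := z) (y := h0 + s) h2 k3
          (by linear_combination hg + k1) (by linear_combination h1 + (‹s < 0.7362›))
        rw [show h0 + s - (h0 + a) = s - a by ring] at e1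
        have e2 := k3_le2 (s := s) (a := a) (z := z)
        linear_combination e1 + e2
      · have e1 := arc_sub (a := h0) (b := y) (x := h0 + s) (y := z) h1 k3
          (by linear_combination h2 + this + (‹0.6668 < s›)) (by linear_combination hh + this + k2)
        rw [add_sub_cancel_left] at e1
        have e2 := k3_le1 (s := s) (a := a) (z := z)
        linear_combination e1 + e2)
  rw [k3_a, be_eq4 P (by linear_combination h2) (by linear_combination h1),
    show 2 * h0 + s - y - h0 = h0 + s - y by ring] at h3
  linear_combination h3

/-- The third probe, the new point in `[h0 + a, h0 + s / 2]`. -/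
theorem hi3_b (P : Par s a e w) (h1 : h0 + a ≤ y) (h2 : y ≤ h0 + s / 2) :
    2 * g (h0 + s - a - y) - 1 ≤ gn (k3 s a) r q y := by
  have hh := h0_lt
  have hg := h0_gt
  have := P.s_gt
  have := P.s_lt
  have := P.ha
  have h3 := gain_flat (r := r) (q := q) (y := y) (z1 := h0 + s - a) (β := 1)
    (k3_ok P) (by rw [k3_lo]; linear_combination h1 + hh) (by rw [k3_hi]; linear_combination h2 + hg - this + (1 / 2) * (‹s < 0.7362›))
    (by
      intro z k1 k2
      rw [k3_lo] at k1
      rw [k3_hi] at k2
      rcases le_total z (h0 + s - a) with k3 | k3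
      · have e1 := arc_sub (a := y) (b := h0 + s - a) (x := z) (y := h0 + s - a) (by linear_combination h1 + 2 * h2) k3
          (by linear_combination hg - 2 * this + k1 + (‹s < 0.7362›)) (by linear_combination h1 - 2 * this + (‹s < 0.7362›))
        rw [sub_self, g_zero] at e1
        have e2 := k3_le3 (s := s) (a := a) (z := z)
        linear_combination e1 + e2
      · have e1 := arc_sub (a := h0 + a) (b := y) (x := h0 + s - a) (y := z) h1 k3
          (by linear_combination h1 + 2 * h2) (by linear_combination hh + k2)
        rw [show h0 + s - a - (h0 + a) = s - 2 * a by ring] at e1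
        have e2 := k3_le2 (s := s) (a := a) (z := z)
        linear_combination e1 + e2)
  rw [k3_a, be_eq3 P (by linear_combination h1 + 2 * h2) (by linear_combination h1),
    show 2 * h0 + s - y - (h0 + a) = h0 + s - a - y by ring] at h3
  linear_combination h3

/-- The lower wall probe and a virtual disc whose centre is not above its end. -/
theorem hi1 {H : ℝ} (hj : (j1 t).Ok H) (ht : 0 ≤ t) (h1 : t < y) (hq0 : 1 / 2 ≤ q)
    (hq1 : q ≤ 1) (hq : y - q ≤ t) (ht1 : t ≤ 1) :
    1 + g q + g (ext q) - g (q - (y - t)) - g (ext q - (y - t)) ≤ gn (j1 t) r q y := by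
  obtain ⟨a1, a2, a3, a4, a5, a6⟩ := ext_spec hq0 hq1
  have a7 := ext_meet hq0 hq1
  have a8 : q / 2 + h0 * g q = ext q := rfl
  rw [a8] at a5 a6 a7
  have h3 := le_gn (r := r) (q := q) (y := y) (z0 := t) (v := g (ext q) - g (y - ext q - t))
    hj ht le_rfl
    (by
      intro z k1 k2
      simp only [j1] at k1 k2 ⊢
      rcases le_total (y - ext q) z with k3 | k3
      · right
        have e1 := arc_sub (a := t) (b := y) (x := y - ext q) (y := z) h1.le k3
          (by linear_combination a6) (by linear_combination k2)
        rw [show y - ext q - y = -ext q by ring, g_neg] at e1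
        linear_combination e1
      · left
        have e1 := arc_sub (a := y - q) (b := t) (x := z) (y := y - ext q) hq k3
          (by linear_combination ht1 + k1) (by linear_combination hq1 + a5)
        rw [show y - ext q - (y - q) = q - ext q by ring] at e1
        have e2 : g (z - (y - q)) - g q ≤ gam r q (z - y) := by
          unfold gam
          rw [if_neg (by exact not_le.mpr (by linear_combination h1 + k2))]
          unfold vir
          refine le_trans ?_ (le_max_right _ _)
          rw [show -(z - y) - q = -(z - (y - q)) by ring, g_neg]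
        linear_combination -a7 + e1 + e2)
  have e3 : gam r q (t - y) ≤ g (q - (y - t)) - g q := by
    unfold gam
    rw [if_neg (by exact not_le.mpr (by linear_combination h1))]
    unfold vir
    rw [show -(t - y) - q = -(q - (y - t)) by ring, g_neg]
    apply max_le _ le_rfl
    have : g q ≤ g (q - (y - t)) := g_anti (by linear_combination hq) (by linear_combination h1)
    linear_combination this
  simp only [j1, sub_self, g_zero] at h3
  rw [show y - ext q - t = -(ext q - (y - t)) by ring, g_neg] at h3
  simp only [j1]
  linear_combination e3 + h3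

end

end Pool.Agent.Strip051.FourD
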