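import Pool.Agent.Strip051.FourD.Sums
import Pool.Agent.Strip051.FourD.Corner
import Pool.Agent.Strip051.FourD.BoxDa
import Pool.Agent.Strip051.FourD.BoxUa
import Pool.Agent.Strip051.FourD.BoxE
import Pool.Agent.Strip051.FourD.BoxH
import Pool.Agent.Strip051.FourD.BoxW1
import Pool.Agent.Strip051.FourD.BoxW2
import Pool.Agent.Strip051.FourD.BoxW3

/-! # The count for `(77 / 100) h0 ≤ s ≤ (17 / 20) h0` -/

namespace Pool.Agent.Strip051.FourD

open Pool.Agent.StripNear Pool.Agent.StripSquare Pool.Agent.Strip051
open Pool.Agent.Strip051.Four (gn gn_nonneg j1)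
open Pool.Agent.Strip051.Four.Low (ph ph_mono ph_nonneg ph_neg ph_hi2' h0_hi h0_lo)
open Pool.Agent.Strip051.FourB (sec_num)

section

variable {s a e w y r x p q b k : ℝ}

theorem lowA (P : Par s a e w) : LowA s a e := by
  intro y r hy1 hy2 r1 r2
  obtain ⟨p, q, b, h⟩ := pq_exists r1 r2
  obtain ⟨k, K⟩ := kk_exists h
  have s0 := P.s_gt
  have s1 := P.s_lt
  have he0 := P.e_gt
  have he := P.he
  have hl := h0_lo
  have hh := h0_hi
  have b0 := h.b0
  have b1 := h.b1
  have y0 : 11 / 25 ≤ y := by linear_combination hy1 + he0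
  have yh : y ≤ h0 := by linear_combination hy2 + 2 * s1 + he0 + he
  have tgt : 2 * (1 + g s - 2 * g y) = 4 * ph y - 2 * ph s := by
    unfold Four.Low.ph
    ring
  rw [tgt]
  rcases le_total (y - k + b / 2) s with hz | hz
  · -- the exit is below the top
    obtain ⟨u, hu⟩ : ∃ u, u = s - (y - k + b / 2) := ⟨_, rfl⟩
    have u0 : 0 ≤ u := by linear_combination hz - hu
    have u1 : u ≤ 67 / 500 := by linear_combination K.kb + hy1 - he + hl + hu
    rcases le_total b (1 / 25) with hb | hb
    · rcases le_total u (1 / 50) with hu1 | hu1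
      · have c := c4411 (x := y) P h K y0 yh
        have D := cD (s := s) (y := y) (u := u) (b := b) (k := k) (by linear_combination s0) (by linear_combination s1)
          K.k3 K.k2 b0 hb u0 hu1 hy2 (by linear_combination hu)
        unfold Db1 at D
        linear_combination c + D
      · have c := c4411 (x := y) P h K y0 yh
        have c' := c33 (x := y) P h K y0 yh
        rcases bdb0 (s := s) (y := y) (u := u) (b := b) (k := k) ⟨K.k1, K.k2, K.k3, K.k4,
          by linear_combination hu, by linear_combination -hu, by linear_combination hy1 - he + hl, by linear_combination s0, by linear_combination s1, hu1, u1, b0, hb⟩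
          (by linear_combination s0) (by linear_combination s1) hu1 u1 b0 hb with D | D
        · unfold Db1 at D
          linear_combination c + D
        · unfold Db3 at D
          linear_combination c' + D
    · have c' := c33 (x := y) P h K y0 yh
      rcases bda0 (s := s) (y := y) (u := u) (b := b) (k := k) ⟨K.k1, K.k2, K.k3, K.k4,
        by linear_combination hu, by linear_combination -hu, by linear_combination hy1 - he + hl, by linear_combination s0, by linear_combination s1, u0, u1, hb, b1⟩
        (by linear_combination s0) (by linear_combination s1) u0 u1 hb b1 with ⟨D1, D⟩ | D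
      · have c := c4312 (x := y) P h K y0 yh D1
        unfold Da2 at D
        linear_combination D + c
      · unfold Da3 at D
        linear_combination c' + D
  · -- the exit is above the top
    obtain ⟨u, hu⟩ : ∃ u, u = y - k + b / 2 - s := ⟨_, rfl⟩
    have u0 : 0 ≤ u := by linear_combination hz - hu
    have u1 : u ≤ 67 / 500 := by linear_combination K.hq1 + hy2 + hl + hu
    rcases le_total y (s - 1 / 25) with hy | hy
    · have c := c5332 (x := y) P h K y0 hy (by linear_combination hz)
      have hb : 1 / 25 ≤ b := by linear_combination 2 * K.k3 + 2 * hz + 2 * hy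
      have D := bua0 (s := s) (y := y) (u := u) (b := b) (k := k) ⟨K.k1, K.k2, K.k3, K.k4,
        hl, hh, by linear_combination hu, by linear_combination -hu, hy, by linear_combination K.hq1 + hu + hy, by linear_combination s0, by linear_combination s1,
        u0, u1, hb, b1⟩
        (by linear_combination s0) (by linear_combination s1) u0 u1 hb b1
      unfold Ua at D
      rw [← hu] at c
      linear_combination c + D
    · have c := c6431 (x := y) P h K hy yh
      rcases le_total b (3 / 100) with hb | hb
      · have D := cU (s := s) (y := y) (u := u) (b := b) (k := k) hl hh (by linear_combination s0)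
          (by linear_combination s1) K.k3 K.k2 b0 hb u0 hy2 (by linear_combination hu)
        unfold Ub1 at D
        linear_combination c + D
      · have c' := c6332 (x := y) P h K hy yh (by linear_combination hz)
        rcases bub0 (s := s) (y := y) (u := u) (b := b) (k := k) ⟨K.k1, K.k2, K.k3, K.k4,
          hl, hh, by linear_combination hu, by linear_combination -hu, hy, hy2, K.hq1, by linear_combination s0, by linear_combination s1,
          u0, u1, hb, b1⟩
          (by linear_combination s0) (by linear_combination s1) u0 u1 hb b1 with D | D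
        · unfold Ub1 at D
          linear_combination c + D
        · unfold Ub2 at D
          linear_combination c' + D

theorem midB (P : Par s a e w) : MidB s a := by
  intro y r hy1 hy2 r1 r2
  obtain ⟨p, q, b, h⟩ := pq_exists r1 r2
  obtain ⟨k, K⟩ := kk_exists h
  have s0 := P.s_gt
  have s1 := P.s_lt
  have hl := h0_lo
  have hh := h0_hi
  have b0 := h.b0
  have b1 := h.b1
  have tgt : 2 * (1 + g s - 2 * g y) = 4 * ph y - 2 * ph s := by
    unfold Four.Low.ph
    ring
  rw [tgt]
  have c1 := c6633 (x := y) P h K (by linear_combination hy1) hy2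
  have c2 := c6431 (x := y) P h K (by linear_combination hy1) hy2
  have c3 := c6332 (x := y) P h K (by linear_combination hy1) hy2 (by linear_combination K.hq + h.q_ge + hy1)
  rcases le_total y (h0 - 15 / 1000) with hy | hy
  · obtain ⟨d, hd⟩ : ∃ d, d = y - s := ⟨_, rfl⟩
    have d0 : 0 ≤ d := by linear_combination hy1 - hd
    have d1 : d ≤ 1843 / 10000 := by linear_combination s0 + hh + hy + hd
    rcases le_total d (1 / 50) with hd1 | hd1
    · rcases le_total b (1 / 50) with hb | hb
      · rcases cM (s := s) (y := y) (b := b) (k := k) (d := d) hl hh (by linear_combination s0)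
          (by linear_combination s1) ph_h0 K.k3 K.k2 b0 hb d0 hd1 (by linear_combination -hd) with D | D
        · unfold MaM1 at D
          linear_combination c1 + D
        · unfold MaM2 at D
          linear_combination c2 + D
      · rcases bmb0 (s := s) (y := y) (d := d) (b := b) (k := k) ⟨K.k1, K.k2, K.k3, K.k4,
          hl, hh, by linear_combination hd, by linear_combination -hd, hy, K.hq1, by linear_combination s0, by linear_combination s1, d0, hd1,
          hb, b1⟩ (by linear_combination s0) (by linear_combination s1) d0 hd1 hb b1 with D | D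
        · unfold MbM2 at D
          linear_combination c2 + D
        · unfold MbM3 at D
          linear_combination c3 + D
    · rcases bma0 (s := s) (y := y) (d := d) (b := b) (k := k) ⟨K.k1, K.k2, K.k3, K.k4,
        hl, hh, by linear_combination hd, by linear_combination -hd, hy, K.hq1, by linear_combination s0, by linear_combination s1, hd1, d1,
        b0, b1⟩ (by linear_combination s0) (by linear_combination s1) hd1 d1 b0 b1 with D | D | D | ⟨D1, D⟩
      · unfold MaM1 at D
        linear_combination c1 + D
      · unfold MaM2 at D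
        linear_combination c2 + D
      · unfold MaM3 at D
        linear_combination c3 + D
      · have c4 := c6673 (x := y) P h K (by linear_combination hy1) hy2 D1
        unfold MaN1 at D
        linear_combination D + c4
  · have c4 := c6673 (x := y) P h K (by linear_combination hy1) hy2 (by linear_combination hh + hy)
    obtain ⟨t, ht⟩ : ∃ t, t = h0 - y := ⟨_, rfl⟩
    have hy' : y = h0 - t := by linear_combination ht
    have hD := cH (s := s) (b := b) (t := t) (q := q) (p := p) hl hh (by linear_combination s0)
      (by linear_combination s1) ph_h0 K.hpq h.p1 (by rw [K.hp]; linear_combination K.k3 + (1 / 2) * b0) h.q_ge h.q1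
      (by linear_combination hy2 - ht) (by linear_combination hy + ht)
    have f1 : p - t = y - k - b / 2 := by rw [K.hp, hy']; ring
    have f2 : q - t = y - k + b / 2 := by rw [K.hq, hy']; ring
    have f3 : s + t = h0 + s - y := by rw [hy']; ring
    have f4 : h0 + 1 / 25 + t = 2 * h0 + 1 / 25 - y := by rw [hy']; ring
    rw [← hy', f1, f2, f3, f4, K.hq] at hD
    rcases hD with D | D
    · linear_combination c1 + D
    · linear_combination c4 + D

/-- The weight is at most `83 / 50`. -/
theorem w_le (P : Par s a e w) : w ≤ 83 / 50 := by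
  have hl := h0_lo
  have hh := h0_hi
  have s0 := P.s_gt
  have s1 := P.s_lt
  have he := P.he
  have he0 := P.ge_lt
  have D := bw1x0 (s := s) ⟨hl, hh, by linear_combination s0, by linear_combination s1⟩ (by linear_combination s0) (by linear_combination s1)
  have hw := P.hw
  unfold W1 Four.Low.ph at D
  rw [← he] at D
  by_contra hcon
  push Not at hcon
  exact absurd D (not_le.mpr (by linear_combination hw + (3 / 20) * hcon + (mul_nonneg (sub_nonneg.mpr he0) (sub_nonneg.mpr (le_of_lt hcon)))))

/-- The weight is at least `159 / 100`. -/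
theorem w_ge (P : Par s a e w) : 159 / 100 ≤ w := by
  have hl := h0_lo
  have hh := h0_hi
  have s0 := P.s_gt
  have s1 := P.s_lt
  have he := P.he
  have he0 := P.ge_lt
  have D := bw2x0 (s := s) ⟨hl, hh, by linear_combination s0, by linear_combination s1⟩ (by linear_combination s0) (by linear_combination s1)
  have hw := P.hw
  unfold W2 Four.Low.ph at D
  rw [← he] at D
  by_contra hcon
  push Not at hcon
  exact absurd D (not_le.mpr (by linear_combination -hw + (3 / 20) * hcon + (mul_nonneg (sub_nonneg.mpr he0) (sub_nonneg.mpr (le_of_lt hcon)))))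

/-- The unit arc is concave. -/
theorem ph_convex {u v l : ℝ} (hu : u ^ 2 ≤ 1) (hv : v ^ 2 ≤ 1) (h0 : 0 ≤ l) (h1 : l ≤ 1) :
    ph ((1 - l) * u + l * v) ≤ (1 - l) * ph u + l * ph v := by
  have gu := g_sq hu
  have gv := g_sq hv
  have nu := g_nonneg u
  have nv := g_nonneg v
  have key : (1 - l) * g u + l * g v ≤ g ((1 - l) * u + l * v) := by
    apply Real.le_sqrt_of_sq_le
    have e1 : g u * g v + u * v ≤ 1 := by linear_combination (1 / 2) * (sq_nonneg (g u - g v)) + (1 / 2) * (sq_nonneg (u - v)) +
      (1 / 2) * gu + (1 / 2) * gv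
    have e2 := mul_le_mul_of_nonneg_left e1 (mul_nonneg h0 (sub_nonneg.2 h1))
    have e3 : (1 - l) ^ 2 * g u ^ 2 = (1 - l) ^ 2 * (1 - u ^ 2) := by rw [gu]
    have e4 : l ^ 2 * g v ^ 2 = l ^ 2 * (1 - v ^ 2) := by rw [gv]
    have e5 : 1 - ((1 - l) * u + l * v) ^ 2 - ((1 - l) * g u + l * g v) ^ 2 =
        2 * (l * (1 - l) * 1 - l * (1 - l) * (g u * g v + u * v)) := by
      linear_combination (-1 : ℝ) * e3 - e4
    linear_combination 2 * e2 + e3 + e4
  unfold Four.Low.ph
  linear_combination key

theorem lowE (P : Par s a e w) : LowE s a e w := by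
  intro y r hy1 hy2 r1 r2
  have s0 := P.s_gt
  have s1 := P.s_lt
  have he := P.he
  have he0 := P.e_gt
  have he1 := P.e_lt
  have hl := h0_lo
  have hh := h0_hi
  have hw1 := w_le P
  have hw0 := w_ge P
  have hw : w * ph e = ph s := by
    have := P.hw
    unfold Four.Low.ph
    linear_combination this
  have hey := ph_nonneg (e - y)
  have J : 0 ≤ ph (e - y) + ph e - ph y := by
    have := ph_mono hy1 hy2
    linear_combination hey + this
  -- the claim in terms of `ph`
  suffices hs : 4 * ph y - 2 * ph s + w * (ph (e - y) + ph e - ph y) ≤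
      gn (k2 s a) r y y + gn (k3 s a) r y y by
    unfold Four.Low.ph at hs hw
    linear_combination -2 * hw + 2 * hs
  rcases le_total y (11 / 25) with hy | hy
  · have n2 : 0 ≤ gn (k2 s a) r y y := gn_nonneg (k2_ok P)
    have n3 : 0 ≤ gn (k3 s a) r y y := gn_nonneg (k3_ok P)
    have D := bw3x0 (s := s) ⟨hl, hh, by linear_combination s0, by linear_combination s1⟩ (by linear_combination s0) (by linear_combination s1)
    unfold W3 at D
    rw [← he] at D
    obtain ⟨l, hly⟩ : ∃ l, l = y / (11 / 25) := ⟨_, rfl⟩
    have l0 : 0 ≤ l := by rw [hly]; positivity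
    have l1 : l ≤ 1 := by rw [hly, div_le_one (by norm_num)]; exact hy
    have hy' : y = l * (11 / 25) := by rw [hly]; field_simp
    have A1 := ph_convex (u := 0) (v := 11 / 25) (l := l) (by norm_num) (by norm_num) l0 l1
    have A2 := ph_convex (u := e) (v := e - 11 / 25) (l := l) (by linear_combination (6023 / 10000) * s1 + (6023 / 10000) * he + (6023 / 10000) * hh +
      (mul_nonneg (sub_nonneg.mpr hy1) (sub_nonneg.mpr (le_of_lt he1))) + (mul_nonneg (sub_nonneg.mpr hy2) (sub_nonneg.mpr (le_of_lt he1)))) (by linear_combination (2777 / 10000) * he0 + (mul_nonneg (sub_nonneg.mpr hy1) (sub_nonneg.mpr (le_of_lt he1))) +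
      (mul_nonneg (sub_nonneg.mpr hy2) (sub_nonneg.mpr (le_of_lt he1)))) l0 l1
    rw [show (1 - l) * 0 + l * (11 / 25) = y by rw [hy']; ring, Four.Low.ph_zero] at A1
    rw [show (1 - l) * e + l * (e - 11 / 25) = e - y by rw [hy']; ring] at A2
    have J2 : 0 ≤ ph (e - 11 / 25) + ph e - ph (11 / 25) := by
      have := ph_mono (a := 11 / 25) (b := e) (by norm_num) (by linear_combination he0)
      have := ph_nonneg (e - 11 / 25)
      linear_combination this + (‹ph (11 / 25) ≤ ph e›)
    have B1 := mul_le_mul_of_nonneg_right hw1 J2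
    have B2 : 4 * ph (11 / 25) - 2 * ph s +
        w * (ph (e - 11 / 25) + ph e - ph (11 / 25)) ≤ 0 := by
      linear_combination D + B1
    have B3 := mul_le_mul_of_nonneg_left B2 l0
    have C1 : (4 - w) * ph y ≤ (4 - w) * ((1 - l) * 0 + l * ph (11 / 25)) :=
      mul_le_mul_of_nonneg_left A1 (by linear_combination hw1)
    have C2 : w * ph (e - y) ≤ w * ((1 - l) * ph e + l * ph (e - 11 / 25)) :=
      mul_le_mul_of_nonneg_left A2 (by linear_combination hw0)
    have C3 : l * (w * ph e) = l * ph s := by rw [hw]
    linear_combination 2 * hw + n2 + n3 + B3 + C1 + C2 - 2 * C3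
  · obtain ⟨p, q, b, h⟩ := pq_exists r1 r2
    obtain ⟨k, K⟩ := kk_exists h
    have yh : y ≤ h0 := by linear_combination hy2 + s1 + he
    have B1 := mul_le_mul_of_nonneg_right hw1 J
    have c' := c33 (x := y) P h K hy yh
    rcases be0 (s := s) (y := y) (b := b) (k := k) ⟨K.k1, K.k2, K.k3, K.k4, hl, hh,
      by linear_combination hy2 + he, by linear_combination s0, by linear_combination s1, hy, by linear_combination hy2 + he1, h.b0, h.b1⟩ (by linear_combination s0)
      (by linear_combination s1) hy (by linear_combination hy2 + he1) h.b0 h.b1 with ⟨D1, D⟩ | D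
    · have c := c4312 (x := y) P h K hy yh D1
      unfold E2 at D
      rw [← he] at D
      linear_combination B1 + D + c
    · unfold E3 at D
      rw [← he] at D
      linear_combination B1 + c' + D

/-- The bound for `y` close to `h0`. -/
theorem high_near {t : ℝ} (P : Par s a e w) (K : Kk b p q k) (b0 : 0 ≤ b) (b1 : b ≤ 1 / 2)
    (t0 : 0 ≤ t) (t1 : t ≤ 1 / 25) (hbt : b / 2 - k ≤ t) :
    0 ≤ 2 * ph s - 4 * ph (s - 1 / 25 - t) - 4 * ph (s - t) + 4 * ph (s - 1 / 25) +
      w * (ph (e - t - k + b / 2) + ph (e - t - k - b / 2) - ph b) ∧ b ≤ 1 / 10 := by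
  have s0 := P.s_gt
  have s1 := P.s_lt
  have he0 := P.e_gt
  have he1 := P.e_lt
  have hw1 := w_le P
  have hw0 := w_ge P
  have hw : w * ph e = ph s := by
    have := P.hw
    unfold Four.Low.ph
    linear_combination this
  have f0 := ph_nonneg b
  have hb : b ≤ 1 / 10 := by
    by_contra hcon
    push Not at hcon
    have h1 : ph b ≤ 134 / 250 * b ^ 2 := by
      have h2 := Four.Low.ph_quad (x := b) (by linear_combination (1 / 2) * b1 + (mul_nonneg (sub_nonneg.mpr b0) (sub_nonneg.mpr b1)))
      have h3 : ph b ≤ 134 / 1000 := by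
        have h4 := ph_mono b0 b1
        have h5 : ph (1 / 2) ≤ 134 / 1000 := by
          unfold Four.Low.ph
          have : (866 / 1000 : ℝ) ≤ g (1 / 2) := by
            unfold g
            apply Real.le_sqrt_of_sq_le
            norm_num
          linear_combination this
        linear_combination h4 + h5
      linear_combination (11 / 116625) * (sq_nonneg (b)) + (1 / 2) * h2 + (250 / 933) * (mul_nonneg (sub_nonneg.mpr (sq_nonneg (b))) (sub_nonneg.mpr h3)) +
        (250 / 933) * (mul_nonneg (sub_nonneg.mpr (sq_nonneg (ph b))) (sub_nonneg.mpr h3)) +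
        (250 / 933) * (mul_nonneg (sub_nonneg.mpr f0) (sub_nonneg.mpr (le_of_eq h2)))
    exact absurd h1 (not_le.mpr (by linear_combination (100000 / 86603) * K.k2 + (100000 / 86603) * t1 + (100000 / 86603) * hbt + (288460742000 / 580032166197) * hcon + (777521734 / 837199875) * (mul_nonneg (sub_nonneg.mpr (sq_nonneg (b))) (sub_nonneg.mpr b1)) + (13400000 / 6697599) * (mul_nonneg (sub_nonneg.mpr K.k2) (sub_nonneg.mpr b0)) + (13400000 / 6697599) * (mul_nonneg (sub_nonneg.mpr b0) (sub_nonneg.mpr t1)) + (13400000 / 6697599) * (mul_nonneg (sub_nonneg.mpr b0) (sub_nonneg.mpr hbt)) + (11604802 / 6697599) * (mul_nonneg (sub_nonneg.mpr b0) (sub_nonneg.mpr h1))))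
  refine ⟨?_, hb⟩
  have fb : ph b ≤ 5061 / 10000 * b ^ 2 := ph_hi2' (by linear_combination (1 / 10) * hb + (mul_nonneg (sub_nonneg.mpr b0) (sub_nonneg.mpr hb)))
  have bb : b ^ 2 ≤ 1 / 10 * b := by linear_combination (mul_nonneg (sub_nonneg.mpr b0) (sub_nonneg.mpr hb))
  have hk : k ≤ 44 / 1000 * b := by linear_combination K.k2 + (1702217 / 10000000000) * b0 + (86603 / 100000) * fb + (438297783 / 1000000000) * bb
  have hbt2 : b ≤ 22 / 10 * t := by linear_combination (2 / 285) * t0 + (125 / 57) * hbt + (125 / 57) * hk
  have hk0 := K.k3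
  have A1 := inc_lo (x := s - 1 / 25 - t) (d := t) (x0 := 58 / 100) (G := 8147 / 10000)
    (K := 7 / 10) (by norm_num) (by linear_combination t1 + s0) t0 (by linear_combination s1) (by linear_combination t0 + s1)
    (by norm_num) (by norm_num) (by norm_num) (by norm_num)
  have A2 := inc_lo (x := s - t) (d := t) (x0 := 62 / 100) (G := 7847 / 10000)
    (K := 79 / 100) (by norm_num) (by linear_combination t1 + s0) t0 (by linear_combination s1) (by linear_combination t0 + s1)
    (by norm_num) (by norm_num) (by norm_num) (by norm_num)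
  rw [show s - 1 / 25 - t + t = s - 1 / 25 by ring] at A1
  rw [show s - t + t = s by ring] at A2
  have A3 := sec_num (v := e - t - k - b / 2) (x := b / 2) (a := b / 2) (v0 := 0) (G := 1)
    (q := 0) (by norm_num) (by linear_combination t1 + he0 + (68 / 125) * hb + hk) (by linear_combination (1 / 2) * b0) (by linear_combination (1 / 2) * b0) (by linear_combination hbt + he1) (by norm_num)
    (by norm_num) (by norm_num)
  rw [show e - t - k - b / 2 + b / 2 + b / 2 = e - t - k + b / 2 by ring,
    show e - t - k - b / 2 + b / 2 = e - t - k by ring] at A3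
  have A4 := inc_up (x := e - t - k) (d := t + k) (x0 := 6023 / 10000) (G := 798 / 1000)
    (K := 755 / 1000) (by linear_combination t1 + he0 + (11 / 250) * hb + hk) (by linear_combination (1 / 2) * b0 + hbt)
    (by linear_combination he1) (by norm_num) (by norm_num) (by norm_num) (by norm_num) (by norm_num)
  rw [show e - t - k + (t + k) = e by ring] at A4
  have Z : 2 * ph e - 2 * t ≤
      ph (e - t - k + b / 2) + ph (e - t - k - b / 2) - ph b := by linear_combination (10639 / 100000) * b0 + (49 / 100) * hbt + fb + (5061 / 10000) * bb +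
        2 * hk + A3 + 2 * A4
  have B := mul_le_mul_of_nonneg_left Z (by linear_combination hw0 : 0 ≤ w)
  have B2 : w * t ≤ 83 / 50 * t := mul_le_mul_of_nonneg_right hw1 t0
  linear_combination (3762 / 3125) * b0 + (66 / 25) * hbt - 2 * hw + (66 / 25) * hk +
    4 * A1 + 4 * A2 + B + 2 * B2

theorem highC (P : Par s a e w) : HighC s a e w := by
  intro y r q0 hy1 hy2 r1 r2 q1 q2 q3 q4
  obtain ⟨p, q, b, h⟩ := pq_exists q1 q2
  obtain ⟨k, K⟩ := kk_exists h
  have s0 := P.s_gt
  have s1 := P.s_lt
  have he := P.he
  have he0 := P.e_gt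
  have he1 := P.e_lt
  have hl := h0_lo
  have hh := h0_hi
  have b0 := h.b0
  have b1 := h.b1
  have hw1 := w_le P
  have hw0 := w_ge P
  have ha := P.ha
  have hqy : q ≤ y := by
    rcases h.two with ⟨e1, e2⟩ | ⟨e1, e2⟩
    · rw [← e1]; exact q3
    · rw [← e2]; exact q4
  obtain ⟨t, ht⟩ : ∃ t, t = y - h0 := ⟨_, rfl⟩
  have t0 : 0 ≤ t := by linear_combination hy1 - ht
  have hbt : b / 2 - k ≤ t := by linear_combination -K.hq + hqy - ht
  have n1 : 0 ≤ gn (j1 e) r q0 y := gn_nonneg (j1_ok P)
  have hwn : 0 ≤ w * gn (j1 e) r q0 y := mul_nonneg (by linear_combination hw0) n1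
  have hf : t + k + b / 2 ≤ e →
      ph (e - t - k + b / 2) + ph (e - t - k - b / 2) - ph b ≤ gn (j1 e) r q0 y := by
    intro hc
    have hpq := h.gpq
    have hple := h.le
    have hpe := K.hp
    have hqe := K.hq
    have A := hi1 (r := r) (j1_ok P) (by linear_combination he0) (by linear_combination hy1 + s1 + he : e < y) q1 q2 (by
      rcases h.two with ⟨e1, e2⟩ | ⟨e1, e2⟩
      · rw [e1]; linear_combination -ht + hc + hple - hpe
      · rw [e1]; linear_combination -ht + hc - hpe) (by linear_combination he1)
    have f1 : q - (y - e) = e - t - k + b / 2 := by rw [K.hq, ht]; ring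
    have f2 : p - (y - e) = e - t - k - b / 2 := by rw [K.hp, ht]; ring
    unfold Four.Low.ph
    rcases h.two with ⟨e1, e2⟩ | ⟨e1, e2⟩
    · rw [e2, e1, f1, f2] at A
      rw [e1]
      linear_combination -hpq + A
    · rw [e2, e1, f1, f2] at A
      rw [e1]
      linear_combination -hpq + A
  rcases le_total y (h0 + a) with hy | hy
  · have G2 := hi2_a (r := r) (q := q0) P hy1 hy
    have G3 := hi3_a (r := r) (q := q0) P hy1 hy
    obtain ⟨D, hb⟩ := high_near P K b0 b1 t0 (by linear_combination ha + ht + hy) hbt
    have hk : k ≤ 44 / 1000 * b := by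
      have fb : ph b ≤ 5061 / 10000 * b ^ 2 := ph_hi2' (by linear_combination (1 / 10) * hb + (mul_nonneg (sub_nonneg.mpr b0) (sub_nonneg.mpr hb)))
      have bb : b ^ 2 ≤ 1 / 10 * b := by linear_combination (mul_nonneg (sub_nonneg.mpr b0) (sub_nonneg.mpr hb))
      linear_combination K.k2 + (1702217 / 10000000000) * b0 + (86603 / 100000) * fb + (438297783 / 1000000000) * bb
    have F := mul_le_mul_of_nonneg_left (hf (by linear_combination he0 + (68 / 125) * b1 + ha + ht + hy + hk)) (by linear_combination hw0 : 0 ≤ w)
    subst ha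
    rw [show h0 + s - 1 / 25 - y = s - 1 / 25 - t by rw [ht]; ring] at G2
    rw [show h0 + s - y = s - t by rw [ht]; ring] at G3
    unfold Four.Low.ph at D F
    linear_combination D + F + 2 * G2 + 2 * G3
  · have G2 := hi2_b (r := r) (q := q0) P hy hy2
    have G3 := hi3_b (r := r) (q := q0) P hy hy2
    subst ha
    rw [show y - (h0 + 1 / 25) = t - 1 / 25 by rw [ht]; ring] at G2
    rw [show h0 + s - 1 / 25 - y = s - 1 / 25 - t by rw [ht]; ring] at G3
    rcases bh0 (s := s) (t := t) (b := b) (k := k) ⟨K.k1, K.k2, K.k3, K.k4, hl, hh, hbt,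
      by linear_combination hy2 + ht, by linear_combination s0, by linear_combination s1, by linear_combination -ht + hy, by linear_combination hy2 + (1 / 2) * s1 + ht, b0, b1⟩ (by linear_combination s0)
      (by linear_combination s1) (by linear_combination -ht + hy) (by linear_combination hy2 + (1 / 2) * s1 + ht) b0 b1 with ⟨D1, D⟩ | D
    · have F := hf (by linear_combination -he + D1)
      have F2 := mul_le_mul_of_nonneg_right hw0 n1
      unfold Hf at D
      rw [← he] at D
      unfold Four.Low.ph at D F
      linear_combination 2 * G2 + 2 * G3 + D + (159 / 100) * F + F2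
    · unfold Hz Four.Low.ph at D
      linear_combination hwn + 2 * G2 + 2 * G3 + D

/-- The count bound with `n = 2` for `(77 / 100) h0 ≤ s ≤ (17 / 20) h0`. -/
theorem countFour {s : ℝ} (h1 : 77 / 100 * h0 ≤ s) (h2 : s ≤ 17 / 20 * h0) : CountBound 2 s := by
  obtain ⟨a, e, w, P⟩ := par_exists h1 h2
  exact count P (lowE P) (lowA P) (midB P) (highC P)

end

end Pool.Agent.Strip051.FourD
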