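import Pool.Agent.Strip051.FourD.High
import Pool.Agent.Strip051.FourB.Corner

/-! # The sums of the gains in terms of the complement of the unit arc -/

namespace Pool.Agent.Strip051.FourD

open Pool.Agent.StripNear Pool.Agent.StripSquare Pool.Agent.Strip051
open Pool.Agent.Strip051.Four (gn gn_nonneg j1)
open Pool.Agent.Strip051.Four.Low (ph ph_mono ph_nonneg ph_neg ph_hi2' h0_hi h0_lo)

theorem g_h0 : g h0 = 1 / 2 := by
  have h1 := h0_sq
  have h2 := g_sq (r := h0) (by rw [h1]; norm_num)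
  have h3 := g_nonneg h0
  rw [h1] at h2
  nlinarith

theorem ph_h0 : 2 * ph h0 = 1 := by
  unfold Four.Low.ph
  rw [g_h0]
  norm_num

/-- The numbers attached to the difference `b` of the exit and the virtual disc. -/
structure Kk (b p q k : ℝ) : Prop where
  k1 : 86602 / 100000 * ph b ≤ k
  k2 : k ≤ 86603 / 100000 * ph b
  k3 : 0 ≤ k
  k4 : k ≤ 1161 / 10000
  hp : p = h0 - k - b / 2
  hq : q = h0 - k + b / 2
  hq1 : h0 - k + b / 2 ≤ 1
  kb : k ≤ b / 2
  hpq : ph p + ph q = 1 + ph b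

theorem kk_exists {r p q b : ℝ} (h : Pq r p q b) : ∃ k, Kk b p q k := by
  have h1 := h0_lo
  have h2 := h0_hi
  have hp := h0_pos
  have b0 := h.b0
  have b1 := h.b1
  have f0 := ph_nonneg b
  have f1 : ph b ≤ 134 / 1000 := by
    have := ph_mono b0 b1
    have h3 : ph (1 / 2) ≤ 134 / 1000 := by
      unfold Four.Low.ph
      have : (866 / 1000 : ℝ) ≤ g (1 / 2) := by
        unfold g
        apply Real.le_sqrt_of_sq_le
        norm_num
      linear_combination this
    linear_combination this + h3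
  have e1 : h0 * g b = h0 - h0 * ph b := by
    unfold Four.Low.ph
    ring
  have hpe := h.hp
  have hqe := h.hq
  have hq1 := h.q1
  have hq2 := h.q_ge
  have hg := h.gpq
  rw [e1] at hpe hqe
  refine ⟨h0 * ph b, mul_le_mul_of_nonneg_right h1 f0, mul_le_mul_of_nonneg_right h2 f0,
    mul_nonneg hp.le f0, ?_, hpe, hqe, by linear_combination -hqe + hq1, by linear_combination hqe + hq2, ?_⟩
  · have := mul_le_mul h2 f1 f0 (by norm_num)
    linear_combination this
  · unfold Four.Low.ph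
    linear_combination -hg

section

variable {s a e w y r x p q b k : ℝ}

theorem c4411 (P : Par s a e w) (h : Pq r p q b) (K : Kk b p q k) (h1 : 11 / 25 ≤ y)
    (h2 : y ≤ h0) :
    -(2 * ph b) + ph (y - k + b / 2) + ph (y - k - b / 2) + ph (y - k + b / 2 - 1 / 25) +
      ph (y - k - b / 2 - 1 / 25) - 2 * ph (s - 1 / 25) ≤
      gn (k2 s a) r x y + gn (k3 s a) r x y := by
  have ha := P.ha
  subst ha
  have A := g2_44 (x := x) P h h1 h2
  have B := g3_11 (x := x) P h h1 h2
  rw [show y + q - h0 = y - k + b / 2 by rw [K.hq]; ring,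
    show y + p - h0 = y - k - b / 2 by rw [K.hp]; ring] at A
  rw [show y + q - (h0 + 1 / 25) = y - k + b / 2 - 1 / 25 by rw [K.hq]; ring,
    show y + p - (h0 + 1 / 25) = y - k - b / 2 - 1 / 25 by rw [K.hp]; ring] at B
  unfold Four.Low.ph
  linear_combination A + B

theorem c4312 (P : Par s a e w) (h : Pq r p q b) (K : Kk b p q k) (h1 : 11 / 25 ≤ y)
    (h2 : y ≤ h0) (h3 : s - 1 / 25 ≤ y - k + b / 2) :
    -(2 * ph b) + ph (y - k + b / 2) + ph (y - k + b / 2 - 1 / 25) +
      ph (y - k - b / 2 - 1 / 25) + ph (s - y + k + b / 2 - 1 / 25) - ph (s - 1 / 25) ≤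
      gn (k2 s a) r x y + gn (k3 s a) r x y := by
  have ha := P.ha
  subst ha
  have A := g2_43 (x := x) P h h1 h2
  have B := g3_12 (x := x) P h h1 h2 (by rw [K.hq]; linear_combination h3)
  rw [show y + q - h0 = y - k + b / 2 by rw [K.hq]; ring,
    show y + p - (h0 + 1 / 25) = y - k - b / 2 - 1 / 25 by rw [K.hp]; ring] at A
  rw [show y + q - (h0 + 1 / 25) = y - k + b / 2 - 1 / 25 by rw [K.hq]; ring,
    show h0 + s - 1 / 25 - (y + p) = s - y + k + b / 2 - 1 / 25 by rw [K.hp]; ring] at B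
  unfold Four.Low.ph
  linear_combination A + B

theorem c33 (P : Par s a e w) (h : Pq r p q b) (K : Kk b p q k) (h1 : 11 / 25 ≤ y)
    (h2 : y ≤ h0) :
    -ph b + ph (y - k + b / 2 - 1 / 25) + ph (y - k - b / 2 - 1 / 25) ≤
      gn (k2 s a) r x y + gn (k3 s a) r x y := by
  have ha := P.ha
  subst ha
  have A := g2_33 (x := x) P h h1 h2
  have B : 0 ≤ gn (k3 s (1 / 25)) r x y := gn_nonneg (k3_ok P)
  rw [show y + q - (h0 + 1 / 25) = y - k + b / 2 - 1 / 25 by rw [K.hq]; ring,
    show y + p - (h0 + 1 / 25) = y - k - b / 2 - 1 / 25 by rw [K.hp]; ring] at A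
  unfold Four.Low.ph
  linear_combination A + B

theorem c5332 (P : Par s a e w) (h : Pq r p q b) (K : Kk b p q k) (h1 : 11 / 25 ≤ y)
    (h2 : y ≤ s - 1 / 25) (h3 : s - 1 / 25 ≤ y - k + b / 2) :
    -(2 * ph b) + ph (h0 + 1 / 25 + (y - k + b / 2 - s)) - ph (h0 + 1 / 25) +
      ph (y - k + b / 2) + ph (y - k - b / 2 - 1 / 25) + ph (s - y + k + b / 2 - 1 / 25) ≤
      gn (k2 s a) r x y + gn (k3 s a) r x y := by
  have ha := P.ha
  subst ha
  have := P.s_lt
  have := h0_gt
  have A := g2_53 (x := x) P h h1 h2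
  have B := g3_32 (x := x) P h h1 (by linear_combination h2 + this + (‹s < 0.7362›)) (by rw [K.hq]; linear_combination h3)
  rw [show y + q - (s - 1 / 25) = h0 + 1 / 25 + (y - k + b / 2 - s) by rw [K.hq]; ring,
    show y + p - (h0 + 1 / 25) = y - k - b / 2 - 1 / 25 by rw [K.hp]; ring] at A
  rw [show y + q - h0 = y - k + b / 2 by rw [K.hq]; ring,
    show h0 + s - 1 / 25 - (y + p) = s - y + k + b / 2 - 1 / 25 by rw [K.hp]; ring] at B
  unfold Four.Low.ph
  linear_combination A + B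

theorem c6431 (P : Par s a e w) (h : Pq r p q b) (K : Kk b p q k) (h1 : s - 1 / 25 ≤ y)
    (h2 : y ≤ h0) :
    -(2 * ph b) + ph (h0 - k + b / 2) - ph (h0 + s - y) - ph (s - 1 / 25) +
      ph (y - k + b / 2) + ph (y - k - b / 2) + ph (y - k - b / 2 - 1 / 25) ≤
      gn (k2 s a) r x y + gn (k3 s a) r x y := by
  have ha := P.ha
  subst ha
  have := P.s_gt
  have A := g2_64 (x := x) P h h1 h2
  have B := g3_31 (x := x) P h (by linear_combination h1 + this) h2
  rw [show y + p - h0 = y - k - b / 2 by rw [K.hp]; ring, K.hq] at A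
  rw [show y + q - h0 = y - k + b / 2 by rw [K.hq]; ring,
    show y + p - (h0 + 1 / 25) = y - k - b / 2 - 1 / 25 by rw [K.hp]; ring] at B
  unfold Four.Low.ph
  linear_combination A + B

theorem c6332 (P : Par s a e w) (h : Pq r p q b) (K : Kk b p q k) (h1 : s - 1 / 25 ≤ y)
    (h2 : y ≤ h0) (h3 : s - 1 / 25 ≤ y - k + b / 2) :
    -(2 * ph b) + ph (h0 - k + b / 2) - ph (h0 + s - y) +
      ph (y - k + b / 2) + ph (y - k - b / 2 - 1 / 25) + ph (s - y + k + b / 2 - 1 / 25) ≤
      gn (k2 s a) r x y + gn (k3 s a) r x y := by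
  have ha := P.ha
  subst ha
  have := P.s_gt
  have A := g2_63 (x := x) P h h1 h2
  have B := g3_32 (x := x) P h (by linear_combination h1 + this) h2 (by rw [K.hq]; linear_combination h3)
  rw [show y + p - (h0 + 1 / 25) = y - k - b / 2 - 1 / 25 by rw [K.hp]; ring, K.hq] at A
  rw [show y + q - h0 = y - k + b / 2 by rw [K.hq]; ring,
    show h0 + s - 1 / 25 - (y + p) = s - y + k + b / 2 - 1 / 25 by rw [K.hp]; ring] at B
  unfold Four.Low.ph
  linear_combination A + B

theorem c6633 (P : Par s a e w) (h : Pq r p q b) (K : Kk b p q k) (h1 : s - 1 / 25 ≤ y)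
    (h2 : y ≤ h0) :
    1 - ph b - 2 * ph (h0 + s - y) + ph (y - k - b / 2) + ph (y - k + b / 2) ≤
      gn (k2 s a) r x y + gn (k3 s a) r x y := by
  have ha := P.ha
  subst ha
  have := P.s_gt
  have A := g2_66 (x := x) P h.r1 h1 h2
  have B := g3_33 (x := x) P h (by linear_combination h1 + this) h2
  rw [show y + q - h0 = y - k + b / 2 by rw [K.hq]; ring,
    show y + p - h0 = y - k - b / 2 by rw [K.hp]; ring] at B
  unfold Four.Low.ph
  linear_combination A + B

theorem c6673 (P : Par s a e w) (h : Pq r p q b) (K : Kk b p q k) (h1 : s - 1 / 25 ≤ y)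
    (h2 : y ≤ h0) (h3 : 2 * h0 + 1 / 25 - 1 ≤ y) :
    1 - ph b - 2 * ph (h0 + s - y) + ph (y - k - b / 2) + ph (h0 - k + b / 2) -
      ph (2 * h0 + 1 / 25 - y) + ph (h0 + 1 / 25) ≤
      gn (k2 s a) r x y + gn (k3 s a) r x y := by
  have ha := P.ha
  subst ha
  have A := g2_66 (x := x) P h.r1 h1 h2
  have B := g3_73 (x := x) P h h3 h2
  rw [show y + p - h0 = y - k - b / 2 by rw [K.hp]; ring, K.hq] at B
  unfold Four.Low.ph
  linear_combination A + B

end

end Pool.Agent.Strip051.FourD
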